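import Pool.Agent.N525.CS.Stm

set_option autoImplicit false

/-!
# MP_d539bc_co: existence of generic positions, moving a vertex
-/

namespace Pool.Agent.N525.CS

open Pool.Agent.N525.VR

theorem A1_indep (ι : Type) [Finite ι] : ∃ x : ι → ℝ, AlgebraicIndependent ℚ x := by
  classical
  obtain ⟨κ, x, hx⟩ := exists_isTranscendenceBasis' ℚ ℝ
  have hinf : Infinite κ := by
    by_contra hcon
    have hfin : Finite κ := not_infinite_iff_finite.1 hcon
    have h2 : Cardinal.mk κ ≤ Cardinal.aleph0 := (Cardinal.lt_aleph0_of_finite κ).le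
    have halg : Algebra.IsAlgebraic (Algebra.adjoin ℚ (Set.range x)) ℝ := hx.isAlgebraic
    have h3 := Algebra.IsAlgebraic.cardinalMk_le_max (Algebra.adjoin ℚ (Set.range x)) ℝ
    have h4 : Cardinal.mk (Algebra.adjoin ℚ (Set.range x)) ≤ Cardinal.aleph0 := by
      have h5 : Cardinal.mk (MvPolynomial κ ℚ) =
          Cardinal.mk (Algebra.adjoin ℚ (Set.range x)) :=
        Cardinal.mk_congr hx.1.aevalEquiv.toEquiv
      rw [← h5]
      refine MvPolynomial.cardinalMk_le_max.trans ?_
      simp [h2]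
    rw [Cardinal.mk_real] at h3
    exact absurd (h3.trans (max_le h4 le_rfl)) (not_le.2 Cardinal.aleph0_lt_continuum)
  obtain ⟨n, ⟨e⟩⟩ := Finite.exists_equiv_fin ι
  obtain ⟨f⟩ : Nonempty (Fin n ↪ κ) := by
    exact ⟨(Fin.valEmbedding).trans (Infinite.natEmbedding κ)⟩
  exact ⟨x ∘ (f ∘ e), hx.1.comp _ (f.injective.comp e.injective)⟩

theorem t_EX : S_EX := by
  intro W _ _ d
  obtain ⟨x, hx⟩ := A1_indep (W × Fin d)
  exact ⟨fun w => WithLp.toLp 2 fun i => x (w, i), hx⟩

open MvPolynomial in
theorem t_MV : S_MV := by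
  intro W _ _ d q hq a b hab r s hr
  let g : W × Fin d → MvPolynomial (W × Fin d) ℚ := fun x =>
    if x.1 = b then C r * X (b, x.2) + C s * X (a, x.2) else X x
  let g' : W × Fin d → MvPolynomial (W × Fin d) ℚ := fun x =>
    if x.1 = b then C r⁻¹ * (X (b, x.2) - C s * X (a, x.2)) else X x
  have hcomp : (aeval g').comp (aeval g) = AlgHom.id ℚ (MvPolynomial (W × Fin d) ℚ) := by
    apply MvPolynomial.algHom_ext
    rintro ⟨w, i⟩
    rw [AlgHom.comp_apply, aeval_X, AlgHom.id_apply]
    by_cases hw : w = b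
    · subst hw
      simp only [g, if_true, map_add, map_mul, aeval_X, aeval_C, g', if_neg hab]
      rw [MvPolynomial.algebraMap_eq]
      rw [← mul_assoc, ← C_mul, mul_inv_cancel₀ hr, C_1, one_mul, sub_add_cancel]
    · simp only [g, if_neg hw, aeval_X, g']
  have hinj : Function.Injective (aeval g : MvPolynomial (W × Fin d) ℚ →ₐ[ℚ] _) := by
    intro P Q h
    have h1 := congrArg (aeval g') h
    have h2 : ∀ P, aeval g' (aeval g P) = P := fun P => by
      have := DFunLike.congr_fun hcomp P
      simpa using this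
    rwa [h2, h2] at h1
  have hy : (fun x : W × Fin d => (Function.update q b ((r : ℝ) • q b + (s : ℝ) • q a)) x.1 x.2) =
      fun x => aeval (fun x : W × Fin d => q x.1 x.2) (g x) := by
    funext x
    obtain ⟨w, i⟩ := x
    by_cases hw : w = b
    · subst hw
      simp [g, Function.update_self]
    · simp [g, Function.update_of_ne hw, if_neg hw]
  have h3 : (aeval (fun x : W × Fin d => aeval (fun x : W × Fin d => q x.1 x.2) (g x)) :
      MvPolynomial (W × Fin d) ℚ →ₐ[ℚ] ℝ) =
      (aeval (fun x : W × Fin d => q x.1 x.2)).comp (aeval g) := by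
    apply MvPolynomial.algHom_ext
    intro x
    rw [AlgHom.comp_apply, aeval_X, aeval_X]
  unfold Gen AlgebraicIndependent
  rw [hy, h3]
  have hq' : Function.Injective (aeval (fun x : W × Fin d => q x.1 x.2) :
      MvPolynomial (W × Fin d) ℚ →ₐ[ℚ] ℝ) := hq
  rw [AlgHom.coe_comp]
  exact hq'.comp hinj

end Pool.Agent.N525.CS
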