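import Pool.Agent.N525.CS.Stm

set_option autoImplicit false
set_option linter.unusedSectionVars false

/-! Generic vectors are linearly independent, generic points are affinely independent. -/

namespace Pool.Agent.N525.CS

open Pool.Agent.N525.VR
open scoped RealInnerProductSpace

section
variable {W : Type} [Fintype W] [DecidableEq W] {d : ℕ}

theorem A2_det {ι : Type} [Fintype ι] [DecidableEq ι] {q : W → E d} (hq : Gen q) (a : ι → W)
    (ha : Function.Injective a) (g : ι → Fin d) (hg : Function.Injective g) (e : ι → ℚ)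
    (he : ∀ i, e i ≠ 0) (s : ℚ) (r : W) (hr : s = 0 ∨ ∀ i, a i ≠ r) :
    (Matrix.of fun i j : ι => (e i : ℝ) * q (a i) (g j) + (s : ℝ) * q r (g j)).det ≠ 0 := by
  classical
  set x0 : W × Fin d → ℚ := fun y => if ∃ i, a i = y.1 ∧ g i = y.2 then 1 else 0 with hx0
  set M : Matrix ι ι (MvPolynomial (W × Fin d) ℚ) := Matrix.of fun i j =>
    MvPolynomial.C (e i) * MvPolynomial.X (a i, g j) + MvPolynomial.C s * MvPolynomial.X (r, g j)
    with hM
  have h0 : (MvPolynomial.eval x0).mapMatrix M = Matrix.diagonal e := by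
    ext i j
    rw [RingHom.mapMatrix_apply, Matrix.map_apply, hM, Matrix.of_apply, map_add, map_mul, map_mul,
      MvPolynomial.eval_C, MvPolynomial.eval_C, MvPolynomial.eval_X, MvPolynomial.eval_X]
    have h1 : s * x0 (r, g j) = 0 := by
      rcases hr with h | h
      · rw [h, zero_mul]
      · have : x0 (r, g j) = 0 := by
          rw [hx0]
          refine if_neg ?_
          rintro ⟨i', h2, -⟩
          exact h i' h2
        rw [this, mul_zero]
    rw [h1, add_zero]
    by_cases hij : i = j
    · subst hij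
      have : x0 (a i, g i) = 1 := by
        rw [hx0]
        exact if_pos ⟨i, rfl, rfl⟩
      rw [this, mul_one, Matrix.diagonal_apply_eq]
    · have : x0 (a i, g j) = 0 := by
        rw [hx0]
        refine if_neg ?_
        rintro ⟨i', h2, h3⟩
        exact hij ((ha h2).symm.trans (hg h3))
      rw [this, mul_zero, Matrix.diagonal_apply_ne _ hij]
  have h1 : MvPolynomial.eval x0 M.det = ∏ i, e i := by
    rw [RingHom.map_det, h0, Matrix.det_diagonal]
  have h2 : M.det ≠ 0 := by
    intro h
    rw [h, map_zero] at h1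
    exact Finset.prod_ne_zero_iff.2 (fun i _ => he i) h1.symm
  intro h3
  apply h2
  refine AlgebraicIndependent.eq_zero_of_aeval_eq_zero hq _ ?_
  rw [AlgHom.map_det, ← h3]
  congr 1
  ext i j
  rw [AlgHom.mapMatrix_apply, Matrix.map_apply, hM, Matrix.of_apply, Matrix.of_apply, map_add,
    map_mul, map_mul, MvPolynomial.aeval_C, MvPolynomial.aeval_C, MvPolynomial.aeval_X,
    MvPolynomial.aeval_X]
  rfl

theorem A2_vec {ι : Type} [Fintype ι] {q : W → E d} (hq : Gen q) (a : ι → W)
    (ha : Function.Injective a) (hc : Fintype.card ι ≤ d) (e : ι → ℚ)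
    (he : ∀ i, e i ≠ 0) (s : ℚ) (r : W) (hr : s = 0 ∨ ∀ i, a i ≠ r) (c : ι → ℝ)
    (h : ∑ i, c i • ((e i : ℝ) • q (a i) + (s : ℝ) • q r) = 0) : ∀ i, c i = 0 := by
  classical
  have hc' : Fintype.card ι ≤ Fintype.card (Fin d) := by rwa [Fintype.card_fin]
  obtain ⟨g⟩ := Function.Embedding.nonempty_of_card_le hc'
  have h1 := A2_det hq a ha g g.injective e he s r hr
  have h2 : Matrix.vecMul c
      (Matrix.of fun i j : ι => (e i : ℝ) * q (a i) (g j) + (s : ℝ) * q r (g j)) = 0 := by
    funext j
    have h3 := congrArg (fun v : E d => v (g j)) h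
    simp only [WithLp.ofLp_sum, Finset.sum_apply] at h3
    rw [Pi.zero_apply]
    refine Eq.trans ?_ h3
    show ∑ i, _ = _
    refine Finset.sum_congr rfl fun i _ => ?_
    rfl
  have h3 := Matrix.eq_zero_of_vecMul_eq_zero h1 h2
  intro i
  rw [h3]
  rfl

theorem A2_pos (q : W → E d) (x : SV W) :
    pos q x = (((if x.2 then (1 : ℚ) else -1) : ℚ) : ℝ) • q x.1 := by
  unfold pos
  split_ifs
  · rw [Rat.cast_one, one_smul]
  · rw [Rat.cast_neg, Rat.cast_one, neg_smul, one_smul]

theorem A2_opp (x : SV W) : opp (opp x) = x := by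
  unfold opp
  simp

theorem A2_ne (x : SV W) : opp x ≠ x := by
  intro h
  have := congrArg Prod.snd h
  unfold opp at this
  simp at this

theorem A2_eq {x y : SV W} (h : x.1 = y.1) (hne : x ≠ y) : y = opp x := by
  obtain ⟨a, b⟩ := x
  obtain ⟨a', b'⟩ := y
  unfold opp
  simp only at h
  subst h
  cases b <;> cases b' <;> simp_all

theorem A2_posopp (q : W → E d) (x : SV W) : pos q (opp x) = - pos q x := by
  obtain ⟨a, b⟩ := x
  unfold pos opp
  cases b <;> simp

/-- a sum over a finset with different orbits -/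
theorem A2_fin {q : W → E d} (hq : Gen q) (G : Finset (SV W)) (hG : G.card ≤ d)
    (hinj : ∀ x ∈ G, ∀ y ∈ G, x.1 = y.1 → x = y) (s : ℚ) (r : W)
    (hr : s = 0 ∨ ∀ x ∈ G, x.1 ≠ r) (c : SV W → ℝ)
    (h : ∑ x ∈ G, c x • (pos q x + (s : ℝ) • q r) = 0) : ∀ x ∈ G, c x = 0 := by
  have h1 := A2_vec hq (fun x : G => x.1.1)
    (fun x y hxy => Subtype.ext (hinj x.1 x.2 y.1 y.2 hxy)) (by rwa [Fintype.card_coe])
    (fun x : G => if x.1.2 then (1 : ℚ) else -1) (fun x => by split_ifs <;> norm_num) s r
    (by
      rcases hr with hr | hr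
      · exact Or.inl hr
      · exact Or.inr fun x => hr x.1 x.2) (fun x : G => c x.1) (by
      rw [← h, ← Finset.sum_coe_sort G]
      refine Finset.sum_congr rfl fun x _ => ?_
      rw [A2_pos])
  intro x hx
  exact h1 ⟨x, hx⟩

end

theorem t_SPAN : S_SPAN := by
  intro W _ _ d q hq M hM c hc
  classical
  have e1 : Fintype.card M = Fintype.card (Fin d) := by
    rw [Fintype.card_coe, hM, Fintype.card_fin]
  let g : M ≃ Fin d := Fintype.equivOfCardEq e1
  rcases isEmpty_or_nonempty W with hW | ⟨⟨r⟩⟩
  · have h0 : d = 0 := by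
      rw [← hM, Finset.card_eq_zero]
      exact Finset.eq_empty_of_isEmpty M
    subst h0
    exact Subsingleton.elim _ _
  have h1 := A2_det hq (fun x : M => x.1) Subtype.val_injective g g.injective (fun _ => 1)
    (fun _ => one_ne_zero) 0 r (Or.inl rfl)
  have h2 : Matrix.mulVec (Matrix.of fun i j : M => ((1 : ℚ) : ℝ) * q i.1 (g j) +
      ((0 : ℚ) : ℝ) * q r (g j)) (fun j => c (g j)) = 0 := by
    funext x
    rw [Pi.zero_apply, ← hc x.1 x.2]
    have h3 : ⟪q x.1, c⟫ = ∑ j, q x.1 j * c j := by
      rw [PiLp.inner_apply]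
      refine Finset.sum_congr rfl fun j _ => ?_
      simp [mul_comm]
    rw [h3, ← Equiv.sum_comp g]
    show ∑ j, _ = _
    refine Finset.sum_congr rfl fun j _ => ?_
    show (((1 : ℚ) : ℝ) * q x.1 (g j) + ((0 : ℚ) : ℝ) * q r (g j)) * c (g j) =
      q x.1 (g j) * c (g j)
    push_cast
    ring
  have h3 := Matrix.eq_zero_of_mulVec_eq_zero h1 h2
  ext j
  have h4 := congrFun h3 (g.symm j)
  simp only [Equiv.apply_symm_apply] at h4
  exact h4

theorem t_AIN : S_AIN := by
  intro W _ _ d q hq F hF hfew c hs hv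
  classical
  by_cases hA : ∃ u ∈ F, opp u ∈ F
  · obtain ⟨u, hu, hou⟩ := hA
    obtain ⟨u0, hu0⟩ := hfew
    have hcard : (F.erase u).card ≤ d := by
      rw [Finset.card_erase_of_mem hu]
      omega
    have hinj : ∀ x ∈ F.erase u, ∀ y ∈ F.erase u, x.1 = y.1 → x = y := by
      intro x hx y hy hxy
      by_contra hne
      have e1 := A2_eq hxy hne
      rw [Finset.mem_erase] at hx hy
      have e2 := hu0 x hx.2 (by rw [← e1]; exact hy.2)
      have e3 := hu0 u hu hou
      -- x is u or opp u
      have e4 : x = u ∨ x = opp u := by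
        rcases e2 with e2 | e2 <;> rcases e3 with e3 | e3
        · exact Or.inl (e2.trans e3.symm)
        · right
          rw [e2, e3, A2_opp]
        · right
          rw [e2, e3]
        · exact Or.inl (e2.trans e3.symm)
      rcases e4 with e4 | e4
      · exact hx.1 e4
      · apply hy.1
        rw [e1, e4, A2_opp]
    have hou' : opp u ∈ F.erase u := Finset.mem_erase.2 ⟨A2_ne u, hou⟩
    have h1 : ∑ x ∈ F.erase u, (c x - if x = opp u then c u else 0) •
        (pos q x + ((0 : ℚ) : ℝ) • q u.1) = 0 := by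
      have h2 : ∀ x ∈ F.erase u, (c x - if x = opp u then c u else 0) •
          (pos q x + ((0 : ℚ) : ℝ) • q u.1) = c x • pos q x -
            (if x = opp u then c u • pos q x else 0) := by
        intro x _
        rw [Rat.cast_zero, zero_smul, add_zero, sub_smul]
        split_ifs
        · rfl
        · rw [zero_smul]
      rw [Finset.sum_congr rfl h2, Finset.sum_sub_distrib, Finset.sum_ite_eq' _ _ _, if_pos hou',
        A2_posopp, smul_neg, sub_neg_eq_add, add_comm,
        Finset.add_sum_erase F (fun x => c x • pos q x) hu]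
      exact hv
    have h3 := A2_fin hq (F.erase u) hcard hinj 0 u.1 (Or.inl rfl) _ h1
    have h4 : ∀ x ∈ F.erase u, x ≠ opp u → c x = 0 := by
      intro x hx hne
      have := h3 x hx
      rwa [if_neg hne, sub_zero] at this
    have h5 : c (opp u) = c u := by
      have := h3 (opp u) hou'
      rw [if_pos rfl] at this
      linarith
    have h6 : c u = 0 := by
      rw [← Finset.add_sum_erase F c hu,
        Finset.sum_eq_single_of_mem (opp u) hou' (fun x hx hne => h4 x hx hne), h5] at hs
      linarith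
    intro x hx
    by_cases hxu : x = u
    · rw [hxu, h6]
    · by_cases hxo : x = opp u
      · rw [hxo, h5, h6]
      · exact h4 x (Finset.mem_erase.2 ⟨hxu, hx⟩) hxo
  · push Not at hA
    intro x0 hx0
    have hcard : (F.erase x0).card ≤ d := by
      rw [Finset.card_erase_of_mem hx0]
      omega
    have hinj : ∀ x ∈ F, ∀ y ∈ F, x.1 = y.1 → x = y := by
      intro x hx y hy hxy
      by_contra hne
      have e1 := A2_eq hxy hne
      exact hA x hx (by rw [← e1]; exact hy)
    have h1 : ∑ x ∈ F.erase x0, c x •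
        (pos q x + (((-(if x0.2 then (1 : ℚ) else -1)) : ℚ) : ℝ) • q x0.1) = 0 := by
      have h2 : ∀ x ∈ F.erase x0, c x •
          (pos q x + (((-(if x0.2 then (1 : ℚ) else -1)) : ℚ) : ℝ) • q x0.1) =
          c x • pos q x - c x • pos q x0 := by
        intro x _
        rw [A2_pos q x0, Rat.cast_neg, neg_smul, ← sub_eq_add_neg, smul_sub]
      rw [Finset.sum_congr rfl h2, Finset.sum_sub_distrib, ← Finset.sum_smul]
      have h3 := Finset.add_sum_erase F (fun x => c x • pos q x) hx0
      have h4 := Finset.add_sum_erase F c hx0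
      rw [hv] at h3
      rw [hs] at h4
      have h5 : ∑ x ∈ F.erase x0, c x = - c x0 := by linarith
      have h6 : ∑ x ∈ F.erase x0, c x • pos q x = - (c x0 • pos q x0) :=
        eq_neg_of_add_eq_zero_right h3
      rw [h5, h6, neg_smul, sub_self]
    have h3 := A2_fin hq (F.erase x0) hcard
      (fun x hx y hy => hinj x (Finset.mem_of_mem_erase hx) y (Finset.mem_of_mem_erase hy)) _ x0.1
      (Or.inr fun x hx h => Finset.ne_of_mem_erase hx (hinj x (Finset.mem_of_mem_erase hx) x0 hx0 h))
      c h1
    rw [← Finset.add_sum_erase F c hx0, Finset.sum_eq_zero h3, add_zero] at hs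
    exact hs

end Pool.Agent.N525.CS
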