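import Pool.Agent.N525.CS.Stm
import Pool.Agent.H135R2.VS.Mat

set_option autoImplicit false
set_option linter.unusedSectionVars false

/-! Part A3 (helper360): ranks of polynomial matrices at generic points. -/

namespace Pool.Agent.N525.CS

open Matrix Set Pool.Agent.H135R2.VS

variable {σ I C : Type} [Fintype σ] [Fintype I] [Fintype C]

theorem A3_gram {κ : Type*} [Fintype κ] [DecidableEq κ] (R : Matrix I C (MvPolynomial σ ℚ))
    (j : κ → I) (x : σ → ℝ) :
    (Matrix.of fun k l => (R.map (MvPolynomial.aeval x)) (j k) ⬝ᵥ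
        (R.map (MvPolynomial.aeval x)) (j l)).det =
      MvPolynomial.aeval x (Matrix.of fun k l => ∑ c, R (j k) c * R (j l) c).det := by
  rw [AlgHom.map_det]
  congr 1
  ext k l
  simp only [Matrix.of_apply, dotProduct, Matrix.map_apply, AlgHom.mapMatrix_apply, map_sum,
    map_mul]

theorem A3_rows {κ : Type*} [Finite κ] (R : Matrix I C (MvPolynomial σ ℚ))
    (j : κ → I) {x x' : σ → ℝ} (hx : AlgebraicIndependent ℚ x)
    (h : LinearIndependent ℝ fun k => (R.map (MvPolynomial.aeval x')) (j k)) :
    LinearIndependent ℝ fun k => (R.map (MvPolynomial.aeval x)) (j k) := by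
  classical
  have := Fintype.ofFinite κ
  rw [gram_iff, A3_gram] at h ⊢
  intro h0
  apply h
  have := hx (a₁ := (Matrix.of fun k l => ∑ c, R (j k) c * R (j l) c).det) (a₂ := 0)
    (by rw [map_zero]; exact h0)
  rw [this, map_zero]

theorem A3_le (R : Matrix I C (MvPolynomial σ ℚ)) {x x' : σ → ℝ}
    (hx : AlgebraicIndependent ℚ x) :
    (R.map (MvPolynomial.aeval x')).rank ≤ (R.map (MvPolynomial.aeval x)).rank := by
  classical
  obtain ⟨b, h1, h2⟩ := exists_row_basis (R.map (MvPolynomial.aeval x'))
  have := Fintype.ofFinite b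
  rw [rank_eq_card h1 h2]
  exact card_le_rank (A3_rows R (fun k : b => (k : I)) hx h1)

theorem t_RK : S_RK := by
  intro σ m n _ _ _ _ M x y hx hy
  exact le_antisymm (A3_le M hy) (A3_le M hx)

end Pool.Agent.N525.CS
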