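import Pool.Agent.N525.CS.Stm

set_option autoImplicit false
set_option linter.unusedSectionVars false

/-! Part A4: tied rigidity is the same at all generic positions. -/

namespace Pool.Agent.N525.CS

open Pool.Agent.N525.VR
open scoped RealInnerProductSpace

section
variable {W : Type} [Fintype W] [DecidableEq W] {d : ℕ}

/-- the coordinates of the positions as polynomials -/
noncomputable def A4_posP (x : SV W) (i : Fin d) : MvPolynomial (W × Fin d) ℚ :=
  if x.2 then MvPolynomial.X (x.1, i) else - MvPolynomial.X (x.1, i)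

theorem A4_pos (q : W → E d) (x : SV W) (i : Fin d) :
    MvPolynomial.aeval (fun y : W × Fin d => q y.1 y.2) (A4_posP x i) = pos q x i := by
  unfold A4_posP pos
  split_ifs <;> simp

open Classical in
/-- the matrix of the constraints -/
noncomputable def A4_M (R : SV W → SV W → Prop) :
    Matrix (SV W × SV W) (W × Fin d) (MvPolynomial (W × Fin d) ℚ) :=
  fun p c => if R p.1 p.2 then (A4_posP p.1 c.2 - A4_posP p.2 c.2) *
    ((if p.1.1 = c.1 then 1 else 0) - (if p.2.1 = c.1 then 1 else 0)) else 0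

open Classical in
/-- the matrix of the system for infinitesimal isometries -/
noncomputable def A4_N (S : Finset (SV W)) :
    Matrix ((Fin d × Fin d) ⊕ (SV W × Fin d)) (((Fin d × Fin d) ⊕ Fin d) ⊕ (W × Fin d))
      (MvPolynomial (W × Fin d) ℚ) :=
  fun r c => match r, c with
    | Sum.inl (i, j), Sum.inl (Sum.inl (k, l)) =>
        (if k = i ∧ l = j then 1 else 0) + (if k = j ∧ l = i then 1 else 0)
    | Sum.inl _, _ => 0
    | Sum.inr (x, i), Sum.inl (Sum.inl (k, l)) =>
        if x ∈ S then (if k = i then - A4_posP x l else 0) else 0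
    | Sum.inr (x, i), Sum.inl (Sum.inr k) => if x ∈ S then (if k = i then - 1 else 0) else 0
    | Sum.inr (x, i), Sum.inr (w, k) =>
        if x ∈ S then (if w = x.1 ∧ k = i then 1 else 0) else 0

/-- vector fields and their coordinates -/
noncomputable def A4_fld (m : W × Fin d → ℝ) (w : W) : E d := WithLp.toLp 2 (fun i => m (w, i))

theorem A4_M_mulVec (R : SV W → SV W → Prop) (q : W → E d) (m : W × Fin d → ℝ)
    (p : SV W × SV W) :
    Matrix.mulVec ((A4_M (d := d) R).map
      (fun P => MvPolynomial.aeval (fun y : W × Fin d => q y.1 y.2) P)) m p =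
    open Classical in
    if R p.1 p.2 then ⟪pos q p.1 - pos q p.2, A4_fld m p.1.1 - A4_fld m p.2.1⟫ else 0 := by
  classical
  simp only [Matrix.mulVec, dotProduct, Matrix.map_apply, A4_M]
  split_ifs with h
  · simp only [map_mul, map_sub, A4_pos, PiLp.inner_apply]
    rw [Fintype.sum_prod_type_right]
    refine Finset.sum_congr rfl fun i _ => ?_
    simp only [A4_fld, PiLp.sub_apply]
    have : ∀ w : W, (pos q p.1 i - pos q p.2 i) *
        ((MvPolynomial.aeval (fun y : W × Fin d => q y.1 y.2))
            (if p.1.1 = w then (1 : MvPolynomial (W × Fin d) ℚ) else 0) -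
          (MvPolynomial.aeval (fun y : W × Fin d => q y.1 y.2))
            (if p.2.1 = w then (1 : MvPolynomial (W × Fin d) ℚ) else 0)) * m (w, i) =
        (if p.1.1 = w then (pos q p.1 i - pos q p.2 i) * m (w, i) else 0) -
        (if p.2.1 = w then (pos q p.1 i - pos q p.2 i) * m (w, i) else 0) := by
      intro w
      split_ifs <;> simp <;> ring
    rw [Finset.sum_congr rfl fun w _ => this w, Finset.sum_sub_distrib, Finset.sum_ite_eq,
      Finset.sum_ite_eq]
    simp
    ring
  · simp

theorem A4_N_inl (S : Finset (SV W)) (q : W → E d)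
    (v : ((Fin d × Fin d) ⊕ Fin d) ⊕ (W × Fin d) → ℝ) (i j : Fin d) :
    Matrix.mulVec ((A4_N (d := d) S).map
      (fun P => MvPolynomial.aeval (fun y : W × Fin d => q y.1 y.2) P)) v (Sum.inl (i, j)) =
    v (Sum.inl (Sum.inl (i, j))) + v (Sum.inl (Sum.inl (j, i))) := by
  classical
  simp only [Matrix.mulVec, dotProduct, Matrix.map_apply, Fintype.sum_sum_type, A4_N, map_zero,
    zero_mul, Finset.sum_const_zero, add_zero, map_add, add_mul, Finset.sum_add_distrib]
  congr 1
  · rw [Finset.sum_eq_single (i, j)]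
    · simp
    · rintro ⟨k, l⟩ _ h
      rw [if_neg (by rintro ⟨rfl, rfl⟩; exact h rfl)]; simp
    · simp
  · rw [Finset.sum_eq_single (j, i)]
    · simp
    · rintro ⟨k, l⟩ _ h
      rw [if_neg (by rintro ⟨rfl, rfl⟩; exact h rfl)]; simp
    · simp

theorem A4_N_inr (S : Finset (SV W)) (q : W → E d)
    (v : ((Fin d × Fin d) ⊕ Fin d) ⊕ (W × Fin d) → ℝ) (x : SV W) (i : Fin d) :
    Matrix.mulVec ((A4_N (d := d) S).map
      (fun P => MvPolynomial.aeval (fun y : W × Fin d => q y.1 y.2) P)) v (Sum.inr (x, i)) =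
    open Classical in
    if x ∈ S then - (∑ l, v (Sum.inl (Sum.inl (i, l))) * pos q x l) -
      v (Sum.inl (Sum.inr i)) + v (Sum.inr (x.1, i)) else 0 := by
  classical
  simp only [Matrix.mulVec, dotProduct, Matrix.map_apply, Fintype.sum_sum_type, A4_N]
  by_cases h : x ∈ S
  · simp only [if_pos h]
    have e1 : ∑ a : Fin d × Fin d, (MvPolynomial.aeval (fun y : W × Fin d => q y.1 y.2))
        (if a.1 = i then - A4_posP x a.2 else (0 : MvPolynomial (W × Fin d) ℚ)) *
          v (Sum.inl (Sum.inl a)) = - ∑ l, v (Sum.inl (Sum.inl (i, l))) * pos q x l := by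
      rw [Fintype.sum_prod_type, Finset.sum_eq_single i]
      · rw [← Finset.sum_neg_distrib]
        refine Finset.sum_congr rfl fun l _ => ?_
        simp only [if_true, map_neg, A4_pos]
        ring
      · intro k _ hk
        simp [hk]
      · simp
    have e2 : ∑ a : Fin d, (MvPolynomial.aeval (fun y : W × Fin d => q y.1 y.2))
        (if a = i then - 1 else (0 : MvPolynomial (W × Fin d) ℚ)) *
          v (Sum.inl (Sum.inr a)) = - v (Sum.inl (Sum.inr i)) := by
      rw [Finset.sum_eq_single i]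
      · simp
      · intro k _ hk
        simp [hk]
      · simp
    have e3 : ∑ a : W × Fin d, (MvPolynomial.aeval (fun y : W × Fin d => q y.1 y.2))
        (if a.1 = x.1 ∧ a.2 = i then 1 else (0 : MvPolynomial (W × Fin d) ℚ)) *
          v (Sum.inr a) = v (Sum.inr (x.1, i)) := by
      rw [Finset.sum_eq_single (x.1, i)]
      · simp
      · rintro ⟨k, l⟩ _ hk
        rw [if_neg (by rintro ⟨h1, h2⟩; exact hk (Prod.ext h1 h2))]
        simp
      · simp
    rw [e1, e2, e3]
    ring
  · simp [if_neg h]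

theorem A4_coord (A : E d →ₗ[ℝ] E d) (v : E d) (i : Fin d) :
    A v i = ∑ l, (A (EuclideanSpace.single l 1)) i * v l := by
  conv_lhs => rw [← (EuclideanSpace.basisFun (Fin d) ℝ).sum_repr v]
  rw [map_sum]
  simp [mul_comm]

theorem A4_TT (S : Finset (SV W)) (q : W → E d) (m : W × Fin d → ℝ) :
    TT S q (A4_fld m) ↔ ∃ (a : Fin d × Fin d → ℝ) (b : Fin d → ℝ), (∀ i j, a (i, j) + a (j, i) = 0) ∧
      ∀ x ∈ S, ∀ i, - (∑ l, a (i, l) * pos q x l) - b i + m (x.1, i) = 0 := by
  constructor
  · rintro ⟨A, b, hA, h⟩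
    refine ⟨fun x => A (EuclideanSpace.single x.2 1) x.1, fun i => b i, ?_, ?_⟩
    · intro i j
      have := hA (EuclideanSpace.single j 1) (EuclideanSpace.single i 1)
      simp [PiLp.inner_apply] at this
      simp only
      linarith
    · intro x hx i
      have h1 := congrArg (fun v : E d => v i) (h x hx)
      simp only [A4_fld, PiLp.add_apply] at h1
      rw [A4_coord] at h1
      rw [h1]
      ring
  · rintro ⟨a, b, ha, h⟩
    let A : E d →ₗ[ℝ] E d :=
      { toFun := fun v => WithLp.toLp 2 (fun i => ∑ l, a (i, l) * v l)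
        map_add' := by
          intro v w
          ext i
          simp [mul_add, Finset.sum_add_distrib]
        map_smul' := by
          intro r v
          ext i
          simp only [PiLp.smul_apply, smul_eq_mul, RingHom.id_apply, Finset.mul_sum]
          exact Finset.sum_congr rfl fun l _ => by ring }
    refine ⟨A, WithLp.toLp 2 b, ?_, ?_⟩
    · intro v w
      simp only [A, LinearMap.coe_mk, AddHom.coe_mk, PiLp.inner_apply]
      simp only [RCLike.inner_apply, conj_trivial]
      simp only [Finset.mul_sum, Finset.sum_mul]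
      rw [Finset.sum_comm, ← Finset.sum_neg_distrib]
      refine Finset.sum_congr rfl fun i _ => ?_
      rw [← Finset.sum_neg_distrib]
      refine Finset.sum_congr rfl fun j _ => ?_
      have := ha i j
      have h2 : a (j, i) = - a (i, j) := by linarith
      rw [h2]
      ring
    · intro x hx
      ext i
      have := h x hx i
      simp only [A4_fld, A, LinearMap.coe_mk, AddHom.coe_mk, PiLp.add_apply]
      linarith

theorem A4_TT_TM (R : SV W → SV W → Prop) (S : Finset (SV W))
    (hR : ∀ x y, R x y → x ∈ S ∧ y ∈ S) (q m : W → E d) (h : TT S q m) : TM R q m := by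
  obtain ⟨A, b, hA, h⟩ := h
  intro x y hxy
  obtain ⟨hx, hy⟩ := hR x y hxy
  rw [h x hx, h y hy]
  have h1 := hA (pos q x - pos q y) (pos q x - pos q y)
  have h2 := real_inner_comm (pos q x - pos q y) (A (pos q x - pos q y))
  have h3 : A (pos q x) + b - (A (pos q y) + b) = A (pos q x - pos q y) := by
    rw [map_sub]; abel
  rw [h3]
  linarith

/-- evaluation of polynomial matrices at a position -/
noncomputable def A4_ev {m n : Type} (q : W → E d)
    (M : Matrix m n (MvPolynomial (W × Fin d) ℚ)) : Matrix m n ℝ :=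
  M.map (fun P => MvPolynomial.aeval (fun y : W × Fin d => q y.1 y.2) P)

/-- the space of tied motions -/
noncomputable def A4_K (R : SV W → SV W → Prop) (q : W → E d) : Submodule ℝ (W × Fin d → ℝ) :=
  LinearMap.ker (A4_ev q (A4_M (d := d) R)).mulVecLin

theorem A4_mem_K (R : SV W → SV W → Prop) (q : W → E d) (m : W × Fin d → ℝ) :
    m ∈ A4_K R q ↔ TM R q (A4_fld m) := by
  classical
  unfold A4_K A4_ev
  rw [LinearMap.mem_ker, Matrix.mulVecLin_apply]
  constructor
  · intro h x y hxy
    have := congrFun h (x, y)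
    rw [A4_M_mulVec, if_pos hxy] at this
    exact this
  · intro h
    funext p
    rw [A4_M_mulVec]
    split_ifs with hp
    · exact h p.1 p.2 hp
    · rfl

/-- the projection -/
def A4_pr : (((Fin d × Fin d) ⊕ Fin d) ⊕ (W × Fin d) → ℝ) →ₗ[ℝ] (W × Fin d → ℝ) :=
  LinearMap.funLeft ℝ ℝ Sum.inr

/-- the inclusion -/
def A4_in : (((Fin d × Fin d) ⊕ Fin d) → ℝ) →ₗ[ℝ] (((Fin d × Fin d) ⊕ Fin d) ⊕ (W × Fin d) → ℝ) where
  toFun u := Sum.elim u 0
  map_add' u v := by funext x; cases x <;> simp
  map_smul' r v := by funext x; cases x <;> simp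

/-- the space of trivial tied motions -/
noncomputable def A4_T (S : Finset (SV W)) (q : W → E d) : Submodule ℝ (W × Fin d → ℝ) :=
  (LinearMap.ker (A4_ev q (A4_N (d := d) S)).mulVecLin).map A4_pr

theorem A4_mem_kerN (S : Finset (SV W)) (q : W → E d)
    (v : ((Fin d × Fin d) ⊕ Fin d) ⊕ (W × Fin d) → ℝ) :
    v ∈ LinearMap.ker (A4_ev q (A4_N (d := d) S)).mulVecLin ↔
      (∀ i j, v (Sum.inl (Sum.inl (i, j))) + v (Sum.inl (Sum.inl (j, i))) = 0) ∧
      ∀ x ∈ S, ∀ i, - (∑ l, v (Sum.inl (Sum.inl (i, l))) * pos q x l) -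
        v (Sum.inl (Sum.inr i)) + v (Sum.inr (x.1, i)) = 0 := by
  classical
  unfold A4_ev
  rw [LinearMap.mem_ker, Matrix.mulVecLin_apply]
  constructor
  · intro h
    refine ⟨fun i j => ?_, fun x hx i => ?_⟩
    · have := congrFun h (Sum.inl (i, j))
      rw [A4_N_inl] at this
      exact this
    · have := congrFun h (Sum.inr (x, i))
      rw [A4_N_inr, if_pos hx] at this
      exact this
  · rintro ⟨h1, h2⟩
    funext r
    rcases r with ⟨i, j⟩ | ⟨x, i⟩
    · rw [A4_N_inl]
      exact h1 i j
    · rw [A4_N_inr]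
      split_ifs with hx
      · exact h2 x hx i
      · rfl

theorem A4_mem_T (S : Finset (SV W)) (q : W → E d) (m : W × Fin d → ℝ) :
    m ∈ A4_T S q ↔ TT S q (A4_fld m) := by
  rw [A4_TT]
  unfold A4_T
  rw [Submodule.mem_map]
  constructor
  · rintro ⟨v, hv, rfl⟩
    rw [A4_mem_kerN] at hv
    exact ⟨fun x => v (Sum.inl (Sum.inl x)), fun i => v (Sum.inl (Sum.inr i)), hv.1, hv.2⟩
  · rintro ⟨a, b, h1, h2⟩
    refine ⟨Sum.elim (Sum.elim a b) m, ?_, ?_⟩
    · rw [A4_mem_kerN]
      exact ⟨h1, h2⟩
    · funext c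
      simp [A4_pr, LinearMap.funLeft_apply]

theorem A4_finrank_map {X Y : Type} [AddCommGroup X] [Module ℝ X] [FiniteDimensional ℝ X]
    [AddCommGroup Y] [Module ℝ Y] (f : X →ₗ[ℝ] Y) (K : Submodule ℝ X) :
    Module.finrank ℝ (K.map f) + Module.finrank ℝ (K ⊓ LinearMap.ker f : Submodule ℝ X) =
      Module.finrank ℝ K := by
  have h := LinearMap.finrank_range_add_finrank_ker (f.domRestrict K)
  rw [LinearMap.range_domRestrict] at h
  rw [← h]
  congr 1
  rw [LinearMap.ker_domRestrict, ← Submodule.map_comap_subtype]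
  exact Submodule.finrank_map_subtype_eq _ _

theorem A4_kerN' (S : Finset (SV W)) (q : W → E d) :
    (LinearMap.ker (A4_ev q ((A4_N (d := d) S).submatrix id Sum.inl)).mulVecLin).map A4_in =
      (LinearMap.ker (A4_ev q (A4_N (d := d) S)).mulVecLin) ⊓ LinearMap.ker A4_pr := by
  have key : ∀ u : ((Fin d × Fin d) ⊕ Fin d) → ℝ,
      (A4_ev q (A4_N (d := d) S)).mulVec (A4_in (W := W) u) =
      (A4_ev q ((A4_N (d := d) S).submatrix id Sum.inl)).mulVec u := by
    intro u
    funext r
    simp [Matrix.mulVec, dotProduct, Fintype.sum_sum_type, A4_in, A4_ev]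
  ext v
  rw [Submodule.mem_map, Submodule.mem_inf]
  constructor
  · rintro ⟨u, hu, rfl⟩
    refine ⟨?_, ?_⟩
    · rw [LinearMap.mem_ker, Matrix.mulVecLin_apply] at hu ⊢
      rw [key, hu]
    · rw [LinearMap.mem_ker]
      funext c
      simp [A4_pr, A4_in, LinearMap.funLeft_apply]
  · rintro ⟨h1, h2⟩
    have hv : A4_in (W := W) (fun c => v (Sum.inl c)) = v := by
      funext c
      rcases c with c | c
      · simp [A4_in]
      · have := congrFun (LinearMap.mem_ker.1 h2) c
        simp only [A4_pr, LinearMap.funLeft_apply, Pi.zero_apply] at this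
        simp [A4_in, this]
    refine ⟨fun c => v (Sum.inl c), ?_, hv⟩
    rw [LinearMap.mem_ker, Matrix.mulVecLin_apply] at h1 ⊢
    rw [← key, hv, h1]

theorem A4_in_inj : Function.Injective (A4_in (W := W) (d := d)) := by
  intro u v h
  funext c
  have := congrFun h (Sum.inl c)
  simpa [A4_in] using this

theorem A4_finrank_ker (h1 : S_RK) {m n : Type} [Fintype m] [Fintype n] [DecidableEq n]
    (M : Matrix m n (MvPolynomial (W × Fin d) ℚ)) (q q' : W → E d) (hq : Gen q) (hq' : Gen q') :
    Module.finrank ℝ (LinearMap.ker (A4_ev q M).mulVecLin) =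
      Module.finrank ℝ (LinearMap.ker (A4_ev q' M).mulVecLin) := by
  have h := h1 _ _ _ M _ _ hq hq'
  have e1 := LinearMap.finrank_range_add_finrank_ker (A4_ev q M).mulVecLin
  have e2 := LinearMap.finrank_range_add_finrank_ker (A4_ev q' M).mulVecLin
  have e3 : Module.finrank ℝ (LinearMap.range (A4_ev q M).mulVecLin) =
      Module.finrank ℝ (LinearMap.range (A4_ev q' M).mulVecLin) := h
  omega

theorem A4_finrank_T (h1 : S_RK) (S : Finset (SV W)) (q q' : W → E d) (hq : Gen q)
    (hq' : Gen q') : Module.finrank ℝ (A4_T S q) = Module.finrank ℝ (A4_T S q') := by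
  classical
  have a1 := A4_finrank_map A4_pr (LinearMap.ker (A4_ev q (A4_N (d := d) S)).mulVecLin)
  have a2 := A4_finrank_map A4_pr (LinearMap.ker (A4_ev q' (A4_N (d := d) S)).mulVecLin)
  have a3 := A4_finrank_ker h1 (A4_N (d := d) S) q q' hq hq'
  have a4 := A4_finrank_ker h1 ((A4_N (d := d) S).submatrix id Sum.inl) q q' hq hq'
  have b : ∀ q : W → E d, Module.finrank ℝ ((LinearMap.ker
      (A4_ev q ((A4_N (d := d) S).submatrix id Sum.inl)).mulVecLin).map A4_in) =
      Module.finrank ℝ (LinearMap.ker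
      (A4_ev q ((A4_N (d := d) S).submatrix id Sum.inl)).mulVecLin) := fun q =>
    (LinearEquiv.finrank_eq (Submodule.equivMapOfInjective (A4_in (W := W) (d := d)) A4_in_inj _)).symm
  rw [← A4_kerN', b] at a1 a2
  change Module.finrank ℝ (A4_T S q) + _ = _ at a1
  change Module.finrank ℝ (A4_T S q') + _ = _ at a2
  omega

theorem A4_main (h1 : S_RK) (R : SV W → SV W → Prop) (S : Finset (SV W))
    (hR : ∀ x y, R x y → x ∈ S ∧ y ∈ S) (q q' : W → E d) (hq : Gen q) (hq' : Gen q')
    (h : TRig R S q) : TRig R S q' := by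
  classical
  have hle : ∀ q : W → E d, A4_T S q ≤ A4_K R q := by
    intro q m hm
    rw [A4_mem_T] at hm
    rw [A4_mem_K]
    exact A4_TT_TM R S hR q _ hm
  have e1 : A4_K R q ≤ A4_T S q := by
    intro m hm
    rw [A4_mem_K] at hm
    rw [A4_mem_T]
    exact h _ hm
  have e2 : A4_T S q = A4_K R q := le_antisymm (hle q) e1
  have e3 := A4_finrank_ker h1 (A4_M (d := d) R) q q' hq hq'
  have e4 := A4_finrank_T h1 S q q' hq hq'
  have e5 : A4_T S q' = A4_K R q' := by
    apply Submodule.eq_of_le_of_finrank_le (hle q')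
    rw [← e4, e2]
    exact e3.symm.le
  intro m hm
  have e6 : A4_fld (fun c => m c.1 c.2) = m := by
    funext w
    ext i
    simp [A4_fld]
  rw [← e6, ← A4_mem_T, e5, A4_mem_K, e6]
  exact hm

end

theorem t_TR (h1 : S_RK) : S_TR := by
  intro W _ _ d R S hR q q' hq hq' h
  exact A4_main h1 R S hR q q' hq hq' h

end Pool.Agent.N525.CS
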