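import Pool.Agent.N525.CS.Stm

set_option autoImplicit false

/-!
# Vertex splitting for tied frameworks (`S_SPLIT`), part A5 (helper946)
-/

namespace Pool.Agent.N525.CS

open Pool.Agent.N525.VR
open scoped RealInnerProductSpace
open Filter Topology

section A5
variable {W : Type} [Fintype W] [DecidableEq W] {d : ℕ}

theorem A5_skew_self {A : E d →ₗ[ℝ] E d} (hA : Skew A) (x : E d) : ⟪x, A x⟫ = 0 := by
  have h := hA x x
  rw [real_inner_comm] at h
  linarith

omit [Fintype W] [DecidableEq W] in
theorem A5_pos_opp (q : W → E d) (x : SV W) : pos q (opp x) = - pos q x := by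
  rcases x with ⟨a, b⟩
  cases b <;> simp [pos, opp]

/-- unit motions orthogonal to the trivial ones -/
theorem A5_key (R : SV W → SV W → Prop) (S : Finset (SV W)) (q : W → E d)
    (hcon : ¬ TRig R S q) :
    ∃ (n : PiLp 2 (fun _ : SV W => E d)) (m : W → E d) (A : E d →ₗ[ℝ] E d),
      ‖n‖ = 1 ∧ TM R q m ∧ Skew A ∧
      (∀ x ∈ S, n x = m x.1 - A (pos q x)) ∧
      (∀ x, x ∉ S → n x = 0) ∧
      ∀ (A : E d →ₗ[ℝ] E d) (b : E d), Skew A → ∑ x ∈ S, ⟪n x, A (pos q x) + b⟫ = 0 := by
  classical
  let T : Submodule ℝ (PiLp 2 (fun _ : SV W => E d)) :=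
    { carrier := {m | ∃ (A : E d →ₗ[ℝ] E d) (b : E d), Skew A ∧
        ∀ x, m x = if x ∈ S then A (pos q x) + b else 0}
      add_mem' := by
        rintro m m' ⟨A, b, hA, hm⟩ ⟨A', b', hA', hm'⟩
        refine ⟨A + A', b + b', fun x y => ?_, fun x => ?_⟩
        · simp only [LinearMap.add_apply, inner_add_left, inner_add_right]
          rw [hA x y, hA' x y]; ring
        · simp only [PiLp.add_apply, hm, hm', LinearMap.add_apply]
          split_ifs
          · abel
          · simp
      zero_mem' := ⟨0, 0, fun x y => by simp, fun x => by simp⟩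
      smul_mem' := by
        rintro c m ⟨A, b, hA, hm⟩
        refine ⟨c • A, c • b, fun x y => ?_, fun x => ?_⟩
        · simp only [LinearMap.smul_apply, inner_smul_left, inner_smul_right]
          rw [hA x y]; simp
        · simp only [PiLp.smul_apply, hm, LinearMap.smul_apply]
          split_ifs
          · rw [smul_add]
          · simp }
  unfold TRig at hcon
  push Not at hcon
  obtain ⟨m0, hm0, hm0'⟩ := hcon
  let m1 : PiLp 2 (fun _ : SV W => E d) := WithLp.toLp 2 fun x => if x ∈ S then m0 x.1 else 0
  have hm1 : ∀ x, m1 x = if x ∈ S then m0 x.1 else 0 := fun x => rfl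
  obtain ⟨a, ha, r, hr, har⟩ := Submodule.exists_add_mem_mem_orthogonal (K := T) m1
  have hr0 : r ≠ 0 := by
    rintro rfl
    rw [add_zero] at har
    rw [← har] at ha
    obtain ⟨A, b, hA, hm⟩ := ha
    apply hm0'
    refine ⟨A, b, hA, fun x hx => ?_⟩
    have := hm x
    rw [hm1, if_pos hx, if_pos hx] at this
    exact this
  have ha' := ha
  obtain ⟨A, b, hA, haA⟩ := ha'
  have hrx : ∀ x, r x = if x ∈ S then m0 x.1 - (A (pos q x) + b) else 0 := by
    intro x
    have : m1 x = a x + r x := by rw [har]; rfl
    rw [hm1, haA] at this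
    split_ifs with hx
    · rw [if_pos hx, if_pos hx] at this
      rw [this]; abel
    · rw [if_neg hx, if_neg hx, zero_add] at this
      exact this.symm
  have hrn : ‖r‖ ≠ 0 := norm_ne_zero_iff.2 hr0
  refine ⟨(‖r‖)⁻¹ • r, fun a => (‖r‖)⁻¹ • (m0 a - b), (‖r‖)⁻¹ • A, ?_, ?_, ?_, ?_, ?_, ?_⟩
  · rw [norm_smul, norm_inv, norm_norm, inv_mul_cancel₀ hrn]
  · intro x y hxy
    have h3 : (‖r‖)⁻¹ • (m0 x.1 - b) - (‖r‖)⁻¹ • (m0 y.1 - b) = (‖r‖)⁻¹ • (m0 x.1 - m0 y.1) := by
      rw [← smul_sub]; congr 1; abel
    simp only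
    rw [h3, inner_smul_right, hm0 x y hxy, mul_zero]
  · intro x y
    simp only [LinearMap.smul_apply, inner_smul_left, inner_smul_right]
    rw [hA x y]; simp
  · intro x hx
    simp only [PiLp.smul_apply, hrx, if_pos hx, LinearMap.smul_apply, ← smul_sub]
    congr 1
    abel
  · intro x hx
    simp [hrx, hx]
  · intro A' b' hA'
    let w : PiLp 2 (fun _ : SV W => E d) :=
      WithLp.toLp 2 fun x => if x ∈ S then A' (pos q x) + b' else 0
    have hw : w ∈ T := ⟨A', b', hA', fun x => rfl⟩
    have hin := (Submodule.mem_orthogonal _ _).1 hr w hw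
    rw [PiLp.inner_apply] at hin
    have h4 : ∑ x ∈ S, ⟪r x, A' (pos q x) + b'⟫ = 0 := by
      rw [← hin, ← Finset.sum_subset (Finset.subset_univ S)]
      · refine Finset.sum_congr rfl fun x hx => ?_
        rw [real_inner_comm]
        simp [w, hx]
      · intro x _ hx
        simp [w, hx]
    simp only [PiLp.smul_apply, inner_smul_left, ← Finset.mul_sum]
    rw [h4, mul_zero]

/-- limits of restrictions of skew maps are restrictions of skew maps -/
theorem A5_closed (X : Finset (SV W)) (p : SV W → E d) (A : ℕ → E d →ₗ[ℝ] E d)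
    (hA : ∀ n, Skew (A n)) (L : SV W → E d)
    (hL : ∀ x ∈ X, Tendsto (fun n => A n (p x)) atTop (𝓝 (L x))) :
    ∃ B : E d →ₗ[ℝ] E d, Skew B ∧ ∀ x ∈ X, B (p x) = L x := by
  classical
  let T : Submodule ℝ (SV W → E d) :=
    { carrier := {m | ∃ B : E d →ₗ[ℝ] E d, Skew B ∧ ∀ x, m x = if x ∈ X then B (p x) else 0}
      add_mem' := by
        rintro m m' ⟨A, hA, hm⟩ ⟨A', hA', hm'⟩
        refine ⟨A + A', fun x y => ?_, fun x => ?_⟩
        · simp only [LinearMap.add_apply, inner_add_left, inner_add_right]
          rw [hA x y, hA' x y]; ring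
        · simp only [Pi.add_apply, hm, hm', LinearMap.add_apply]
          split_ifs
          · rfl
          · simp
      zero_mem' := ⟨0, fun x y => by simp, fun x => by simp⟩
      smul_mem' := by
        rintro c m ⟨A, hA, hm⟩
        refine ⟨c • A, fun x y => ?_, fun x => ?_⟩
        · simp only [LinearMap.smul_apply, inner_smul_left, inner_smul_right]
          rw [hA x y]; simp
        · simp only [Pi.smul_apply, hm, LinearMap.smul_apply]
          split_ifs
          · rfl
          · simp }
  have hcl : IsClosed (T : Set (SV W → E d)) := T.closed_of_finiteDimensional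
  have hlim : Tendsto (fun n : ℕ => (fun x : SV W => if x ∈ X then A n (p x) else 0)) atTop
      (𝓝 (fun x : SV W => if x ∈ X then L x else 0)) := by
    rw [tendsto_pi_nhds]
    intro x
    by_cases hx : x ∈ X
    · simp only [if_pos hx]
      exact hL x hx
    · simp only [if_neg hx]
      exact tendsto_const_nhds
  have hmem : (fun x : SV W => if x ∈ X then L x else 0) ∈ (T : Set (SV W → E d)) := by
    refine hcl.mem_of_tendsto hlim (Eventually.of_forall fun n => ?_)
    exact ⟨A n, hA n, fun x => rfl⟩
  obtain ⟨B, hB, hBx⟩ := hmem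
  refine ⟨B, hB, fun x hx => ?_⟩
  have := hBx x
  simp only [if_pos hx] at this
  exact this.symm

omit [Fintype W] in
/-- `d` differences of `d + 1` affinely independent points span -/
theorem A5_span (p : SV W → E d) (u : SV W) (N : Finset (SV W)) (hu : u ∉ N) (hN : N.card = d)
    (hAI : AI (insert u N) p) (z : E d) (hz : ∀ y ∈ N, ⟪p y - p u, z⟫ = 0) : z = 0 := by
  classical
  have hli : LinearIndependent ℝ (fun y : N => p y - p u) := by
    rw [Fintype.linearIndependent_iff]
    intro g hg i
    let c : SV W → ℝ := fun x => if hx : x ∈ N then g ⟨x, hx⟩ else 0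
    have hc : ∀ x : N, c x = g x := fun x => by simp [c]
    let c' : SV W → ℝ := fun x => if x = u then - ∑ y ∈ N, c y else c x
    have hc'u : c' u = - ∑ y ∈ N, c y := by simp [c']
    have hc'x : ∀ x ∈ N, c' x = c x := by
      intro x hx
      have : x ≠ u := fun h => hu (h ▸ hx)
      simp [c', this]
    have hs0 : ∑ y ∈ N, c y • (p y - p u) = 0 := by
      rw [← hg, ← Finset.sum_coe_sort N (fun y => c y • (p y - p u))]
      refine Finset.sum_congr rfl fun y _ => ?_
      rw [hc]
    have hs1 : ∑ x ∈ insert u N, c' x = 0 := by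
      rw [Finset.sum_insert hu, hc'u, Finset.sum_congr rfl hc'x]
      ring
    have hs2 : ∑ x ∈ insert u N, c' x • p x = 0 := by
      have hcong : ∑ x ∈ N, c' x • p x = ∑ x ∈ N, c x • p x :=
        Finset.sum_congr rfl (fun x hx => by rw [hc'x x hx])
      rw [Finset.sum_insert hu, hc'u, hcong]
      simp only [smul_sub, Finset.sum_sub_distrib, ← Finset.sum_smul] at hs0
      rw [neg_smul, neg_add_eq_sub]
      exact hs0
    have h := hAI c' hs1 hs2 i (Finset.mem_insert_of_mem i.2)
    rw [hc'x i i.2, hc] at h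
    exact h
  have hspan : Submodule.span ℝ (Set.range (fun y : N => p y - p u)) = ⊤ := by
    apply hli.span_eq_top_of_card_eq_finrank'
    simp [hN]
  have hz' : ∀ x : E d, ⟪x, z⟫ = 0 := by
    intro x
    have hx : x ∈ Submodule.span ℝ (Set.range (fun y : N => p y - p u)) := by
      rw [hspan]; trivial
    induction hx using Submodule.span_induction with
    | mem x hx =>
      obtain ⟨y, rfl⟩ := hx
      exact hz y y.2
    | zero => simp
    | add a b _ _ ha hb => rw [inner_add_left, ha, hb, add_zero]
    | smul c a _ ha => rw [inner_smul_left, ha, mul_zero]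
  exact inner_self_eq_zero.1 (hz' z)

omit [Fintype W] in
theorem A5_pos_ne (q : W → E d) (a : W) (z : E d) (x : SV W) (hx : x.1 ≠ a) :
    pos (Function.update q a z) x = pos q x := by
  simp [pos, Function.update_of_ne hx]

omit [Fintype W] in
theorem A5_pos_v (q : W → E d) (u v : SV W) (r s : ℝ)
    (hs : s = (1 - r) * (if u.2 = v.2 then 1 else -1)) :
    pos (Function.update q v.1 (r • q v.1 + s • q u.1)) v
      = pos q u + r • (pos q v - pos q u) := by
  subst hs
  rcases u with ⟨a, b⟩
  rcases v with ⟨a', b'⟩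
  cases b <;> cases b' <;> simp [pos] <;> module

omit [Fintype W] [DecidableEq W] in
theorem A5_opp_opp (x : SV W) : opp (opp x) = x := by
  rcases x with ⟨a, b⟩
  simp [opp]

omit [Fintype W] [DecidableEq W] in
theorem A5_eq_or (x y : SV W) (h : x.1 = y.1) : x = y ∨ x = opp y := by
  rcases x with ⟨a, b⟩
  rcases y with ⟨a', b'⟩
  simp only at h
  subst h
  cases b <;> cases b' <;> simp [opp]

end A5

theorem t_SPLIT (h1 : S_AIN) (h2 : S_SPAN) (h3 : S_MV) (h4 : S_TR) : S_SPLIT := by
  intro W _ _ d R RZ S u v N hRS huS hvS hvu hZ hRZ hRuv hNc hN hFew hcase q hq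
  classical
  by_contra hcon
  let ε : ℚ := if u.2 = v.2 then 1 else -1
  have hε : (ε : ℝ) = if u.2 = v.2 then 1 else -1 := by
    simp only [ε]; split_ifs <;> simp
  have hε0 : ε ≠ 0 := by simp only [ε]; split_ifs <;> norm_num
  let tq : ℕ → ℚ := fun k => 1 / ((k : ℚ) + 1)
  have htq : ∀ k, tq k ≠ 0 := fun k => by simp only [tq]; positivity
  let qt : ℕ → W → E d := fun k => Function.update q v.1
    ((tq k : ℝ) • q v.1 + (((1 - tq k) * ε : ℚ) : ℝ) • q u.1)
  let q0 : W → E d := Function.update q v.1 ((0 : ℝ) • q v.1 + (ε : ℝ) • q u.1)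
  have hP : ∀ k x, x.1 ≠ v.1 → pos (qt k) x = pos q x := fun k x hx => A5_pos_ne q _ _ x hx
  have hP0 : ∀ x, x.1 ≠ v.1 → pos q0 x = pos q x := fun x hx => A5_pos_ne q _ _ x hx
  have hPv : ∀ k, pos (qt k) v = pos q u + (tq k : ℝ) • (pos q v - pos q u) := by
    intro k
    refine A5_pos_v q u v _ _ ?_
    rw [← hε]; push_cast; ring
  have hP0v : pos q0 v = pos q u := by
    have := A5_pos_v q u v 0 (ε : ℝ) (by rw [← hε]; ring)
    rw [zero_smul ℝ (pos q v - pos q u), add_zero] at this
    exact this
  have hgen : ∀ k, Gen (qt k) := fun k => h3 W d q hq u.1 v.1 hvu.symm _ _ (htq k)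
  have hnr : ∀ k, ¬ TRig R S (qt k) := fun k hk => hcon (h4 W d R S hRS _ _ (hgen k) hq hk)
  have hch := fun k => A5_key R S (qt k) (hnr k)
  choose n m A hn1 hn2 hn3 hn4 hn5 hn6 using hch
  have hsph : ∀ k, n k ∈ Metric.sphere (0 : PiLp 2 (fun _ : SV W => E d)) 1 := fun k => by
    simpa using hn1 k
  obtain ⟨n', hn', φ, hφ, hlim⟩ :=
    (isCompact_sphere (0 : PiLp 2 (fun _ : SV W => E d)) 1).tendsto_subseq hsph
  have hnorm : ‖n'‖ = 1 := by simpa using hn'
  let t : ℕ → ℝ := fun k => (tq (φ k) : ℝ)
  have ht0 : ∀ k, t k ≠ 0 := fun k => by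
    simp only [t]; exact_mod_cast htq (φ k)
  have htlim : Tendsto t atTop (𝓝 0) := by
    have h := (tendsto_one_div_add_atTop_nhds_zero_nat (𝕜 := ℝ)).comp hφ.tendsto_atTop
    refine h.congr fun k => ?_
    simp [t, tq]
  have hnlim : ∀ x, Tendsto (fun k => n (φ k) x) atTop (𝓝 (n' x)) := by
    intro x
    have hc : Continuous (fun w : PiLp 2 (fun _ : SV W => E d) => w x) := by fun_prop
    exact (hc.tendsto n').comp hlim
  have hvlim : Tendsto (fun k => pos (qt (φ k)) v) atTop (𝓝 (pos q0 v)) := by
    rw [hP0v]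
    simp only [hPv]
    have := (htlim.smul_const (pos q v - pos q u)).const_add (pos q u)
    simpa [t] using this
  have hPlim : ∀ x, Tendsto (fun k => pos (qt (φ k)) x) atTop (𝓝 (pos q0 x)) := by
    intro x
    by_cases hx : x.1 = v.1
    · rcases A5_eq_or x v hx with rfl | rfl
      · exact hvlim
      · simp only [A5_pos_opp]
        exact hvlim.neg
    · simp only [hP _ x hx, hP0 x hx]
      exact tendsto_const_nhds
  -- the constraints at finite stages
  have b1 : ∀ k x y, R x y → ⟪pos (qt k) x - pos (qt k) y, n k x - n k y⟫ = 0 := by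
    intro k x y hxy
    obtain ⟨hx, hy⟩ := hRS x y hxy
    have e1 : n k x - n k y
        = (m k x.1 - m k y.1) - A k (pos (qt k) x - pos (qt k) y) := by
      rw [hn4 k x hx, hn4 k y hy, map_sub]; abel
    rw [e1, inner_sub_right, hn2 k x y hxy, A5_skew_self (hn3 k), sub_zero]
  have b5 : ∀ k x, x ∈ S → opp x ∈ S →
      n k (opp x) - n k x = (2 : ℝ) • A k (pos (qt k) x) := by
    intro k x hx hx'
    rw [hn4 k x hx, hn4 k _ hx', A5_pos_opp, map_neg, two_smul]
    have : (opp x).1 = x.1 := rfl
    rw [this]; abel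
  -- the limits
  have c1 : ∀ x y, R x y → ⟪pos q0 x - pos q0 y, n' x - n' y⟫ = 0 := by
    intro x y hxy
    have hl : Tendsto (fun k => ⟪pos (qt (φ k)) x - pos (qt (φ k)) y, n (φ k) x - n (φ k) y⟫)
        atTop (𝓝 ⟪pos q0 x - pos q0 y, n' x - n' y⟫) :=
      ((hPlim x).sub (hPlim y)).inner ((hnlim x).sub (hnlim y))
    have h0 : (fun k => ⟪pos (qt (φ k)) x - pos (qt (φ k)) y, n (φ k) x - n (φ k) y⟫)
        = fun _ => 0 := by
      funext k; exact b1 (φ k) x y hxy
    rw [h0] at hl
    exact (tendsto_nhds_unique tendsto_const_nhds hl).symm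
  have hPu : ∀ k, pos (qt k) u = pos q u := fun k => hP k u hvu.symm
  have hPu0 : pos q0 u = pos q u := hP0 u hvu.symm
  have c2 : ⟪pos q v - pos q u, n' v - n' u⟫ = 0 := by
    have hl : Tendsto (fun k => ⟪pos q v - pos q u, n (φ k) v - n (φ k) u⟫)
        atTop (𝓝 ⟪pos q v - pos q u, n' v - n' u⟫) :=
      tendsto_const_nhds.inner ((hnlim v).sub (hnlim u))
    have h0 : (fun k => ⟪pos q v - pos q u, n (φ k) v - n (φ k) u⟫) = fun _ => 0 := by
      funext k
      have e1 := b1 (φ k) u v hRuv
      have e2 : pos (qt (φ k)) u - pos (qt (φ k)) v = -(t k • (pos q v - pos q u)) := by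
        rw [hPu, hPv]; simp only [t]; abel
      have e3 : n (φ k) u - n (φ k) v = -(n (φ k) v - n (φ k) u) := by abel
      rw [e2, e3, inner_neg_neg, inner_smul_left] at e1
      rcases mul_eq_zero.1 e1 with h | h
      · exact absurd (by simpa using h) (ht0 k)
      · exact h
    rw [h0] at hl
    exact (tendsto_nhds_unique tendsto_const_nhds hl).symm
  have c3 : ∀ (A : E d →ₗ[ℝ] E d) (b : E d), Skew A →
      ∑ x ∈ S, ⟪n' x, A (pos q0 x) + b⟫ = 0 := by
    intro A' b hA'
    have hAc : Continuous A' := LinearMap.continuous_of_finiteDimensional A'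
    have hl : Tendsto (fun k => ∑ x ∈ S, ⟪n (φ k) x, A' (pos (qt (φ k)) x) + b⟫) atTop
        (𝓝 (∑ x ∈ S, ⟪n' x, A' (pos q0 x) + b⟫)) :=
      tendsto_finsetSum _ fun x _ =>
        (hnlim x).inner (((hAc.tendsto _).comp (hPlim x)).add_const _)
    have h0 : (fun k => ∑ x ∈ S, ⟪n (φ k) x, A' (pos (qt (φ k)) x) + b⟫) = fun _ => 0 := by
      funext k
      exact hn6 (φ k) A' b hA'
    rw [h0] at hl
    exact tendsto_nhds_unique hl tendsto_const_nhds
  have c4 : ∀ x, x ∉ S → n' x = 0 := by
    intro x hx
    have hl := hnlim x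
    have h0 : (fun k => n (φ k) x) = fun _ => 0 := by
      funext k
      exact hn5 (φ k) x hx
    rw [h0] at hl
    exact tendsto_nhds_unique hl tendsto_const_nhds
  -- convergence of the skew maps at the antipodal pairs
  have c5 : ∀ x, x ∈ S → opp x ∈ S →
      Tendsto (fun k => A (φ k) (pos (qt (φ k)) x)) atTop
        (𝓝 ((1 / 2 : ℝ) • (n' (opp x) - n' x))) := by
    intro x hx hx'
    have hl := (((hnlim (opp x)).sub (hnlim x)).const_smul (1 / 2 : ℝ))
    refine hl.congr fun k => ?_
    rw [b5 (φ k) x hx hx', smul_smul]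
    norm_num
  have c6 : opp u ∈ S → ⟪pos q u, n' (opp u) - n' u⟫ = 0 := by
    intro hu'
    have hl : Tendsto (fun k => ⟪pos q u, n (φ k) (opp u) - n (φ k) u⟫)
        atTop (𝓝 ⟪pos q u, n' (opp u) - n' u⟫) :=
      tendsto_const_nhds.inner ((hnlim _).sub (hnlim u))
    have h0 : (fun k => ⟪pos q u, n (φ k) (opp u) - n (φ k) u⟫) = fun _ => 0 := by
      funext k
      rw [b5 (φ k) u huS hu', hPu, inner_smul_right, A5_skew_self (hn3 _), mul_zero]
    rw [h0] at hl
    exact (tendsto_nhds_unique tendsto_const_nhds hl).symm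
  have hopp1 : ∀ x : SV W, (opp x).1 = x.1 := fun x => rfl
  -- `n' v = n' u`
  have huN : u ∉ N := fun h => (hN u h).2.2.1 rfl
  have hvN : v ∉ N := fun h => (hN v h).2.1 rfl
  have huv : u ≠ v := fun h => hvu (by rw [h])
  have hz : n' v = n' u := by
    have hz0 : n' v - n' u = 0 := by
      refine A5_span (pos q) u (insert v N) ?_ ?_ ?_ _ ?_
      · intro h
        rcases Finset.mem_insert.1 h with h | h
        · exact huv h
        · exact huN h
      · rw [Finset.card_insert_of_notMem hvN, hNc]
      · refine h1 W d q hq _ ?_ ?_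
        · have := Finset.card_insert_le u (insert v N)
          rw [Finset.card_insert_of_notMem hvN] at this
          omega
        · obtain ⟨u', hu'⟩ := hFew
          refine ⟨u', fun x hx hx' => ?_⟩
          have hmem : ∀ y : SV W, y ∈ insert u (insert v N) → y.1 ≠ v.1 → y ∈ insert u N := by
            intro y hy hyv
            rcases Finset.mem_insert.1 hy with h | h
            · exact Finset.mem_insert.2 (Or.inl h)
            · rcases Finset.mem_insert.1 h with h | h
              · exact absurd (by rw [h]) hyv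
              · exact Finset.mem_insert_of_mem h
          have hxv : x.1 ≠ v.1 := by
            intro hxv
            have hno : opp v ∉ insert u (insert v N) := by
              intro h
              rcases Finset.mem_insert.1 h with h | h
              · exact hvu (by rw [← h, hopp1])
              · rcases Finset.mem_insert.1 h with h | h
                · have := congrArg Prod.snd h
                  simp [opp] at this
                · exact (hN _ h).2.1 (hopp1 v)
            rcases A5_eq_or x v hxv with rfl | rfl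
            · exact hno hx'
            · exact hno hx
          exact hu' x (hmem x hx hxv) (hmem _ hx' (by rw [hopp1]; exact hxv))
      · intro y hy
        rcases Finset.mem_insert.1 hy with rfl | hy
        · exact c2
        · obtain ⟨hyS, hyv, hyu, hRvy, hRuy⟩ := hN y hy
          have a1 := c1 v y hRvy
          rw [hP0v, hP0 y hyv] at a1
          rcases hRuy with hRuy | rfl
          · have a2 := c1 u y hRuy
            rw [hPu0, hP0 y hyv] at a2
            have a3 : n' v - n' u = (n' v - n' y) - (n' u - n' y) := by abel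
            have a4 : pos q y - pos q u = -(pos q u - pos q y) := by abel
            rw [a3, a4, inner_neg_left, inner_sub_right, a1, a2]
            simp
          · rw [A5_pos_opp] at a1 ⊢
            have a2 := c6 hyS
            have a4 : pos q u - -pos q u = (2 : ℝ) • pos q u := by module
            have a5 : - pos q u - pos q u = (-2 : ℝ) • pos q u := by module
            have a3 : n' v - n' u = (n' v - n' (opp u)) + (n' (opp u) - n' u) := by abel
            rw [a4, inner_smul_left] at a1
            have a6 : ⟪pos q u, n' v - n' (opp u)⟫ = 0 := by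
              rcases mul_eq_zero.1 a1 with h | h
              · norm_num at h
              · exact h
            rw [a3, a5, inner_smul_left, inner_add_right, a6, a2]
            simp
    exact sub_eq_zero.1 hz0
  -- the antipodal pairs
  have hT : ∃ B : E d →ₗ[ℝ] E d, Skew B ∧ ∀ x, x ∈ S → opp x ∈ S →
      n' (opp x) - n' x = (2 : ℝ) • B (pos q0 x) := by
    let X : Finset (SV W) := S.filter (fun x => opp x ∈ S ∧ x.1 ≠ v.1)
    have hX : ∀ x, x ∈ X ↔ x ∈ S ∧ opp x ∈ S ∧ x.1 ≠ v.1 := fun x => by
      simp only [X, Finset.mem_filter]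
    obtain ⟨B, hB, hBX⟩ := A5_closed X (pos q) (fun k => A (φ k)) (fun k => hn3 _)
      (fun x => (1 / 2 : ℝ) • (n' (opp x) - n' x)) (by
        intro x hx
        obtain ⟨hx1, hx2, hx3⟩ := (hX x).1 hx
        have := c5 x hx1 hx2
        simp only [hP _ x hx3] at this
        exact this)
    have hBX' : ∀ x, x ∈ S → opp x ∈ S → x.1 ≠ v.1 →
        n' (opp x) - n' x = (2 : ℝ) • B (pos q0 x) := by
      intro x hx1 hx2 hx3
      rw [hP0 x hx3, hBX x ((hX x).2 ⟨hx1, hx2, hx3⟩), smul_smul]
      norm_num
    refine ⟨B, hB, ?_⟩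
    rcases hcase with hov | ⟨hou, hov, M, hMc, hvM, hM⟩
    · intro x hx1 hx2
      refine hBX' x hx1 hx2 ?_
      intro hxv
      rcases A5_eq_or x v hxv with rfl | rfl
      · exact hov hx2
      · exact hov hx1
    · -- the vector `c`
      let c : E d := (1 / 2 : ℝ) • (n' (opp v) - n' v) - (1 / 2 : ℝ) • (n' (opp u) - n' u)
      let w : E d := pos q v - pos q u
      have hclim : Tendsto (fun k => A (φ k) (t k • w)) atTop (𝓝 c) := by
        have hl := (c5 v hvS hov).sub (c5 u huS hou)
        refine hl.congr fun k => ?_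
        rw [← map_sub]
        congr 1
        rw [hPu, hPv]
        simp only [t, w]
        abel
      have hcX : ∀ x, x ∈ S → opp x ∈ S → x.1 ≠ v.1 → ⟪c, pos q x⟫ = 0 := by
        intro x hx1 hx2 hx3
        have hl : Tendsto (fun k => ⟪A (φ k) (t k • w), pos q x⟫) atTop (𝓝 ⟪c, pos q x⟫) :=
          hclim.inner tendsto_const_nhds
        have hc5 := c5 x hx1 hx2
        simp only [hP _ x hx3] at hc5
        have hl2 : Tendsto (fun k => -(t k * ⟪w, A (φ k) (pos q x)⟫)) atTop
            (𝓝 (-(0 * ⟪w, (1 / 2 : ℝ) • (n' (opp x) - n' x)⟫))) :=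
          (htlim.mul (tendsto_const_nhds.inner hc5)).neg
        have he : (fun k => ⟪A (φ k) (t k • w), pos q x⟫)
            = fun k => -(t k * ⟪w, A (φ k) (pos q x)⟫) := by
          funext k
          rw [hn3 (φ k), inner_smul_left]
          simp
        rw [he] at hl
        have := tendsto_nhds_unique hl hl2
        rw [this]; ring
      have hcw : ⟪c, w⟫ = 0 := by
        have hl : Tendsto (fun k => ⟪A (φ k) (t k • w), w⟫) atTop (𝓝 ⟪c, w⟫) :=
          hclim.inner tendsto_const_nhds
        have he : (fun k => ⟪A (φ k) (t k • w), w⟫) = fun _ => 0 := by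
          funext k
          rw [map_smul, inner_smul_left, real_inner_comm, A5_skew_self (hn3 _), mul_zero]
        rw [he] at hl
        exact (tendsto_nhds_unique tendsto_const_nhds hl).symm
      have hcu : ⟪c, pos q u⟫ = 0 := hcX u huS hou hvu.symm
      have hcv : ⟪c, pos q v⟫ = 0 := by
        have : pos q v = w + pos q u := by simp only [w]; abel
        rw [this, inner_add_right, hcw, hcu, add_zero]
      have hposq : ∀ x : SV W, ⟪c, pos q x⟫ = 0 → ⟪q x.1, c⟫ = 0 := by
        intro x hx
        rw [real_inner_comm]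
        rcases x with ⟨a, b⟩
        cases b
        · simpa [pos] using hx
        · simpa [pos] using hx
      have hz' : n' (opp v) - n' (opp u) = (2 : ℝ) • c := by
        simp only [c]
        rw [hz]
        module
      have hc0 : c = 0 := by
        refine h2 W d q hq (insert v.1 M) ?_ c ?_
        · rw [Finset.card_insert_of_notMem hvM, hMc]
        · intro a ha
          rcases Finset.mem_insert.1 ha with rfl | ha
          · exact hposq v hcv
          · have hav : a ≠ v.1 := fun h => hvM (h ▸ ha)
            rcases hM a ha with ⟨ha1, ha2⟩ | ⟨s, hs1, hs2⟩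
            · exact hposq (a, true) (hcX (a, true) ha1 (by simpa [opp] using ha2) hav)
            · refine hposq (a, s) ?_
              have a1 := c1 _ _ hs1
              have a2 := c1 _ _ hs2
              rw [A5_pos_opp, hPu0, hP0 (a, s) hav] at a1
              rw [A5_pos_opp, hP0v, hP0 (a, s) hav] at a2
              have a3 : ⟪-pos q u - pos q (a, s), (2 : ℝ) • c⟫ = 0 := by
                rw [← hz']
                have : n' (opp v) - n' (opp u)
                    = (n' (opp v) - n' (a, s)) - (n' (opp u) - n' (a, s)) := by abel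
                rw [this, inner_sub_right, a1, a2, sub_zero]
              rw [inner_smul_right, inner_sub_left, inner_neg_left,
                real_inner_comm, hcu] at a3
              rw [real_inner_comm]
              linarith
      have hvv : n' (opp v) - n' v = (2 : ℝ) • B (pos q0 v) := by
        have e1 := hBX' u huS hou hvu.symm
        rw [hP0v, ← hPu0, ← e1]
        have e2 : n' (opp v) = n' (opp u) := by
          rw [hc0, smul_zero] at hz'
          exact sub_eq_zero.1 hz'
        rw [e2, hz]
      intro x hx1 hx2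
      by_cases hxv : x.1 = v.1
      · rcases A5_eq_or x v hxv with rfl | rfl
        · exact hvv
        · rw [A5_opp_opp, A5_pos_opp, map_neg, smul_neg, ← hvv]
          abel
      · exact hBX' x hx1 hx2 hxv
  obtain ⟨B, hB, hBT⟩ := hT
  -- the motion of the contracted framework
  let g : SV W → E d := fun x => n' x + B (pos q0 x)
  have hgt : ∀ x, x ∈ S → opp x ∈ S → g (opp x) = g x := by
    intro x hx hx'
    have := hBT x hx hx'
    simp only [g]
    rw [A5_pos_opp, map_neg]
    rw [two_smul, sub_eq_iff_eq_add] at this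
    rw [this]; abel
  have hguv : g v = g u := by
    simp only [g]
    rw [hz, hP0v, hPu0]
  let m0 : W → E d := fun a => if (a, true) ∈ S then g (a, true) else g (a, false)
  have hm0 : ∀ x ∈ S, m0 x.1 = g x := by
    intro x hx
    rcases x with ⟨a, b⟩
    simp only [m0]
    cases b
    · split_ifs with h
      · exact hgt (a, false) hx (by simpa [opp] using h)
      · rfl
    · rw [if_pos hx]
  have hqS : ∀ x ∈ S, m0 (qv u v x).1 = g x ∧ pos q (qv u v x) = pos q0 x := by
    intro x hx
    unfold qv
    by_cases h : x = v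
    · rw [if_pos h, h, hguv, hP0v]
      exact ⟨hm0 u huS, rfl⟩
    · rw [if_neg h]
      by_cases h' : x = opp v
      · rw [if_pos h', h', A5_pos_opp, A5_pos_opp, hP0v]
        refine ⟨?_, rfl⟩
        rw [hopp1, hm0 u huS, ← hguv]
        refine (hgt v hvS ?_).symm
        rw [← h']; exact hx
      · rw [if_neg h']
        refine ⟨hm0 x hx, ?_⟩
        rw [hP0 x]
        intro hxv
        rcases A5_eq_or x v hxv with h'' | h''
        · exact h h''
        · exact h' h''
  have hTM : TM RZ q m0 := by
    intro x y hxy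
    obtain ⟨x', hx', y', hy', rfl, rfl, hR'⟩ := hRZ x y hxy
    rw [(hqS x' hx').1, (hqS y' hy').1, (hqS x' hx').2, (hqS y' hy').2]
    have e1 : g x' - g y' = (n' x' - n' y') + B (pos q0 x' - pos q0 y') := by
      simp only [g]
      rw [map_sub]; abel
    rw [e1, inner_add_right, c1 x' y' hR', A5_skew_self hB, add_zero]
  obtain ⟨A', b', hA', htr⟩ := hZ q hq m0 hTM
  have htr' : ∀ x ∈ S, n' x = (A' - B) (pos q0 x) + b' := by
    intro x hx
    have := htr (qv u v x) (Finset.mem_image_of_mem _ hx)
    rw [(hqS x hx).1, (hqS x hx).2] at this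
    simp only [g] at this
    rw [LinearMap.sub_apply, sub_add_eq_add_sub, ← this]
    abel
  have hAB : Skew (A' - B) := by
    intro x y
    simp only [LinearMap.sub_apply, inner_sub_left, inner_sub_right]
    rw [hA' x y, hB x y]; ring
  have hfin := c3 (A' - B) b' hAB
  have hsq : ∑ x ∈ S, ⟪n' x, n' x⟫ = 0 := by
    rw [← hfin]
    refine Finset.sum_congr rfl fun x hx => ?_
    rw [← htr' x hx]
  have hz0 : ∀ x ∈ S, n' x = 0 := by
    intro x hx
    have h8 := (Finset.sum_eq_zero_iff_of_nonneg
      (fun x _ => real_inner_self_nonneg)).1 hsq x hx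
    exact inner_self_eq_zero.1 h8
  have hm0 : n' = 0 := by
    ext x : 1
    by_cases hx : x ∈ S
    · simpa using hz0 x hx
    · simpa using c4 x hx
  rw [hm0, norm_zero] at hnorm
  exact zero_ne_one hnorm

end Pool.Agent.N525.CS
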