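import Pool.Agent.N525.CS.Stm

set_option autoImplicit false

/-!
# MP_d539bc_co: complete graphs and gluing
-/

namespace Pool.Agent.N525.CS

open scoped RealInnerProductSpace

theorem t_KD (h1 : S_AIN) (h2 : Pool.Agent.N525.VR.S_STR) : S_KD := by
  intro W _ _ d R S hS hF hR q hq m hm
  have hAI := h1 W d q hq S hS.le hF
  obtain ⟨A, b, hA, h⟩ := h2 (SV W) d S (pos q) (fun x => m x.1) hAI hS (by
    intro x hx y hy
    by_cases hxy : x.1 = y.1
    · simp [hxy]
    · exact hm x y (hR x hx y hy hxy))
  exact ⟨A, b, hA, h⟩

theorem t_GL (h : Pool.Agent.N525.VR.S_SK0) : S_GL := by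
  classical
  intro W _ _ d q m ι _ _ S hc hT
  choose A b hA hm using hT
  by_cases hne : Nonempty ι
  · obtain ⟨i0⟩ := hne
    let X : Finset ι := Finset.univ.filter (fun i => ∀ y, A i y + b i = A i0 y + b i0)
    have hX : X = Finset.univ := by
      by_contra hne
      obtain ⟨i, hi, j, hj, F, hFi, hFj, hd, hAI⟩ := hc X ⟨i0, by simp [X]⟩ hne
      apply hj
      have h1 := h (SV W) d F (pos q) hAI hd (A j - A i) (b j - b i)
        (by
          intro x y
          have e1 := hA j x y
          have e2 := hA i x y
          simp only [LinearMap.sub_apply, inner_sub_left, inner_sub_right, e1, e2]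
          ring)
        (by
          intro x hx
          have e1 := hm j x (hFj hx)
          have e2 := hm i x (hFi hx)
          rw [LinearMap.sub_apply]
          have e3 : A j (pos q x) + b j = A i (pos q x) + b i := by rw [← e1, ← e2]
          calc A j (pos q x) - A i (pos q x) + (b j - b i)
              = (A j (pos q x) + b j) - (A i (pos q x) + b i) := by abel
            _ = 0 := by rw [e3, sub_self])
      refine Finset.mem_filter.2 ⟨Finset.mem_univ _, ?_⟩
      intro y
      rw [← (Finset.mem_filter.1 hi).2 y]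
      have e4 := h1 y
      rw [LinearMap.sub_apply] at e4
      have e5 : (A j y + b j) - (A i y + b i) = 0 := by rw [← e4]; abel
      exact sub_eq_zero.1 e5
    refine ⟨A i0, b i0, hA i0, ?_⟩
    intro x hx
    obtain ⟨i, -, hi⟩ := Finset.mem_biUnion.1 hx
    have hiX : i ∈ X := by rw [hX]; exact Finset.mem_univ i
    rw [hm i x hi]
    exact (Finset.mem_filter.1 hiX).2 _
  · refine ⟨0, 0, ?_, ?_⟩
    · intro x y
      simp
    · intro x hx
      obtain ⟨i, -, hi⟩ := Finset.mem_biUnion.1 hx
      exact absurd ⟨i⟩ hne

end Pool.Agent.N525.CS
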