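import Pool.Agent.N525.CS.Stm

set_option autoImplicit false

/-!
# MP_d539bc_co: counting the edges of a rigid symmetric graph
-/

namespace Pool.Agent.N525.CS

open Pool.Agent.N525.VR
open scoped RealInnerProductSpace

theorem A7_opp_opp {W : Type} (x : SV W) : opp (opp x) = x := by
  simp [opp]

theorem A7_opp_inj {W : Type} : Function.Injective (opp : SV W → SV W) := by
  intro x y h
  rw [← A7_opp_opp x, h, A7_opp_opp]

theorem A7_pos_opp {W : Type} {d : ℕ} (q : W → E d) (x : SV W) : pos q (opp x) = - pos q x := by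
  obtain ⟨a, s⟩ := x
  cases s <;> simp [pos, opp]

theorem A7_img_img {W : Type} [DecidableEq W] (e : Finset (SV W)) :
    (e.image opp).image opp = e := by
  rw [Finset.image_image]
  have : (opp ∘ opp : SV W → SV W) = id := by
    funext x; exact A7_opp_opp x
  rw [this, Finset.image_id]

theorem A7_card {W : Type} [Fintype W] [DecidableEq W] (S : Finset (SV W))
    (hS : ∀ x ∈ S, opp x ∈ S) : S.card = 2 * (S.image Prod.fst).card := by
  have h : S = (S.image Prod.fst) ×ˢ (Finset.univ : Finset Bool) := by
    ext x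
    simp only [Finset.mem_product, Finset.mem_image, Finset.mem_univ, and_true]
    constructor
    · intro hx
      exact ⟨x, hx, rfl⟩
    · rintro ⟨y, hy, hxy⟩
      obtain ⟨a, s⟩ := x
      obtain ⟨b, t⟩ := y
      simp only at hxy
      subst hxy
      by_cases hst : s = t
      · rw [hst]; exact hy
      · have := hS _ hy
        simp only [opp] at this
        rw [Bool.eq_not.2 hst]; exact this
  conv_lhs => rw [h]
  rw [Finset.card_product, Finset.card_univ, Fintype.card_bool, mul_comm]

theorem t_COUNT (h1 : S_EX) (h2 : S_SPAN) : S_COUNT := by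
  classical
  intro W _ _ d G S hd hS hG hcard hR
  obtain ⟨q, hq⟩ := h1 W d
  set O : Finset W := S.image Prod.fst with hO
  have hSO := A7_card S hS
  rw [← hO] at hSO
  -- representatives of the pairs of edges
  let k := Fintype.equivFin (Finset (SV W))
  let G1 : Finset (Finset (SV W)) := G.filter (fun e => k e < k (e.image opp))
  have hne : ∀ e ∈ G, e.image opp ≠ e := by
    intro e he h
    obtain ⟨hc, -, -, ho⟩ := hG e he
    obtain ⟨x, y, hxy, rfl⟩ := Finset.card_eq_two.1 hc
    have : opp x ∈ ({x, y} : Finset (SV W)).image opp :=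
      Finset.mem_image_of_mem _ (by simp)
    rw [h] at this
    exact ho x (by simp) this
  have hGG : G.card = 2 * G1.card := by
    have h3 : G = G1 ∪ G1.image (fun e => e.image opp) := by
      ext e
      simp only [G1, Finset.mem_union, Finset.mem_filter, Finset.mem_image]
      constructor
      · intro he
        rcases lt_trichotomy (k e) (k (e.image opp)) with h | h | h
        · exact Or.inl ⟨he, h⟩
        · exact absurd (k.injective h).symm (hne e he)
        · refine Or.inr ⟨e.image opp, ⟨(hG e he).2.2.1, ?_⟩, A7_img_img e⟩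
          rw [A7_img_img]; exact h
      · rintro (⟨he, -⟩ | ⟨f, ⟨hf, -⟩, rfl⟩)
        · exact he
        · exact (hG f hf).2.2.1
    have h4 : Disjoint G1 (G1.image (fun e => e.image opp)) := by
      rw [Finset.disjoint_left]
      intro e he he'
      obtain ⟨f, hf, rfl⟩ := Finset.mem_image.1 he'
      have h5 := (Finset.mem_filter.1 hf).2
      have h6 := (Finset.mem_filter.1 he).2
      rw [A7_img_img] at h6
      exact absurd h5 (not_lt.2 h6.le)
    have h5 : (G1.image (fun e => e.image opp)).card = G1.card := by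
      apply Finset.card_image_of_injective
      intro e f h
      have := congrArg (fun e : Finset (SV W) => e.image opp) h
      simp only [A7_img_img] at this
      exact this
    conv_lhs => rw [h3]
    rw [Finset.card_union_of_disjoint h4, h5]; ring
  have hxy : ∀ e : G1, ∃ x y : SV W, x ≠ y ∧ (e : Finset (SV W)) = {x, y} := by
    intro e
    exact Finset.card_eq_two.1 (hG e (Finset.mem_filter.1 e.2).1).1
  choose x y hne2 he using hxy
  let ext : (O → E d) →ₗ[ℝ] (W → E d) :=
    LinearMap.pi (fun w => if h : w ∈ O then LinearMap.proj ⟨w, h⟩ else 0)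
  let Ψ : (W → E d) →ₗ[ℝ] (G1 → ℝ) :=
    LinearMap.pi (fun e => (innerₛₗ ℝ (pos q (x e) - pos q (y e))) ∘ₗ
      ((LinearMap.proj (x e).1 : (W → E d) →ₗ[ℝ] E d) - LinearMap.proj (y e).1))
  have hΨ : ∀ m e, Ψ m e = ⟪pos q (x e) - pos q (y e), m (x e).1 - m (y e).1⟫ := by
    intro m e
    rfl
  have hext : ∀ (m : O → E d) (w : W) (hw : w ∈ O), ext m w = m ⟨w, hw⟩ := by
    intro m w hw
    simp [ext, hw]
  have hTM : ∀ m : O → E d, Ψ (ext m) = 0 → TM (fun x y => x ≠ y ∧ {x, y} ∈ G) q (ext m) := by
    intro m hm a b hab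
    obtain ⟨hab, habG⟩ := hab
    have key : ∀ a b : SV W, ({a, b} : Finset (SV W)) ∈ G1 →
        ⟪pos q a - pos q b, ext m a.1 - ext m b.1⟫ = 0 := by
      intro a b hab1
      have h3 := congrFun hm ⟨{a, b}, hab1⟩
      rw [hΨ] at h3
      have h4 := he ⟨{a, b}, hab1⟩
      have h5 := hne2 ⟨{a, b}, hab1⟩
      simp only at h4
      generalize x ⟨{a, b}, hab1⟩ = x0 at *
      generalize y ⟨{a, b}, hab1⟩ = y0 at *
      have hx0 : x0 ∈ ({a, b} : Finset (SV W)) := by rw [h4]; simp
      have hy0 : y0 ∈ ({a, b} : Finset (SV W)) := by rw [h4]; simp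
      have ha0 : a ∈ ({x0, y0} : Finset (SV W)) := by rw [← h4]; simp
      have hb0 : b ∈ ({x0, y0} : Finset (SV W)) := by rw [← h4]; simp
      simp only [Finset.mem_insert, Finset.mem_singleton] at hx0 hy0 ha0 hb0
      have hsw : ⟪pos q y0 - pos q x0, ext m y0.1 - ext m x0.1⟫ = 0 := by
        rw [← neg_sub (pos q x0), ← neg_sub (ext m x0.1), inner_neg_neg]
        simpa using h3
      rcases ha0 with rfl | rfl
      · rcases hb0 with rfl | rfl
        · rcases hy0 with rfl | rfl <;> exact absurd rfl h5
        · simpa using h3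
      · rcases hb0 with rfl | rfl
        · exact hsw
        · rcases hx0 with rfl | rfl <;> exact absurd rfl h5
    by_cases h : k {a, b} < k (({a, b} : Finset (SV W)).image opp)
    · exact key a b (Finset.mem_filter.2 ⟨habG, h⟩)
    · have hlt : k (({a, b} : Finset (SV W)).image opp) < k {a, b} :=
        lt_of_le_of_ne (not_lt.1 h) (fun h' => hne _ habG (k.injective h'))
      have himg : ({a, b} : Finset (SV W)).image opp = {opp a, opp b} := by
        simp [Finset.image_insert]
      have hmem : ({opp a, opp b} : Finset (SV W)) ∈ G1 := by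
        refine Finset.mem_filter.2 ⟨?_, ?_⟩
        · rw [← himg]; exact (hG _ habG).2.2.1
        · rw [← himg, A7_img_img]; exact hlt
      have h3 := key (opp a) (opp b) hmem
      rw [A7_pos_opp, A7_pos_opp] at h3
      have h4 : - pos q a - - pos q b = - (pos q a - pos q b) := by abel
      rw [h4, inner_neg_left] at h3
      exact neg_eq_zero.1 h3
  have hOd : d ≤ O.card := by omega
  obtain ⟨M, hMO, hMd⟩ := Finset.exists_subset_card_eq hOd
  have hOne : O.Nonempty := Finset.card_pos.1 (by omega)
  obtain ⟨a0, ha0⟩ := hOne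
  have hbool : ∀ a ∈ O, ∀ s : Bool, ((a, s) : SV W) ∈ S := by
    intro a ha s
    obtain ⟨x, hx, rfl⟩ := Finset.mem_image.1 ha
    obtain ⟨a, t⟩ := x
    by_cases hst : s = t
    · rw [hst]; exact hx
    · have := hS _ hx
      simp only [opp] at this
      rw [Bool.eq_not.2 hst]; exact this
  have hker : ∀ m : O → E d, Ψ (ext m) = 0 → m ⟨a0, ha0⟩ = 0 → m = 0 := by
    intro m hm hm0
    obtain ⟨A, b, hA, hAb⟩ := hR q hq (ext m) (hTM m hm)
    have h3 : ∀ a ∈ O, A (q a) = 0 := by
      intro a ha
      have e1 := hAb (a, true) (hbool a ha true)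
      have e2 := hAb (a, false) (hbool a ha false)
      simp only [pos, if_true, Bool.false_eq_true, if_false, map_neg] at e1 e2
      have e3 : A (q a) + b = - A (q a) + b := by rw [← e1, ← e2]
      have e4 : A (q a) = - A (q a) := add_right_cancel e3
      have e5 : (2 : ℝ) • A (q a) = 0 := by
        rw [two_smul]; exact eq_neg_iff_add_eq_zero.1 e4
      exact (smul_eq_zero.1 e5).resolve_left two_ne_zero
    have h4 : ∀ c, A c = 0 := by
      intro c
      apply h2 W d q hq M hMd
      intro a ha
      have := hA (q a) c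
      rw [h3 a (hMO ha), inner_zero_left] at this
      linarith
    have h5 : ∀ a (ha : a ∈ O), m ⟨a, ha⟩ = b := by
      intro a ha
      have e1 := hAb (a, true) (hbool a ha true)
      rw [h4, zero_add] at e1
      rw [← e1]
      exact (hext m a ha).symm
    have h6 : b = 0 := by rw [← h5 a0 ha0]; exact hm0
    funext a
    rw [h5 a.1 a.2, h6]; rfl
  let Φ := Ψ ∘ₗ ext
  have hrn := LinearMap.finrank_range_add_finrank_ker Φ
  have hr : Module.finrank ℝ (LinearMap.range Φ) ≤ G1.card := by
    refine (Submodule.finrank_le _).trans ?_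
    rw [Module.finrank_fintype_fun_eq_card, Fintype.card_coe]
  have hk : Module.finrank ℝ (LinearMap.ker Φ) ≤ d := by
    let L : LinearMap.ker Φ →ₗ[ℝ] E d :=
      (LinearMap.proj (⟨a0, ha0⟩ : O) : (O → E d) →ₗ[ℝ] E d) ∘ₗ (LinearMap.ker Φ).subtype
    have hL : Function.Injective L := by
      rw [← LinearMap.ker_eq_bot, LinearMap.ker_eq_bot']
      intro m hm
      apply Subtype.ext
      exact hker m.1 m.2 hm
    have := LinearMap.finrank_le_finrank_of_injective hL
    simpa using this
  have hdim : Module.finrank ℝ (O → E d) = O.card * d := by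
    simp [Module.finrank_pi_fintype]
  rw [hdim] at hrn
  have hfin : O.card * d ≤ G1.card + d := by
    rw [← hrn]; omega
  rw [hSO, hGG]
  nlinarith

end Pool.Agent.N525.CS
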