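import Pool.Agent.N525.CS.B5

set_option autoImplicit false

/-! Assembly (helper525). -/

namespace Pool.Agent.N525.CS

open Pool.Agent.N525.VR
open scoped RealInnerProductSpace

/-- free involutions are antipodal maps -/
theorem asm_inv (n : ℕ) (φ : Fin n → Fin n) (h1 : ∀ v, φ (φ v) = v) (h2 : ∀ v, φ v ≠ v) :
    ∃ (W : Type) (_ : Fintype W) (_ : DecidableEq W) (e : Fin n ≃ SV W), ∀ v, e (φ v) = opp (e v) := by
  let W : Type := {v : Fin n // v < φ v}
  have h3 : ∀ v, ¬ v < φ v → φ v < φ (φ v) := by
    intro v hv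
    rw [h1]
    exact lt_of_le_of_ne (not_lt.1 hv) (h2 v)
  let f : Fin n → SV W := fun v => if h : v < φ v then (⟨v, h⟩, true) else (⟨φ v, h3 v h⟩, false)
  let g : SV W → Fin n := fun x => if x.2 then x.1.1 else φ x.1.1
  have hgf : ∀ v, g (f v) = v := by
    intro v
    by_cases h : v < φ v
    · simp only [f, g, dif_pos h, if_true]
    · simp only [f, g, dif_neg h]
      simp [h1]
  have hfg : ∀ x, f (g x) = x := by
    rintro ⟨⟨v, hv⟩, b⟩
    cases b
    · have h4 : ¬ φ v < φ (φ v) := by rw [h1]; exact not_lt.2 hv.le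
      simp only [f, g]
      rw [dif_neg (by simpa using h4)]
      simp [h1]
    · simp only [f, g, if_true]
      rw [dif_pos hv]
  refine ⟨W, inferInstance, inferInstance, ⟨f, g, hgf, hfg⟩, ?_⟩
  intro v
  show f (φ v) = opp (f v)
  by_cases h : v < φ v
  · have h4 : ¬ φ v < φ (φ v) := by rw [h1]; exact not_lt.2 h.le
    simp only [f, dif_pos h, dif_neg h4, opp, h1, Bool.not_true]
  · have h4 := h3 v h
    simp only [f, dif_neg h, dif_pos h4, opp, Bool.not_false]

/-- proper faces of the convex hull of `X` -/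
def PF {d : ℕ} (X S : Finset (E d)) : Prop :=
  S ⊆ X ∧ S ≠ X ∧ ∃ (c : E d) (a : ℝ), (∀ x ∈ X, ⟪c, x⟫ ≤ a) ∧ ∀ x ∈ X, (⟪c, x⟫ = a ↔ x ∈ S)

theorem asm_PF {d : ℕ} (X S : Finset (E d)) (hX : X.Nonempty) (hneg : ∀ x ∈ X, -x ∈ X) :
    PF X S ↔ Supp X S := by
  constructor
  · rintro ⟨h1, h2, c, a, h3, h4⟩
    refine ⟨h1, ?_⟩
    have ha : 0 < a := by
      by_contra hcon
      push Not at hcon
      apply h2
      apply Finset.Subset.antisymm h1
      intro x hx
      rw [← h4 x hx]
      have h5 := h3 x hx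
      have h6 := h3 _ (hneg x hx)
      rw [inner_neg_right] at h6
      linarith
    refine ⟨a⁻¹ • c, fun x hx => ⟨fun hxS => ?_, fun hxS => ?_⟩⟩
    · rw [inner_smul_left, (h4 x hx).2 hxS]
      simp [ha.ne']
    · have h5 : ⟪c, x⟫ < a := lt_of_le_of_ne (h3 x hx) (fun h => hxS ((h4 x hx).1 h))
      rw [inner_smul_left]
      simp only [conj_trivial]
      rw [inv_mul_lt_iff₀ ha, mul_one]
      exact h5
  · rintro ⟨h1, c, h3⟩
    refine ⟨h1, ?_, c, 1, fun x hx => ?_, fun x hx => ⟨fun h => ?_, fun h => (h3 x hx).1 h⟩⟩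
    · rintro rfl
      obtain ⟨x, hx⟩ := hX
      have h4 := (h3 x hx).1 hx
      have h5 := (h3 _ (hneg x hx)).1 (hneg x hx)
      rw [inner_neg_right] at h5
      linarith
    · by_cases hxS : x ∈ S
      · exact ((h3 x hx).1 hxS).le
      · exact ((h3 x hx).2 hxS).le
    · by_contra hxS
      exact absurd h ((h3 x hx).2 hxS).ne

section
variable {V : Type} [Fintype V] [DecidableEq V]

theorem asm_min (d : ℕ) (hd : 1 ≤ d) (T : Finset (Finset V)) (hT : Sph0 d T) : MinCycle d T := by
  have hst : st T ∅ = T := by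
    unfold st
    exact Finset.filter_true_of_mem (fun F _ => Finset.empty_subset _)
  refine ⟨⟨hT.card, fun t ht => hT.cyc t ht (Finset.empty_subset _)⟩, hT.ne, ?_⟩
  intro Z hZ hne hcyc
  rw [← hst]
  refine hT.min ∅ Z (by simp; omega) (by rw [hst]; exact hZ) hne (fun t ht _ => hcyc.2 t ht)

end

/-- the two parts of the theorem, for complexes with an involution -/
theorem asm_main (hLB : S_LB) (hONLY : S_ONLY) (hCNT : S_CNT) (hSPH : S_SPH) (hTR : S_TRANS)
    (d : ℕ) (hd : 4 ≤ d) (n : ℕ) (K : Cx n) (hv : ∀ v, {v} ∈ K.faces)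
    (hK : Nonempty (K.space ≃ₜ Metric.sphere (0 : E d) 1)) (φ : Fin n → Fin n)
    (h1 : ∀ v, φ (φ v) = v) (h2 : ∀ F ∈ K.faces, F.image φ ∈ K.faces)
    (h3 : ∀ F ∈ K.faces, F.Nonempty → F.image φ ≠ F) :
    d * n ≤ (K.faces.filter (fun F => F.card = 2)).card + 2 * d ∧
    ((K.faces.filter (fun F => F.card = 2)).card + 2 * d = d * n →
      ∃ (X : Finset (E d)) (f : Fin n → E d), Stacked d X ∧ Function.Injective f ∧
        X = Finset.univ.image f ∧ (∀ S, S ∈ K.faces ↔ PF X (S.image f)) ∧ ∀ v, f (φ v) = - f v) ∧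
    (∀ (X : Finset (E d)) (f : Fin n → E d), Stacked d X → Function.Injective f →
        X = Finset.univ.image f → (∀ S, S ∈ K.faces ↔ PF X (S.image f)) →
        (K.faces.filter (fun F => F.card = 2)).card + 2 * d = d * n) := by
  classical
  have hfree : ∀ v, φ v ≠ v := by
    intro v hv'
    apply h3 {v} (hv v) (Finset.singleton_nonempty v)
    rw [Finset.image_singleton, hv']
  obtain ⟨W, _, _, e, he⟩ := asm_inv n φ h1 hfree
  obtain ⟨hS0, hpure⟩ := hSPH n d K (by omega) hv hK
  set T : Finset (Finset (SV W)) := (K.fc d).image (fun F => F.image e) with hTdef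
  have hT0 : Sph0 d T := hTR (Fin n) (SV W) e d (K.fc d) hS0
  have hfc : ∀ F, F ∈ K.fc d ↔ F ∈ K.faces ∧ F.card = d := by
    intro F
    unfold Cx.fc
    rw [Finset.mem_filter]
  have hφinj : Function.Injective φ := by
    intro x y hxy
    have := congrArg φ hxy
    rwa [h1, h1] at this
  have himg : ∀ F : Finset (Fin n), (F.image e).image opp = (F.image φ).image e := by
    intro F
    rw [Finset.image_image, Finset.image_image]
    apply Finset.image_congr
    intro v _
    exact (he v).symm
  have hsym : Sym T := by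
    constructor
    · intro F hF
      obtain ⟨F', hF', rfl⟩ := Finset.mem_image.1 hF
      obtain ⟨h4, h5⟩ := (hfc F').1 hF'
      rw [himg]
      exact Finset.mem_image.2 ⟨F'.image φ, (hfc _).2 ⟨h2 F' h4, by
        rw [Finset.card_image_of_injective _ hφinj, h5]⟩, rfl⟩
    · intro F hF x hx hox
      obtain ⟨F', hF', rfl⟩ := Finset.mem_image.1 hF
      obtain ⟨v, hvF, rfl⟩ := Finset.mem_image.1 hx
      rw [← he] at hox
      obtain ⟨v', hv', hv''⟩ := Finset.mem_image.1 hox
      have h4 := e.injective hv''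
      have hsub : ({v, φ v} : Finset (Fin n)) ⊆ F' := by
        intro z hz
        rcases Finset.mem_insert.1 hz with rfl | hz
        · exact hvF
        · rw [Finset.mem_singleton.1 hz, ← h4]; exact hv'
      have hface := K.down F' ((hfc F').1 hF').1 _ hsub
      refine h3 _ hface ⟨v, Finset.mem_insert_self _ _⟩ ?_
      rw [Finset.image_insert, Finset.image_singleton, h1, Finset.pair_comm]
  have hface : ∀ S : Finset (Fin n), S ∈ K.faces ↔ face T (S.image e) := by
    intro S
    constructor
    · intro hS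
      obtain ⟨F, hF, hSF⟩ := hpure S hS
      exact ⟨F.image e, Finset.mem_image_of_mem _ hF, Finset.image_subset_image hSF⟩
    · rintro ⟨G, hG, hSG⟩
      obtain ⟨F, hF, rfl⟩ := Finset.mem_image.1 hG
      refine K.down F ((hfc F).1 hF).1 S ?_
      intro x hx
      obtain ⟨y, hy, hxy⟩ := Finset.mem_image.1 (hSG (Finset.mem_image_of_mem _ hx))
      rw [← e.injective hxy]; exact hy
  have hvs : vs T = Finset.univ := by
    apply Finset.eq_univ_of_forall
    intro x
    obtain ⟨F, hF, hxF⟩ := (hface {e.symm x}).1 (hv _)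
    rw [B5_mem_vs]
    refine ⟨F, hF, hxF ?_⟩
    simp
  have hvc : (vs T).card = n := by
    rw [hvs, Finset.card_univ, ← Fintype.card_congr e, Fintype.card_fin]
  have heg : (eg T).card = (K.faces.filter (fun F => F.card = 2)).card := by
    have : eg T = (K.faces.filter (fun F => F.card = 2)).image (fun F => F.image e) := by
      ext s
      unfold eg
      rw [Finset.mem_filter, Finset.mem_image]
      constructor
      · rintro ⟨_, h4, h5⟩
        have hs : (s.image e.symm).image e = s := by
          rw [Finset.image_image]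
          simp
        refine ⟨s.image e.symm, Finset.mem_filter.2 ⟨?_, ?_⟩, hs⟩
        · rw [hface, hs]; exact h5
        · rw [Finset.card_image_of_injective _ e.symm.injective, h4]
      · rintro ⟨F, hF, rfl⟩
        obtain ⟨h4, h5⟩ := Finset.mem_filter.1 hF
        refine ⟨Finset.mem_univ _, ?_, (hface F).1 h4⟩
        rw [Finset.card_image_of_injective _ e.injective, h5]
    rw [this, Finset.card_image_of_injective]
    exact Finset.image_injective e.injective
  refine ⟨?_, ?_, ?_⟩
  · have := hLB W d (by omega) T (asm_min d (by omega) T hT0) hsym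
    rw [hvc, heg] at this
    exact this
  · intro heq
    obtain ⟨X, f, hst, hsimp, hf1, hf2, hf3, hf4⟩ := hONLY W d hd T ⟨hT0, hsym⟩ (by
      unfold Eq0; rw [hvc, heg]; exact heq)
    have hinj : Function.Injective f := by
      intro x y hxy
      exact hf2 (by rw [hvs]; exact Finset.mem_coe.2 (Finset.mem_univ _))
        (by rw [hvs]; exact Finset.mem_coe.2 (Finset.mem_univ _)) hxy
    have hXim : X = Finset.univ.image (fun v => f (e v)) := by
      rw [hf3, hvs]
      ext x
      simp only [Finset.mem_image, Finset.mem_univ, true_and]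
      constructor
      · rintro ⟨y, rfl⟩
        exact ⟨e.symm y, by rw [e.apply_symm_apply]⟩
      · rintro ⟨v, rfl⟩
        exact ⟨e v, rfl⟩
    have hXne : X.Nonempty := by
      obtain ⟨F, hF⟩ := hT0.ne
      have hFc := hT0.card F hF
      obtain ⟨x, hx⟩ : F.Nonempty := Finset.card_pos.1 (by omega)
      rw [hf3, hvs]
      exact ⟨f x, Finset.mem_image_of_mem _ (Finset.mem_univ _)⟩
    refine ⟨X, fun v => f (e v), hst, hinj.comp e.injective, hXim, ?_, ?_⟩
    · intro S
      rw [hface, hf4 _ (by rw [hvs]; exact Finset.subset_univ _), asm_PF X _ hXne hsimp.neg,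
        Finset.image_image]
      rfl
    · intro v
      show f (e (φ v)) = - f (e v)
      rw [he, hf1]
  · intro X f hst hinj hXim hfaces
    obtain ⟨hsimp, hcard, hcnt⟩ := hCNT d X (by omega) hst
    have hXc : X.card = n := by
      rw [hXim, Finset.card_image_of_injective _ hinj, Finset.card_univ, Fintype.card_fin]
    have hXne : X.Nonempty := Finset.card_pos.1 (by omega)
    have h4 := hcnt ((K.faces.filter (fun F => F.card = 2)).image (fun F => F.image f)) (by
      intro s
      rw [Finset.mem_image]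
      constructor
      · rintro ⟨F, hF, rfl⟩
        obtain ⟨h4, h5⟩ := Finset.mem_filter.1 hF
        refine ⟨by rw [Finset.card_image_of_injective _ hinj, h5], ?_⟩
        rw [← asm_PF X _ hXne hsimp.neg]
        exact (hfaces F).1 h4
      · rintro ⟨h4, h5⟩
        have hsX : s ⊆ X := h5.1
        obtain ⟨F, _, hFs⟩ := Finset.subset_image_iff.1 (hXim ▸ hsX)
        refine ⟨F, Finset.mem_filter.2 ⟨?_, ?_⟩, hFs⟩
        · rw [hfaces, hFs, asm_PF X _ hXne hsimp.neg]
          exact h5
        · rw [← h4, ← hFs, Finset.card_image_of_injective _ hinj])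
    rw [Finset.card_image_of_injective _ (Finset.image_injective hinj), hXc] at h4
    exact h4

end Pool.Agent.N525.CS
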