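import Pool.Agent.N525.CS.Stm

set_option autoImplicit false
set_option linter.unusedSectionVars false

/-! Part B1 (helper360): lifting minimal cycles. -/

namespace Pool.Agent.N525.CS

open Pool.Agent.N525.VR

variable {V : Type} [Fintype V] [DecidableEq V]

/-- the sets `K` of the added simplices -/
def B1_lam (e : ℕ) (L : Finset (Finset V)) (u v : V) : Finset (Finset V) :=
  (Finset.univ : Finset (Finset V)).filter (fun K => K.card + 2 = e ∧ u ∉ K ∧ v ∉ K ∧
    Odd (L.filter (fun F => insert u K ⊆ F)).card)

theorem B1_addL_eq (e : ℕ) (L : Finset (Finset V)) (u v : V) :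
    addL e L u v = (B1_lam e L u v).image (fun K => insert u (insert v K)) := rfl

omit [Fintype V] in
theorem B1_bij (L : Finset (Finset V)) (u v : V) (hinj : Set.InjOn (con u v) L)
    (Q : Finset V → Prop) [DecidablePred Q] :
    (L.filter (fun F => Q (con u v F))).card = ((L.image (con u v)).filter Q).card := by
  rw [Finset.filter_image, Finset.card_image_of_injOn]
  exact hinj.mono (fun x hx => (Finset.mem_filter.1 hx).1)

omit [Fintype V] in
theorem B1_con_sub (u v : V) (F t : Finset V) (hu : u ∉ t) (hv : v ∉ t) :
    t ⊆ con u v F ↔ t ⊆ F := by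
  unfold con
  split_ifs with h
  · constructor
    · intro ht x hx
      have := ht hx
      rw [Finset.mem_insert, Finset.mem_erase] at this
      rcases this with rfl | h
      · exact absurd hx hu
      · exact h.2
    · intro ht x hx
      rw [Finset.mem_insert, Finset.mem_erase]
      exact Or.inr ⟨fun e => hv (e ▸ hx), ht hx⟩
  · exact Iff.rfl

omit [Fintype V] in
theorem B1_u_mem_con (u v : V) (F : Finset V) : u ∈ con u v F ↔ u ∈ F ∨ v ∈ F := by
  unfold con
  split_ifs with h
  · simp [h]
  · simp [h]

omit [Fintype V] in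
theorem B1_v_mem_con (u v : V) (huv : u ≠ v) (F : Finset V) : v ∉ con u v F := by
  unfold con
  split_ifs with h
  · simp [huv.symm]
  · exact h

omit [Fintype V] in
theorem B1_con_card (u v : V) (F : Finset V) {e : ℕ} (hF : F.card = e)
    (h : ¬ (u ∈ F ∧ v ∈ F)) : (con u v F).card = e := by
  unfold con
  split_ifs with hv
  · have hu : u ∉ F.erase v := fun hu => h ⟨Finset.mem_of_mem_erase hu, hv⟩
    have hpos : 0 < F.card := Finset.card_pos.2 ⟨v, hv⟩
    rw [Finset.card_insert_of_notMem hu, Finset.card_erase_of_mem hv]
    omega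
  · exact hF

omit [Fintype V] in
theorem B1_split (u v : V) (F s : Finset V) (hu : u ∉ s) (hv : v ∉ s) (hF : ¬ (u ∈ F ∧ v ∈ F)) :
    ((if insert u s ⊆ con u v F then 1 else 0 : ZMod 2)) =
      (if insert u s ⊆ F then 1 else 0) + (if insert v s ⊆ F then 1 else 0) := by
  simp only [Finset.insert_subset_iff, B1_con_sub u v F s hu hv, B1_u_mem_con]
  by_cases h1 : u ∈ F <;> by_cases h2 : v ∈ F <;> by_cases h3 : s ⊆ F <;> simp_all

theorem B1_even_iff (n : ℕ) : Even n ↔ (n : ZMod 2) = 0 := by
  rw [ZMod.natCast_eq_zero_iff_even]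

theorem B1_odd_iff (n : ℕ) : Odd n ↔ (n : ZMod 2) = 1 := by
  rw [ZMod.natCast_eq_one_iff_odd]

omit [Fintype V] in
/-- the count at `u s` in the contraction is the sum of the counts at `u s` and `v s` -/
theorem B1_sum (L : Finset (Finset V)) (u v : V)
    (hL : ∀ F ∈ L, ¬ (u ∈ F ∧ v ∈ F)) (hinj : Set.InjOn (con u v) L)
    (s : Finset V) (hu : u ∉ s) (hv : v ∉ s) :
    ((((L.image (con u v)).filter (fun F => insert u s ⊆ F)).card : ZMod 2)) =
    ((L.filter (fun F => insert u s ⊆ F)).card : ZMod 2) +
      ((L.filter (fun F => insert v s ⊆ F)).card : ZMod 2) := by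
  rw [← B1_bij L u v hinj (fun G => insert u s ⊆ G), Finset.natCast_card_filter,
    Finset.natCast_card_filter, Finset.natCast_card_filter, ← Finset.sum_add_distrib]
  refine Finset.sum_congr rfl fun F hF => ?_
  rw [B1_split u v F s hu hv (hL F hF)]

theorem B1_two {d : ℕ} (F e : Finset V) (u v : V) (hF : F.card = d) (hFu : u ∈ F) (hFv : v ∉ F)
    (he : e.card + 3 = d) (heu : u ∉ e) (heF : e ⊆ F) :
    ((Finset.univ : Finset (Finset V)).filter (fun K => (K.card + 2 = d ∧ u ∉ K ∧ v ∉ K ∧ e ⊆ K) ∧
      insert u K ⊆ F)).card = 2 := by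
  have h1 : ((Finset.univ : Finset (Finset V)).filter (fun K => (K.card + 2 = d ∧ u ∉ K ∧ v ∉ K ∧
      e ⊆ K) ∧ insert u K ⊆ F)) = ((F.erase u) \ e).image (fun x => insert x e) := by
    ext K
    simp only [Finset.mem_filter, Finset.mem_univ, true_and, Finset.mem_image, Finset.mem_sdiff,
      Finset.mem_erase]
    constructor
    · rintro ⟨⟨h3, hu, hv, heK⟩, hK⟩
      have hc : (K \ e).card = 1 := by
        rw [Finset.card_sdiff_of_subset heK]
        omega
      obtain ⟨x, hx⟩ := Finset.card_eq_one.1 hc
      have hxK : x ∈ K \ e := by rw [hx]; simp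
      rw [Finset.mem_sdiff] at hxK
      refine ⟨x, ⟨⟨fun h => hu (h ▸ hxK.1), hK (Finset.mem_insert_of_mem hxK.1)⟩, hxK.2⟩, ?_⟩
      rw [← Finset.sdiff_union_of_subset heK, hx]
      rfl
    · rintro ⟨x, ⟨⟨hxu, hxF⟩, hxe⟩, rfl⟩
      refine ⟨⟨?_, ?_, ?_, Finset.subset_insert _ _⟩, ?_⟩
      · rw [Finset.card_insert_of_notMem hxe]
        omega
      · rw [Finset.mem_insert, not_or]; exact ⟨fun h => hxu h.symm, heu⟩
      · rw [Finset.mem_insert, not_or]; exact ⟨fun h => hFv (h ▸ hxF), fun h => hFv (heF h)⟩
      · rw [Finset.insert_subset_iff, Finset.insert_subset_iff]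
        exact ⟨hFu, hxF, heF⟩
  rw [h1, Finset.card_image_of_injOn, Finset.card_sdiff_of_subset, Finset.card_erase_of_mem hFu, hF]
  · omega
  · intro x hx
    rw [Finset.mem_erase]
    exact ⟨fun h => heu (h ▸ hx), heF hx⟩
  · intro x hx y hy hxy
    simp only [Finset.coe_sdiff, Set.mem_sdiff, Finset.mem_coe] at hx hy
    have : x ∈ insert y e := by
      have hxy' : insert x e = insert y e := hxy
      rw [← hxy']; exact Finset.mem_insert_self _ _
    rw [Finset.mem_insert] at this
    rcases this with h | h
    · exact h
    · exact absurd h hx.2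

theorem B1_added_even {d : ℕ} (L : Finset (Finset V)) (u v : V)
    (hL : ∀ F ∈ L, F.card = d ∧ ¬ (u ∈ F ∧ v ∈ F))
    (e : Finset V) (he : e.card + 3 = d) (hu : u ∉ e) :
    Even ((B1_lam d L u v).filter (fun K => e ⊆ K)).card := by
  unfold B1_lam
  rw [B1_even_iff, Finset.filter_filter, Finset.natCast_card_filter]
  have h1 : ∀ K : Finset V, (if (K.card + 2 = d ∧ u ∉ K ∧ v ∉ K ∧
      Odd (L.filter (fun F => insert u K ⊆ F)).card) ∧ e ⊆ K then (1 : ZMod 2) else 0)
      = ∑ F ∈ L, if (K.card + 2 = d ∧ u ∉ K ∧ v ∉ K ∧ e ⊆ K) ∧ insert u K ⊆ F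
          then 1 else 0 := by
    intro K
    by_cases hK : K.card + 2 = d ∧ u ∉ K ∧ v ∉ K ∧ e ⊆ K
    · simp only [hK, true_and, not_false_iff, and_true]
      rw [← Finset.natCast_card_filter]
      rcases Nat.even_or_odd (L.filter (fun F => insert u K ⊆ F)).card with h | h
      · rw [if_neg (by rwa [Nat.not_odd_iff_even]), (B1_even_iff _).1 h]
      · rw [if_pos h, (B1_odd_iff _).1 h]
    · rw [if_neg (by tauto)]
      symm
      apply Finset.sum_eq_zero
      intro F _
      rw [if_neg (by tauto)]
  rw [Finset.sum_congr rfl fun K _ => h1 K, Finset.sum_comm]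
  apply Finset.sum_eq_zero
  intro F hF
  have hF' := hL F hF
  rw [← Finset.natCast_card_filter]
  by_cases hFu : u ∈ F
  · by_cases heF : e ⊆ F
    · rw [B1_two F e u v hF'.1 hFu (fun hv => hF'.2 ⟨hFu, hv⟩) he hu heF]
      rfl
    · rw [Finset.card_eq_zero.2]
      · simp
      · rw [Finset.filter_eq_empty_iff]
        rintro K _ ⟨hK, hK2⟩
        exact heF (hK.2.2.2.trans ((Finset.subset_insert _ _).trans hK2))
  · rw [Finset.card_eq_zero.2]
    · simp
    · rw [Finset.filter_eq_empty_iff]
      rintro K _ ⟨hK, hK2⟩
      exact hFu (hK2 (Finset.mem_insert_self _ _))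

omit [Fintype V] in
theorem B1_erase2 (u v : V) (huv : u ≠ v) (K : Finset V) (h1 : u ∉ K) (h2 : v ∉ K) :
    ((insert u (insert v K)).erase u).erase v = K := by
  rw [Finset.erase_insert, Finset.erase_insert h2]
  rw [Finset.mem_insert, not_or]
  exact ⟨huv, h1⟩

theorem B1_mem_addL {e : ℕ} {L : Finset (Finset V)} {u v : V} {F : Finset V}
    (hF : F ∈ addL e L u v) : ∃ K : Finset V, K.card + 2 = e ∧ u ∉ K ∧ v ∉ K ∧
      F = insert u (insert v K) := by
  rw [B1_addL_eq, Finset.mem_image] at hF
  obtain ⟨K, hK, rfl⟩ := hF
  rw [B1_lam, Finset.mem_filter] at hK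
  exact ⟨K, hK.2.1, hK.2.2.1, hK.2.2.2.1, rfl⟩

theorem B1_cycle {d : ℕ} (L : Finset (Finset V)) (u v : V) (huv : u ≠ v)
    (hL : ∀ F ∈ L, F.card = d ∧ ¬ (u ∈ F ∧ v ∈ F)) (hinj : Set.InjOn (con u v) L)
    (hY : IsCycle d (L.image (con u v))) : IsCycle d (L ∪ addL d L u v) := by
  constructor
  · intro F hF
    rw [Finset.mem_union] at hF
    rcases hF with hF | hF
    · exact (hL F hF).1
    · obtain ⟨K, hK, hu, hv, rfl⟩ := B1_mem_addL hF
      rw [Finset.card_insert_of_notMem, Finset.card_insert_of_notMem hv]
      · omega
      · rw [Finset.mem_insert, not_or]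
        exact ⟨huv, hu⟩
  · intro t ht
    have hdisj : Disjoint L (addL d L u v) := by
      rw [Finset.disjoint_left]
      intro F hF hF2
      obtain ⟨K, _, _, _, rfl⟩ := B1_mem_addL hF2
      exact (hL _ hF).2 ⟨by simp, by simp⟩
    set KK := B1_lam d L u v with hKK
    have hadd : ((addL d L u v).filter (fun F => t ⊆ F)).card =
        (KK.filter (fun K => t ⊆ insert u (insert v K))).card := by
      rw [B1_addL_eq, Finset.filter_image, Finset.card_image_of_injOn]
      intro K hK K' hK' he
      simp only [Finset.coe_filter, Set.mem_ofPred_eq, B1_lam, Finset.mem_filter,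
        Finset.mem_univ, true_and] at hK hK'
      have he' : insert u (insert v K) = insert u (insert v K') := he
      rw [← B1_erase2 u v huv K hK.1.2.1 hK.1.2.2.1, he',
        B1_erase2 u v huv K' hK'.1.2.1 hK'.1.2.2.1]
    rw [Finset.filter_union, Finset.card_union_of_disjoint
      (Finset.disjoint_filter_filter hdisj), hadd, B1_even_iff, Nat.cast_add]
    have hone : ∀ s : Finset V, s.card + 2 = d → u ∉ s → v ∉ s →
        ((KK.filter (fun K => s ⊆ K)).card : ZMod 2) =
          ((L.filter (fun F => insert u s ⊆ F)).card : ZMod 2) := by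
      intro s hs hus hvs
      have h1 : KK.filter (fun K => s ⊆ K) =
          if Odd (L.filter (fun F => insert u s ⊆ F)).card then {s} else ∅ := by
        ext K
        rw [Finset.mem_filter, hKK, B1_lam, Finset.mem_filter]
        constructor
        · rintro ⟨⟨_, h3, _, _, ho⟩, hsK⟩
          have : s = K := Finset.eq_of_subset_of_card_le hsK (by omega)
          subst this
          rw [if_pos ho]; simp
        · intro hK
          split_ifs at hK with ho
          · rw [Finset.mem_singleton] at hK
            subst hK
            exact ⟨⟨Finset.mem_univ _, hs, hus, hvs, ho⟩, Finset.Subset.refl _⟩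
          · simp at hK
      rw [h1]
      split_ifs with ho
      · rw [(B1_odd_iff _).1 ho]; simp
      · rw [Nat.not_odd_iff_even, B1_even_iff] at ho
        rw [ho]; simp
    by_cases hu : u ∈ t <;> by_cases hv : v ∈ t
    · have h0 : L.filter (fun F => t ⊆ F) = ∅ := by
        rw [Finset.filter_eq_empty_iff]
        intro F hF htF
        exact (hL F hF).2 ⟨htF hu, htF hv⟩
      have he : ((t.erase u).erase v).card + 3 = d := by
        have hv' : v ∈ t.erase u := Finset.mem_erase.2 ⟨huv.symm, hv⟩
        have h2 : 0 < (t.erase u).card := Finset.card_pos.2 ⟨v, hv'⟩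
        rw [Finset.card_erase_of_mem hv']
        rw [Finset.card_erase_of_mem hu] at h2 ⊢
        omega
      have h1 := B1_added_even L u v hL ((t.erase u).erase v) he (by simp)
      rw [← hKK, B1_even_iff] at h1
      rw [h0, Finset.card_empty, Nat.cast_zero, zero_add, ← h1]
      congr 2
      apply Finset.filter_congr
      intro K hK
      constructor
      · intro htK x hx
        rw [Finset.mem_erase, Finset.mem_erase] at hx
        have := htK hx.2.2
        rw [Finset.mem_insert, Finset.mem_insert] at this
        tauto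
      · intro hK x hx
        rw [Finset.mem_insert, Finset.mem_insert]
        by_cases hxu : x = u
        · exact Or.inl hxu
        by_cases hxv : x = v
        · exact Or.inr (Or.inl hxv)
        · exact Or.inr (Or.inr (hK (Finset.mem_erase.2 ⟨hxv, Finset.mem_erase.2 ⟨hxu, hx⟩⟩)))
    · have hs : (t.erase u).card + 2 = d := by
        have : 0 < t.card := Finset.card_pos.2 ⟨u, hu⟩
        rw [Finset.card_erase_of_mem hu]; omega
      have hts : insert u (t.erase u) = t := Finset.insert_erase hu
      have hus : u ∉ t.erase u := by simp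
      have hvs : v ∉ t.erase u := fun h => hv (Finset.mem_of_mem_erase h)
      have h1 := hone (t.erase u) hs hus hvs
      rw [hts] at h1
      have h2 : KK.filter (fun K => t ⊆ insert u (insert v K)) =
          KK.filter (fun K => t.erase u ⊆ K) := by
        apply Finset.filter_congr
        intro K hK
        constructor
        · intro htK x hx
          have := htK (Finset.mem_of_mem_erase hx)
          rw [Finset.mem_insert, Finset.mem_insert] at this
          rcases this with rfl | rfl | h
          · exact absurd hx hus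
          · exact absurd hx hvs
          · exact h
        · intro hK x hx
          rw [Finset.mem_insert, Finset.mem_insert]
          by_cases hxu : x = u
          · exact Or.inl hxu
          · exact Or.inr (Or.inr (hK (Finset.mem_erase.2 ⟨hxu, hx⟩)))
      rw [h2, h1]
      exact CharTwo.add_self_eq_zero _
    · have hs : (t.erase v).card + 2 = d := by
        have : 0 < t.card := Finset.card_pos.2 ⟨v, hv⟩
        rw [Finset.card_erase_of_mem hv]; omega
      have hts : insert v (t.erase v) = t := Finset.insert_erase hv
      have hvs : v ∉ t.erase v := by simp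
      have hus : u ∉ t.erase v := fun h => hu (Finset.mem_of_mem_erase h)
      have h1 := hone (t.erase v) hs hus hvs
      have h3 := B1_sum L u v (fun F hF => (hL F hF).2) hinj (t.erase v) hus hvs
      have h4 := hY.2 (insert u (t.erase v)) (by rw [Finset.card_insert_of_notMem hus]; omega)
      rw [B1_even_iff, h3, hts] at h4
      have h2 : KK.filter (fun K => t ⊆ insert u (insert v K)) =
          KK.filter (fun K => t.erase v ⊆ K) := by
        apply Finset.filter_congr
        intro K hK
        constructor
        · intro htK x hx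
          have := htK (Finset.mem_of_mem_erase hx)
          rw [Finset.mem_insert, Finset.mem_insert] at this
          rcases this with rfl | rfl | h
          · exact absurd hx hus
          · exact absurd hx hvs
          · exact h
        · intro hK x hx
          rw [Finset.mem_insert, Finset.mem_insert]
          by_cases hxv : x = v
          · exact Or.inr (Or.inl hxv)
          · exact Or.inr (Or.inr (hK (Finset.mem_erase.2 ⟨hxv, hx⟩)))
      rw [h2, h1, add_comm]
      exact h4
    · have h0 : KK.filter (fun K => t ⊆ insert u (insert v K)) = ∅ := by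
        rw [Finset.filter_eq_empty_iff]
        intro K hK htK
        rw [hKK, B1_lam, Finset.mem_filter] at hK
        have : t ⊆ K := by
          intro x hx
          have := htK hx
          rw [Finset.mem_insert, Finset.mem_insert] at this
          rcases this with rfl | rfl | h
          · exact absurd hx hu
          · exact absurd hx hv
          · exact h
        have := Finset.card_le_card this
        have h5 := hK.2.1
        omega
      have h1 := hY.2 t ht
      rw [← B1_bij L u v hinj (fun G => t ⊆ G), B1_even_iff] at h1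
      rw [h0, Finset.card_empty, Nat.cast_zero, add_zero, ← h1]
      congr 2
      apply Finset.filter_congr
      intro F hF
      exact (B1_con_sub u v F t hu hv).symm

theorem B1_sdiff {d : ℕ} {C A : Finset (Finset V)} (hC : IsCycle d C) (hA : IsCycle d A)
    (hAC : A ⊆ C) : IsCycle d (C \ A) := by
  refine ⟨fun F hF => hC.1 F (Finset.mem_sdiff.1 hF).1, fun t ht => ?_⟩
  have h1 := hC.2 t ht
  have h2 := hA.2 t ht
  have h3 : ((C \ A).filter (fun F => t ⊆ F)).card + (A.filter (fun F => t ⊆ F)).card =
      (C.filter (fun F => t ⊆ F)).card := by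
    rw [← Finset.card_union_of_disjoint, ← Finset.filter_union, Finset.sdiff_union_of_subset hAC]
    exact Finset.disjoint_filter_filter Finset.sdiff_disjoint
  rw [← h3] at h1
  exact (Nat.even_add.1 h1).2 h2

omit [Fintype V] in
/-- the members of a set of added simplices over a ridge -/
theorem B1_filter_add {u v : V} {e : ℕ} {A : Finset (Finset V)}
    (hA : ∀ F ∈ A, ∃ K : Finset V, K.card + 2 = e ∧ u ∉ K ∧ v ∉ K ∧ F = insert u (insert v K))
    (w w' : V) (hw : (w = u ∧ w' = v) ∨ (w = v ∧ w' = u)) (huv : u ≠ v)
    (s : Finset V) (hs : s.card + 2 = e) (hu : u ∉ s) (hv : v ∉ s) :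
    A.filter (fun F => insert w s ⊆ F) =
      if insert u (insert v s) ∈ A then {insert u (insert v s)} else ∅ := by
  ext F
  rw [Finset.mem_filter]
  constructor
  · rintro ⟨hF, hsF⟩
    obtain ⟨K, hK, huK, hvK, rfl⟩ := hA F hF
    have hsK : s = K := by
      refine Finset.eq_of_subset_of_card_le (fun x hx => ?_) (by omega)
      have := hsF (Finset.mem_insert_of_mem hx)
      rw [Finset.mem_insert, Finset.mem_insert] at this
      rcases this with rfl | rfl | h
      · exact absurd hx hu
      · exact absurd hx hv
      · exact h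
    subst hsK
    rw [if_pos hF]; simp
  · intro hF
    split_ifs at hF with h
    · rw [Finset.mem_singleton] at hF
      subst hF
      refine ⟨h, ?_⟩
      rw [Finset.insert_subset_iff]
      rcases hw with ⟨rfl, rfl⟩ | ⟨rfl, rfl⟩
      · exact ⟨by simp, fun x hx => by simp [hx]⟩
      · exact ⟨by simp, fun x hx => by simp [hx]⟩
    · simp at hF

/-- no nonempty cycle consists of added simplices -/
theorem B1_noadd {e : ℕ} {u v : V} (huv : u ≠ v) {A : Finset (Finset V)}
    (hA : ∀ F ∈ A, ∃ K : Finset V, K.card + 2 = e ∧ u ∉ K ∧ v ∉ K ∧ F = insert u (insert v K))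
    (hc : IsCycle e A) : A = ∅ := by
  by_contra hne
  obtain ⟨F, hF⟩ := Finset.nonempty_iff_ne_empty.2 hne
  obtain ⟨K, hK, huK, hvK, rfl⟩ := hA F hF
  have h1 := hc.2 (insert u K) (by rw [Finset.card_insert_of_notMem huK]; omega)
  rw [B1_filter_add hA u v (Or.inl ⟨rfl, rfl⟩) huv K hK huK hvK, if_pos hF] at h1
  simp at h1

theorem B1_sub_cycle {e : ℕ} (L : Finset (Finset V)) (u v : V) (huv : u ≠ v)
    (hL : ∀ F ∈ L, F.card = e ∧ ¬ (u ∈ F ∧ v ∈ F)) (hinj : Set.InjOn (con u v) L)
    (A : Finset (Finset V))
    (hA : ∀ F ∈ A, ∃ K : Finset V, K.card + 2 = e ∧ u ∉ K ∧ v ∉ K ∧ F = insert u (insert v K))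
    (hX : IsCycle e (L ∪ A)) : IsCycle e (L.image (con u v)) := by
  have hdisj : Disjoint L A := by
    rw [Finset.disjoint_left]
    intro F hF hF2
    obtain ⟨K, _, _, _, rfl⟩ := hA F hF2
    exact (hL _ hF).2 ⟨by simp, by simp⟩
  have hcount : ∀ t : Finset V, t.card + 1 = e →
      ((L.filter (fun F => t ⊆ F)).card : ZMod 2) + ((A.filter (fun F => t ⊆ F)).card : ZMod 2)
        = 0 := by
    intro t ht
    have h1 := hX.2 t ht
    rw [Finset.filter_union, Finset.card_union_of_disjoint
      (Finset.disjoint_filter_filter hdisj), B1_even_iff, Nat.cast_add] at h1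
    exact h1
  constructor
  · intro G hG
    rw [Finset.mem_image] at hG
    obtain ⟨F, hF, rfl⟩ := hG
    exact B1_con_card u v F (hL F hF).1 (hL F hF).2
  · intro t ht
    by_cases hv : v ∈ t
    · have : (L.image (con u v)).filter (fun F => t ⊆ F) = ∅ := by
        rw [Finset.filter_eq_empty_iff]
        intro G hG htG
        rw [Finset.mem_image] at hG
        obtain ⟨F, hF, rfl⟩ := hG
        exact B1_v_mem_con u v huv F (htG hv)
      rw [this]; simp
    by_cases hu : u ∈ t
    · have hpos : 0 < t.card := Finset.card_pos.2 ⟨u, hu⟩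
      have hs : (t.erase u).card + 2 = e := by
        rw [Finset.card_erase_of_mem hu]; omega
      have hts : insert u (t.erase u) = t := Finset.insert_erase hu
      have hus : u ∉ t.erase u := by simp
      have hvs : v ∉ t.erase u := fun h => hv (Finset.mem_of_mem_erase h)
      have h1 := B1_sum L u v (fun F hF => (hL F hF).2) hinj (t.erase u) hus hvs
      have h2 := hcount (insert u (t.erase u)) (by rw [Finset.card_insert_of_notMem hus]; omega)
      have h3 := hcount (insert v (t.erase u)) (by rw [Finset.card_insert_of_notMem hvs]; omega)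
      rw [B1_filter_add hA u v (Or.inl ⟨rfl, rfl⟩) huv _ hs hus hvs] at h2
      rw [B1_filter_add hA v u (Or.inr ⟨rfl, rfl⟩) huv _ hs hus hvs] at h3
      rw [B1_even_iff]
      conv_lhs => rw [← hts]
      rw [h1]
      generalize ((if insert u (insert v (t.erase u)) ∈ A then
        ({insert u (insert v (t.erase u))} : Finset (Finset V)) else ∅).card : ZMod 2) = c at h2 h3
      generalize ((L.filter (fun F => insert u (t.erase u) ⊆ F)).card : ZMod 2) = a at h2 ⊢
      generalize ((L.filter (fun F => insert v (t.erase u) ⊆ F)).card : ZMod 2) = b at h3 ⊢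
      have hc : c + c = 0 := CharTwo.add_self_eq_zero c
      linear_combination h2 + h3 - hc
    · have h1 := hcount t ht
      have h0 : A.filter (fun F => t ⊆ F) = ∅ := by
        rw [Finset.filter_eq_empty_iff]
        intro F hF htF
        obtain ⟨K, hK, huK, hvK, rfl⟩ := hA F hF
        have : t ⊆ K := by
          intro x hx
          have := htF hx
          rw [Finset.mem_insert, Finset.mem_insert] at this
          rcases this with rfl | rfl | h
          · exact absurd hx hu
          · exact absurd hx hv
          · exact h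
        have := Finset.card_le_card this
        omega
      rw [h0, Finset.card_empty, Nat.cast_zero, add_zero] at h1
      rw [← B1_bij L u v hinj (fun G => t ⊆ G), B1_even_iff, ← h1]
      congr 2
      apply Finset.filter_congr
      intro F hF
      exact B1_con_sub u v F t hu hv

theorem t_LIFT : S_LIFT := by
  intro V _ _ e he L u v huv hL hinj hY
  constructor
  · refine ⟨B1_cycle L u v huv hL hinj hY.1, ?_, ?_⟩
    · obtain ⟨G, hG⟩ := hY.2.1
      rw [Finset.mem_image] at hG
      obtain ⟨F, hF, _⟩ := hG
      exact ⟨F, Finset.mem_union_left _ hF⟩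
    · intro X hX hXne hXc
      set X' := X ∩ L with hX'
      set A := X \ L with hA
      have hXu : X' ∪ A = X := by
        rw [hX', hA, Finset.union_comm, Finset.sdiff_union_inter]
      have hX'L : X' ⊆ L := Finset.inter_subset_right
      have hAadd : ∀ F ∈ A, ∃ K : Finset V, K.card + 2 = e ∧ u ∉ K ∧ v ∉ K ∧
          F = insert u (insert v K) := by
        intro F hF
        rw [hA, Finset.mem_sdiff] at hF
        have := hX hF.1
        rw [Finset.mem_union] at this
        rcases this with h | h
        · exact absurd h hF.2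
        · exact B1_mem_addL h
      have hXc' : IsCycle e (X' ∪ A) := by rw [hXu]; exact hXc
      have hinj' : Set.InjOn (con u v) X' := hinj.mono (by simpa using hX'L)
      have hc := B1_sub_cycle X' u v huv (fun F hF => hL F (hX'L hF)) hinj' A hAadd hXc'
      rcases X'.eq_empty_or_nonempty with h0 | h0
      · exfalso
        rw [h0, Finset.empty_union] at hXc'
        have := B1_noadd huv hAadd hXc'
        rw [h0, this, Finset.empty_union] at hXu
        rw [← hXu] at hXne
        exact Finset.not_nonempty_empty hXne
      · have h1 := hY.2.2 (X'.image (con u v)) (Finset.image_subset_image hX'L)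
          (h0.image _) hc
        have hLX : L ⊆ X := by
          intro F hF
          have : con u v F ∈ X'.image (con u v) := by
            rw [h1]; exact Finset.mem_image_of_mem _ hF
          rw [Finset.mem_image] at this
          obtain ⟨F', hF', he'⟩ := this
          have := hinj (hX'L hF') hF he'
          rw [← this]
          exact Finset.mem_of_mem_inter_left hF'
        have h2 := B1_sdiff (B1_cycle L u v huv hL hinj hY.1) hXc hX
        have h3 : ∀ F ∈ (L ∪ addL e L u v) \ X, ∃ K : Finset V, K.card + 2 = e ∧ u ∉ K ∧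
            v ∉ K ∧ F = insert u (insert v K) := by
          intro F hF
          rw [Finset.mem_sdiff, Finset.mem_union] at hF
          rcases hF with ⟨h | h, h'⟩
          · exact absurd (hLX h) h'
          · exact B1_mem_addL h
        have h4 := B1_noadd huv h3 h2
        rw [Finset.sdiff_eq_empty_iff_subset] at h4
        exact Finset.Subset.antisymm hX h4
  · intro K hK hu hv hodd
    have h1 := B1_sum L u v (fun F hF => (hL F hF).2) hinj K hu hv
    have h2 := hY.1.2 (insert u K) (by rw [Finset.card_insert_of_notMem hu]; omega)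
    rw [B1_even_iff, h1, (B1_odd_iff _).1 hodd] at h2
    rw [B1_odd_iff]
    have h3 : (1 : ZMod 2) + 1 = 0 := CharTwo.add_self_eq_zero 1
    linear_combination h2 - h3

end Pool.Agent.N525.CS
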