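import Pool.Agent.N525.CS.Stm
import Pool.Agent.N525.VR.C1
import Pool.Agent.N525.VR.C2
import Pool.Agent.N525.VR.C3
import Pool.Agent.N525.VR.C5

set_option autoImplicit false
set_option linter.unusedSectionVars false

/-! The decomposition into pieces for the double contraction. -/

namespace Pool.Agent.N525.CS

open Pool.Agent.N525.VR

section gen
variable {V : Type} [Fintype V] [DecidableEq V] {e : ℕ}

/-- the lift of a piece of the second level -/
def B2_L (C : Finset (Finset V)) (u v : V) (Y : Finset (Finset V)) : Finset (Finset V) :=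
  (nb C u v).filter (fun F => con u v F ∈ contr C u v ∧ con u v F ∈ Y) ∪ (Y \ contr C u v)

/-- the piece of the first level -/
def B2_D (e : ℕ) (C : Finset (Finset V)) (u v : V) (Y : Finset (Finset V)) : Finset (Finset V) :=
  B2_L C u v Y ∪ addL e (B2_L C u v Y) u v

theorem B2_con_eq (u v : V) (F : Finset V) (h : v ∉ F) : con u v F = F := by
  unfold con; rw [if_neg h]

theorem B2_mem_L (C : Finset (Finset V)) (u v : V) (Y : Finset (Finset V)) (F : Finset V) :
    F ∈ B2_L C u v Y ↔ (F ∈ nb C u v ∧ con u v F ∈ contr C u v ∧ con u v F ∈ Y) ∨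
      (F ∈ Y ∧ F ∉ contr C u v) := by
  unfold B2_L; rw [Finset.mem_union, Finset.mem_filter, Finset.mem_sdiff]

theorem B2_lft (C : Finset (Finset V)) (u v : V) (G : Finset V) (hG : G ∈ contr C u v) :
    ∃ F ∈ nb C u v, con u v F = G := by
  obtain ⟨F, hF⟩ := Finset.card_eq_one.1 ((C3_mem_contr C u v G).1 hG)
  have : F ∈ (nb C u v).filter (fun F => con u v F = G) := by rw [hF]; simp
  exact ⟨F, (Finset.mem_filter.1 this).1, (Finset.mem_filter.1 this).2⟩

theorem B2_lft_unique (C : Finset (Finset V)) (u v : V) (F F' : Finset V)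
    (hF : F ∈ nb C u v) (hF' : F' ∈ nb C u v) (hG : con u v F ∈ contr C u v)
    (h : con u v F = con u v F') : F = F' := by
  obtain ⟨x, hx⟩ := Finset.card_eq_one.1 ((C3_mem_contr C u v _).1 hG)
  have h1 : F ∈ (nb C u v).filter (fun F1 => con u v F1 = con u v F) :=
    Finset.mem_filter.2 ⟨hF, rfl⟩
  have h2 : F' ∈ (nb C u v).filter (fun F1 => con u v F1 = con u v F) :=
    Finset.mem_filter.2 ⟨hF', h.symm⟩
  rw [hx, Finset.mem_singleton] at h1 h2
  rw [h1, h2]

theorem B2_L_con (C : Finset (Finset V)) (u v : V) (Y : Finset (Finset V))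
    (hY : ∀ F ∈ Y, v ∉ F) (F : Finset V) (hF : F ∈ B2_L C u v Y) : con u v F ∈ Y := by
  rcases (B2_mem_L C u v Y F).1 hF with h | h
  · exact h.2.2
  · rw [B2_con_eq u v F (hY F h.1)]; exact h.1

theorem B2_L_image (C : Finset (Finset V)) (u v : V) (Y : Finset (Finset V))
    (hY : ∀ F ∈ Y, v ∉ F) : (B2_L C u v Y).image (con u v) = Y := by
  ext G
  rw [Finset.mem_image]
  constructor
  · rintro ⟨F, hF, rfl⟩
    exact B2_L_con C u v Y hY F hF
  · intro hG
    by_cases h : G ∈ contr C u v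
    · obtain ⟨F, hF, rfl⟩ := B2_lft C u v G h
      exact ⟨F, (B2_mem_L C u v Y F).2 (Or.inl ⟨hF, h, hG⟩), rfl⟩
    · exact ⟨G, (B2_mem_L C u v Y G).2 (Or.inr ⟨hG, h⟩), B2_con_eq u v G (hY G hG)⟩

theorem B2_L_inj (C : Finset (Finset V)) (u v : V) (Y : Finset (Finset V))
    (hY : ∀ F ∈ Y, v ∉ F) : Set.InjOn (con u v) (B2_L C u v Y) := by
  intro F hF F' hF' h
  rcases (B2_mem_L C u v Y F).1 hF with h1 | h1 <;> rcases (B2_mem_L C u v Y F').1 hF' with h2 | h2
  · exact B2_lft_unique C u v F F' h1.1 h2.1 h1.2.1 h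
  · exfalso
    rw [B2_con_eq u v F' (hY F' h2.1)] at h
    exact h2.2 (h ▸ h1.2.1)
  · exfalso
    rw [B2_con_eq u v F (hY F h1.1)] at h
    exact h1.2 (h ▸ h2.2.1)
  · rwa [B2_con_eq u v F (hY F h1.1), B2_con_eq u v F' (hY F' h2.1)] at h

theorem B2_L_nb (C : Finset (Finset V)) (u v : V) (Y : Finset (Finset V))
    (hY : ∀ F ∈ Y, v ∉ F) (F : Finset V) (hF : F ∈ B2_L C u v Y) : ¬ (u ∈ F ∧ v ∈ F) := by
  rcases (B2_mem_L C u v Y F).1 hF with h | h
  · exact ((C3_mem_nb C u v F).1 h.1).2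
  · exact fun hh => hY F h.1 hh.2

theorem B2_L_card (C : Finset (Finset V)) (hC : IsCycle e C) (u v : V) (Y : Finset (Finset V))
    (hY1 : IsCycle e Y) (F : Finset V) (hF : F ∈ B2_L C u v Y) : F.card = e := by
  rcases (B2_mem_L C u v Y F).1 hF with h | h
  · exact hC.1 F ((C3_mem_nb C u v F).1 h.1).1
  · exact hY1.1 F h.1

/-- the first level pieces are minimal cycles -/
theorem B2_D_min (he : 3 ≤ e) (h1 : S_LIFT) (C : Finset (Finset V)) (hC : IsCycle e C) (u v : V)
    (huv : u ≠ v) (Y : Finset (Finset V)) (hY : ∀ F ∈ Y, v ∉ F) (hY1 : MinCycle e Y) :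
    MinCycle e (B2_D e C u v Y) ∧
    ∀ K : Finset V, K.card + 2 = e → u ∉ K → v ∉ K →
      Odd ((B2_L C u v Y).filter (fun F => insert u K ⊆ F)).card →
      Odd ((B2_L C u v Y).filter (fun F => insert v K ⊆ F)).card := by
  have := h1 V e (by omega) (B2_L C u v Y) u v huv
    (fun F hF => ⟨B2_L_card C hC u v Y hY1.1 F hF, B2_L_nb C u v Y hY F hF⟩)
    (B2_L_inj C u v Y hY) (by rw [B2_L_image C u v Y hY]; exact hY1)
  exact this

theorem B2_mem_addL (L : Finset (Finset V)) (u v : V) (F : Finset V) :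
    F ∈ addL e L u v ↔ ∃ K : Finset V, K.card + 2 = e ∧ u ∉ K ∧ v ∉ K ∧
      Odd (L.filter (fun F => insert u K ⊆ F)).card ∧ insert u (insert v K) = F := by
  unfold addL
  rw [Finset.mem_image]
  constructor
  · rintro ⟨K, hK, rfl⟩
    obtain ⟨_, h1, h2, h3, h4⟩ := Finset.mem_filter.1 hK
    exact ⟨K, h1, h2, h3, h4, rfl⟩
  · rintro ⟨K, h1, h2, h3, h4, rfl⟩
    exact ⟨K, Finset.mem_filter.2 ⟨Finset.mem_univ _, h1, h2, h3, h4⟩, rfl⟩

theorem B2_odd_ex (L : Finset (Finset V)) (K : Finset V)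
    (h : Odd (L.filter (fun F => K ⊆ F)).card) : ∃ F ∈ L, K ⊆ F := by
  have : (L.filter (fun F => K ⊆ F)).Nonempty := by
    rw [← Finset.card_pos]; exact h.pos
  obtain ⟨F, hF⟩ := this
  exact ⟨F, (Finset.mem_filter.1 hF).1, (Finset.mem_filter.1 hF).2⟩

/-- members of `D` -/
theorem B2_mem_D (he : 3 ≤ e) (h1 : S_LIFT) (C : Finset (Finset V)) (hC : IsCycle e C) (u v : V)
    (huv : u ≠ v) (Y : Finset (Finset V)) (hY : ∀ F ∈ Y, v ∉ F) (hY1 : MinCycle e Y)
    (F : Finset V) (hF : F ∈ B2_D e C u v Y) : F ∈ B2_L C u v Y ∨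
      ∃ K : Finset V, u ∉ K ∧ v ∉ K ∧ insert u (insert v K) = F ∧
        (∃ F1 ∈ B2_L C u v Y, insert u K ⊆ F1) ∧ (∃ F2 ∈ B2_L C u v Y, insert v K ⊆ F2) := by
  unfold B2_D at hF
  rcases Finset.mem_union.1 hF with h | h
  · exact Or.inl h
  · right
    obtain ⟨K, k1, k2, k3, k4, k5⟩ := (B2_mem_addL _ u v F).1 h
    exact ⟨K, k2, k3, k5, B2_odd_ex _ _ k4,
      B2_odd_ex _ _ ((B2_D_min he h1 C hC u v huv Y hY hY1).2 K k1 k2 k3 k4)⟩

/-- boundaries of simplices are minimal -/
theorem B2_ps_min (he : 3 ≤ e) (X : Finset V) (hX : X.card = e + 1) :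
    MinCycle e (X.powersetCard e) := by
  refine ⟨C5_ps_cycle e (by omega) X hX, ?_, ?_⟩
  · rw [← Finset.card_pos, Finset.card_powersetCard, hX]
    exact Nat.choose_pos (by omega)
  · intro Z hZ hne hZc
    obtain ⟨F, hF⟩ := hne
    obtain ⟨hFX, hFc⟩ := Finset.mem_powersetCard.1 (hZ hF)
    apply Finset.Subset.antisymm hZ
    intro G hG
    obtain ⟨hGX, hGc⟩ := Finset.mem_powersetCard.1 hG
    by_contra hGZ
    have hne : F ≠ G := fun h => hGZ (h ▸ hF)
    -- F = X \ a, G = X \ b
    have hFa : (X \ F).card = 1 := by rw [Finset.card_sdiff_of_subset hFX, hX, hFc]; omega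
    have hGb : (X \ G).card = 1 := by rw [Finset.card_sdiff_of_subset hGX, hX, hGc]; omega
    obtain ⟨a, ha⟩ := Finset.card_eq_one.1 hFa
    obtain ⟨b, hb⟩ := Finset.card_eq_one.1 hGb
    have haX : a ∈ X \ F := by rw [ha]; simp
    have hbX : b ∈ X \ G := by rw [hb]; simp
    obtain ⟨ha1, ha2⟩ := Finset.mem_sdiff.1 haX
    obtain ⟨hb1, hb2⟩ := Finset.mem_sdiff.1 hbX
    have hF' : F = X.erase a := by
      ext y
      rw [Finset.mem_erase]
      constructor
      · intro hy; exact ⟨fun h => ha2 (h ▸ hy), hFX hy⟩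
      · rintro ⟨h1, h2⟩
        by_contra hy
        have : y ∈ X \ F := Finset.mem_sdiff.2 ⟨h2, hy⟩
        rw [ha, Finset.mem_singleton] at this
        exact h1 this
    have hG' : G = X.erase b := by
      ext y
      rw [Finset.mem_erase]
      constructor
      · intro hy; exact ⟨fun h => hb2 (h ▸ hy), hGX hy⟩
      · rintro ⟨h1, h2⟩
        by_contra hy
        have : y ∈ X \ G := Finset.mem_sdiff.2 ⟨h2, hy⟩
        rw [hb, Finset.mem_singleton] at this
        exact h1 this
    have hab : a ≠ b := fun h => hne (by rw [hF', hG', h])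
    have ht : ((X.erase a).erase b).card + 1 = e := by
      rw [Finset.card_erase_of_mem (Finset.mem_erase.2 ⟨hab.symm, hb1⟩),
        Finset.card_erase_of_mem ha1, hX]; omega
    have hev := hZc.2 _ ht
    have : Z.filter (fun H => (X.erase a).erase b ⊆ H) = {F} := by
      rw [Finset.eq_singleton_iff_unique_mem]
      refine ⟨Finset.mem_filter.2 ⟨hF, by rw [hF']; exact Finset.erase_subset _ _⟩, ?_⟩
      intro H hH
      obtain ⟨h1, h2⟩ := Finset.mem_filter.1 hH
      obtain ⟨hHX, hHc⟩ := Finset.mem_powersetCard.1 (hZ h1)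
      have hHc1 : (X \ H).card = 1 := by rw [Finset.card_sdiff_of_subset hHX, hX, hHc]; omega
      obtain ⟨c, hc⟩ := Finset.card_eq_one.1 hHc1
      have hcX : c ∈ X \ H := by rw [hc]; simp
      obtain ⟨hc1, hc2⟩ := Finset.mem_sdiff.1 hcX
      have hH' : H = X.erase c := by
        ext y
        rw [Finset.mem_erase]
        constructor
        · intro hy; exact ⟨fun h => hc2 (h ▸ hy), hHX hy⟩
        · rintro ⟨h1, h2⟩
          by_contra hy
          have : y ∈ X \ H := Finset.mem_sdiff.2 ⟨h2, hy⟩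
          rw [hc, Finset.mem_singleton] at this
          exact h1 this
      have : c = a ∨ c = b := by
        by_contra hno
        push Not at hno
        exact hc2 (h2 (Finset.mem_erase.2 ⟨hno.2, Finset.mem_erase.2 ⟨hno.1, hc1⟩⟩))
      rcases this with h | h
      · rw [hH', hF', h]
      · exfalso; apply hGZ; rw [hG', ← h, ← hH']; exact h1
    rw [this] at hev
    simp at hev


/-- mod 2 sum of an indexed family -/
def B2_SI {ι : Type} [Fintype ι] [DecidableEq ι] (P : ι → Finset (Finset V)) (X : Finset ι) :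
    Finset (Finset V) :=
  Finset.univ.filter (fun F => Odd (X.filter (fun i => F ∈ P i)).card)

theorem B2_SI_cycle {ι : Type} [Fintype ι] [DecidableEq ι] (P : ι → Finset (Finset V))
    (X : Finset ι) (hX : ∀ i ∈ X, IsCycle e (P i)) : IsCycle e (B2_SI P X) := by
  constructor
  · intro F hF
    have h := (Finset.mem_filter.1 hF).2
    have : (X.filter (fun i => F ∈ P i)).Nonempty := by
      rw [← Finset.card_pos]; exact h.pos
    obtain ⟨i, hi⟩ := this
    obtain ⟨hP1, hP2⟩ := Finset.mem_filter.1 hi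
    exact (hX i hP1).1 F hP2
  · intro t ht
    rw [← ZMod.natCast_eq_zero_iff_even]
    have e1 : (((B2_SI P X).filter (fun F => t ⊆ F)).card : ZMod 2)
        = ∑ F : Finset V, if t ⊆ F then ((X.filter (fun i => F ∈ P i)).card : ZMod 2) else 0 := by
      unfold B2_SI
      rw [Finset.filter_filter, Finset.card_filter]
      push_cast
      refine Finset.sum_congr rfl (fun F _ => ?_)
      by_cases h1 : t ⊆ F
      · by_cases h2 : Odd (X.filter (fun i => F ∈ P i)).card
        · rw [if_pos ⟨h2, h1⟩, if_pos h1, ZMod.natCast_eq_one_iff_odd.2 h2]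
        · rw [if_neg (fun h => h2 h.1), if_pos h1,
            ZMod.natCast_eq_zero_iff_even.2 (Nat.not_odd_iff_even.1 h2)]
      · rw [if_neg (fun h => h1 h.2), if_neg h1]
    rw [e1]
    have e2 : (∑ F : Finset V, if t ⊆ F then ((X.filter (fun i => F ∈ P i)).card : ZMod 2) else 0)
        = ∑ i ∈ X, (((P i).filter (fun F => t ⊆ F)).card : ZMod 2) := by
      have e3 : ∀ P : Finset (Finset V), ((P.filter (fun F => t ⊆ F)).card : ZMod 2)
          = ∑ F : Finset V, if t ⊆ F then (if F ∈ P then (1 : ZMod 2) else 0) else 0 := by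
        intro P
        have : P.filter (fun F => t ⊆ F) = Finset.univ.filter (fun F => t ⊆ F ∧ F ∈ P) := by
          ext F; simp [and_comm]
        rw [this, Finset.card_filter]
        push_cast
        refine Finset.sum_congr rfl (fun F _ => ?_)
        by_cases h1 : t ⊆ F <;> by_cases h2 : F ∈ P <;> simp [h1, h2]
      rw [Finset.sum_congr rfl (fun i _ => e3 (P i)), Finset.sum_comm]
      refine Finset.sum_congr rfl (fun F _ => ?_)
      by_cases h1 : t ⊆ F
      · simp only [if_pos h1]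
        rw [Finset.card_filter]
        push_cast
        rfl
      · simp only [if_neg h1, Finset.sum_const_zero]
    rw [e2]
    exact Finset.sum_eq_zero (fun i hi => ZMod.natCast_eq_zero_iff_even.2 ((hX i hi).2 t ht))

/-- the second level pieces: members -/
theorem B2_Y_mem (he : 3 ≤ e) (H1 : S_LIFT) (C1 : Finset (Finset V)) (hC1 : IsCycle e C1) (a b : V)
    (hab : a ≠ b) (Z : Finset (Finset (Finset V))) (hZ : IsDec e (contr C1 a b) Z)
    (Y : Finset (Finset V)) (hY : Y ∈ pieces e C1 a b Z) :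
    MinCycle e Y ∧ ∀ F ∈ Y, F ∈ C1 ∨ ∃ K : Finset V, a ∉ K ∧ b ∉ K ∧ insert a (insert b K) = F ∧
      (∃ G1 ∈ C1, insert a K ⊆ G1) ∧ (∃ G2 ∈ C1, insert b K ⊆ G2) := by
  rcases (C3_mem_pieces C1 a b Z Y).1 hY with ⟨A, hA, rfl⟩ | ⟨U, hU, rfl⟩
  · have hL : ∀ F ∈ lift C1 a b A, F ∈ C1 ∧ ¬ (a ∈ F ∧ b ∈ F) := fun F hF =>
      (C3_mem_nb C1 a b F).1 (Finset.mem_filter.1 hF).1
    have hinj : Set.InjOn (con a b) (lift C1 a b A) := by
      intro F hF F' hF' h
      obtain ⟨f1, f2⟩ := Finset.mem_filter.1 hF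
      obtain ⟨f1', f2'⟩ := Finset.mem_filter.1 hF'
      exact B2_lft_unique C1 a b F F' f1 f1' (hZ.2.1 A hA f2) h
    have him : (lift C1 a b A).image (con a b) = A := by
      ext G
      rw [Finset.mem_image]
      constructor
      · rintro ⟨F, hF, rfl⟩
        exact (Finset.mem_filter.1 hF).2
      · intro hG
        obtain ⟨F, hF, rfl⟩ := B2_lft C1 a b G (hZ.2.1 A hA hG)
        exact ⟨F, Finset.mem_filter.2 ⟨hF, hG⟩, rfl⟩
    have hm := H1 V e (by omega) (lift C1 a b A) a b hab
      (fun F hF => ⟨hC1.1 F (hL F hF).1, (hL F hF).2⟩) hinj (by rw [him]; exact hZ.1 A hA)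
    refine ⟨hm.1, ?_⟩
    intro F hF
    unfold plus at hF
    rcases Finset.mem_union.1 hF with h | h
    · exact Or.inl (hL F h).1
    · right
      have h' : F ∈ addL e (lift C1 a b A) a b := h
      obtain ⟨K, k1, k2, k3, k4, k5⟩ := (B2_mem_addL _ a b F).1 h'
      obtain ⟨F1, hF1, hF1'⟩ := B2_odd_ex _ _ k4
      obtain ⟨F2, hF2, hF2'⟩ := B2_odd_ex _ _ (hm.2 K k1 k2 k3 k4)
      exact ⟨K, k2, k3, k5, ⟨F1, (hL F1 hF1).1, hF1'⟩, ⟨F2, (hL F2 hF2).1, hF2'⟩⟩
  · obtain ⟨h4, hu, hv, m1, m2⟩ := (C3_mem_pairs C1 a b U).1 hU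
    refine ⟨B2_ps_min he _ (C3_W_card a b hab U h4 hu hv), ?_⟩
    intro F hF
    by_cases hb : a ∈ F ∧ b ∈ F
    · right
      obtain ⟨hs, hc⟩ := Finset.mem_powersetCard.1 hF
      have hKU : (F.erase a).erase b ⊆ U := by
        intro x hx
        obtain ⟨x1, x2⟩ := Finset.mem_erase.1 hx
        obtain ⟨x3, x4⟩ := Finset.mem_erase.1 x2
        rcases Finset.mem_insert.1 (hs x4) with h | h
        · exact absurd h x3
        · rcases Finset.mem_insert.1 h with h | h
          · exact absurd h x1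
          · exact h
      refine ⟨(F.erase a).erase b, fun h => hu (hKU h), fun h => hv (hKU h), ?_,
        ⟨_, m1, Finset.insert_subset_insert _ hKU⟩, ⟨_, m2, Finset.insert_subset_insert _ hKU⟩⟩
      rw [Finset.insert_erase (Finset.mem_erase.2 ⟨hab.symm, hb.2⟩), Finset.insert_erase hb.1]
    · left
      rcases C3_mem_PU a b hab U h4 hu hv F hF hb with rfl | rfl
      · exact m1
      · exact m2

/-- the family of pieces -/
def B2_P (e : ℕ) (C : Finset (Finset V)) (u v : V) (PC : Finset (Finset (Finset V))) :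
    ({Y // Y ∈ PC} ⊕ {U // U ∈ pairs e C u v}) → Finset (Finset V) :=
  Sum.elim (fun Y => B2_D e C u v Y.1) (fun U => (insert u (insert v U.1)).powersetCard e)

theorem B2_cnt (C : Finset (Finset V)) (u v : V) (PC : Finset (Finset (Finset V)))
    (G : Finset V) : (Finset.univ.filter (fun i => G ∈ B2_P e C u v PC i)).card =
      (PC.filter (fun Y => G ∈ B2_D e C u v Y)).card +
        ((pairs e C u v).filter (fun U => G ∈ (insert u (insert v U)).powersetCard e)).card := by
  rw [Finset.card_filter, Finset.card_filter, Finset.card_filter, Fintype.sum_sum_type]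
  congr 1
  · exact Finset.sum_coe_sort PC (fun Y => if G ∈ B2_D e C u v Y then 1 else 0)
  · exact Finset.sum_coe_sort (pairs e C u v)
      (fun U => if G ∈ (insert u (insert v U)).powersetCard e then 1 else 0)


theorem B2_D_nb (C : Finset (Finset V)) (u v : V) (Y : Finset (Finset V)) (G : Finset V)
    (hG : ¬ (u ∈ G ∧ v ∈ G)) : G ∈ B2_D e C u v Y ↔ G ∈ B2_L C u v Y := by
  unfold B2_D
  rw [Finset.mem_union]
  constructor
  · rintro (h | h)
    · exact h
    · exfalso
      obtain ⟨K, _, _, _, _, k5⟩ := (B2_mem_addL _ u v G).1 h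
      apply hG
      rw [← k5]
      simp
  · exact Or.inl

theorem B2_vY (he : 3 ≤ e) (H1 : S_LIFT) (H3 : VR.S_CON) (C : Finset (Finset V)) (hC : IsCycle e C)
    (u v a b : V) (huv : u ≠ v) (hab : a ≠ b) (hva : v ≠ a) (hvb : v ≠ b)
    (Z : Finset (Finset (Finset V))) (hZ : IsDec e (contr (contr C u v) a b) Z) :
    ∀ Y ∈ pieces e (contr C u v) a b Z, ∀ F ∈ Y, v ∉ F := by
  intro Y hY F hF hvF
  obtain ⟨c1, c2⟩ := H3 V e (by omega) C hC u v huv
  rcases (B2_Y_mem he H1 (contr C u v) c1 a b hab Z hZ Y hY).2 F hF with h | h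
  · exact c2 F h hvF
  · obtain ⟨K, k1, k2, rfl, ⟨G1, g1, g2⟩, _⟩ := h
    rcases Finset.mem_insert.1 hvF with h | h
    · exact hva h
    · rcases Finset.mem_insert.1 h with h | h
      · exact hvb h
      · exact c2 G1 g1 (g2 (Finset.mem_insert_of_mem h))

theorem B2_abY (he : 3 ≤ e) (H1 : S_LIFT) (H3 : VR.S_CON) (C : Finset (Finset V)) (hC : IsCycle e C)
    (u v a b : V) (huv : u ≠ v) (hab : a ≠ b)
    (Z : Finset (Finset (Finset V))) (hZ : IsDec e (contr (contr C u v) a b) Z) :
    ∀ Y ∈ pieces e (contr C u v) a b Z, ∀ F ∈ Y, F ∉ contr C u v → a ∈ F ∧ b ∈ F := by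
  intro Y hY F hF hn
  obtain ⟨c1, c2⟩ := H3 V e (by omega) C hC u v huv
  rcases (B2_Y_mem he H1 (contr C u v) c1 a b hab Z hZ Y hY).2 F hF with h | h
  · exact absurd h hn
  · obtain ⟨K, k1, k2, rfl, _⟩ := h
    simp

theorem B2_odd (he : 3 ≤ e) (H1 : S_LIFT) (H3 : VR.S_CON) (H4 : VR.S_PLUS)
    (C : Finset (Finset V)) (hC : IsCycle e C)
    (u v a b : V) (huv : u ≠ v) (hab : a ≠ b) (hva : v ≠ a) (hvb : v ≠ b)
    (Z : Finset (Finset (Finset V))) (hZ : IsDec e (contr (contr C u v) a b) Z)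
    (G : Finset V) (hG : ¬ (u ∈ G ∧ v ∈ G)) :
    Odd (Finset.univ.filter
      (fun i => G ∈ B2_P e C u v (pieces e (contr C u v) a b Z) i)).card ↔ G ∈ C := by
  obtain ⟨c1, c2⟩ := H3 V e (by omega) C hC u v huv
  have hv := B2_vY he H1 H3 C hC u v a b huv hab hva hvb Z hZ
  have hsum := C3_SX_pieces he H4 (contr C u v) c1 a b hab Z hZ.1 hZ.2.1 hZ.2.2.1 hZ.2.2.2
  set PC := pieces e (contr C u v) a b Z with hPC
  have hodd : ∀ G' : Finset V, G' ∈ contr C u v ↔ Odd (PC.filter (fun P => G' ∈ P)).card := by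
    intro G'
    constructor
    · intro h
      rw [hsum] at h
      exact (Finset.mem_filter.1 h).2
    · intro h
      rw [hsum]
      exact Finset.mem_filter.2 ⟨Finset.mem_univ _, h⟩
  rw [B2_cnt]
  have e0 : PC.filter (fun Y => G ∈ B2_D e C u v Y) = PC.filter (fun Y => G ∈ B2_L C u v Y) := by
    apply Finset.filter_congr
    intro Y _
    exact B2_D_nb C u v Y G hG
  rw [e0]
  by_cases hGC : G ∈ C
  · have hn : G ∈ nb C u v := (C3_mem_nb C u v G).2 ⟨hGC, hG⟩
    by_cases hc : con u v G ∈ contr C u v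
    · have e1 : PC.filter (fun Y => G ∈ B2_L C u v Y) = PC.filter (fun Y => con u v G ∈ Y) := by
        apply Finset.filter_congr
        intro Y hY
        rw [B2_mem_L]
        constructor
        · rintro (h | h)
          · exact h.2.2
          · rw [B2_con_eq u v G (hv Y hY G h.1)]; exact h.1
        · intro h
          exact Or.inl ⟨hn, hc, h⟩
      have e2 : (pairs e C u v).filter
          (fun U => G ∈ (insert u (insert v U)).powersetCard e) = ∅ := by
        rw [Finset.filter_eq_empty_iff]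
        intro U hU hGU
        obtain ⟨h4', hu, hv', _, _⟩ := (C3_mem_pairs C u v U).1 hU
        have hcon : con u v G = insert u U := by
          rcases C3_mem_PU u v huv U h4' hu hv' G hGU hG with rfl | rfl
          · exact C3_con_insert_u u v huv U hv'
          · exact C3_con_insert_v u v U hv'
        rw [hcon] at hc
        exact C3_pair_not_contr C u v huv U hU hc
      rw [e1, e2, Finset.card_empty, add_zero]
      exact ⟨fun _ => hGC, fun _ => (hodd _).1 hc⟩
    · have hGn : G ∉ contr C u v := by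
        intro h
        rw [B2_con_eq u v G (c2 G h)] at hc
        exact hc h
      have e1 : PC.filter (fun Y => G ∈ B2_L C u v Y) = PC.filter (fun Y => G ∈ Y) := by
        apply Finset.filter_congr
        intro Y hY
        rw [B2_mem_L]
        constructor
        · rintro (h | h)
          · exact absurd h.2.1 hc
          · exact h.1
        · intro h
          exact Or.inr ⟨h, hGn⟩
      obtain ⟨U, hU, hU1, hU2⟩ := C3_in_pair C hC u v huv G hn hc
      have e2 : (pairs e C u v).filter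
          (fun U => G ∈ (insert u (insert v U)).powersetCard e) = {U} := by
        obtain ⟨h4', hu, hv', _, _⟩ := (C3_mem_pairs C u v U).1 hU
        rw [Finset.eq_singleton_iff_unique_mem]
        constructor
        · refine Finset.mem_filter.2 ⟨hU, Finset.mem_powersetCard.2 ⟨?_, hC.1 G hGC⟩⟩
          rcases hU2 with h | h
          · rw [h]; intro y hy
            rcases Finset.mem_insert.1 hy with h | h <;> simp [h]
          · rw [h]; intro y hy
            rcases Finset.mem_insert.1 hy with h | h <;> simp [h]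
        · intro U' hU'
          obtain ⟨hU'1, hU'2⟩ := Finset.mem_filter.1 hU'
          obtain ⟨h4'', hu', hv'', _, _⟩ := (C3_mem_pairs C u v U').1 hU'1
          have e2 : con u v G = insert u U' := by
            rcases C3_mem_PU u v huv U' h4'' hu' hv'' G hU'2 hG with rfl | rfl
            · exact C3_con_insert_u u v huv U' hv''
            · exact C3_con_insert_v u v U' hv''
          have := congrArg (fun s => s.erase u) (e2.symm.trans hU1)
          simpa [Finset.erase_insert, hu, hu'] using this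
      rw [e1, e2, Finset.card_singleton]
      have hev : Even (PC.filter (fun P => G ∈ P)).card := by
        rw [← Nat.not_odd_iff_even]
        exact fun h => hGn ((hodd G).2 h)
      exact ⟨fun _ => hGC, fun _ => hev.add_one⟩
  · have hn : G ∉ nb C u v := fun h => hGC ((C3_mem_nb C u v G).1 h).1
    have e2 : (pairs e C u v).filter
        (fun U => G ∈ (insert u (insert v U)).powersetCard e) = ∅ := by
      rw [Finset.filter_eq_empty_iff]
      intro U hU hGU
      obtain ⟨h4', hu, hv', m1, m2⟩ := (C3_mem_pairs C u v U).1 hU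
      rcases C3_mem_PU u v huv U h4' hu hv' G hGU hG with h | h
      · exact hGC (h ▸ m1)
      · exact hGC (h ▸ m2)
    rw [e2, Finset.card_empty, add_zero]
    refine ⟨fun h => ?_, fun h => absurd h hGC⟩
    exfalso
    by_cases hGn : G ∈ contr C u v
    · have e1 : PC.filter (fun Y => G ∈ B2_L C u v Y) = ∅ := by
        rw [Finset.filter_eq_empty_iff]
        intro Y _ hY
        rcases (B2_mem_L C u v Y G).1 hY with h | h
        · exact hn h.1
        · exact h.2 hGn
      rw [e1] at h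
      simp at h
    · have e1 : PC.filter (fun Y => G ∈ B2_L C u v Y) = PC.filter (fun Y => G ∈ Y) := by
        apply Finset.filter_congr
        intro Y _
        rw [B2_mem_L]
        constructor
        · rintro (h | h)
          · exact absurd h.1 hn
          · exact h.1
        · intro h
          exact Or.inr ⟨h, hGn⟩
      rw [e1] at h
      exact hGn ((hodd G).2 h)

/-- `C` is the sum of the pieces -/
theorem B2_sum (he : 3 ≤ e) (H1 : S_LIFT) (H3 : VR.S_CON) (H4 : VR.S_PLUS)
    (C : Finset (Finset V)) (hC : IsCycle e C)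
    (u v a b : V) (huv : u ≠ v) (hab : a ≠ b) (hva : v ≠ a) (hvb : v ≠ b)
    (Z : Finset (Finset (Finset V))) (hZ : IsDec e (contr (contr C u v) a b) Z) :
    (∀ i, MinCycle e (B2_P e C u v (pieces e (contr C u v) a b Z) i)) ∧
    C = B2_SI (B2_P e C u v (pieces e (contr C u v) a b Z)) Finset.univ := by
  have hmin : ∀ i, MinCycle e (B2_P e C u v (pieces e (contr C u v) a b Z) i) := by
    rintro (Y | U)
    · obtain ⟨c1, c2⟩ := H3 V e (by omega) C hC u v huv
      exact (B2_D_min he H1 C hC u v huv Y.1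
        (B2_vY he H1 H3 C hC u v a b huv hab hva hvb Z hZ Y.1 Y.2)
        (B2_Y_mem he H1 (contr C u v) c1 a b hab Z hZ Y.1 Y.2).1).1
    · obtain ⟨h4, hu, hv, _, _⟩ := (C3_mem_pairs C u v U.1).1 U.2
      exact B2_ps_min he _ (C3_W_card u v huv U.1 h4 hu hv)
  refine ⟨hmin, ?_⟩
  refine C3_cyc_eq C _ hC (B2_SI_cycle _ _ (fun i _ => (hmin i).1)) u v huv ?_
  intro G hG
  unfold B2_SI
  rw [Finset.mem_filter]
  rw [B2_odd he H1 H3 H4 C hC u v a b huv hab hva hvb Z hZ G hG]
  simp

/-- private facets -/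
theorem B2_priv (he : 3 ≤ e) (H1 : S_LIFT) (H3 : VR.S_CON)
    (C : Finset (Finset V)) (hC : IsCycle e C)
    (u v a b : V) (huv : u ≠ v) (hab : a ≠ b) (hva : v ≠ a) (hvb : v ≠ b) (hub : u ≠ b)
    (hCb : ∀ F ∈ C, ¬ (v ∈ F ∧ b ∈ F))
    (Z : Finset (Finset (Finset V))) (hZ : IsDec e (contr (contr C u v) a b) Z) :
    ∀ i, ∃ F ∈ C, F ∈ B2_P e C u v (pieces e (contr C u v) a b Z) i ∧
      ∀ j, F ∈ B2_P e C u v (pieces e (contr C u v) a b Z) j → j = i := by
  obtain ⟨c1, c2⟩ := H3 V e (by omega) C hC u v huv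
  have hv := B2_vY he H1 H3 C hC u v a b huv hab hva hvb Z hZ
  have hab' := B2_abY he H1 H3 C hC u v a b huv hab Z hZ
  rintro (Y | U)
  · obtain ⟨F1, hF1n, hF1Y⟩ := C3_piece_has (contr C u v) a b hab Z hZ.1 hZ.2.1 Y.1 Y.2
    have hF1c := ((C3_mem_nb _ a b F1).1 hF1n).1
    obtain ⟨F, hF, hFF1⟩ := B2_lft C u v F1 hF1c
    obtain ⟨hFC, hFnb⟩ := (C3_mem_nb C u v F).1 hF
    refine ⟨F, hFC, ?_, ?_⟩
    · show F ∈ B2_D e C u v Y.1
      rw [B2_D_nb C u v Y.1 F hFnb, B2_mem_L]
      exact Or.inl ⟨hF, hFF1 ▸ hF1c, hFF1 ▸ hF1Y⟩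
    · rintro (Y' | U') hj
      · have hj' : F ∈ B2_D e C u v Y'.1 := hj
        rw [B2_D_nb C u v Y'.1 F hFnb, B2_mem_L] at hj'
        have hF1Y' : F1 ∈ Y'.1 := by
          rcases hj' with h | h
          · rw [← hFF1]; exact h.2.2
          · rw [← hFF1, B2_con_eq u v F (hv Y'.1 Y'.2 F h.1)]; exact h.1
        have := C3_piece_unique (contr C u v) c1 a b hab Z hZ.2.1 hZ.2.2.2 F1 hF1n Y'.1 Y.1
          Y'.2 Y.2 hF1Y' hF1Y
        exact congrArg Sum.inl (Subtype.ext this)
      · exfalso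
        obtain ⟨h4', hu, hv', _, _⟩ := (C3_mem_pairs C u v U'.1).1 U'.2
        have hcon : con u v F = insert u U'.1 := by
          rcases C3_mem_PU u v huv U'.1 h4' hu hv' F hj hFnb with h | h
          · rw [h]; exact C3_con_insert_u u v huv U'.1 hv'
          · rw [h]; exact C3_con_insert_v u v U'.1 hv'
        exact C3_pair_not_contr C u v huv U'.1 U'.2 (hcon ▸ hFF1 ▸ hF1c)
  · obtain ⟨h4, hu, hv', m1, m2⟩ := (C3_mem_pairs C u v U.1).1 U.2
    have hbU : b ∉ insert u U.1 := by
      intro h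
      rcases Finset.mem_insert.1 h with h | h
      · exact hub h.symm
      · exact hCb _ m2 ⟨Finset.mem_insert_self _ _, Finset.mem_insert_of_mem h⟩
    have hnb : ¬ (u ∈ insert u U.1 ∧ v ∈ insert u U.1) := by
      rintro ⟨_, h⟩
      rcases Finset.mem_insert.1 h with h | h
      · exact huv h.symm
      · exact hv' h
    refine ⟨insert u U.1, m1, ?_, ?_⟩
    · refine Finset.mem_powersetCard.2 ⟨?_, hC.1 _ m1⟩
      intro y hy
      rcases Finset.mem_insert.1 hy with h | h <;> simp [h]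
    · rintro (Y' | U') hj
      · exfalso
        have hj' : insert u U.1 ∈ B2_D e C u v Y'.1 := hj
        rw [B2_D_nb C u v Y'.1 _ hnb, B2_mem_L] at hj'
        rcases hj' with h | h
        · rw [C3_con_insert_u u v huv U.1 hv'] at h
          exact C3_pair_not_contr C u v huv U.1 U.2 h.2.1
        · exact hbU (hab' Y'.1 Y'.2 _ h.1 h.2).2
      · obtain ⟨h4', hu', hv'', _, _⟩ := (C3_mem_pairs C u v U'.1).1 U'.2
        have : insert u U.1 = insert u U'.1 := by
          rcases C3_mem_PU u v huv U'.1 h4' hu' hv'' _ hj hnb with h | h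
          · exact h
          · exfalso
            have : v ∈ insert u U.1 := by rw [h]; simp
            exact hnb ⟨by simp, this⟩
        have h2 := congrArg (fun s => s.erase u) this
        have h3 : U.1 = U'.1 := by
          simpa [Finset.erase_insert, hu, hu'] using h2
        exact congrArg Sum.inr (Subtype.ext h3.symm)

/-- covering and connectivity from the sum and the private facets -/
theorem B2_conn {ι : Type} [Fintype ι] [DecidableEq ι] (P : ι → Finset (Finset V))
    (C : Finset (Finset V)) (hC : MinCycle e C) (hP : ∀ i, MinCycle e (P i))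
    (hsum : C = B2_SI P Finset.univ)
    (hpriv : ∀ i, ∃ F ∈ C, F ∈ P i ∧ ∀ j, F ∈ P j → j = i) :
    (∀ F ∈ C, ∃ i, F ∈ P i) ∧
    (∀ X : Finset ι, X.Nonempty → X ≠ Finset.univ → ∃ i ∈ X, ∃ j ∉ X, ∃ F, F ∈ P i ∧ F ∈ P j) := by
  constructor
  · intro F hF
    rw [hsum] at hF
    have ho := (Finset.mem_filter.1 hF).2
    have : (Finset.univ.filter (fun i => F ∈ P i)).Nonempty := by
      rw [← Finset.card_pos]; exact ho.pos
    obtain ⟨i, hi⟩ := this
    exact ⟨i, (Finset.mem_filter.1 hi).2⟩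
  · intro X hX0 hX1
    by_contra hno
    have hno' : ∀ i ∈ X, ∀ j, j ∉ X → ∀ F, F ∈ P i → F ∉ P j := by
      intro i hi j hj F h1 h2
      exact hno ⟨i, hi, j, hj, F, h1, h2⟩
    have hcyc : IsCycle e (B2_SI P X) := B2_SI_cycle P X (fun i _ => (hP i).1)
    have hsub : B2_SI P X ⊆ C := by
      intro F hF
      rw [hsum]
      have ho := (Finset.mem_filter.1 hF).2
      refine Finset.mem_filter.2 ⟨Finset.mem_univ _, ?_⟩
      have hne : (X.filter (fun i => F ∈ P i)).Nonempty := by
        rw [← Finset.card_pos]; exact ho.pos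
      obtain ⟨i, hi⟩ := hne
      obtain ⟨hi1, hi2⟩ := Finset.mem_filter.1 hi
      have e1 : Finset.univ.filter (fun i => F ∈ P i) = X.filter (fun i => F ∈ P i) := by
        ext j
        simp only [Finset.mem_filter, Finset.mem_univ, true_and]
        constructor
        · intro hj
          refine ⟨?_, hj⟩
          by_contra hjX
          exact hno' i hi1 j hjX F hi2 hj
        · exact fun h => h.2
      rw [e1]; exact ho
    have hnon : (B2_SI P X).Nonempty := by
      obtain ⟨i, hi⟩ := hX0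
      obtain ⟨F, _, hF2, hF3⟩ := hpriv i
      refine ⟨F, Finset.mem_filter.2 ⟨Finset.mem_univ _, ?_⟩⟩
      have : X.filter (fun j => F ∈ P j) = {i} := by
        rw [Finset.eq_singleton_iff_unique_mem]
        exact ⟨Finset.mem_filter.2 ⟨hi, hF2⟩, fun j hj => hF3 j (Finset.mem_filter.1 hj).2⟩
      rw [this]; simp
    have heq := hC.2.2 (B2_SI P X) hsub hnon hcyc
    have hex : ∃ j, j ∉ X := by
      by_contra hall
      push Not at hall
      exact hX1 (Finset.eq_univ_iff_forall.2 hall)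
    obtain ⟨j, hj⟩ := hex
    obtain ⟨F, hF1, hF2, hF3⟩ := hpriv j
    rw [← heq] at hF1
    have ho := (Finset.mem_filter.1 hF1).2
    have hne : (X.filter (fun i => F ∈ P i)).Nonempty := by
      rw [← Finset.card_pos]; exact ho.pos
    obtain ⟨i, hi⟩ := hne
    obtain ⟨hi1, hi2⟩ := Finset.mem_filter.1 hi
    exact hno' i hi1 j hj F hi2 hF2


/-- one contraction, on vertices -/
def B2_q (u v x : V) : V := if x = v then u else x

theorem B2_con_image (u v : V) (huv : u ≠ v) (F : Finset V) : con u v F = F.image (B2_q u v) := by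
  ext x
  unfold con B2_q
  rw [Finset.mem_image]
  split_ifs with h
  · rw [Finset.mem_insert, Finset.mem_erase]
    constructor
    · rintro (h1 | ⟨h1, h2⟩)
      · exact ⟨v, h, by rw [if_pos rfl, h1]⟩
      · exact ⟨x, h2, by rw [if_neg h1]⟩
    · rintro ⟨y, hy, hyx⟩
      by_cases hyv : y = v
      · rw [if_pos hyv] at hyx; exact Or.inl hyx.symm
      · rw [if_neg hyv] at hyx; subst hyx; exact Or.inr ⟨hyv, hy⟩
  · constructor
    · intro hx
      have hxv : x ≠ v := fun hh => h (hh ▸ hx)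
      exact ⟨x, hx, by rw [if_neg hxv]⟩
    · rintro ⟨y, hy, hyx⟩
      have hyv : y ≠ v := fun hh => h (hh ▸ hy)
      rw [if_neg hyv] at hyx; subst hyx; exact hy

theorem B2_mem_vs (C : Finset (Finset V)) (x : V) : x ∈ vs C ↔ ∃ F ∈ C, x ∈ F := by
  unfold vs; rw [Finset.mem_biUnion]; rfl

theorem B2_vs_con (u v : V) (huv : u ≠ v) (L : Finset (Finset V)) :
    vs (L.image (con u v)) = (vs L).image (B2_q u v) := by
  ext x
  rw [B2_mem_vs, Finset.mem_image]
  constructor
  · rintro ⟨F, hF, hx⟩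
    obtain ⟨F', hF', rfl⟩ := Finset.mem_image.1 hF
    rw [B2_con_image u v huv, Finset.mem_image] at hx
    obtain ⟨y, hy, rfl⟩ := hx
    exact ⟨y, (B2_mem_vs L y).2 ⟨F', hF', hy⟩, rfl⟩
  · rintro ⟨y, hy, rfl⟩
    obtain ⟨F, hF, hyF⟩ := (B2_mem_vs L y).1 hy
    refine ⟨con u v F, Finset.mem_image_of_mem _ hF, ?_⟩
    rw [B2_con_image u v huv]
    exact Finset.mem_image_of_mem _ hyF

theorem B2_vs_add (L : Finset (Finset V)) (u v : V)
    (h : ∀ K : Finset V, K.card + 2 = e → u ∉ K → v ∉ K →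
      Odd (L.filter (fun F => insert u K ⊆ F)).card →
      Odd (L.filter (fun F => insert v K ⊆ F)).card) : vs (L ∪ addL e L u v) = vs L := by
  ext x
  rw [B2_mem_vs, B2_mem_vs]
  constructor
  · rintro ⟨F, hF, hx⟩
    rcases Finset.mem_union.1 hF with h1 | h1
    · exact ⟨F, h1, hx⟩
    · obtain ⟨K, k1, k2, k3, k4, rfl⟩ := (B2_mem_addL _ u v F).1 h1
      obtain ⟨F1, f1, f1'⟩ := B2_odd_ex _ _ k4
      obtain ⟨F2, f2, f2'⟩ := B2_odd_ex _ _ (h K k1 k2 k3 k4)
      rcases Finset.mem_insert.1 hx with hx | hx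
      · exact ⟨F1, f1, f1' (hx ▸ Finset.mem_insert_self _ _)⟩
      · exact ⟨F2, f2, f2' hx⟩
  · rintro ⟨F, hF, hx⟩
    exact ⟨F, Finset.mem_union_left _ hF, hx⟩

/-- the vertices of a lifted second level piece -/
theorem B2_vs_plus (he : 3 ≤ e) (H1 : S_LIFT) (C1 : Finset (Finset V)) (hC1 : IsCycle e C1)
    (a b : V) (hab : a ≠ b) (Z : Finset (Finset (Finset V))) (hZ : IsDec e (contr C1 a b) Z)
    (A : Finset (Finset V)) (hA : A ∈ Z) :
    (vs (plus e C1 a b A)).image (B2_q a b) = vs A := by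
  have hL : ∀ F ∈ lift C1 a b A, F ∈ C1 ∧ ¬ (a ∈ F ∧ b ∈ F) := fun F hF =>
    (C3_mem_nb C1 a b F).1 (Finset.mem_filter.1 hF).1
  have hinj : Set.InjOn (con a b) (lift C1 a b A) := by
    intro F hF F' hF' h
    obtain ⟨f1, f2⟩ := Finset.mem_filter.1 hF
    obtain ⟨f1', f2'⟩ := Finset.mem_filter.1 hF'
    exact B2_lft_unique C1 a b F F' f1 f1' (hZ.2.1 A hA f2) h
  have him : (lift C1 a b A).image (con a b) = A := by
    ext G
    rw [Finset.mem_image]
    constructor
    · rintro ⟨F, hF, rfl⟩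
      exact (Finset.mem_filter.1 hF).2
    · intro hG
      obtain ⟨F, hF, rfl⟩ := B2_lft C1 a b G (hZ.2.1 A hA hG)
      exact ⟨F, Finset.mem_filter.2 ⟨hF, hG⟩, rfl⟩
  have hm := H1 V e (by omega) (lift C1 a b A) a b hab
    (fun F hF => ⟨hC1.1 F (hL F hF).1, (hL F hF).2⟩) hinj (by rw [him]; exact hZ.1 A hA)
  have h1 : vs (plus e C1 a b A) = vs (lift C1 a b A) := B2_vs_add _ a b hm.2
  rw [h1, ← B2_vs_con a b hab, him]

end gen

section main
variable {W : Type} [Fintype W] [DecidableEq W] {e : ℕ}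

/-- the properties of the facets of all pieces -/
def B2_good (C : Finset (Finset (SV W))) (u v : SV W) (F : Finset (SV W)) : Prop :=
  (∀ x ∈ F, opp x ∈ F → x = u ∨ x = opp u) ∧
  (∀ x ∈ F, ∀ y ∈ F, x.1 ≠ y.1 → (∃ G ∈ C, x ∈ G ∧ y ∈ G) ∨
      (x = opp u ∧ y = opp v) ∨ (x = opp v ∧ y = opp u)) ∧
  (∀ x ∈ F, x ∈ vs C)

theorem B2_opp_opp (x : SV W) : opp (opp x) = x := by
  unfold opp; simp

theorem B2_opp_fst (x : SV W) : (opp x).1 = x.1 := rfl

theorem B2_opp_ne (x : SV W) : opp x ≠ x := by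
  intro h
  have := congrArg Prod.snd h
  unfold opp at this
  simp at this

theorem B2_no (u v : SV W) (huv : v.1 ≠ u.1) (h : v = u ∨ v = opp u) : False := by
  rcases h with h | h
  · exact huv (by rw [h])
  · exact huv (by rw [h]; rfl)

theorem B2_no' (u v : SV W) (huv : v.1 ≠ u.1) (h : opp v = u ∨ opp v = opp u) : False := by
  rcases h with h | h
  · exact huv (by rw [← h]; rfl)
  · have := congrArg Prod.fst h
    exact huv this

theorem B2_good_C (C : Finset (Finset (SV W))) (u v : SV W)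
    (hF : ∀ F ∈ C, ∀ x ∈ F, opp x ∈ F → x = u ∨ x = opp u) (F : Finset (SV W)) (h : F ∈ C) :
    B2_good C u v F :=
  ⟨hF F h, fun x hx y hy _ => Or.inl ⟨F, h, hx, hy⟩, fun x hx => (B2_mem_vs C x).2 ⟨F, h, hx⟩⟩

/-- facets containing `u` and `v` -/
theorem B2_good_uv (C : Finset (Finset (SV W))) (u v : SV W) (huv : v.1 ≠ u.1)
    (huvC : ∃ F ∈ C, u ∈ F ∧ v ∈ F) (K F F1 F2 : Finset (SV W))
    (hF1 : insert u K ⊆ F1) (hF2 : insert v K ⊆ F2) (g1 : B2_good C u v F1)
    (g2 : B2_good C u v F2) (hF : F ⊆ insert u (insert v K)) : B2_good C u v F := by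
  have hvK : opp v ∉ K := by
    intro h
    exact B2_no u v huv (g2.1 v (hF2 (Finset.mem_insert_self _ _)) (hF2 (Finset.mem_insert_of_mem h)))
  obtain ⟨F0, hF0, hu0, hv0⟩ := huvC
  have hmem : ∀ x ∈ F, x = u ∨ x = v ∨ x ∈ K := by
    intro x hx
    simpa [Finset.mem_insert] using hF hx
  have hu1 : u ∈ F1 := hF1 (Finset.mem_insert_self _ _)
  have hv2 : v ∈ F2 := hF2 (Finset.mem_insert_self _ _)
  have hK1 : ∀ x ∈ K, x ∈ F1 := fun x hx => hF1 (Finset.mem_insert_of_mem hx)
  have hK2 : ∀ x ∈ K, x ∈ F2 := fun x hx => hF2 (Finset.mem_insert_of_mem hx)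
  refine ⟨?_, ?_, ?_⟩
  · intro x hx hox
    rcases hmem x hx with h | h | h
    · exact Or.inl h
    · exfalso
      rw [h] at hox
      rcases hmem _ hox with h | h | h
      · exact B2_no' u v huv (Or.inl h)
      · exact B2_opp_ne v h
      · exact hvK h
    · rcases hmem _ hox with h' | h' | h'
      · right; rw [← h', B2_opp_opp]
      · exfalso; apply hvK; rw [← h', B2_opp_opp]; exact h
      · exact g1.1 x (hK1 x h) (hK1 _ h')
  · intro x hx y hy hxy
    rcases hmem x hx with h | h | h <;> rcases hmem y hy with h' | h' | h'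
    · exact absurd (by rw [h, h']) hxy
    · exact Or.inl ⟨F0, hF0, h ▸ hu0, h' ▸ hv0⟩
    · exact g1.2.1 x (h ▸ hu1) y (hK1 y h') hxy
    · exact Or.inl ⟨F0, hF0, h ▸ hv0, h' ▸ hu0⟩
    · exact absurd (by rw [h, h']) hxy
    · exact g2.2.1 x (h ▸ hv2) y (hK2 y h') hxy
    · exact g1.2.1 x (hK1 x h) y (h' ▸ hu1) hxy
    · exact g2.2.1 x (hK2 x h) y (h' ▸ hv2) hxy
    · exact g1.2.1 x (hK1 x h) y (hK1 y h') hxy
  · intro x hx
    rcases hmem x hx with h | h | h
    · exact (B2_mem_vs C x).2 ⟨F0, hF0, h ▸ hu0⟩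
    · exact (B2_mem_vs C x).2 ⟨F0, hF0, h ▸ hv0⟩
    · exact g1.2.2 x (hK1 x h)

/-- facets of the second level pieces outside of the contraction -/
theorem B2_good_ab (C : Finset (Finset (SV W))) (u v : SV W) (huv : v.1 ≠ u.1)
    (hFC : ∀ F ∈ C, ∀ x ∈ F, opp x ∈ F → x = u ∨ x = opp u)
    (huvC : ∃ F ∈ C, u ∈ F ∧ v ∈ F) (K F G1 G2 : Finset (SV W))
    (hG1 : G1 ∈ contr C u v) (hG2 : G2 ∈ contr C u v)
    (h1 : insert (opp u) K ⊆ G1) (h2 : insert (opp v) K ⊆ G2)
    (hF : F = insert (opp u) (insert (opp v) K)) (hvF : v ∉ F) : B2_good C u v F := by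
  obtain ⟨F0, hF0, hu0, hv0⟩ := huvC
  have huv' : u ≠ v := fun h => huv (by rw [h])
  have hou : opp u ≠ u := B2_opp_ne u
  have hovu : opp v ≠ u := fun h => B2_no' u v huv (Or.inl h)
  have hmem : ∀ x ∈ F, x = opp u ∨ x = opp v ∨ x ∈ K := by
    intro x hx
    rw [hF] at hx
    simpa [Finset.mem_insert] using hx
  -- edges of the contraction
  have hed : ∀ G ∈ contr C u v, ∃ F' ∈ C, (∀ x ∈ G, x ≠ u → x ∈ F') ∧
      (opp v ∈ G → G = F') := by
    intro G hG
    obtain ⟨F', hF', rfl⟩ := B2_lft C u v G hG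
    obtain ⟨m1, m2⟩ := (C3_mem_nb C u v F').1 hF'
    have hx' : ∀ x ∈ con u v F', x ≠ u → x ∈ F' := by
      intro x hx hxu
      rcases C5_mem_con u v F' x hx with h | h
      · exact absurd h hxu
      · exact h
    refine ⟨F', m1, hx', ?_⟩
    intro hov
    have h3 : opp v ∈ F' := hx' _ hov hovu
    have h4 : v ∉ F' := by
      intro hv
      exact B2_no u v huv (hFC F' m1 v hv h3)
    exact B2_con_eq u v F' h4
  obtain ⟨E1, hE1, e1, _⟩ := hed G1 hG1
  obtain ⟨E2, hE2, e2, e3⟩ := hed G2 hG2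
  have hG2E : G2 = E2 := e3 (h2 (Finset.mem_insert_self _ _))
  have hb2 : ∀ x, x = opp v ∨ x ∈ K → x ∈ E2 := by
    intro x hx
    rw [← hG2E]
    exact h2 (Finset.mem_insert.2 hx)
  have ha1 : opp u ∈ E1 := e1 _ (h1 (Finset.mem_insert_self _ _)) hou
  have hK1 : ∀ x ∈ K, x ≠ u → x ∈ E1 := fun x hx hxu => e1 x (h1 (Finset.mem_insert_of_mem hx)) hxu
  refine ⟨?_, ?_, ?_⟩
  · intro x hx hox
    rcases hmem x hx with h | h | h
    · exact Or.inr h
    · exfalso; apply hvF; rw [h, B2_opp_opp] at hox; exact hox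
    · rcases hmem _ hox with h' | h' | h'
      · left
        have := congrArg opp h'
        rwa [B2_opp_opp, B2_opp_opp] at this
      · exfalso; apply hvF
        have := congrArg opp h'
        rw [B2_opp_opp, B2_opp_opp] at this
        rw [← this]; exact hx
      · exact hFC E2 hE2 x (hb2 x (Or.inr h)) (hb2 _ (Or.inr h'))
  · intro x hx y hy hxy
    rcases hmem x hx with h | h | h <;> rcases hmem y hy with h' | h' | h'
    · exact absurd (by rw [h, h']) hxy
    · exact Or.inr (Or.inl ⟨h, h'⟩)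
    · refine Or.inl ⟨E1, hE1, h ▸ ha1, hK1 y h' ?_⟩
      intro hyu
      apply hxy
      rw [h, hyu]; rfl
    · exact Or.inr (Or.inr ⟨h, h'⟩)
    · exact absurd (by rw [h, h']) hxy
    · exact Or.inl ⟨E2, hE2, hb2 x (Or.inl h), hb2 y (Or.inr h')⟩
    · refine Or.inl ⟨E1, hE1, hK1 x h ?_, h' ▸ ha1⟩
      intro hxu
      apply hxy
      rw [h', hxu]; rfl
    · exact Or.inl ⟨E2, hE2, hb2 x (Or.inr h), hb2 y (Or.inl h')⟩
    · exact Or.inl ⟨E2, hE2, hb2 x (Or.inr h), hb2 y (Or.inr h')⟩
  · intro x hx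
    rcases hmem x hx with h | h | h
    · exact (B2_mem_vs C x).2 ⟨E1, hE1, h ▸ ha1⟩
    · exact (B2_mem_vs C x).2 ⟨E2, hE2, hb2 x (Or.inl h)⟩
    · exact (B2_mem_vs C x).2 ⟨E2, hE2, hb2 x (Or.inr h)⟩

theorem B2_qv (u v x : SV W) (huv : v.1 ≠ u.1) :
    B2_q (opp u) (opp v) (B2_q u v x) = qv u v x := by
  unfold B2_q qv
  by_cases h1 : x = v
  · rw [if_pos h1, if_pos h1, if_neg]
    intro h
    exact huv (congrArg Prod.fst h).symm
  · rw [if_neg h1, if_neg h1]

theorem t_PIECES (h1 : S_LIFT) (h2 : VR.S_DEC) (h3 : VR.S_CON) (h4 : VR.S_PLUS) : S_PIECES := by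
  intro W _ _ e he C hC u v huv hFC huvC
  have huv' : u ≠ v := fun h => huv (by rw [h])
  have hab : opp u ≠ opp v := fun h => huv (congrArg Prod.fst h).symm
  have hva : v ≠ opp u := fun h => B2_no u v huv (Or.inr h)
  have hvb : v ≠ opp v := (B2_opp_ne v).symm
  have hub : u ≠ opp v := fun h => huv (congrArg Prod.fst h).symm
  have hua : u ≠ opp u := (B2_opp_ne u).symm
  obtain ⟨c1, c2⟩ := h3 (SV W) e (by omega) C hC.1 u v huv'
  obtain ⟨d1, d2⟩ := h3 (SV W) e (by omega) (contr C u v) c1 (opp u) (opp v) hab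
  obtain ⟨Z, hZ⟩ := h2 (SV W) e (contr (contr C u v) (opp u) (opp v)) d1
  have hCb : ∀ F ∈ C, ¬ (v ∈ F ∧ opp v ∈ F) := by
    intro F hF h
    exact B2_no u v huv (hFC F hF v h.1 h.2)
  have hvY := B2_vY he h1 h3 C hC.1 u v (opp u) (opp v) huv' hab hva hvb Z hZ
  have habY := B2_abY he h1 h3 C hC.1 u v (opp u) (opp v) huv' hab Z hZ
  have hYm := B2_Y_mem he h1 (contr C u v) c1 (opp u) (opp v) hab Z hZ
  obtain ⟨hmin, hsum⟩ := B2_sum he h1 h3 h4 C hC.1 u v (opp u) (opp v) huv' hab hva hvb Z hZ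
  have hpriv := B2_priv he h1 h3 C hC.1 u v (opp u) (opp v) huv' hab hva hvb hub hCb Z hZ
  obtain ⟨hcov, hconn⟩ := B2_conn _ C hC hmin hsum hpriv
  -- all members of L are good
  have hgoodL : ∀ Y ∈ pieces e (contr C u v) (opp u) (opp v) Z, ∀ F ∈ B2_L C u v Y,
      B2_good C u v F := by
    intro Y hY F hF
    rcases (B2_mem_L C u v Y F).1 hF with h | h
    · exact B2_good_C C u v hFC F ((C3_mem_nb C u v F).1 h.1).1
    · rcases (hYm Y hY).2 F h.1 with h' | ⟨K, k1, k2, k3, ⟨G1, g1, g1'⟩, ⟨G2, g2, g2'⟩⟩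
      · exact absurd h' h.2
      · exact B2_good_ab C u v huv hFC huvC K F G1 G2 g1 g2 g1' g2' k3.symm (hvY Y hY F h.1)
  have hgood : ∀ i, ∀ F ∈ B2_P e C u v (pieces e (contr C u v) (opp u) (opp v) Z) i,
      B2_good C u v F := by
    rintro (Y | U) F hF
    · rcases B2_mem_D he h1 C hC.1 u v huv' Y.1 (hvY Y.1 Y.2) (hYm Y.1 Y.2).1 F hF with
        h | ⟨K, k1, k2, k3, ⟨F1, f1, f1'⟩, ⟨F2, f2, f2'⟩⟩
      · exact hgoodL Y.1 Y.2 F h
      · exact B2_good_uv C u v huv huvC K F F1 F2 f1' f2' (hgoodL Y.1 Y.2 F1 f1)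
          (hgoodL Y.1 Y.2 F2 f2) (by rw [k3])
    · obtain ⟨h4', hu, hv', m1, m2⟩ := (C3_mem_pairs C u v U.1).1 U.2
      exact B2_good_uv C u v huv huvC U.1 F _ _ (Finset.Subset.refl _) (Finset.Subset.refl _)
        (B2_good_C C u v hFC _ m1) (B2_good_C C u v hFC _ m2) (Finset.mem_powersetCard.1 hF).1
  -- vertices of D
  have hvsD : ∀ Y ∈ pieces e (contr C u v) (opp u) (opp v) Z,
      vs (B2_D e C u v Y) = vs (B2_L C u v Y) := fun Y hY =>
    B2_vs_add _ u v (B2_D_min he h1 C hC.1 u v huv' Y (hvY Y hY) (hYm Y hY).1).2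
  refine ⟨_, inferInstance, inferInstance,
    B2_P e C u v (pieces e (contr C u v) (opp u) (opp v) Z), ?_, ?_, ?_, hcov, hconn, ?_⟩
  · intro i
    refine ⟨hmin i, ?_⟩
    intro x hx
    obtain ⟨F, hF, hxF⟩ := (B2_mem_vs _ x).1 hx
    exact (hgood i F hF).2.2 x hxF
  · intro i F hF
    exact (hgood i F hF).1
  · intro i F hF
    exact (hgood i F hF).2.1
  · rintro (Y | U)
    · show (vs (B2_D e C u v Y.1)).card ≤ e + 1 ∨ _
      rcases (C3_mem_pieces (contr C u v) (opp u) (opp v) Z Y.1).1 Y.2 with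
        ⟨A, hA, hAY⟩ | ⟨U, hU, hUY⟩
      · right; right
        constructor
        · by_contra hno
          push Not at hno
          have hsub : B2_D e C u v Y.1 ⊆ C := by
            intro F hF
            have hn := hno F hF
            have hnb : ¬ (u ∈ F ∧ v ∈ F) := fun h => hn.1 h.1 h.2
            rw [B2_D_nb C u v Y.1 F hnb, B2_mem_L] at hF
            rcases hF with h | h
            · exact ((C3_mem_nb C u v F).1 h.1).1
            · exfalso
              have := habY Y.1 Y.2 F h.1 h.2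
              exact hn.2 this.1 this.2
          have hDm := hmin (Sum.inl Y)
          have heq : B2_D e C u v Y.1 = C := hC.2.2 _ hsub hDm.2.1 hDm.1
          obtain ⟨F0, hF0, hu0, hv0⟩ := huvC
          rw [← heq] at hF0
          exact (hno F0 hF0).1 hu0 hv0
        · refine ⟨A, hZ.1 A hA, ?_, ?_⟩
          · show vs A = Finset.image (qv u v) (vs (B2_D e C u v Y.1))
            rw [hvsD Y.1 Y.2]
            have e1 : (vs (B2_L C u v Y.1)).image (B2_q u v) = vs Y.1 := by
              rw [← B2_vs_con u v huv', B2_L_image C u v Y.1 (hvY Y.1 Y.2)]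
            have e2 : (vs Y.1).image (B2_q (opp u) (opp v)) = vs A := by
              rw [← hAY]
              exact B2_vs_plus he h1 (contr C u v) c1 (opp u) (opp v) hab Z hZ A hA
            rw [← e2, ← e1, Finset.image_image]
            congr 1
            funext x
            exact B2_qv u v x huv
          · intro G hG
            obtain ⟨G1, hG1, hG1'⟩ := B2_lft (contr C u v) (opp u) (opp v) G (hZ.2.1 A hA hG)
            obtain ⟨F, hF, hF'⟩ := B2_lft C u v G1 ((C3_mem_nb _ _ _ G1).1 hG1).1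
            refine ⟨F, ((C3_mem_nb C u v F).1 hF).1, ?_⟩
            rw [← hG1', ← hF', B2_con_image u v huv', B2_con_image (opp u) (opp v) hab,
              Finset.image_image]
            congr 1
            funext x
            exact (B2_qv u v x huv).symm
      · obtain ⟨h4', hu, hv', m1, m2⟩ := (C3_mem_pairs (contr C u v) (opp u) (opp v) U).1 hU
        have hWc : (insert (opp u) (insert (opp v) U)).card = e + 1 :=
          C3_W_card (opp u) (opp v) hab U h4' hu hv'
        set X := insert (opp u) (insert (opp v) U) with hX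
        rw [hvsD Y.1 Y.2]
        have hcon : ∀ F ∈ B2_L C u v Y.1, con u v F ⊆ X := by
          intro F hF
          have := B2_L_con C u v Y.1 (hvY Y.1 Y.2) F hF
          rw [← hUY] at this
          exact (Finset.mem_powersetCard.1 this).1
        have hsub : vs (B2_L C u v Y.1) ⊆ insert v X := by
          intro x hx
          obtain ⟨F, hF, hxF⟩ := (B2_mem_vs _ x).1 hx
          rw [Finset.mem_insert]
          by_cases hxv : x = v
          · exact Or.inl hxv
          · right
            apply hcon F hF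
            rw [B2_con_image u v huv', Finset.mem_image]
            exact ⟨x, hxF, by unfold B2_q; rw [if_neg hxv]⟩
        by_cases huX : u ∈ X
        · by_cases hc : (vs (B2_L C u v Y.1)).card ≤ e + 1
          · exact Or.inl hc
          · right; left
            have hle : (insert v X).card ≤ (vs (B2_L C u v Y.1)).card := by
              have := Finset.card_insert_le v X
              omega
            have heq := Finset.eq_of_subset_of_card_le hsub hle
            have hc2 : (vs (B2_L C u v Y.1)).card ≤ e + 2 := by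
              rw [heq]
              have := Finset.card_insert_le v X
              omega
            refine ⟨?_, ?_, ?_, ?_, ?_⟩
            · show (vs (B2_D e C u v Y.1)).card ≤ e + 2
              rw [hvsD Y.1 Y.2]; exact hc2
            · show u ∈ vs (B2_D e C u v Y.1)
              rw [hvsD Y.1 Y.2, heq]; exact Finset.mem_insert_of_mem huX
            · show v ∈ vs (B2_D e C u v Y.1)
              rw [hvsD Y.1 Y.2, heq]; exact Finset.mem_insert_self _ _
            · show opp u ∈ vs (B2_D e C u v Y.1)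
              rw [hvsD Y.1 Y.2, heq]
              exact Finset.mem_insert_of_mem (by rw [hX]; simp)
            · show opp v ∈ vs (B2_D e C u v Y.1)
              rw [hvsD Y.1 Y.2, heq]
              exact Finset.mem_insert_of_mem (by rw [hX]; simp)
        · left
          have hsub2 : vs (B2_L C u v Y.1) ⊆ X := by
            intro x hx
            rcases Finset.mem_insert.1 (hsub hx) with h | h
            · exfalso
              obtain ⟨F, hF, hxF⟩ := (B2_mem_vs _ x).1 hx
              apply huX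
              apply hcon F hF
              rw [B2_con_image u v huv', Finset.mem_image]
              exact ⟨x, hxF, by unfold B2_q; rw [if_pos h]⟩
            · exact h
          exact (Finset.card_le_card hsub2).trans hWc.le
    · left
      obtain ⟨h4', hu, hv', _, _⟩ := (C3_mem_pairs C u v U.1).1 U.2
      have hWc : (insert u (insert v U.1)).card = e + 1 := C3_W_card u v huv' U.1 h4' hu hv'
      have : vs (B2_P e C u v (pieces e (contr C u v) (opp u) (opp v) Z) (Sum.inr U)) =
          insert u (insert v U.1) := C5_supp_ps e (by omega) _ hWc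
      rw [this, hWc]

end main

end Pool.Agent.N525.CS
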