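import Pool.Agent.N525.CS.Stm

set_option autoImplicit false

/-!
# Project CS, part B3 (helper46): choice of the edge and common neighbours
-/

namespace Pool.Agent.N525.CS

open Pool.Agent.N525.VR

namespace B3

variable {W : Type} [Fintype W] [DecidableEq W]

theorem opp_opp (x : SV W) : opp (opp x) = x := by
  unfold opp; simp

theorem opp_ne (x : SV W) : opp x ≠ x := by
  intro h
  have := congrArg Prod.snd h
  simp [opp] at this

theorem opp_fst (x : SV W) : (opp x).1 = x.1 := rfl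

theorem eq_or_opp {x y : SV W} (h : x.1 = y.1) : x = y ∨ x = opp y := by
  obtain ⟨a, s⟩ := x
  obtain ⟨b, t⟩ := y
  simp only at h
  subst h
  cases s <;> cases t <;> simp [opp]

theorem other {V : Type} [Fintype V] [DecidableEq V] {e : ℕ} {C : Finset (Finset V)}
    (hC : IsCycle e C) {F : Finset V} (hF : F ∈ C) {z : V} (hz : z ∈ F) :
    ∃ G ∈ C, F.erase z ⊆ G ∧ z ∉ G := by
  have hc := hC.1 F hF
  have hc1 : (F.erase z).card + 1 = e := by
    rw [Finset.card_erase_of_mem hz]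
    have := Finset.card_pos.2 ⟨z, hz⟩
    omega
  have hev := hC.2 _ hc1
  have hmem : F ∈ C.filter (fun G => F.erase z ⊆ G) :=
    Finset.mem_filter.2 ⟨hF, Finset.erase_subset _ _⟩
  have hpos := Finset.card_pos.2 ⟨F, hmem⟩
  have h1 : 1 < (C.filter (fun G => F.erase z ⊆ G)).card := by
    obtain ⟨k, hk⟩ := hev
    omega
  obtain ⟨G, hG, hne⟩ := Finset.exists_mem_ne h1 F
  rw [Finset.mem_filter] at hG
  refine ⟨G, hG.1, hG.2, fun hzG => hne ?_⟩
  have hsub : F ⊆ G := by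
    intro x hx
    by_cases h : x = z
    · rw [h]; exact hzG
    · exact hG.2 (Finset.mem_erase.2 ⟨h, hx⟩)
  exact (Finset.eq_of_subset_of_card_le hsub (by rw [hc, hC.1 G hG.1])).symm

theorem mem_vs {V : Type} [Fintype V] [DecidableEq V] {C : Finset (Finset V)} {x : V} :
    x ∈ vs C ↔ ∃ F ∈ C, x ∈ F := by
  unfold vs
  simp

/-- the paired orbits -/
def Pd (C : Finset (Finset (SV W))) : Finset W :=
  Finset.univ.filter fun a => (a, true) ∈ vs C ∧ (a, false) ∈ vs C

theorem mem_Pd {C : Finset (Finset (SV W))} {x : SV W} :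
    x.1 ∈ Pd C ↔ x ∈ vs C ∧ opp x ∈ vs C := by
  unfold Pd
  obtain ⟨a, s⟩ := x
  cases s <;> simp [opp, and_comm]

end B3

open B3 in
theorem t_CHOICE : S_CHOICE := by
  intro W _ _ e he C hC hu0
  obtain ⟨u0, hu0⟩ := hu0
  obtain ⟨hcyc, hne, -⟩ := hC
  -- choice of u
  obtain ⟨u, hu, huC, huP⟩ : ∃ u : SV W, (∀ F ∈ C, ∀ x ∈ F, opp x ∈ F → x = u ∨ x = opp u) ∧
      u ∈ vs C ∧ ((Pd C).Nonempty → u.1 ∈ Pd C) := by
    by_cases hA : ∃ F ∈ C, ∃ x ∈ F, opp x ∈ F
    · obtain ⟨F, hF, x, hx, hx'⟩ := hA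
      have hb : u0 ∈ F ∧ opp u0 ∈ F := by
        rcases hu0 F hF x hx hx' with h | h
        · subst h; exact ⟨hx, hx'⟩
        · subst h; rw [opp_opp] at hx'; exact ⟨hx', hx⟩
      exact ⟨u0, hu0, mem_vs.2 ⟨F, hF, hb.1⟩, fun _ =>
        mem_Pd.2 ⟨mem_vs.2 ⟨F, hF, hb.1⟩, mem_vs.2 ⟨F, hF, hb.2⟩⟩⟩
    · have hany : ∀ u : SV W, ∀ F ∈ C, ∀ x ∈ F, opp x ∈ F → x = u ∨ x = opp u := by
        intro u F hF x hx hx'
        exact absurd ⟨F, hF, x, hx, hx'⟩ hA
      by_cases hP : (Pd C).Nonempty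
      · obtain ⟨a, ha⟩ := hP
        have ha' : ((a, true) : SV W).1 ∈ Pd C := ha
        exact ⟨(a, true), hany _, (mem_Pd.1 ha').1, fun _ => ha⟩
      · obtain ⟨F, hF⟩ := hne
        have hFc : 0 < F.card := by rw [hcyc.1 F hF]; omega
        obtain ⟨x, hx⟩ := Finset.card_pos.1 hFc
        exact ⟨x, hany _, mem_vs.2 ⟨F, hF, hx⟩, fun h => absurd h hP⟩
  -- a facet containing u and not opp u
  obtain ⟨F, hF, huF, huF'⟩ : ∃ F ∈ C, u ∈ F ∧ opp u ∉ F := by
    obtain ⟨F, hF, huF⟩ := mem_vs.1 huC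
    by_cases h : opp u ∈ F
    · obtain ⟨G, hG, h1, h2⟩ := other hcyc hF h
      exact ⟨G, hG, h1 (Finset.mem_erase.2 ⟨(opp_ne u).symm, huF⟩), h2⟩
    · exact ⟨F, hF, huF, h⟩
  have hinj : Set.InjOn (Prod.fst : SV W → W) (F : Set (SV W)) := by
    intro x hx y hy hxy
    rcases eq_or_opp hxy with h | h
    · exact h
    · exfalso
      have hx' : opp y ∈ F := by rw [← h]; exact hx
      rcases hu F hF y hy hx' with h' | h'
      · subst h'; exact huF' hx'
      · subst h'; exact huF' hy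
  have hFc := hcyc.1 F hF
  have hcard : (F.image Prod.fst).card = e := by
    rw [Finset.card_image_of_injOn hinj, hFc]
  by_cases hPe : (Pd C).card < e
  · -- there is an unpaired vertex
    by_cases hP : (Pd C).Nonempty
    · have : ∃ a ∈ F.image Prod.fst, a ∉ Pd C := by
        by_contra hcon
        push Not at hcon
        have := Finset.card_le_card (show F.image Prod.fst ⊆ Pd C from hcon)
        omega
      obtain ⟨a, ha, haP⟩ := this
      obtain ⟨v, hv, rfl⟩ := Finset.mem_image.1 ha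
      refine ⟨u, v, ?_, hu, ⟨F, hF, huF, hv⟩, Or.inl ?_⟩
      · intro h; exact haP (h ▸ huP hP)
      · intro h; exact haP (mem_Pd.2 ⟨mem_vs.2 ⟨F, hF, hv⟩, h⟩)
    · obtain ⟨v, hv, hvu⟩ := Finset.exists_mem_ne (by rw [hFc]; omega : 1 < F.card) u
      refine ⟨u, v, ?_, hu, ⟨F, hF, huF, hv⟩, Or.inl ?_⟩
      · intro h; exact hvu (hinj hv huF h)
      · intro h; exact hP ⟨v.1, mem_Pd.2 ⟨mem_vs.2 ⟨F, hF, hv⟩, h⟩⟩
  · have hP : (Pd C).Nonempty := Finset.card_pos.1 (by omega)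
    obtain ⟨v, hv, hvu⟩ := Finset.exists_mem_ne (by rw [hFc]; omega : 1 < F.card) u
    have hvu' : v.1 ≠ u.1 := fun h => hvu (hinj hv huF h)
    refine ⟨u, v, hvu', hu, ⟨F, hF, huF, hv⟩, ?_⟩
    by_cases hov : opp v ∈ vs C
    · right
      refine ⟨(mem_Pd.1 (huP hP)).2, hov, ?_⟩
      have hvP : v.1 ∈ Pd C := mem_Pd.2 ⟨mem_vs.2 ⟨F, hF, hv⟩, hov⟩
      have h1 : e - 1 ≤ ((Pd C).erase v.1).card := by
        rw [Finset.card_erase_of_mem hvP]; omega
      obtain ⟨M, hM, hMc⟩ := Finset.exists_subset_card_eq h1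
      refine ⟨M, by omega, fun h => (Finset.mem_erase.1 (hM h)).1 rfl, fun a ha => ?_⟩
      have := (Finset.mem_erase.1 (hM ha)).2
      unfold Pd at this
      exact (Finset.mem_filter.1 this).2
    · exact Or.inl hov

open B3 in
theorem t_NB : S_NB := by
  intro W _ _ e he C hC u v hvu hu hF0
  obtain ⟨F0, hF0, hu0, hv0⟩ := hF0
  have hvou : v ≠ opp u := by
    intro h; apply hvu; rw [h, opp_fst]
  have hvu1 : v ≠ u := by
    intro h; apply hvu; rw [h]
  -- a member containing u, v and not opp u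
  obtain ⟨F1, hF1, hu1, hv1, ho1⟩ : ∃ F ∈ C, u ∈ F ∧ v ∈ F ∧ opp u ∉ F := by
    by_cases h : opp u ∈ F0
    · obtain ⟨G, hG, h1, h2⟩ := other hC hF0 h
      exact ⟨G, hG, h1 (Finset.mem_erase.2 ⟨(opp_ne u).symm, hu0⟩),
        h1 (Finset.mem_erase.2 ⟨hvou, hv0⟩), h2⟩
    · exact ⟨F0, hF0, hu0, hv0, h⟩
  have hno : ∀ F ∈ C, v ∈ F → opp v ∉ F := by
    intro F hF hv ho
    rcases hu F hF v hv ho with h | h
    · exact hvu1 h
    · exact hvou h
  have hF1c := hC.1 F1 hF1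
  set β := (F1.erase u).erase v with hβ
  have hβc : β.card + 2 = e := by
    rw [hβ, Finset.card_erase_of_mem (Finset.mem_erase.2 ⟨hvu1, hv1⟩),
      Finset.card_erase_of_mem hu1]
    omega
  have hβm : ∀ y ∈ β, y ≠ u ∧ y ≠ v ∧ y ∈ F1 := by
    intro y hy
    rw [hβ, Finset.mem_erase, Finset.mem_erase] at hy
    exact ⟨hy.2.1, hy.1, hy.2.2⟩
  have hβ1 : ∀ y ∈ β, y ≠ u ∧ y.1 ≠ v.1 ∧ ∃ F ∈ C, u ∈ F ∧ v ∈ F ∧ y ∈ F := by
    intro y hy
    obtain ⟨h1, h2, h3⟩ := hβm y hy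
    refine ⟨h1, fun h => ?_, F1, hF1, hu1, hv1, h3⟩
    rcases eq_or_opp h with h' | h'
    · exact h2 h'
    · exact hno F1 hF1 hv1 (h' ▸ h3)
  by_cases hA : ∃ F ∈ C, u ∈ F ∧ v ∈ F ∧ opp u ∈ F
  · obtain ⟨F2, hF2, hu2, hv2, ho2⟩ := hA
    have honβ : opp u ∉ β := fun h => ho1 (hβm _ h).2.2
    refine ⟨insert (opp u) β, ?_, ⟨u, ?_⟩, ?_⟩
    · rw [Finset.card_insert_of_notMem honβ]; omega
    · intro x hx hox
      rw [Finset.mem_insert, Finset.mem_insert] at hx hox
      rcases hx with h | h | h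
      · exact Or.inl h
      · exact Or.inr h
      · rcases hox with h' | h' | h'
        · right; rw [← h', opp_opp]
        · left; rw [← opp_opp x, h', opp_opp]
        · exact hu F1 hF1 x (hβm x h).2.2 (hβm _ h').2.2
    · intro y hy
      rw [Finset.mem_insert] at hy
      rcases hy with h | h
      · subst h
        exact ⟨opp_ne u, fun h => hvu (by rw [← h, opp_fst]), F2, hF2, hu2, hv2, ho2⟩
      · exact hβ1 y h
  · have hβne : β.Nonempty := Finset.card_pos.1 (by omega)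
    obtain ⟨z, hz⟩ := hβne
    obtain ⟨hz1, hz2, hz3⟩ := hβm z hz
    obtain ⟨G, hG, hG1, hG2⟩ := other hC hF1 hz3
    have huG : u ∈ G := hG1 (Finset.mem_erase.2 ⟨hz1.symm, hu1⟩)
    have hvG : v ∈ G := hG1 (Finset.mem_erase.2 ⟨hz2.symm, hv1⟩)
    obtain ⟨y, hyG, hyF⟩ : ∃ y ∈ G, y ∉ F1 := by
      by_contra hcon
      push Not at hcon
      have : G = F1 := Finset.eq_of_subset_of_card_le hcon (by rw [hF1c, hC.1 G hG])
      exact hG2 (this ▸ hz3)
    have hynβ : y ∉ β := fun h => hyF (hβm _ h).2.2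
    refine ⟨insert y β, ?_, ⟨y, ?_⟩, ?_⟩
    · rw [Finset.card_insert_of_notMem hynβ]; omega
    · intro x hx hox
      rw [Finset.mem_insert, Finset.mem_insert] at hx hox
      rcases hx with h | h | h
      · -- x = u
        subst h
        rcases hox with h' | h' | h'
        · exact absurd h' (opp_ne x)
        · right; rw [← h', opp_opp]
        · exact absurd (hβm _ h').2.2 ho1
      · exact Or.inl h
      · rcases hox with h' | h' | h'
        · exfalso
          apply ho1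
          rw [← h', opp_opp]
          exact (hβm x h).2.2
        · right; rw [← h', opp_opp]
        · exfalso
          rcases hu F1 hF1 x (hβm x h).2.2 (hβm _ h').2.2 with h2 | h2
          · subst h2; exact ho1 (hβm _ h').2.2
          · subst h2; exact ho1 (hβm _ h).2.2
    · intro x hx
      rw [Finset.mem_insert] at hx
      rcases hx with h | h
      · subst h
        refine ⟨fun h => hyF (h ▸ hu1), fun h => ?_, G, hG, huG, hvG, hyG⟩
        rcases eq_or_opp h with h' | h'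
        · exact hyF (h' ▸ hv1)
        · exact hno G hG hvG (h' ▸ hyG)
      · exact hβ1 x h

end Pool.Agent.N525.CS
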