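import Pool.Agent.N525.CS.Stm

set_option autoImplicit false

/-! The main induction: joins of minimal cycles with simplices are tied rigid (helper525). -/

namespace Pool.Agent.N525.CS

open Pool.Agent.N525.VR
open scoped RealInnerProductSpace

theorem B5_opp_opp {W : Type} (x : SV W) : opp (opp x) = x := by
  unfold opp; simp

theorem B5_opp_ne {W : Type} (x : SV W) : opp x ≠ x := by
  intro h
  have := congrArg Prod.snd h
  unfold opp at this
  simp at this

theorem B5_opp_fst {W : Type} (x : SV W) : (opp x).1 = x.1 := rfl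

theorem B5_fst_eq {W : Type} (x y : SV W) (h : x.1 = y.1) : x = y ∨ x = opp y := by
  rcases x with ⟨a, s⟩
  rcases y with ⟨b, t⟩
  simp only at h
  subst h
  unfold opp
  cases s <;> cases t <;> simp

section
variable {W : Type} [Fintype W] [DecidableEq W] {d : ℕ}

theorem B5_mem_vs {V : Type} [DecidableEq V] (C : Finset (Finset V)) (x : V) :
    x ∈ vs C ↔ ∃ F ∈ C, x ∈ F := by
  unfold vs; simp

theorem B5_pos_opp (q : W → E d) (x : SV W) : pos q (opp x) = - pos q x := by
  rcases x with ⟨a, s⟩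
  unfold pos opp
  cases s <;> simp

theorem B5_TT_mono (S S' : Finset (SV W)) (q m : W → E d) (h : S ⊆ S') (hT : TT S' q m) :
    TT S q m := by
  obtain ⟨A, b, hA, hb⟩ := hT
  exact ⟨A, b, hA, fun x hx => hb x (h hx)⟩

/-- if all `R`-motions are `R'`-motions then rigidity of `R'` implies that of `R` -/
theorem B5_TGR_mono (R R' : SV W → SV W → Prop) (S : Finset (SV W))
    (h : ∀ q m : W → E d, TM R q m → TM R' q m) (hR : TGR d R' S) : TGR d R S :=
  fun q hq m hm => hR q hq m (h q m hm)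

/-- minimal cycles with few vertices -/
theorem B5_small {V : Type} [Fintype V] [DecidableEq V] (e : ℕ) (he : 2 ≤ e)
    (C : Finset (Finset V)) (hC : MinCycle e C) (hcard : (vs C).card ≤ e + 1) :
    (vs C).card = e + 1 ∧ ∀ x ∈ vs C, ∀ y ∈ vs C, ∃ F ∈ C, x ∈ F ∧ y ∈ F := by
  obtain ⟨hcyc, ⟨F, hF⟩, _⟩ := hC
  have hFe := hcyc.1 F hF
  have hFs : F ⊆ vs C := fun x hx => (B5_mem_vs C x).2 ⟨F, hF, hx⟩
  have key : ∀ y ∈ F, ∃ z, z ∉ F ∧ insert z (F.erase y) ∈ C := by
    intro y hy
    have hev := hcyc.2 (F.erase y) (by rw [Finset.card_erase_of_mem hy]; omega)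
    have hmem : F ∈ C.filter (fun G => F.erase y ⊆ G) :=
      Finset.mem_filter.2 ⟨hF, Finset.erase_subset _ _⟩
    have h2 : 1 < (C.filter (fun G => F.erase y ⊆ G)).card := by
      have h1 := Finset.card_pos.2 ⟨F, hmem⟩
      rcases hev with ⟨k, hk⟩
      omega
    obtain ⟨G, hG, hne⟩ := Finset.exists_mem_ne h2 F
    obtain ⟨hGC, hGs⟩ := Finset.mem_filter.1 hG
    have hGe := hcyc.1 G hGC
    have hc : (G \ F.erase y).card = 1 := by
      rw [Finset.card_sdiff_of_subset hGs, hGe, Finset.card_erase_of_mem hy]; omega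
    obtain ⟨z, hz⟩ := Finset.card_eq_one.1 hc
    have hzG : z ∈ G \ F.erase y := by rw [hz]; simp
    obtain ⟨hz1, hz2⟩ := Finset.mem_sdiff.1 hzG
    have hGeq : insert z (F.erase y) = G := by
      apply Finset.eq_of_subset_of_card_le
      · exact Finset.insert_subset hz1 hGs
      · rw [Finset.card_insert_of_notMem hz2, Finset.card_erase_of_mem hy]; omega
    refine ⟨z, ?_, hGeq ▸ hGC⟩
    intro hzF
    apply hne
    have hzy : z = y := by
      by_contra hzy
      exact hz2 (Finset.mem_erase.2 ⟨hzy, hzF⟩)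
    rw [← hGeq, hzy, Finset.insert_erase hy]
  have hFne : F.Nonempty := Finset.card_pos.1 (by omega)
  obtain ⟨y0, hy0⟩ := hFne
  obtain ⟨z, hz, hzC⟩ := key y0 hy0
  have hzv : z ∈ vs C := (B5_mem_vs C z).2 ⟨_, hzC, Finset.mem_insert_self _ _⟩
  have hsub : insert z F ⊆ vs C := Finset.insert_subset hzv hFs
  have hci : (insert z F).card = e + 1 := by rw [Finset.card_insert_of_notMem hz, hFe]
  have heq : insert z F = vs C := Finset.eq_of_subset_of_card_le hsub (by omega)
  refine ⟨by rw [← heq, hci], ?_⟩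
  have key2 : ∀ y ∈ F, insert z (F.erase y) ∈ C := by
    intro y hy
    obtain ⟨z', hz', hzC'⟩ := key y hy
    have : z' ∈ insert z F := by
      rw [heq]; exact (B5_mem_vs C z').2 ⟨_, hzC', Finset.mem_insert_self _ _⟩
    rcases Finset.mem_insert.1 this with h | h
    · rw [h] at hzC'; exact hzC'
    · exact absurd h hz'
  have key3 : ∀ y ∈ F, ∃ G ∈ C, z ∈ G ∧ y ∈ G := by
    intro y hy
    have : (F.erase y).Nonempty := Finset.card_pos.1 (by
      rw [Finset.card_erase_of_mem hy]; omega)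
    obtain ⟨y', hy'⟩ := this
    obtain ⟨h1, h2⟩ := Finset.mem_erase.1 hy'
    exact ⟨_, key2 y' h2, Finset.mem_insert_self _ _,
      Finset.mem_insert_of_mem (Finset.mem_erase.2 ⟨h1.symm, hy⟩)⟩
  intro x hx y hy
  rw [← heq, Finset.mem_insert] at hx hy
  rcases hx with rfl | hx
  · rcases hy with rfl | hy
    · exact ⟨_, hzC, Finset.mem_insert_self _ _, Finset.mem_insert_self _ _⟩
    · exact key3 y hy
  · rcases hy with rfl | hy
    · obtain ⟨G, hG, h1, h2⟩ := key3 x hx
      exact ⟨G, hG, h2, h1⟩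
    · exact ⟨F, hF, hx, hy⟩

/-- the edges of the join, with the edge between the antipodes of `u` and `v` -/
def B5R (C : Finset (Finset (SV W))) (σ : Finset (SV W)) (u v x y : SV W) : Prop :=
  x ∈ vs C ∪ σ ∧ y ∈ vs C ∪ σ ∧ (ER C σ x y ∨ (x = opp u ∧ y = opp v) ∨ (x = opp v ∧ y = opp u))

theorem B5_ER_mem {V : Type} [DecidableEq V] (C : Finset (Finset V)) (σ : Finset V) (x y : V)
    (h : ER C σ x y) : x ∈ vs C ∪ σ ∧ y ∈ vs C ∪ σ := by
  obtain ⟨F, hF, hx, hy⟩ := h
  have : F ∪ σ ⊆ vs C ∪ σ :=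
    Finset.union_subset_union_left (fun z hz => (B5_mem_vs C z).2 ⟨F, hF, hz⟩)
  exact ⟨this hx, this hy⟩

theorem B5_TM (C : Finset (Finset (SV W))) (σ : Finset (SV W)) (u v : SV W)
    (huv : ∃ F ∈ C, u ∈ F ∧ v ∈ F) (q m : W → E d) (h : TM (ER C σ) q m) :
    TM (B5R C σ u v) q m := by
  have h0 : ⟪pos q u - pos q v, m u.1 - m v.1⟫ = 0 := by
    obtain ⟨F, hF, hu, hv⟩ := huv
    exact h u v ⟨F, hF, Finset.mem_union_left _ hu, Finset.mem_union_left _ hv⟩
  rintro x y ⟨_, _, hxy | ⟨rfl, rfl⟩ | ⟨rfl, rfl⟩⟩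
  · exact h x y hxy
  · rw [B5_pos_opp, B5_pos_opp, B5_opp_fst, B5_opp_fst]
    have : -pos q u - -pos q v = -(pos q u - pos q v) := by abel
    rw [this, inner_neg_left, h0, neg_zero]
  · rw [B5_pos_opp, B5_pos_opp, B5_opp_fst, B5_opp_fst]
    have : -pos q v - -pos q u = (pos q u - pos q v) := by abel
    have h3 : m v.1 - m u.1 = -(m u.1 - m v.1) := by abel
    rw [this, h3, inner_neg_right, h0, neg_zero]

theorem B5_qv_opp (u v : SV W) : qv (opp u) (opp v) = qv u v := by
  funext x
  unfold qv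
  rw [B5_opp_opp, B5_opp_opp]
  by_cases h1 : x = v
  · subst h1
    rw [if_neg (fun h => B5_opp_ne x h.symm), if_pos rfl, if_pos rfl]
  · by_cases h2 : x = opp v
    · simp only [h1, h2, if_true, if_false]
      rw [if_neg (B5_opp_ne v)]
    · simp only [h1, h2, if_false]

/-- the splitting step -/
theorem B5_split (h1 : S_SPLIT) (h2 : S_NB) (d e : ℕ) (he : 3 ≤ e)
    (C : Finset (Finset (SV W))) (σ : Finset (SV W)) (hC : C.Nonempty) (hed : e + σ.card = d)
    (hσ : ∀ x ∈ vs C, x ∉ σ ∧ opp x ∉ σ) (hσ2 : ∀ x ∈ σ, opp x ∉ σ)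
    (a b u v : SV W) (hvu : v.1 ≠ u.1) (hab : (a = u ∧ b = v) ∨ (a = opp u ∧ b = opp v))
    (P : Finset (Finset (SV W))) (hP : IsCycle e P) (hPv : vs P = vs C)
    (hex : ∀ F ∈ P, ∀ x ∈ F, opp x ∈ F → x = u ∨ x = opp u)
    (hE : ∀ F ∈ P, ∀ x ∈ F, ∀ y ∈ F, x.1 ≠ y.1 → (∃ G ∈ C, x ∈ G ∧ y ∈ G) ∨
      (x = opp u ∧ y = opp v) ∨ (x = opp v ∧ y = opp u))
    (hF : ∃ F ∈ P, a ∈ F ∧ b ∈ F)
    (Z : Finset (Finset (SV W))) (hZv : vs Z = (vs C).image (qv u v))
    (hZ : ∀ G ∈ Z, ∃ F ∈ C, F.image (qv u v) = G)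
    (hZr : TGR d (ER Z σ) (vs Z ∪ σ))
    (halt : opp b ∉ vs C ∨ (opp a ∈ vs C ∧ opp b ∈ vs C ∧ ∃ M : Finset W, M.card + 1 = e ∧
      b.1 ∉ M ∧ ∀ c ∈ M, (c, true) ∈ vs C ∧ (c, false) ∈ vs C)) :
    TGR d (B5R C σ u v) (vs C ∪ σ) := by
  have hba : b.1 ≠ a.1 := by
    rcases hab with ⟨rfl, rfl⟩ | ⟨rfl, rfl⟩
    · exact hvu
    · exact hvu
  have hqv : qv a b = qv u v := by
    rcases hab with ⟨rfl, rfl⟩ | ⟨rfl, rfl⟩
    · rfl
    · exact B5_qv_opp u v
  have hex' : ∀ F ∈ P, ∀ x ∈ F, opp x ∈ F → x = a ∨ x = opp a := by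
    intro F1 hF1 x hx hox
    rcases hab with ⟨rfl, rfl⟩ | ⟨rfl, rfl⟩
    · exact hex F1 hF1 x hx hox
    · rw [B5_opp_opp]; exact (hex F1 hF1 x hx hox).symm
  obtain ⟨F0, hF0, ha0, hb0⟩ := hF
  have haC : a ∈ vs C := by rw [← hPv]; exact (B5_mem_vs P a).2 ⟨F0, hF0, ha0⟩
  have hbC : b ∈ vs C := by rw [← hPv]; exact (B5_mem_vs P b).2 ⟨F0, hF0, hb0⟩
  -- pairs in facets of `P` are edges
  have hR : ∀ F ∈ P, ∀ x ∈ F, ∀ y ∈ F, x.1 ≠ y.1 → B5R C σ u v x y := by
    intro F hF x hx y hy hxy
    have hx' : x ∈ vs C := by rw [← hPv]; exact (B5_mem_vs P x).2 ⟨F, hF, hx⟩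
    have hy' : y ∈ vs C := by rw [← hPv]; exact (B5_mem_vs P y).2 ⟨F, hF, hy⟩
    refine ⟨Finset.mem_union_left _ hx', Finset.mem_union_left _ hy', ?_⟩
    rcases hE F hF x hx y hy hxy with ⟨G, hG, h3, h4⟩ | h | h
    · exact Or.inl ⟨G, hG, Finset.mem_union_left _ h3, Finset.mem_union_left _ h4⟩
    · exact Or.inr (Or.inl h)
    · exact Or.inr (Or.inr h)
  -- edges to `σ`
  have hRσ : ∀ x ∈ vs C, ∀ s ∈ σ, B5R C σ u v x s := by
    intro x hx s hs
    obtain ⟨G, hG, hxG⟩ := (B5_mem_vs C x).1 hx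
    exact ⟨Finset.mem_union_left _ hx, Finset.mem_union_right _ hs,
      Or.inl ⟨G, hG, Finset.mem_union_left _ hxG, Finset.mem_union_right _ hs⟩⟩
  have hσb : ∀ x ∈ vs C, ∀ s ∈ σ, s.1 ≠ x.1 := by
    intro x hx s hs hsx
    rcases B5_fst_eq s x hsx with h | h
    · exact (hσ x hx).1 (h ▸ hs)
    · exact (hσ x hx).2 (h ▸ hs)
  obtain ⟨N', hN1, hN2, hN3⟩ := h2 W e he P hP a b hba hex' ⟨F0, hF0, ha0, hb0⟩
  have hN'C : ∀ y ∈ N', y ∈ vs C := by
    intro y hy
    obtain ⟨_, _, F, hF, _, _, hyF⟩ := hN3 y hy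
    rw [← hPv]; exact (B5_mem_vs P y).2 ⟨F, hF, hyF⟩
  have hdisj : Disjoint N' σ := by
    rw [Finset.disjoint_left]
    intro y hy hys
    exact (hσ y (hN'C y hy)).1 hys
  refine h1 W d (B5R C σ u v) (ER Z σ) (vs C ∪ σ) a b (N' ∪ σ) (fun x y h => ⟨h.1, h.2.1⟩)
    (Finset.mem_union_left _ haC) (Finset.mem_union_left _ hbC) hba ?_ ?_ (hR F0 hF0 a ha0 b hb0
      hba.symm) ?_ ?_ ?_ ?_
  · -- the image of the vertex set
    have e1 : (vs C ∪ σ).image (qv a b) = vs Z ∪ σ := by
      rw [Finset.image_union, hqv, ← hZv]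
      congr 1
      ext x
      rw [Finset.mem_image]
      have hq : ∀ s ∈ σ, qv u v s = s := by
        intro s hs
        have hs1 : s ≠ v := by
          rintro rfl
          rcases hab with ⟨rfl, rfl⟩ | ⟨rfl, rfl⟩
          · exact (hσ _ hbC).1 hs
          · exact (hσ _ hbC).2 (by rw [B5_opp_opp]; exact hs)
        have hs2 : s ≠ opp v := by
          rintro rfl
          rcases hab with ⟨rfl, rfl⟩ | ⟨rfl, rfl⟩
          · exact (hσ _ hbC).2 hs
          · exact (hσ _ hbC).1 hs
        unfold qv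
        rw [if_neg hs1, if_neg hs2]
      constructor
      · rintro ⟨s, hs, rfl⟩
        rw [hq s hs]; exact hs
      · intro hx
        exact ⟨x, hx, hq x hx⟩
    rw [e1]
    exact hZr
  · -- lifting of edges
    rintro x y ⟨G, hG, hx, hy⟩
    obtain ⟨F, hF, rfl⟩ := hZ G hG
    have hlift : ∀ z ∈ F.image (qv u v) ∪ σ, ∃ z' ∈ F ∪ σ, qv a b z' = z := by
      intro z hz
      rcases Finset.mem_union.1 hz with hz | hz
      · obtain ⟨z', hz', rfl⟩ := Finset.mem_image.1 hz
        exact ⟨z', Finset.mem_union_left _ hz', by rw [hqv]⟩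
      · refine ⟨z, Finset.mem_union_right _ hz, ?_⟩
        have hs1 : z ≠ b := fun h => (hσ b hbC).1 (h ▸ hz)
        have hs2 : z ≠ opp b := fun h => (hσ b hbC).2 (h ▸ hz)
        unfold qv
        rw [if_neg hs1, if_neg hs2]
    obtain ⟨x', hx', rfl⟩ := hlift x hx
    obtain ⟨y', hy', rfl⟩ := hlift y hy
    have hER : ER C σ x' y' := ⟨F, hF, hx', hy'⟩
    have hm := B5_ER_mem C σ x' y' hER
    exact ⟨x', hm.1, y', hm.2, rfl, rfl, hm.1, hm.2, Or.inl hER⟩
  · rw [Finset.card_union_of_disjoint hdisj]; omega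
  · intro y hy
    rcases Finset.mem_union.1 hy with hy | hy
    · obtain ⟨h3, h4, F, hF, haF, hbF, hyF⟩ := hN3 y hy
      refine ⟨Finset.mem_union_left _ (hN'C y hy), h4, h3, hR F hF b hbF y hyF h4.symm, ?_⟩
      by_cases h5 : a.1 = y.1
      · rcases B5_fst_eq y a h5.symm with h | h
        · exact absurd h h3
        · exact Or.inr h
      · exact Or.inl (hR F hF a haF y hyF h5)
    · refine ⟨Finset.mem_union_right _ hy, hσb b hbC y hy, ?_, hRσ b hbC y hy,
        Or.inl (hRσ a haC y hy)⟩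
      rintro rfl
      exact (hσ _ haC).1 hy
  · obtain ⟨w, hw⟩ := hN2
    refine ⟨w, ?_⟩
    have hin : ∀ z ∈ insert a N', z ∈ vs C := by
      intro z hz
      rcases Finset.mem_insert.1 hz with rfl | hz
      · exact haC
      · exact hN'C z hz
    have hmem : ∀ z, z ∈ insert a (N' ∪ σ) → z ∈ insert a N' ∨ z ∈ σ := by
      intro z hz
      rcases Finset.mem_insert.1 hz with rfl | hz
      · exact Or.inl (Finset.mem_insert_self _ _)
      · rcases Finset.mem_union.1 hz with hz | hz
        · exact Or.inl (Finset.mem_insert_of_mem hz)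
        · exact Or.inr hz
    intro x hx hox
    rcases hmem x hx with h3 | h3
    · rcases hmem _ hox with h4 | h4
      · exact hw x h3 h4
      · exact absurd h4 (hσ x (hin x h3)).2
    · rcases hmem _ hox with h4 | h4
      · have := (hσ _ (hin _ h4)).2
        rw [B5_opp_opp] at this
        exact absurd h3 this
      · exact absurd h4 (hσ2 x h3)
  · rcases halt with h | ⟨h3, h4, M, hM1, hM2, hM3⟩
    · left
      rw [Finset.mem_union]
      rintro (h5 | h5)
      · exact h h5
      · exact (hσ b hbC).2 h5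
    · right
      refine ⟨Finset.mem_union_left _ h3, Finset.mem_union_left _ h4, M ∪ σ.image Prod.fst, ?_, ?_, ?_⟩
      · have hinj : Set.InjOn Prod.fst (σ : Set (SV W)) := by
          intro s hs t ht hst
          rcases B5_fst_eq s t hst with h | h
          · exact h
          · exact absurd (h ▸ hs) (hσ2 t ht)
        rw [Finset.card_union_of_disjoint, Finset.card_image_of_injOn hinj]
        · omega
        · rw [Finset.disjoint_left]
          intro c hc hc2
          obtain ⟨s, hs, rfl⟩ := Finset.mem_image.1 hc2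
          obtain ⟨h5, h6⟩ := hM3 _ hc
          rcases s with ⟨c, t⟩
          cases t
          · exact (hσ _ h6).1 hs
          · exact (hσ _ h5).1 hs
      · rw [Finset.mem_union]
        rintro (h5 | h5)
        · exact hM2 h5
        · obtain ⟨s, hs, hs2⟩ := Finset.mem_image.1 h5
          exact hσb b hbC s hs hs2
      · intro c hc
        rcases Finset.mem_union.1 hc with hc | hc
        · exact Or.inl ⟨Finset.mem_union_left _ (hM3 c hc).1, Finset.mem_union_left _ (hM3 c hc).2⟩
        · obtain ⟨s, hs, rfl⟩ := Finset.mem_image.1 hc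
          exact Or.inr ⟨s.2, hRσ _ h3 s hs, hRσ _ h4 s hs⟩

theorem t_MAIN (h1 : S_AIN) (h2 : S_SPLIT) (h3 : S_KD) (h4 : S_GL) (h5 : S_PIECES) (h6 : S_CHOICE)
    (h7 : S_NB) : S_MAIN := by
  intro W _ _ d e he C σ
  induction' hn : (vs C).card using Nat.strong_induction_on with n ih generalizing C
  intro hC hed hσ hσ2 hex0
  obtain ⟨u, v, hvu, hex, ⟨F0, hF0, hu, hv⟩, halt⟩ := h6 W e he C hC hex0
  obtain ⟨ι, _, _, P, hP1, hP2, hP3, hP4, hP5, hP6⟩ := h5 W e he C hC u v hvu hex ⟨F0, hF0, hu, hv⟩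
  have huC : u ∈ vs C := (B5_mem_vs C u).2 ⟨F0, hF0, hu⟩
  have hvC : v ∈ vs C := (B5_mem_vs C v).2 ⟨F0, hF0, hv⟩
  by_cases hA : ∃ i, vs (P i) = vs C
  · obtain ⟨i, hi⟩ := hA
    refine B5_TGR_mono (ER C σ) (B5R C σ u v) _ (fun q m h => B5_TM C σ u v ⟨F0, hF0, hu, hv⟩ q m h) ?_
    rcases hP6 i with hs | ⟨hs, h8, h9, h10, h11⟩ | ⟨hF, Z, hZ1, hZ2, hZ3⟩
    · -- complete graphs
      obtain ⟨h8, h9⟩ := B5_small e (by omega) (P i) (hP1 i).1 hs
      refine h3 W d _ _ ?_ ?_ ?_
      · rw [Finset.card_union_of_disjoint, ← hi, h8]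
        · omega
        · rw [Finset.disjoint_left]
          intro y hy hys
          exact (hσ y hy).1 hys
      · refine ⟨u, ?_⟩
        intro x hx hox
        rcases Finset.mem_union.1 hx with h10 | h10
        · rcases Finset.mem_union.1 hox with h11 | h11
          · obtain ⟨F, hF, h12, h13⟩ := h9 x (hi ▸ h10) (opp x) (hi ▸ h11)
            exact hP2 i F hF x h12 h13
          · exact absurd h11 (hσ x h10).2
        · rcases Finset.mem_union.1 hox with h11 | h11
          · have := (hσ _ h11).2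
            rw [B5_opp_opp] at this
            exact absurd h10 this
          · exact absurd h11 (hσ2 x h10)
      · intro x hx y hy hxy
        refine ⟨hx, hy, ?_⟩
        rcases Finset.mem_union.1 hx with h10 | h10
        · rcases Finset.mem_union.1 hy with h11 | h11
          · obtain ⟨F, hF, h12, h13⟩ := h9 x (hi ▸ h10) y (hi ▸ h11)
            rcases hP3 i F hF x h12 y h13 hxy with ⟨G, hG, h14, h15⟩ | h | h
            · exact Or.inl ⟨G, hG, Finset.mem_union_left _ h14, Finset.mem_union_left _ h15⟩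
            · exact Or.inr (Or.inl h)
            · exact Or.inr (Or.inr h)
          · obtain ⟨G, hG, hxG⟩ := (B5_mem_vs C x).1 h10
            exact Or.inl ⟨G, hG, Finset.mem_union_left _ hxG, Finset.mem_union_right _ h11⟩
        · rcases Finset.mem_union.1 hy with h11 | h11
          · obtain ⟨G, hG, hyG⟩ := (B5_mem_vs C y).1 h11
            exact Or.inl ⟨G, hG, Finset.mem_union_right _ h10, Finset.mem_union_left _ hyG⟩
          · exact Or.inl ⟨F0, hF0, Finset.mem_union_right _ h10, Finset.mem_union_right _ h11⟩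
    · -- excluded by the choice of `u`, `v`
      exfalso
      rw [hi] at hs h8 h9 h10 h11
      rcases halt with h | ⟨_, _, M, hM1, hM2, hM3⟩
      · exact h h11
      · have hsub : (insert v.1 M) ×ˢ (Finset.univ : Finset Bool) ⊆ vs C := by
          rintro ⟨c, t⟩ hc
          rw [Finset.mem_product] at hc
          rcases Finset.mem_insert.1 hc.1 with hc1 | hc1
          · have : (c, t) = v ∨ (c, t) = opp v := B5_fst_eq _ _ hc1
            rcases this with h | h
            · rw [h]; exact h9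
            · rw [h]; exact h11
          · have := hM3 _ hc1
            cases t
            · exact this.2
            · exact this.1
        have := Finset.card_le_card hsub
        rw [Finset.card_product, Finset.card_insert_of_notMem hM2, Finset.card_univ,
          Fintype.card_bool] at this
        omega
    · -- vertex splitting
      rw [hi] at hZ2
      have hlt : (vs Z).card < n := by
        rw [hZ2, ← hn]
        refine lt_of_le_of_ne Finset.card_image_le ?_
        intro h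
        have hinj := Finset.card_image_iff.1 h
        have huv : qv u v u = qv u v v := by
          unfold qv
          rw [if_pos rfl]
          by_cases h8 : u = v
          · rw [if_pos h8]
          · rw [if_neg h8]
            by_cases h9 : u = opp v
            · exfalso
              apply hvu
              rw [h9]; rfl
            · rw [if_neg h9]
        have := hinj huC hvC huv
        exact hvu (by rw [this])
      have hmemZ : ∀ x ∈ vs Z, x = u ∨ x = opp u ∨ x ∈ vs C := by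
        intro x hx
        rw [hZ2] at hx
        obtain ⟨x', hx', rfl⟩ := Finset.mem_image.1 hx
        unfold qv
        by_cases h8 : x' = v
        · rw [if_pos h8]; exact Or.inl rfl
        · rw [if_neg h8]
          by_cases h9 : x' = opp v
          · rw [if_pos h9]; exact Or.inr (Or.inl rfl)
          · rw [if_neg h9]; exact Or.inr (Or.inr hx')
      have hZr : TGR d (ER Z σ) (vs Z ∪ σ) := by
        refine ih _ hlt Z rfl hZ1 hed ?_ hσ2 ⟨u, ?_⟩
        · intro x hx
          rcases hmemZ x hx with rfl | rfl | h8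
          · exact hσ _ huC
          · rw [B5_opp_opp]; exact (hσ _ huC).symm
          · exact hσ x h8
        · intro G hG x hx hox
          by_contra hcon
          push Not at hcon
          obtain ⟨F, hF, rfl⟩ := hZ3 G hG
          have key : ∀ z ∈ F.image (qv u v), z ≠ u → z ≠ opp u → z ∈ F := by
            intro z hz hz1 hz2
            obtain ⟨z', hz', rfl⟩ := Finset.mem_image.1 hz
            unfold qv at hz1 hz2 ⊢
            by_cases h8 : z' = v
            · rw [if_pos h8] at hz1; exact absurd rfl hz1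
            · rw [if_neg h8] at hz1 hz2 ⊢
              by_cases h9 : z' = opp v
              · rw [if_pos h9] at hz2; exact absurd rfl hz2
              · rw [if_neg h9]; exact hz'
          have h8 := key x hx hcon.1 hcon.2
          have h9 := key (opp x) hox (fun h => hcon.2 (by rw [← h, B5_opp_opp]))
            (fun h => hcon.1 (by
              have := congrArg opp h
              rwa [B5_opp_opp, B5_opp_opp] at this))
          rcases hex F hF x h8 h9 with h | h
          · exact hcon.1 h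
          · exact hcon.2 h
      rcases hF with ⟨F, hF, ⟨h8, h9⟩ | ⟨h8, h9⟩⟩
      · exact B5_split h2 h7 d e he C σ ⟨F0, hF0⟩ hed hσ hσ2 u v u v hvu (Or.inl ⟨rfl, rfl⟩) (P i)
          (hP1 i).1.1 hi (hP2 i) (hP3 i) ⟨F, hF, h8, h9⟩ Z hZ2 hZ3 hZr halt
      · refine B5_split h2 h7 d e he C σ ⟨F0, hF0⟩ hed hσ hσ2 (opp u) (opp v) u v hvu
          (Or.inr ⟨rfl, rfl⟩) (P i) (hP1 i).1.1 hi (hP2 i) (hP3 i) ⟨F, hF, h8, h9⟩ Z hZ2 hZ3 hZr ?_
        have h10 : opp v ∈ vs C := by rw [← hi]; exact (B5_mem_vs _ _).2 ⟨F, hF, h9⟩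
        right
        rw [B5_opp_opp, B5_opp_opp]
        refine ⟨huC, hvC, ?_⟩
        rcases halt with h | ⟨_, _, M, hM1, hM2, hM3⟩
        · exact absurd h10 h
        · exact ⟨M, hM1, hM2, hM3⟩
  · -- all pieces are smaller
    intro q hq m hm
    push Not at hA
    have hm' := B5_TM C σ u v ⟨F0, hF0, hu, hv⟩ q m hm
    have hTT : ∀ i, TT (vs (P i) ∪ σ) q m := by
      intro i
      have hlt : (vs (P i)).card < n := by
        rw [← hn]
        exact Finset.card_lt_card (lt_of_le_of_ne (hP1 i).2 (hA i))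
      have := ih _ hlt (P i) rfl (hP1 i).1 hed (fun x hx => hσ x ((hP1 i).2 hx)) hσ2 ⟨u, hP2 i⟩
      refine this q hq m ?_
      rintro x y ⟨F, hF, hx, hy⟩
      by_cases hxy : x.1 = y.1
      · rw [hxy, sub_self, inner_zero_right]
      have hsub : F ⊆ vs C := fun z hz => (hP1 i).2 ((B5_mem_vs _ z).2 ⟨F, hF, hz⟩)
      rcases Finset.mem_union.1 hx with h10 | h10
      · rcases Finset.mem_union.1 hy with h11 | h11
        · refine hm' x y ⟨Finset.mem_union_left _ (hsub h10), Finset.mem_union_left _ (hsub h11), ?_⟩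
          rcases hP3 i F hF x h10 y h11 hxy with ⟨G, hG, h14, h15⟩ | h | h
          · exact Or.inl ⟨G, hG, Finset.mem_union_left _ h14, Finset.mem_union_left _ h15⟩
          · exact Or.inr (Or.inl h)
          · exact Or.inr (Or.inr h)
        · obtain ⟨G, hG, hxG⟩ := (B5_mem_vs C x).1 (hsub h10)
          exact hm x y ⟨G, hG, Finset.mem_union_left _ hxG, Finset.mem_union_right _ h11⟩
      · rcases Finset.mem_union.1 hy with h11 | h11
        · obtain ⟨G, hG, hyG⟩ := (B5_mem_vs C y).1 (hsub h11)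
          exact hm x y ⟨G, hG, Finset.mem_union_right _ h10, Finset.mem_union_left _ hyG⟩
        · exact hm x y ⟨F0, hF0, Finset.mem_union_right _ h10, Finset.mem_union_right _ h11⟩
    have hglue : TT (Finset.univ.biUnion (fun i => vs (P i) ∪ σ)) q m := by
      refine h4 W d q m ι (fun i => vs (P i) ∪ σ) ?_ hTT
      intro X hX hX1
      obtain ⟨i, hi, j, hj, F, hFi, hFj⟩ := hP5 X hX hX1
      have hFe := (hP1 i).1.1.1 F hFi
      have hdisj : Disjoint F σ := by
        rw [Finset.disjoint_left]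
        intro y hy hys
        exact (hσ y ((hP1 i).2 ((B5_mem_vs _ y).2 ⟨F, hFi, hy⟩))).1 hys
      refine ⟨i, hi, j, hj, F ∪ σ, ?_, ?_, ?_, ?_⟩
      · exact Finset.union_subset_union_left (fun z hz => (B5_mem_vs _ z).2 ⟨F, hFi, hz⟩)
      · exact Finset.union_subset_union_left (fun z hz => (B5_mem_vs _ z).2 ⟨F, hFj, hz⟩)
      · rw [Finset.card_union_of_disjoint hdisj]; omega
      · refine h1 W d q hq _ (by rw [Finset.card_union_of_disjoint hdisj]; omega) ⟨u, ?_⟩
        intro x hx hox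
        have hin : ∀ z ∈ F, z ∈ vs C := fun z hz => (hP1 i).2 ((B5_mem_vs _ z).2 ⟨F, hFi, hz⟩)
        rcases Finset.mem_union.1 hx with h10 | h10
        · rcases Finset.mem_union.1 hox with h11 | h11
          · exact hP2 i F hFi x h10 h11
          · exact absurd h11 (hσ x (hin x h10)).2
        · rcases Finset.mem_union.1 hox with h11 | h11
          · have := (hσ _ (hin _ h11)).2
            rw [B5_opp_opp] at this
            exact absurd h10 this
          · exact absurd h11 (hσ2 x h10)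
    refine B5_TT_mono _ _ q m ?_ hglue
    obtain ⟨i0, hi0⟩ := hP4 F0 hF0
    intro x hx
    rw [Finset.mem_biUnion]
    rcases Finset.mem_union.1 hx with h10 | h10
    · obtain ⟨F, hF, hxF⟩ := (B5_mem_vs C x).1 h10
      obtain ⟨i, hi⟩ := hP4 F hF
      exact ⟨i, Finset.mem_univ _, Finset.mem_union_left _ ((B5_mem_vs _ x).2 ⟨F, hi, hxF⟩)⟩
    · exact ⟨i0, Finset.mem_univ _, Finset.mem_union_right _ h10⟩

theorem t_LB (h1 : S_MAIN) (h2 : S_COUNT) : S_LB := by
  intro W _ _ d hd T hT hsym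
  obtain ⟨hs1, hs2⟩ := hsym
  obtain ⟨F0, hF0⟩ := hT.2.1
  have hF0c := hT.1.1 F0 hF0
  have hopp : ∀ x ∈ vs T, opp x ∈ vs T := by
    intro x hx
    obtain ⟨F, hF, hxF⟩ := (B5_mem_vs T x).1 hx
    exact (B5_mem_vs T _).2 ⟨_, hs1 F hF, Finset.mem_image_of_mem _ hxF⟩
  have hoppinj : Function.Injective (opp : SV W → SV W) := by
    intro x y hxy
    have := congrArg opp hxy
    rwa [B5_opp_opp, B5_opp_opp] at this
  have hmain := h1 W d d hd T ∅ hT (by simp) (by simp) (by simp) ⟨(Finset.card_pos.1 (by omega : 0 < F0.card)).choose, fun F hF x hx hox =>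
      absurd hox (hs2 F hF x hx)⟩
  rw [Finset.union_empty] at hmain
  refine h2 W d (eg T) (vs T) (by omega) hopp ?_ ?_ ?_
  · intro e he
    obtain ⟨_, he2, F, hF, heF⟩ := Finset.mem_filter.1 he
    refine ⟨he2, fun x hx => (B5_mem_vs T x).2 ⟨F, hF, heF hx⟩, ?_, ?_⟩
    · refine Finset.mem_filter.2 ⟨Finset.mem_univ _, ?_, F.image opp, hs1 F hF,
        Finset.image_subset_image heF⟩
      rw [Finset.card_image_of_injective _ hoppinj, he2]
    · intro x hx hox
      exact hs2 F hF x (heF hx) (heF hox)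
  · have hdisj : Disjoint F0 (F0.image opp) := by
      rw [Finset.disjoint_left]
      intro x hx hx2
      obtain ⟨y, hy, rfl⟩ := Finset.mem_image.1 hx2
      exact hs2 F0 hF0 y hy hx
    have hsub : F0 ∪ F0.image opp ⊆ vs T := by
      intro x hx
      rcases Finset.mem_union.1 hx with h | h
      · exact (B5_mem_vs T x).2 ⟨F0, hF0, h⟩
      · exact (B5_mem_vs T x).2 ⟨_, hs1 F0 hF0, h⟩
    have := Finset.card_le_card hsub
    rw [Finset.card_union_of_disjoint hdisj, Finset.card_image_of_injective _ hoppinj] at this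
    omega
  · refine B5_TGR_mono _ (ER T ∅) _ ?_ hmain
    intro q m hm x y hxy
    obtain ⟨F, hF, hx, hy⟩ := hxy
    rw [Finset.union_empty] at hx hy
    by_cases h : x = y
    · rw [h, sub_self, inner_zero_left]
    · refine hm x y ⟨h, Finset.mem_filter.2 ⟨Finset.mem_univ _, Finset.card_pair h, F, hF, ?_⟩⟩
      intro z hz
      rcases Finset.mem_insert.1 hz with rfl | hz
      · exact hx
      · rw [Finset.mem_singleton.1 hz]; exact hy

end

end Pool.Agent.N525.CS
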