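import Pool.Agent.N525.CS.Stm

set_option autoImplicit false
set_option linter.unusedSectionVars false

/-! Part C1 (helper360): links of combinatorial spheres are minimal cycles. -/

namespace Pool.Agent.N525.CS

open Pool.Agent.N525.VR

variable {V : Type} [Fintype V] [DecidableEq V]

theorem C1_sdiff_inj (T : Finset (Finset V)) (s : Finset V) :
    Set.InjOn (fun F : Finset V => F \ s) (st T s) := by
  intro F hF G hG h
  have hF' : s ⊆ F := (Finset.mem_filter.1 (Finset.mem_coe.1 hF)).2
  have hG' : s ⊆ G := (Finset.mem_filter.1 (Finset.mem_coe.1 hG)).2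
  have h' : F \ s = G \ s := h
  rw [← Finset.sdiff_union_of_subset hF', h', Finset.sdiff_union_of_subset hG']

/-- counting in the link of `s` inside a set `Z` of facets containing `s` -/
theorem C1_count (T : Finset (Finset V)) (s : Finset V) (Z : Finset (Finset V)) (hZ : Z ⊆ st T s)
    (t : Finset V) :
    ((Z.image (fun F => F \ s)).filter (fun F => t ⊆ F)).card =
      if Disjoint t s then (Z.filter (fun F => t ∪ s ⊆ F)).card else 0 := by
  split_ifs with h
  · rw [Finset.filter_image, Finset.card_image_of_injOn]
    · congr 1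
      apply Finset.filter_congr
      intro F hF
      have hsF : s ⊆ F := (Finset.mem_filter.1 (hZ hF)).2
      constructor
      · intro h1
        exact Finset.union_subset (h1.trans Finset.sdiff_subset) hsF
      · intro h1
        rw [Finset.subset_sdiff]
        exact ⟨Finset.subset_union_left.trans h1, h⟩
    · refine (C1_sdiff_inj T s).mono ?_
      intro F hF
      exact hZ (Finset.mem_filter.1 (Finset.mem_coe.1 hF)).1
  · rw [Finset.card_eq_zero, Finset.filter_eq_empty_iff]
    intro G hG htG
    rw [Finset.mem_image] at hG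
    obtain ⟨F, hF, rfl⟩ := hG
    exact h (Finset.disjoint_of_subset_left htG Finset.sdiff_disjoint)

theorem C1_cycle (d : ℕ) (T : Finset (Finset V)) (hT : ∀ F ∈ T, F.card = d) (s : Finset V)
    (hs : s.card < d) (Z : Finset (Finset V)) (hZ : Z ⊆ st T s) :
    IsCycle (d - s.card) (Z.image (fun F => F \ s)) ↔ RC d s Z := by
  constructor
  · intro h t ht hst
    have h1 := h.2 (t \ s) (by
      rw [Finset.card_sdiff_of_subset hst]
      have := Finset.card_le_card hst
      omega)
    rw [C1_count T s Z hZ, if_pos Finset.sdiff_disjoint, Finset.sdiff_union_of_subset hst] at h1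
    exact h1
  · intro h
    constructor
    · intro G hG
      rw [Finset.mem_image] at hG
      obtain ⟨F, hF, rfl⟩ := hG
      have hF' := Finset.mem_filter.1 (hZ hF)
      rw [Finset.card_sdiff_of_subset hF'.2, hT F hF'.1]
    · intro t ht
      rw [C1_count T s Z hZ]
      split_ifs with hd
      · apply h
        · rw [Finset.card_union_of_disjoint hd]; omega
        · exact Finset.subset_union_right
      · simp

theorem t_LK : S_LK := by
  intro V _ _ d T hT s hs hf
  have hcyc : RC d s (st T s) := by
    intro t ht hst
    have h1 := hT.cyc t ht (Finset.empty_subset _)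
    convert h1 using 2
    ext F
    simp only [st, Finset.mem_filter]
    constructor
    · rintro ⟨⟨a, _⟩, c⟩
      exact ⟨a, c⟩
    · rintro ⟨a, c⟩
      exact ⟨⟨a, hst.trans c⟩, c⟩
  refine ⟨(C1_cycle d T hT.card s hs (st T s) (Finset.Subset.refl _)).2 hcyc, ?_, ?_⟩
  · obtain ⟨F, hF, hsF⟩ := hf
    exact ⟨F \ s, Finset.mem_image_of_mem _ (Finset.mem_filter.2 ⟨hF, hsF⟩)⟩
  · intro Z hZ hne hc
    set Z' := (st T s).filter (fun F => F \ s ∈ Z) with hZ'
    have h1 : Z'.image (fun F => F \ s) = Z := by
      ext G
      rw [Finset.mem_image]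
      constructor
      · rintro ⟨F, hF, rfl⟩
        exact (Finset.mem_filter.1 hF).2
      · intro hG
        have := hZ hG
        rw [lk, Finset.mem_image] at this
        obtain ⟨F, hF, rfl⟩ := this
        exact ⟨F, Finset.mem_filter.2 ⟨hF, hG⟩, rfl⟩
    have h2 : RC d s Z' := by
      rw [← C1_cycle d T hT.card s hs Z' (Finset.filter_subset _ _), h1]
      exact hc
    have h3 : Z'.Nonempty := by
      rw [← h1] at hne
      exact Finset.image_nonempty.1 hne
    have h4 := hT.min s Z' hs (Finset.filter_subset _ _) h3 h2
    rw [← h1, h4]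
    rfl

end Pool.Agent.N525.CS
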