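import Pool.Agent.N525.CS.Stm
import Pool.Agent.N525.VR.C5

set_option autoImplicit false
set_option linter.unusedSectionVars false

/-! Reversing a symmetric stacking. -/

namespace Pool.Agent.N525.CS

open Pool.Agent.N525.VR

section V
variable {V : Type} [Fintype V] [DecidableEq V]

/-- the number mod 2 of the members of `Z` containing `t` -/
def C10_nu (Z : Finset (Finset V)) (t : Finset V) : ZMod 2 :=
  ((Z.filter (fun F => t ⊆ F)).card : ZMod 2)

theorem C10_nu_union {A B : Finset (Finset V)} (h : Disjoint A B) (t : Finset V) :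
    C10_nu (A ∪ B) t = C10_nu A t + C10_nu B t := by
  rw [C10_nu, Finset.filter_union, Finset.card_union_of_disjoint
    (Finset.disjoint_filter_filter h)]
  simp [C10_nu]

theorem C10_nu_empty (t : Finset V) : C10_nu (∅ : Finset (Finset V)) t = 0 := by
  simp [C10_nu]

theorem C10_nu_single (F t : Finset V) : C10_nu {F} t = if t ⊆ F then 1 else 0 := by
  rw [C10_nu, Finset.filter_singleton]
  split_ifs <;> simp

theorem C10_nu_filter {A : Finset (Finset V)} {s t : Finset V} (h : s ⊆ t) :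
    C10_nu (A.filter (fun G => s ⊆ G)) t = C10_nu A t := by
  rw [C10_nu, C10_nu, Finset.filter_filter]
  congr 2
  ext G
  simp only [Finset.mem_filter]
  constructor
  · rintro ⟨h1, _, h2⟩; exact ⟨h1, h2⟩
  · rintro ⟨h1, h2⟩; exact ⟨h1, h.trans h2, h2⟩

theorem C10_even {Z : Finset (Finset V)} {t : Finset V} :
    Even (Z.filter (fun F => t ⊆ F)).card ↔ C10_nu Z t = 0 := by
  rw [C10_nu, ZMod.natCast_eq_zero_iff_even]

theorem C10_odd {Z : Finset (Finset V)} {t : Finset V} :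
    Odd (Z.filter (fun F => t ⊆ F)).card ↔ C10_nu Z t = 1 := by
  rw [C10_nu, ZMod.natCast_eq_one_iff_odd]

theorem C10_mem_cap {w : V} {F G : Finset V} :
    G ∈ cap w F ↔ ∃ y ∈ F, insert w (F.erase y) = G := by
  simp [cap]

theorem C10_ps {d : ℕ} {w : V} {F : Finset V} (hw : w ∉ F) (hF : F.card = d) :
    (insert w F).powersetCard d = insert F (cap w F) := by
  ext G
  rw [Finset.mem_powersetCard, Finset.mem_insert, C10_mem_cap]
  constructor
  · rintro ⟨hG, hc⟩
    by_cases hwG : w ∈ G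
    · right
      have h1 : G.erase w ⊆ F := by
        intro x hx
        have := hG (Finset.mem_of_mem_erase hx)
        rcases Finset.mem_insert.1 this with h | h
        · exact absurd h (Finset.ne_of_mem_erase hx)
        · exact h
      have hpos : 0 < G.card := Finset.card_pos.2 ⟨w, hwG⟩
      have h2 : (F \ G.erase w).card = 1 := by
        rw [Finset.card_sdiff_of_subset h1, Finset.card_erase_of_mem hwG]
        omega
      obtain ⟨y, hy⟩ := Finset.card_eq_one.1 h2
      have hyF : y ∈ F \ G.erase w := by rw [hy]; simp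
      rw [Finset.mem_sdiff] at hyF
      refine ⟨y, hyF.1, ?_⟩
      have h3 : F.erase y = G.erase w := by
        symm
        apply Finset.eq_of_subset_of_card_le
        · intro x hx
          exact Finset.mem_erase.2 ⟨fun hh => hyF.2 (hh ▸ hx), h1 hx⟩
        · rw [Finset.card_erase_of_mem hyF.1, Finset.card_erase_of_mem hwG]; omega
      rw [h3, Finset.insert_erase hwG]
    · left
      apply Finset.eq_of_subset_of_card_le
      · intro x hx
        rcases Finset.mem_insert.1 (hG hx) with h | h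
        · exact absurd (h ▸ hx) hwG
        · exact h
      · omega
  · rintro (rfl | ⟨y, hy, rfl⟩)
    · exact ⟨Finset.subset_insert _ _, hF⟩
    · refine ⟨Finset.insert_subset_insert _ (Finset.erase_subset _ _), ?_⟩
      rw [Finset.card_insert_of_notMem (fun h => hw (Finset.mem_of_mem_erase h)),
        Finset.card_erase_of_mem hy]
      have : 0 < F.card := Finset.card_pos.2 ⟨y, hy⟩
      omega

theorem C10_w_mem_cap {w : V} {F G : Finset V} (h : G ∈ cap w F) : w ∈ G := by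
  obtain ⟨y, hy, rfl⟩ := C10_mem_cap.1 h; simp

theorem C10_cap_sub {w : V} {F G : Finset V} (h : G ∈ cap w F) : G ⊆ insert w F := by
  obtain ⟨y, hy, rfl⟩ := C10_mem_cap.1 h
  exact Finset.insert_subset_insert _ (Finset.erase_subset _ _)

theorem C10_nu_cap {d : ℕ} (hd : 1 ≤ d) {w : V} {F : Finset V} (hw : w ∉ F) (hF : F.card = d)
    (t : Finset V) (ht : t.card + 1 = d) : C10_nu (cap w F) t = if t ⊆ F then 1 else 0 := by
  have h := (C5_ps_cycle d hd (insert w F) (by rw [Finset.card_insert_of_notMem hw, hF])).2 t ht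
  have hF' : F ∉ cap w F := fun h => hw (C10_w_mem_cap h)
  rw [C10_ps hw hF, C10_even, Finset.insert_eq, C10_nu_union (by simpa using hF'),
    C10_nu_single] at h
  split_ifs at h ⊢ with h1
  · generalize C10_nu (cap w F) t = x at *
    revert h; revert x; decide
  · simpa using h

/-- The situation. -/
structure C10_H (d : ℕ) (T : Finset (Finset V)) (w w' : V) (F F' : Finset V) : Prop where
  hd : 4 ≤ d
  sph : Sph0 d T
  wF : w ∉ F
  wF' : w' ∉ F'
  ww : w ≠ w'
  w1 : w ∉ F'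
  w2 : w' ∉ F
  ne : F ≠ F'
  cF : F.card = d
  cF' : F'.card = d
  FT : F ∉ T
  FT' : F' ∉ T
  st1 : ∀ G, G ∈ cap w F ↔ G ∈ T ∧ w ∈ G
  st2 : ∀ G, G ∈ cap w' F' ↔ G ∈ T ∧ w' ∈ G

/-- The new set of facets. -/
def C10_T0 (T : Finset (Finset V)) (w w' : V) (F F' : Finset V) : Finset (Finset V) :=
  T.filter (fun G => w ∉ G ∧ w' ∉ G) ∪ {F, F'}

theorem C10_mem_T0 {T : Finset (Finset V)} {w w' : V} {F F' G : Finset V} :
    G ∈ C10_T0 T w w' F F' ↔ (G ∈ T ∧ w ∉ G ∧ w' ∉ G) ∨ G = F ∨ G = F' := by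
  simp [C10_T0]; tauto

/-- Replacement of `F`, `F'` by the caps. -/
def C10_phi (T : Finset (Finset V)) (w w' : V) (F F' s : Finset V) (Z : Finset (Finset V)) :
    Finset (Finset V) :=
  Z.filter (fun G => G ∈ T) ∪
    (((if F ∈ Z then cap w F else ∅) ∪ (if F' ∈ Z then cap w' F' else ∅)).filter
      (fun G => s ⊆ G))

theorem C10_mem_phi {T : Finset (Finset V)} {w w' : V} {F F' s G : Finset V}
    {Z : Finset (Finset V)} : G ∈ C10_phi T w w' F F' s Z ↔
      (G ∈ Z ∧ G ∈ T) ∨ (s ⊆ G ∧ ((F ∈ Z ∧ G ∈ cap w F) ∨ (F' ∈ Z ∧ G ∈ cap w' F'))) := by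
  unfold C10_phi
  simp only [Finset.mem_union, Finset.mem_filter]
  split_ifs <;> simp_all <;> tauto

variable {d : ℕ} {T : Finset (Finset V)} {w w' : V} {F F' : Finset V}

theorem C10_T0_w (h : C10_H d T w w' F F') {G : Finset V} (hG : G ∈ C10_T0 T w w' F F') :
    w ∉ G ∧ w' ∉ G := by
  rcases C10_mem_T0.1 hG with h1 | rfl | rfl
  · exact h1.2
  · exact ⟨h.wF, h.w2⟩
  · exact ⟨h.w1, h.wF'⟩

theorem C10_par (h : C10_H d T w w' F F') {Z : Finset (Finset V)} (hZ : Z ⊆ C10_T0 T w w' F F')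
    {s t : Finset V} (hst : s ⊆ t) (ht : t.card + 1 = d) :
    C10_nu (C10_phi T w w' F F' s Z) t = C10_nu Z t := by
  have hd := h.hd
  -- the left side
  have hdis : Disjoint (Z.filter (fun G => G ∈ T))
      (((if F ∈ Z then cap w F else ∅) ∪ (if F' ∈ Z then cap w' F' else ∅)).filter
      (fun G => s ⊆ G)) := by
    rw [Finset.disjoint_left]
    intro G hG hG'
    have h1 := C10_T0_w h (hZ (Finset.mem_filter.1 hG).1)
    have h2 := (Finset.mem_filter.1 hG').1
    rcases Finset.mem_union.1 h2 with h3 | h3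
    · split_ifs at h3
      · exact h1.1 (C10_w_mem_cap h3)
      · simp at h3
    · split_ifs at h3
      · exact h1.2 (C10_w_mem_cap h3)
      · simp at h3
  have hdis2 : Disjoint (if F ∈ Z then cap w F else ∅) (if F' ∈ Z then cap w' F' else ∅) := by
    rw [Finset.disjoint_left]
    intro G hG hG'
    split_ifs at hG hG' with h1 h2
    · have h3 := C10_cap_sub hG' (C10_w_mem_cap hG)
      rcases Finset.mem_insert.1 h3 with h4 | h4
      · exact h.ww h4
      · exact h.w1 h4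
    all_goals simp at hG hG'
  have hL : C10_nu (C10_phi T w w' F F' s Z) t = C10_nu (Z.filter (fun G => G ∈ T)) t +
      ((if F ∈ Z then (if t ⊆ F then 1 else 0) else 0) +
        (if F' ∈ Z then (if t ⊆ F' then 1 else 0) else 0)) := by
    unfold C10_phi
    rw [C10_nu_union hdis, C10_nu_filter hst, C10_nu_union hdis2]
    congr 1
    congr 1
    · split_ifs with h1 h2 h2
      · rw [C10_nu_cap (by omega) h.wF h.cF t ht, if_pos h2]
      · rw [C10_nu_cap (by omega) h.wF h.cF t ht, if_neg h2]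
      all_goals exact C10_nu_empty t
    · split_ifs with h1 h2 h2
      · rw [C10_nu_cap (by omega) h.wF' h.cF' t ht, if_pos h2]
      · rw [C10_nu_cap (by omega) h.wF' h.cF' t ht, if_neg h2]
      all_goals exact C10_nu_empty t
  -- the right side
  have hZe : Z = Z.filter (fun G => G ∈ T) ∪
      ((if F ∈ Z then {F} else ∅) ∪ (if F' ∈ Z then {F'} else ∅)) := by
    ext G
    simp only [Finset.mem_union, Finset.mem_filter]
    constructor
    · intro hG
      rcases C10_mem_T0.1 (hZ hG) with h1 | rfl | rfl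
      · left; exact ⟨hG, h1.1⟩
      · right; left; rw [if_pos hG]; simp
      · right; right; rw [if_pos hG]; simp
    · rintro (h1 | h1 | h1)
      · exact h1.1
      · split_ifs at h1 with h2
        · rw [Finset.mem_singleton] at h1; rwa [h1]
        · simp at h1
      · split_ifs at h1 with h2
        · rw [Finset.mem_singleton] at h1; rwa [h1]
        · simp at h1
  have hd3 : Disjoint (Z.filter (fun G => G ∈ T))
      ((if F ∈ Z then {F} else ∅) ∪ (if F' ∈ Z then {F'} else ∅)) := by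
    rw [Finset.disjoint_left]
    intro G hG hG'
    have h1 := (Finset.mem_filter.1 hG).2
    rcases Finset.mem_union.1 hG' with h3 | h3
    · split_ifs at h3
      · rw [Finset.mem_singleton] at h3; exact h.FT (h3 ▸ h1)
      · simp at h3
    · split_ifs at h3
      · rw [Finset.mem_singleton] at h3; exact h.FT' (h3 ▸ h1)
      · simp at h3
  have hd4 : Disjoint (if F ∈ Z then ({F} : Finset (Finset V)) else ∅)
      (if F' ∈ Z then {F'} else ∅) := by
    rw [Finset.disjoint_left]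
    intro G hG hG'
    split_ifs at hG hG' with h1 h2
    · rw [Finset.mem_singleton] at hG hG'
      exact h.ne (hG.symm.trans hG')
    all_goals simp at hG hG'
  rw [hL]
  conv_rhs => rw [hZe]
  rw [C10_nu_union hd3, C10_nu_union hd4]
  congr 1
  congr 1
  · split_ifs with h1 h2 h2
    · rw [C10_nu_single, if_pos h2]
    · rw [C10_nu_single, if_neg h2]
    all_goals exact (C10_nu_empty t).symm
  · split_ifs with h1 h2 h2
    · rw [C10_nu_single, if_pos h2]
    · rw [C10_nu_single, if_neg h2]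
    all_goals exact (C10_nu_empty t).symm

theorem C10_mem_st {T : Finset (Finset V)} {s G : Finset V} : G ∈ st T s ↔ G ∈ T ∧ s ⊆ G := by
  simp [st]

theorem C10_sub_F {G s F : Finset V} {w : V} (hw : w ∉ s) (hG : G ∈ cap w F) (hs : s ⊆ G) :
    s ⊆ F := by
  intro x hx
  rcases Finset.mem_insert.1 (C10_cap_sub hG (hs hx)) with h | h
  · exact absurd (h ▸ hx) hw
  · exact h

theorem C10_phi_st (h : C10_H d T w w' F F') {s : Finset V} (hs : w ∉ s) (hs' : w' ∉ s) :
    C10_phi T w w' F F' s (st (C10_T0 T w w' F F') s) = st T s := by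
  ext G
  rw [C10_mem_phi, C10_mem_st (T := C10_T0 T w w' F F') (G := G), C10_mem_st (T := T) (G := G)]
  constructor
  · rintro (h1 | ⟨h1, ⟨h2, h3⟩ | ⟨h2, h3⟩⟩)
    · exact ⟨h1.2, h1.1.2⟩
    · exact ⟨((h.st1 G).1 h3).1, h1⟩
    · exact ⟨((h.st2 G).1 h3).1, h1⟩
  · rintro ⟨h1, h2⟩
    by_cases hw : w ∈ G
    · have h3 := (h.st1 G).2 ⟨h1, hw⟩
      exact Or.inr ⟨h2, Or.inl ⟨C10_mem_st.2 ⟨C10_mem_T0.2 (Or.inr (Or.inl rfl)),
        C10_sub_F hs h3 h2⟩, h3⟩⟩
    · by_cases hw' : w' ∈ G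
      · have h3 := (h.st2 G).2 ⟨h1, hw'⟩
        exact Or.inr ⟨h2, Or.inr ⟨C10_mem_st.2 ⟨C10_mem_T0.2 (Or.inr (Or.inr rfl)),
          C10_sub_F hs' h3 h2⟩, h3⟩⟩
      · exact Or.inl ⟨⟨C10_mem_T0.2 (Or.inl ⟨h1, hw, hw'⟩), h2⟩, h1⟩

/-- there is a member of the cap containing a small subset of `F` -/
theorem C10_ex {w : V} {F s : Finset V} (hs : s ⊆ F) (hc : s.card < F.card) :
    ∃ G ∈ cap w F, s ⊆ G := by
  obtain ⟨y, hy, hys⟩ := Finset.exists_mem_notMem_of_card_lt_card hc
  refine ⟨insert w (F.erase y), C10_mem_cap.2 ⟨y, hy, rfl⟩, ?_⟩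
  intro x hx
  exact Finset.mem_insert_of_mem (Finset.mem_erase.2 ⟨fun hh => hys (hh ▸ hx), hs hx⟩)

theorem C10_sph (h : C10_H d T w w' F F') : Sph0 d (C10_T0 T w w' F F') := by
  have hd := h.hd
  have hcapT : ∀ G ∈ cap w F, G ∈ T := fun G hG => ((h.st1 G).1 hG).1
  have hcapT' : ∀ G ∈ cap w' F', G ∈ T := fun G hG => ((h.st2 G).1 hG).1
  refine ⟨⟨F, C10_mem_T0.2 (Or.inr (Or.inl rfl))⟩, ?_, ?_, ?_, ?_⟩
  · intro G hG
    rcases C10_mem_T0.1 hG with h1 | rfl | rfl
    · exact h.sph.card G h1.1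
    · exact h.cF
    · exact h.cF'
  · intro t ht _
    have h1 := h.sph.cyc t ht (Finset.empty_subset _)
    rw [C10_even] at h1 ⊢
    have h2 : C10_phi T w w' F F' ∅ (C10_T0 T w w' F F') = T := by
      have h3 := C10_phi_st h (s := ∅) (by simp) (by simp)
      simpa [st] using h3
    rw [← C10_par h (Finset.Subset.refl _) (Finset.empty_subset t) ht, h2, h1]
  · intro s Z hs hZ hne hRC
    obtain ⟨G0, hG0⟩ := hne
    have hG0' := C10_mem_st.1 (hZ hG0)
    have hws := C10_T0_w h hG0'.1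
    have hw : w ∉ s := fun hh => hws.1 (hG0'.2 hh)
    have hw' : w' ∉ s := fun hh => hws.2 (hG0'.2 hh)
    have hZ0 : Z ⊆ C10_T0 T w w' F F' := fun G hG => (C10_mem_st.1 (hZ hG)).1
    have key : C10_phi T w w' F F' s Z = st T s := by
      apply h.sph.min s _ hs
      · intro G hG
        rw [C10_mem_st]
        rcases C10_mem_phi.1 hG with h1 | ⟨h1, ⟨_, h2⟩ | ⟨_, h2⟩⟩
        · exact ⟨h1.2, (C10_mem_st.1 (hZ h1.1)).2⟩
        · exact ⟨hcapT G h2, h1⟩
        · exact ⟨hcapT' G h2, h1⟩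
      · rcases C10_mem_T0.1 hG0'.1 with h1 | h1 | h1
        · exact ⟨G0, C10_mem_phi.2 (Or.inl ⟨hG0, h1.1⟩)⟩
        · obtain ⟨G, hG, hsG⟩ := C10_ex (w := w) (F := F) (s := s) (h1 ▸ hG0'.2)
            (by rw [h.cF]; exact hs)
          exact ⟨G, C10_mem_phi.2 (Or.inr ⟨hsG, Or.inl ⟨h1 ▸ hG0, hG⟩⟩)⟩
        · obtain ⟨G, hG, hsG⟩ := C10_ex (w := w') (F := F') (s := s) (h1 ▸ hG0'.2)
            (by rw [h.cF']; exact hs)
          exact ⟨G, C10_mem_phi.2 (Or.inr ⟨hsG, Or.inr ⟨h1 ▸ hG0, hG⟩⟩)⟩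
      · intro t ht hst
        rw [C10_even, C10_par h hZ0 hst ht, ← C10_even]
        exact hRC t ht hst
    apply Finset.Subset.antisymm hZ
    intro G hG
    obtain ⟨hG1, hG2⟩ := C10_mem_st.1 hG
    rcases C10_mem_T0.1 hG1 with h1 | h1 | h1
    · have h2 : G ∈ C10_phi T w w' F F' s Z := by rw [key]; exact C10_mem_st.2 ⟨h1.1, hG2⟩
      rcases C10_mem_phi.1 h2 with h3 | ⟨_, ⟨_, h3⟩ | ⟨_, h3⟩⟩
      · exact h3.1
      · exact absurd (C10_w_mem_cap h3) h1.2.1
      · exact absurd (C10_w_mem_cap h3) h1.2.2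
    · subst h1
      obtain ⟨K, hK, hsK⟩ := C10_ex (w := w) (F := G) (s := s) hG2 (by rw [h.cF]; exact hs)
      have h2 : K ∈ C10_phi T w w' G F' s Z := by
        rw [key]; exact C10_mem_st.2 ⟨hcapT K hK, hsK⟩
      rcases C10_mem_phi.1 h2 with h3 | ⟨_, ⟨h4, h3⟩ | ⟨_, h3⟩⟩
      · exact absurd (C10_w_mem_cap hK) (C10_T0_w h (hZ0 h3.1)).1
      · exact h4
      · rcases Finset.mem_insert.1 (C10_cap_sub h3 (C10_w_mem_cap hK)) with h5 | h5
        · exact absurd h5 h.ww
        · exact absurd h5 h.w1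
    · subst h1
      obtain ⟨K, hK, hsK⟩ := C10_ex (w := w') (F := G) (s := s) hG2 (by rw [h.cF']; exact hs)
      have h2 : K ∈ C10_phi T w w' F G s Z := by
        rw [key]; exact C10_mem_st.2 ⟨hcapT' K hK, hsK⟩
      rcases C10_mem_phi.1 h2 with h3 | ⟨_, ⟨_, h3⟩ | ⟨h4, h3⟩⟩
      · exact absurd (C10_w_mem_cap hK) (C10_T0_w h (hZ0 h3.1)).2
      · rcases Finset.mem_insert.1 (C10_cap_sub h3 (C10_w_mem_cap hK)) with h5 | h5
        · exact absurd h5.symm h.ww
        · exact absurd h5 h.w2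
      · exact h4
  · intro s H hs hsH hH hface
    by_cases hHF : H = F
    · subst hHF
      refine ⟨{H}, ?_, ?_⟩
      · intro G hG
        rw [Finset.mem_singleton] at hG
        subst hG
        exact C10_mem_st.2 ⟨C10_mem_T0.2 (Or.inr (Or.inl rfl)), hsH⟩
      · intro r _ _
        rw [C10_odd, C10_nu_single]
        split_ifs with h1 <;> simp [h1]
    by_cases hHF' : H = F'
    · subst hHF'
      refine ⟨{H}, ?_, ?_⟩
      · intro G hG
        rw [Finset.mem_singleton] at hG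
        subst hG
        exact C10_mem_st.2 ⟨C10_mem_T0.2 (Or.inr (Or.inr rfl)), hsH⟩
      · intro r _ _
        rw [C10_odd, C10_nu_single]
        split_ifs with h1 <;> simp [h1]
    -- `w, w' ∉ H`
    have hwH : ∀ x, (∀ G ∈ C10_T0 T w w' F F', x ∉ G) → x ∉ H := by
      intro x hx hxH
      have hc : (insert x s).card < H.card := by
        have := Finset.card_insert_le x s
        omega
      obtain ⟨y, hy, hy2⟩ := Finset.exists_mem_notMem_of_card_lt_card hc
      rw [Finset.mem_insert, not_or] at hy2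
      obtain ⟨G, hG, hG2⟩ := hface (H.erase y) (Finset.erase_subset _ _)
        (fun z hz => Finset.mem_erase.2 ⟨fun hh => hy2.2 (hh ▸ hz), hsH hz⟩)
        (by rw [Finset.card_erase_of_mem hy, hH]; omega)
      exact hx G hG (hG2 (Finset.mem_erase.2 ⟨fun hh => hy2.1 hh.symm, hxH⟩))
    have hw : w ∉ H := hwH w (fun G hG => (C10_T0_w h hG).1)
    have hw' : w' ∉ H := hwH w' (fun G hG => (C10_T0_w h hG).2)
    have hws : w ∉ s := fun hh => hw (hsH hh)
    have hws' : w' ∉ s := fun hh => hw' (hsH hh)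
    obtain ⟨A, hA, hA2⟩ := h.sph.fill s H hs hsH hH (by
      intro r hr hsr hrc
      obtain ⟨G, hG, hG2⟩ := hface r hr hsr hrc
      rcases C10_mem_T0.1 hG with h1 | h1 | h1
      · exact ⟨G, h1.1, hG2⟩
      · obtain ⟨K, hK, hrK⟩ := C10_ex (w := w) (F := F) (s := r) (h1 ▸ hG2)
          (by rw [h.cF]; omega)
        exact ⟨K, hcapT K hK, hrK⟩
      · obtain ⟨K, hK, hrK⟩ := C10_ex (w := w') (F := F') (s := r) (h1 ▸ hG2)
          (by rw [h.cF']; omega)
        exact ⟨K, hcapT' K hK, hrK⟩)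
    -- the stars of `w` and `w'`
    have hstar : ∀ x, x ∉ H → (∃ G ∈ A, x ∈ G) → ∀ G ∈ T, s ⊆ G → x ∈ G → G ∈ A := by
      rintro x hxH ⟨G0, hG0, hxG0⟩ G hG hsG hxG
      have := h.sph.min (insert x s) (A.filter (fun G => x ∈ G))
        (by have := Finset.card_insert_le x s; omega) ?_ ⟨G0, Finset.mem_filter.2 ⟨hG0, hxG0⟩⟩ ?_
      · have h2 : G ∈ st T (insert x s) :=
          C10_mem_st.2 ⟨hG, Finset.insert_subset hxG hsG⟩
        rw [← this] at h2
        exact (Finset.mem_filter.1 h2).1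
      · intro K hK
        obtain ⟨hK1, hK2⟩ := Finset.mem_filter.1 hK
        obtain ⟨hK3, hK4⟩ := C10_mem_st.1 (hA hK1)
        exact C10_mem_st.2 ⟨hK3, Finset.insert_subset hK2 hK4⟩
      · intro t ht hst
        have hxt : x ∈ t := hst (Finset.mem_insert_self _ _)
        have h3 : (A.filter (fun G => x ∈ G)).filter (fun G => t ⊆ G) =
            A.filter (fun G => t ⊆ G) := by
          ext K
          simp only [Finset.mem_filter]
          constructor
          · rintro ⟨⟨h1, _⟩, h2⟩; exact ⟨h1, h2⟩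
          · rintro ⟨h1, h2⟩; exact ⟨⟨h1, h2 hxt⟩, h2⟩
        rw [h3, ← Nat.not_odd_iff_even,
          hA2 t ((Finset.subset_insert _ _).trans hst) ht]
        exact fun hh => hxH (hh hxt)
    have hAT : ∀ G ∈ A, G ∈ T ∧ s ⊆ G := fun G hG => C10_mem_st.1 (hA hG)
    classical
    let A0 : Finset (Finset V) := A.filter (fun G => w ∉ G ∧ w' ∉ G) ∪
      ((if ∃ G ∈ A, w ∈ G then {F} else ∅) ∪ (if ∃ G ∈ A, w' ∈ G then {F'} else ∅))
    have hmA0 : ∀ G, G ∈ A0 ↔ (G ∈ A ∧ w ∉ G ∧ w' ∉ G) ∨ (G = F ∧ ∃ K ∈ A, w ∈ K) ∨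
        (G = F' ∧ ∃ K ∈ A, w' ∈ K) := by
      intro G
      simp only [A0, Finset.mem_union, Finset.mem_filter]
      split_ifs with h1 h2 h2
      · simp [h1, h2]
      · simp [h1, h2]
      · simp [h1, h2]
      · simp [h1, h2]
    have hFA : F ∉ A := fun hh => h.FT (hAT F hh).1
    have hFA' : F' ∉ A := fun hh => h.FT' (hAT F' hh).1
    have hFA0 : F ∈ A0 ↔ ∃ K ∈ A, w ∈ K := by
      rw [hmA0]
      constructor
      · rintro (h1 | h1 | h1)
        · exact absurd h1.1 hFA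
        · exact h1.2
        · exact absurd h1.1 h.ne
      · intro h1; exact Or.inr (Or.inl ⟨rfl, h1⟩)
    have hFA0' : F' ∈ A0 ↔ ∃ K ∈ A, w' ∈ K := by
      rw [hmA0]
      constructor
      · rintro (h1 | h1 | h1)
        · exact absurd h1.1 hFA'
        · exact absurd h1.1.symm h.ne
        · exact h1.2
      · intro h1; exact Or.inr (Or.inr ⟨rfl, h1⟩)
    have hphi : C10_phi T w w' F F' s A0 = A := by
      ext G
      rw [C10_mem_phi, hFA0, hFA0']
      constructor
      · rintro (⟨h1, h2⟩ | ⟨h1, ⟨h2, h3⟩ | ⟨h2, h3⟩⟩)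
        · rcases (hmA0 G).1 h1 with h3 | h3 | h3
          · exact h3.1
          · exact absurd h2 (h3.1 ▸ h.FT)
          · exact absurd h2 (h3.1 ▸ h.FT')
        · exact hstar w hw h2 G (hcapT G h3) h1 (C10_w_mem_cap h3)
        · exact hstar w' hw' h2 G (hcapT' G h3) h1 (C10_w_mem_cap h3)
      · intro hG
        by_cases h1 : w ∈ G
        · exact Or.inr ⟨(hAT G hG).2, Or.inl ⟨⟨G, hG, h1⟩, (h.st1 G).2 ⟨(hAT G hG).1, h1⟩⟩⟩
        · by_cases h2 : w' ∈ G
          · exact Or.inr ⟨(hAT G hG).2, Or.inr ⟨⟨G, hG, h2⟩, (h.st2 G).2 ⟨(hAT G hG).1, h2⟩⟩⟩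
          · exact Or.inl ⟨(hmA0 G).2 (Or.inl ⟨hG, h1, h2⟩), (hAT G hG).1⟩
    have hA0T : A0 ⊆ C10_T0 T w w' F F' := by
      intro G hG
      rw [C10_mem_T0]
      rcases (hmA0 G).1 hG with h3 | h3 | h3
      · exact Or.inl ⟨(hAT G h3.1).1, h3.2⟩
      · exact Or.inr (Or.inl h3.1)
      · exact Or.inr (Or.inr h3.1)
    refine ⟨A0, ?_, ?_⟩
    · intro G hG
      rw [C10_mem_st]
      refine ⟨hA0T hG, ?_⟩
      rcases (hmA0 G).1 hG with h3 | ⟨rfl, K, hK, hwK⟩ | ⟨rfl, K, hK, hwK⟩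
      · exact (hAT G h3.1).2
      · exact C10_sub_F hws ((h.st1 K).2 ⟨(hAT K hK).1, hwK⟩) (hAT K hK).2
      · exact C10_sub_F hws' ((h.st2 K).2 ⟨(hAT K hK).1, hwK⟩) (hAT K hK).2
    · intro r hsr hr
      rw [C10_odd, ← C10_par h hA0T hsr hr, hphi, ← C10_odd]
      exact hA2 r hsr hr

theorem C10_dec (h : C10_H d T w w' F F') :
    T = (C10_T0 T w w' F F' \ {F, F'}) ∪ cap w F ∪ cap w' F' := by
  ext G
  simp only [Finset.mem_union, Finset.mem_sdiff, C10_mem_T0, Finset.mem_insert,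
    Finset.mem_singleton, h.st1, h.st2]
  constructor
  · intro hG
    have h1 : G ≠ F := fun hh => h.FT (hh ▸ hG)
    have h2 : G ≠ F' := fun hh => h.FT' (hh ▸ hG)
    tauto
  · tauto

theorem C10_vs (h : C10_H d T w w' F F') :
    (vs (C10_T0 T w w' F F')).card + 2 = (vs T).card := by
  have hd := h.hd
  have hF1 : F.Nonempty := Finset.card_pos.1 (by rw [h.cF]; omega)
  have hF1' : F'.Nonempty := Finset.card_pos.1 (by rw [h.cF']; omega)
  have hmem : ∀ (C : Finset (Finset V)) x, x ∈ vs C ↔ ∃ G ∈ C, x ∈ G := by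
    intro C x; simp [vs]
  have e : vs T = insert w (insert w' (vs (C10_T0 T w w' F F'))) := by
    ext x
    rw [Finset.mem_insert, Finset.mem_insert, hmem, hmem]
    constructor
    · rintro ⟨G, hG, hx⟩
      by_cases h1 : w ∈ G
      · rcases Finset.mem_insert.1 (C10_cap_sub ((h.st1 G).2 ⟨hG, h1⟩) hx) with h2 | h2
        · exact Or.inl h2
        · exact Or.inr (Or.inr ⟨F, C10_mem_T0.2 (Or.inr (Or.inl rfl)), h2⟩)
      · by_cases h1' : w' ∈ G
        · rcases Finset.mem_insert.1 (C10_cap_sub ((h.st2 G).2 ⟨hG, h1'⟩) hx) with h2 | h2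
          · exact Or.inr (Or.inl h2)
          · exact Or.inr (Or.inr ⟨F', C10_mem_T0.2 (Or.inr (Or.inr rfl)), h2⟩)
        · exact Or.inr (Or.inr ⟨G, C10_mem_T0.2 (Or.inl ⟨hG, h1, h1'⟩), hx⟩)
    · rintro (rfl | rfl | ⟨G, hG, hx⟩)
      · obtain ⟨G, hG, _⟩ := C10_ex (w := x) (F := F) (s := ∅) (by simp) (by simp [h.cF]; omega)
        exact ⟨G, ((h.st1 G).1 hG).1, C10_w_mem_cap hG⟩
      · obtain ⟨G, hG, _⟩ := C10_ex (w := x) (F := F') (s := ∅) (by simp) (by simp [h.cF']; omega)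
        exact ⟨G, ((h.st2 G).1 hG).1, C10_w_mem_cap hG⟩
      · rcases C10_mem_T0.1 hG with h1 | rfl | rfl
        · exact ⟨G, h1.1, hx⟩
        · obtain ⟨K, hK, hs⟩ := C10_ex (w := w) (F := G) (s := {x}) (by simpa using hx)
            (by simp [h.cF]; omega)
          exact ⟨K, ((h.st1 K).1 hK).1, by simpa using hs⟩
        · obtain ⟨K, hK, hs⟩ := C10_ex (w := w') (F := G) (s := {x}) (by simpa using hx)
            (by simp [h.cF']; omega)
          exact ⟨K, ((h.st2 K).1 hK).1, by simpa using hs⟩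
  rw [e, Finset.card_insert_of_notMem, Finset.card_insert_of_notMem]
  · rw [hmem]; rintro ⟨G, hG, hx⟩; exact (C10_T0_w h hG).2 hx
  · rw [Finset.mem_insert, not_or, hmem]
    exact ⟨h.ww, by rintro ⟨G, hG, hx⟩; exact (C10_T0_w h hG).1 hx⟩

theorem C10_eg (h : C10_H d T w w' F F') :
    (eg (C10_T0 T w w' F F')).card + 2 * d = (eg T).card := by
  have hd := h.hd
  have hmem : ∀ (C : Finset (Finset V)) x, x ∈ eg C ↔ x.card = 2 ∧ ∃ G ∈ C, x ⊆ G := by
    intro C x; simp [eg]
  have e : eg T = (eg (C10_T0 T w w' F F') ∪ F.image (fun x => {w, x})) ∪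
      F'.image (fun x => {w', x}) := by
    ext e
    rw [Finset.mem_union, Finset.mem_union, hmem, hmem, Finset.mem_image, Finset.mem_image]
    constructor
    · rintro ⟨hc, G, hG, hx⟩
      have aux : ∀ (v : V) (K : Finset V), v ∈ e → G ∈ cap v K → ∃ a ∈ K, {v, a} = e := by
        intro v K hv hGK
        obtain ⟨a, ha⟩ := Finset.card_eq_one.1
          (show (e.erase v).card = 1 by rw [Finset.card_erase_of_mem hv, hc])
        have hae : a ∈ e.erase v := by rw [ha]; simp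
        refine ⟨a, ?_, ?_⟩
        · rcases Finset.mem_insert.1 (C10_cap_sub hGK (hx (Finset.mem_of_mem_erase hae)))
            with h2 | h2
          · exact absurd h2 (Finset.ne_of_mem_erase hae)
          · exact h2
        · rw [← Finset.insert_erase hv, ha]
      by_cases h1 : w ∈ e
      · exact Or.inl (Or.inr (aux w F h1 ((h.st1 G).2 ⟨hG, hx h1⟩)))
      by_cases h1' : w' ∈ e
      · exact Or.inr (aux w' F' h1' ((h.st2 G).2 ⟨hG, hx h1'⟩))
      left; left
      refine ⟨hc, ?_⟩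
      by_cases h2 : w ∈ G
      · exact ⟨F, C10_mem_T0.2 (Or.inr (Or.inl rfl)), C10_sub_F h1 ((h.st1 G).2 ⟨hG, h2⟩) hx⟩
      by_cases h2' : w' ∈ G
      · exact ⟨F', C10_mem_T0.2 (Or.inr (Or.inr rfl)),
          C10_sub_F h1' ((h.st2 G).2 ⟨hG, h2'⟩) hx⟩
      exact ⟨G, C10_mem_T0.2 (Or.inl ⟨hG, h2, h2'⟩), hx⟩
    · rintro ((⟨hc, G, hG, hx⟩ | ⟨x, hx, rfl⟩) | ⟨x, hx, rfl⟩)
      · refine ⟨hc, ?_⟩
        rcases C10_mem_T0.1 hG with h1 | rfl | rfl
        · exact ⟨G, h1.1, hx⟩
        · obtain ⟨K, hK, hs⟩ := C10_ex (w := w) (F := G) (s := e) hx (by rw [h.cF]; omega)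
          exact ⟨K, ((h.st1 K).1 hK).1, hs⟩
        · obtain ⟨K, hK, hs⟩ := C10_ex (w := w') (F := G) (s := e) hx (by rw [h.cF']; omega)
          exact ⟨K, ((h.st2 K).1 hK).1, hs⟩
      · have hne : w ≠ x := fun hh => h.wF (hh ▸ hx)
        refine ⟨Finset.card_pair hne, ?_⟩
        obtain ⟨K, hK, hs⟩ := C10_ex (w := w) (F := F) (s := {x}) (by simpa using hx)
            (by simp [h.cF]; omega)
        exact ⟨K, ((h.st1 K).1 hK).1, Finset.insert_subset (C10_w_mem_cap hK) hs⟩
      · have hne : w' ≠ x := fun hh => h.wF' (hh ▸ hx)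
        refine ⟨Finset.card_pair hne, ?_⟩
        obtain ⟨K, hK, hs⟩ := C10_ex (w := w') (F := F') (s := {x}) (by simpa using hx)
            (by simp [h.cF']; omega)
        exact ⟨K, ((h.st2 K).1 hK).1, Finset.insert_subset (C10_w_mem_cap hK) hs⟩
  have hci : ∀ (v : V) (K : Finset V), v ∉ K →
      (K.image (fun x => ({v, x} : Finset V))).card = K.card := by
    intro v K hv
    apply Finset.card_image_of_injOn
    intro x hx y hy hxy
    have h1 : x ∈ ({v, y} : Finset V) := by rw [← show ({v, x} : Finset V) = {v, y} from hxy]; simp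
    rcases Finset.mem_insert.1 h1 with h2 | h2
    · exact absurd (h2 ▸ hx) hv
    · exact Finset.mem_singleton.1 h2
  rw [e, Finset.card_union_of_disjoint, Finset.card_union_of_disjoint, hci w F h.wF,
    hci w' F' h.wF', h.cF, h.cF']
  · omega
  · rw [Finset.disjoint_left]
    intro e he he'
    obtain ⟨_, G, hG, hx⟩ := (hmem _ _).1 he
    obtain ⟨x, _, rfl⟩ := Finset.mem_image.1 he'
    exact (C10_T0_w h hG).1 (hx (by simp))
  · rw [Finset.disjoint_left]
    intro e he he'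
    obtain ⟨x, hx', rfl⟩ := Finset.mem_image.1 he'
    rcases Finset.mem_union.1 he with he | he
    · obtain ⟨_, G, hG, hx⟩ := (hmem _ _).1 he
      exact (C10_T0_w h hG).2 (hx (by simp))
    · obtain ⟨y, hy, hxy⟩ := Finset.mem_image.1 he
      have h1 : w' ∈ ({w, y} : Finset V) := by
        rw [show ({w, y} : Finset V) = {w', x} from hxy]; simp
      rcases Finset.mem_insert.1 h1 with h2 | h2
      · exact h.ww h2.symm
      · rw [Finset.mem_singleton] at h2
        exact h.w2 (h2 ▸ hy)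

end V

section S
variable {W : Type} [Fintype W] [DecidableEq W]

theorem C10_oo (x : SV W) : opp (opp x) = x := by
  simp [opp]

theorem C10_ne (x : SV W) : opp x ≠ x := by
  intro h
  have := congrArg Prod.snd h
  simp [opp] at this

theorem C10_inj : Function.Injective (opp : SV W → SV W) :=
  fun x y h => by rw [← C10_oo x, h, C10_oo]

theorem C10_ii (F : Finset (SV W)) : (F.image opp).image opp = F := by
  rw [Finset.image_image]
  have : (opp ∘ opp : SV W → SV W) = id := by funext x; exact C10_oo x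
  rw [this, Finset.image_id]

theorem C10_mem_im {F : Finset (SV W)} {x : SV W} : x ∈ F.image opp ↔ opp x ∈ F := by
  constructor
  · intro h
    obtain ⟨y, hy, rfl⟩ := Finset.mem_image.1 h
    rwa [C10_oo]
  · intro h
    exact Finset.mem_image.2 ⟨_, h, C10_oo x⟩

theorem C10_cap_im {w : SV W} {F G : Finset (SV W)} :
    G ∈ cap (opp w) (F.image opp) ↔ G.image opp ∈ cap w F := by
  rw [C10_mem_cap, C10_mem_cap]
  constructor
  · rintro ⟨y, hy, rfl⟩
    refine ⟨opp y, C10_mem_im.1 hy, ?_⟩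
    rw [Finset.image_insert, C10_oo]
    congr 1
    ext x
    rw [C10_mem_im, Finset.mem_erase, Finset.mem_erase, C10_mem_im, C10_oo]
    constructor
    · rintro ⟨h1, h2⟩
      exact ⟨fun hh => h1 (by first | rw [hh, C10_oo] | rw [← hh, C10_oo]), h2⟩
    · rintro ⟨h1, h2⟩
      exact ⟨fun hh => h1 (by first | rw [hh, C10_oo] | rw [← hh, C10_oo]), h2⟩
  · rintro ⟨y, hy, h⟩
    refine ⟨opp y, C10_mem_im.2 (by rwa [C10_oo]), ?_⟩
    rw [← C10_ii G, ← h, Finset.image_insert]
    congr 1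
    ext x
    rw [C10_mem_im, Finset.mem_erase, Finset.mem_erase, C10_mem_im]
    constructor
    · rintro ⟨h1, h2⟩
      exact ⟨fun hh => h1 (by first | rw [hh, C10_oo] | rw [← hh, C10_oo]), h2⟩
    · rintro ⟨h1, h2⟩
      exact ⟨fun hh => h1 (by first | rw [hh, C10_oo] | rw [← hh, C10_oo]), h2⟩

end S

theorem t_UNST : S_UNST := by
  intro W _ _ d hd T hT w F hF hwF hst
  obtain ⟨hS, hsym⟩ := hT
  obtain ⟨hcF, hFT, hFf⟩ := hF
  have hst1 : ∀ G, G ∈ cap w F ↔ G ∈ T ∧ w ∈ G := by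
    intro G
    rw [← hst, C10_mem_st, Finset.singleton_subset_iff]
  have hcapT : ∀ G ∈ cap w F, G ∈ T := fun G hG => ((hst1 G).1 hG).1
  -- no antipodal pairs
  have hno : ∀ x ∈ F, opp x ∉ F := by
    intro x hx hx'
    obtain ⟨G, hG, hs⟩ := C10_ex (w := w) (F := F) (s := {x, opp x})
      (by intro y hy; simp only [Finset.mem_insert, Finset.mem_singleton] at hy
          rcases hy with rfl | rfl <;> assumption)
      (by have := Finset.card_le_two (a := x) (b := opp x); omega)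
    exact hsym.2 G (hcapT G hG) x (hs (by simp)) (hs (by simp))
  have hwo : opp w ∉ F := by
    intro hx
    obtain ⟨G, hG, hs⟩ := C10_ex (w := w) (F := F) (s := {opp w}) (by simpa using hx)
      (by simp; omega)
    exact hsym.2 G (hcapT G hG) w (C10_w_mem_cap hG) (by simpa using hs)
  have hww : w ≠ opp w := (C10_ne w).symm
  have hFne : F.Nonempty := Finset.card_pos.1 (by omega)
  have hFF : F ≠ F.image opp := by
    intro h
    obtain ⟨x, hx⟩ := hFne
    exact hno x hx (C10_mem_im.1 (h ▸ hx))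
  have hFT' : F.image opp ∉ T := by
    intro h
    have := hsym.1 _ h
    rw [C10_ii] at this
    exact hFT this
  have hH : C10_H d T w (opp w) F (F.image opp) := by
    refine ⟨hd, hS, hwF, ?_, hww, ?_, hwo, hFF, hcF, ?_, hFT, hFT', hst1, ?_⟩
    · rw [C10_mem_im, C10_oo]; exact hwF
    · rw [C10_mem_im]; exact hwo
    · rw [Finset.card_image_of_injective _ C10_inj, hcF]
    · intro G
      rw [C10_cap_im, hst1, C10_mem_im]
      constructor
      · rintro ⟨h1, h2⟩
        have := hsym.1 _ h1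
        rw [C10_ii] at this
        exact ⟨this, h2⟩
      · rintro ⟨h1, h2⟩
        exact ⟨hsym.1 _ h1, h2⟩
  have hmemvs : ∀ (C : Finset (Finset (SV W))) x, x ∈ vs C ↔ ∃ G ∈ C, x ∈ G := by
    intro C x; simp [vs]
  refine ⟨C10_T0 T w (opp w) F (F.image opp), ⟨C10_sph hH, ?_, ?_⟩,
    C10_mem_T0.2 (Or.inr (Or.inl rfl)), ?_, ?_, C10_vs hH, C10_eg hH, C10_dec hH⟩
  · intro G hG
    rw [C10_mem_T0] at hG ⊢
    rcases hG with h1 | h1 | h1
    · left
      refine ⟨hsym.1 G h1.1, ?_, ?_⟩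
      · rw [C10_mem_im]; exact h1.2.2
      · rw [C10_mem_im, C10_oo]; exact h1.2.1
    · right; right; rw [h1]
    · right; left; rw [h1, C10_ii]
  · intro G hG x hx
    rcases C10_mem_T0.1 hG with h1 | h1 | h1
    · exact hsym.2 G h1.1 x hx
    · subst h1; exact hno x hx
    · subst h1
      intro hx'
      rw [C10_mem_im] at hx hx'
      exact hno _ hx hx'
  · rw [hmemvs]; rintro ⟨G, hG, hx⟩; exact (C10_T0_w hH hG).1 hx
  · rw [hmemvs]; rintro ⟨G, hG, hx⟩; exact (C10_T0_w hH hG).2 hx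

end Pool.Agent.N525.CS
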