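import Pool.Agent.N525.CS.Stm

/-!
Project CS, part C2 (by helper31): retriangulation of vertex stars.
-/

set_option autoImplicit false
set_option linter.unusedSectionVars false
set_option linter.unusedVariables false

namespace Pool.Agent.N525.CS

open Pool.Agent.N525.VR

namespace C2

section gen
variable {V : Type} [Fintype V] [DecidableEq V]

/-- indicator of `t ⊆ F` -/
def ix (t F : Finset V) : ℕ := if t ⊆ F then 1 else 0

/-- the number of members of `C` containing `t` -/
def cn (C : Finset (Finset V)) (t : Finset V) : ℕ := ∑ F ∈ C, ix t F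

lemma cn_eq (C : Finset (Finset V)) (t : Finset V) :
    (C.filter (fun F => t ⊆ F)).card = cn C t := by
  unfold cn ix
  rw [Finset.card_filter]

lemma cn_zero {C : Finset (Finset V)} {t : Finset V} (h : ∀ F ∈ C, ¬ t ⊆ F) : cn C t = 0 := by
  unfold cn ix
  exact Finset.sum_eq_zero fun F hF => if_neg (h F hF)

lemma isCycle_iff (d : ℕ) (C : Finset (Finset V)) : IsCycle d C ↔ (∀ F ∈ C, F.card = d) ∧
    ∀ t : Finset V, t.card + 1 = d → cn C t % 2 = 0 := by
  unfold IsCycle
  simp only [cn_eq, Nat.even_iff]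

/-- replacement of the vertex `v` by `v2` -/
def rh (v v2 : V) (F : Finset V) : Finset V := insert v2 (F.erase v)

lemma ix_rh1 {v v2 : V} {t F : Finset V} (h1 : v ∉ t) (h2 : v2 ∉ t) :
    ix t (rh v v2 F) = ix t F := by
  have : t ⊆ rh v v2 F ↔ t ⊆ F := by
    unfold rh
    constructor
    · intro h x hx
      rcases Finset.mem_insert.1 (h hx) with h3 | h3
      · exact absurd (h3 ▸ hx) h2
      · exact Finset.mem_of_mem_erase h3
    · intro h x hx
      exact Finset.mem_insert_of_mem (Finset.mem_erase.2 ⟨fun h3 => h1 (h3 ▸ hx), h hx⟩)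
  unfold ix
  simp only [this]

lemma ix_rh2 {v v2 : V} {t F : Finset V} (h1 : v ∉ t) (h2 : v2 ∈ t) (h3 : v ∈ F)  :
    ix t (rh v v2 F) = ix (insert v (t.erase v2)) F := by
  have : t ⊆ rh v v2 F ↔ insert v (t.erase v2) ⊆ F := by
    unfold rh
    constructor
    · intro h x hx
      rcases Finset.mem_insert.1 hx with h4 | h4
      · exact h4 ▸ h3
      · obtain ⟨h5, h6⟩ := Finset.mem_erase.1 h4
        rcases Finset.mem_insert.1 (h h6) with h7 | h7
        · exact absurd h7 h5
        · exact Finset.mem_of_mem_erase h7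
    · intro h x hx
      by_cases h4 : x = v2
      · exact Finset.mem_insert.2 (Or.inl h4)
      · refine Finset.mem_insert_of_mem (Finset.mem_erase.2 ⟨fun h3 => h1 (h3 ▸ hx), h ?_⟩)
        exact Finset.mem_insert_of_mem (Finset.mem_erase.2 ⟨h4, hx⟩)
  unfold ix
  simp only [this]

lemma ix_rh3 {v v2 : V} {t F : Finset V} (h1 : v ∈ t) (h2 : v ≠ v2) :
    ix t (rh v v2 F) = 0 := by
  unfold ix
  rw [if_neg]
  intro h
  rcases Finset.mem_insert.1 (h h1) with h3 | h3
  · exact h2 h3
  · exact absurd rfl (Finset.mem_erase.1 h3).1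

/-- the data for splitting a vertex -/
structure SD (d : ℕ) (T : Finset (Finset V)) (v v2 : V) (G : Finset V)
    (A : Finset (Finset V)) : Prop where
  min : MinCycle d T
  hd : 2 ≤ d
  hvv : v ≠ v2
  fresh : ∀ F ∈ T, v2 ∉ F
  hG : G.card + 1 = d
  hvG : v ∉ G
  hv2G : v2 ∉ G
  nf : ∀ F ∈ T, ¬ G ⊆ F
  hA : A ⊆ T
  hAv : ∀ F ∈ A, v ∈ F
  hAr : ∀ r : Finset V, v ∈ r → r.card + 1 = d → (cn A r % 2 = 1 ↔ r ⊆ insert v G)

/-- the facets at `v` which are moved to `v2` -/
def BB (T : Finset (Finset V)) (v : V) (A : Finset (Finset V)) : Finset (Finset V) :=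
  (T.filter fun F => v ∈ F) \ A

/-- the result of the splitting -/
def spl (T : Finset (Finset V)) (v v2 : V) (G : Finset V) (A : Finset (Finset V)) :
    Finset (Finset V) :=
  (T \ BB T v A) ∪ (BB T v A).image (rh v v2) ∪ {insert v G, insert v2 G}

lemma mem_BB {T : Finset (Finset V)} {v : V} {A : Finset (Finset V)} {F : Finset V} :
    F ∈ BB T v A ↔ (F ∈ T ∧ v ∈ F) ∧ F ∉ A := by
  unfold BB
  rw [Finset.mem_sdiff, Finset.mem_filter]

variable {d : ℕ} {T : Finset (Finset V)} {v v2 : V} {G : Finset V} {A : Finset (Finset V)}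

lemma mem_C0 (hA : ∀ F ∈ A, v ∈ F) {F : Finset V} :
    F ∈ T \ BB T v A ↔ F ∈ T ∧ (v ∈ F → F ∈ A) := by
  rw [Finset.mem_sdiff, mem_BB]
  constructor
  · rintro ⟨h1, h2⟩
    refine ⟨h1, fun h3 => ?_⟩
    by_contra h4
    exact h2 ⟨⟨h1, h3⟩, h4⟩
  · rintro ⟨h1, h2⟩
    exact ⟨h1, fun h3 => h3.2 (h2 h3.1.2)⟩

lemma rh_inj (h : SD d T v v2 G A) : Set.InjOn (rh v v2) (BB T v A : Set (Finset V)) := by
  have key : ∀ F ∈ BB T v A, insert v ((rh v v2 F).erase v2) = F := by
    intro F hF
    have hF1 := mem_BB.1 hF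
    unfold rh
    rw [Finset.erase_insert, Finset.insert_erase hF1.1.2]
    intro h3
    exact h.fresh F hF1.1.1 (Finset.mem_of_mem_erase h3)
  intro F hF F' hF' he
  rw [← key F hF, ← key F' hF', he]

lemma rh_mem (F : Finset V) : v2 ∈ rh v v2 F := Finset.mem_insert_self _ _

lemma rh_not_mem (hvv : v ≠ v2) (F : Finset V) : v ∉ rh v v2 F := by
  intro h
  rcases Finset.mem_insert.1 h with h3 | h3
  · exact hvv h3
  · exact absurd rfl (Finset.mem_erase.1 h3).1

/-- the count of a part of the splitting -/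
lemma cn_parts (h : SD d T v v2 G A) {C B K : Finset (Finset V)} (hC : C ⊆ T \ BB T v A)
    (hB : B ⊆ BB T v A) (hK : K ⊆ {insert v G, insert v2 G}) (t : Finset V) :
    cn (C ∪ B.image (rh v v2) ∪ K) t = cn C t + (∑ F ∈ B, ix t (rh v v2 F)) +
      ((if insert v G ∈ K then ix t (insert v G) else 0) +
        (if insert v2 G ∈ K then ix t (insert v2 G) else 0)) := by
  have hne : insert v G ≠ insert v2 G := by
    intro he
    have : v ∈ insert v2 G := he ▸ Finset.mem_insert_self v G
    rcases Finset.mem_insert.1 this with h3 | h3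
    · exact h.hvv h3
    · exact h.hvG h3
  have hg1T : ∀ F ∈ T, F ≠ insert v G := by
    intro F hF he
    exact h.nf F hF (he ▸ Finset.subset_insert _ _)
  have hg2T : ∀ F ∈ T, F ≠ insert v2 G := by
    intro F hF he
    exact h.nf F hF (he ▸ Finset.subset_insert _ _)
  have hg1B : ∀ F ∈ BB T v A, rh v v2 F ≠ insert v G := by
    intro F _ he
    exact rh_not_mem h.hvv F (he ▸ Finset.mem_insert_self _ _)
  have hg2B : ∀ F ∈ BB T v A, rh v v2 F ≠ insert v2 G := by
    intro F hF he
    refine h.nf F (mem_BB.1 hF).1.1 fun x hx => ?_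
    have hx2 : x ∈ rh v v2 F := he ▸ Finset.mem_insert_of_mem hx
    rcases Finset.mem_insert.1 hx2 with h3 | h3
    · exact absurd (h3 ▸ hx) h.hv2G
    · exact Finset.mem_of_mem_erase h3
  have hd1 : Disjoint C (B.image (rh v v2)) := by
    rw [Finset.disjoint_left]
    intro F hF hF2
    obtain ⟨F0, _, rfl⟩ := Finset.mem_image.1 hF2
    exact h.fresh _ (Finset.mem_sdiff.1 (hC hF)).1 (rh_mem F0)
  have hd2 : Disjoint (C ∪ B.image (rh v v2)) K := by
    rw [Finset.disjoint_left]
    intro F hF hF2
    have hF3 := Finset.mem_insert.1 (hK hF2)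
    rw [Finset.mem_singleton] at hF3
    rcases Finset.mem_union.1 hF with h4 | h4
    · have h5 := (Finset.mem_sdiff.1 (hC h4)).1
      rcases hF3 with h6 | h6
      · exact hg1T F h5 h6
      · exact hg2T F h5 h6
    · obtain ⟨F0, hF0, rfl⟩ := Finset.mem_image.1 h4
      rcases hF3 with h6 | h6
      · exact hg1B F0 (hB hF0) h6
      · exact hg2B F0 (hB hF0) h6
  unfold cn
  rw [Finset.sum_union hd2, Finset.sum_union hd1,
    Finset.sum_image ((rh_inj h).mono (by exact_mod_cast hB))]
  congr 1
  have hK2 : K = ({insert v G, insert v2 G} : Finset (Finset V)).filter (fun F => F ∈ K) := by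
    ext F
    rw [Finset.mem_filter]
    exact ⟨fun h3 => ⟨hK h3, h3⟩, fun h3 => h3.2⟩
  conv_lhs => rw [hK2]
  rw [Finset.sum_filter, Finset.sum_pair hne]

lemma ins_sub_iff {x : V} {t G : Finset V} (hx : x ∈ t) :
    t ⊆ insert x G ↔ t.erase x ⊆ G := by
  constructor
  · intro h y hy
    obtain ⟨h1, h2⟩ := Finset.mem_erase.1 hy
    rcases Finset.mem_insert.1 (h h2) with h3 | h3
    · exact absurd h3 h1
    · exact h3
  · intro h y hy
    by_cases h1 : y = x
    · exact Finset.mem_insert.2 (Or.inl h1)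
    · exact Finset.mem_insert_of_mem (h (Finset.mem_erase.2 ⟨h1, hy⟩))

lemma sub_ins_iff {x : V} {t G : Finset V} (hx : x ∉ t) : t ⊆ insert x G ↔ t ⊆ G :=
  Finset.subset_insert_iff_of_notMem hx

/-- counts of `A` and `B` at ridges with `v` -/
lemma cn_A_B (h : SD d T v v2 G A) {t : Finset V} (hv : v ∈ t) :
    cn T t = cn A t + cn (BB T v A) t := by
  have h1 : cn T t = cn (T.filter fun F => v ∈ F) t := by
    unfold cn
    rw [Finset.sum_filter]
    refine Finset.sum_congr rfl fun F _ => ?_
    by_cases h2 : v ∈ F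
    · rw [if_pos h2]
    · rw [if_neg h2]
      unfold ix
      rw [if_neg]
      exact fun h3 => h2 (h3 hv)
  have h2 : (T.filter fun F => v ∈ F) = A ∪ BB T v A := by
    ext F
    rw [Finset.mem_union, mem_BB, Finset.mem_filter]
    constructor
    · intro h3
      by_cases h4 : F ∈ A
      · exact Or.inl h4
      · exact Or.inr ⟨h3, h4⟩
    · rintro (h3 | h3)
      · exact ⟨h.hA h3, h.hAv F h3⟩
      · exact h3.1
  rw [h1, h2]
  unfold cn
  rw [Finset.sum_union]
  rw [Finset.disjoint_left]
  intro F h3 h4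
  exact (mem_BB.1 h4).2 h3

lemma cn_C0_v (h : SD d T v v2 G A) {t : Finset V} (hv : v ∈ t) :
    cn (T \ BB T v A) t = cn A t := by
  have h2 : T = (T \ BB T v A) ∪ BB T v A := by
    rw [Finset.sdiff_union_of_subset]
    intro F hF
    exact (mem_BB.1 hF).1.1
  have h3 := cn_A_B h hv
  have h4 : cn T t = cn (T \ BB T v A) t + cn (BB T v A) t := by
    conv_lhs => rw [h2]
    unfold cn
    rw [Finset.sum_union Finset.sdiff_disjoint]
  omega

lemma spl_cyc (h : SD d T v v2 G A) : IsCycle d (spl T v v2 G A) := by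
  have hT := (isCycle_iff d T).1 h.min.1
  rw [isCycle_iff]
  constructor
  · intro F hF
    unfold spl at hF
    rw [Finset.mem_union, Finset.mem_union, Finset.mem_insert, Finset.mem_singleton] at hF
    rcases hF with (hF | hF) | (hF | hF)
    · exact hT.1 F (Finset.mem_sdiff.1 hF).1
    · obtain ⟨F0, hF0, rfl⟩ := Finset.mem_image.1 hF
      obtain ⟨⟨h1, h2⟩, h3⟩ := mem_BB.1 hF0
      unfold rh
      rw [Finset.card_insert_of_notMem, Finset.card_erase_add_one h2]
      · exact hT.1 F0 h1
      · intro h4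
        exact h.fresh F0 h1 (Finset.mem_of_mem_erase h4)
    · rw [hF, Finset.card_insert_of_notMem h.hvG, h.hG]
    · rw [hF, Finset.card_insert_of_notMem h.hv2G, h.hG]
  · intro t ht
    have key := cn_parts h (Finset.Subset.refl (T \ BB T v A)) (Finset.Subset.refl (BB T v A))
      (Finset.Subset.refl {insert v G, insert v2 G}) t
    rw [if_pos (by simp), if_pos (by simp)] at key
    unfold spl
    rw [key]
    by_cases hv : v ∈ t
    · have e1 : (∑ F ∈ BB T v A, ix t (rh v v2 F)) = 0 :=
        Finset.sum_eq_zero fun F _ => ix_rh3 hv h.hvv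
      have e2 : ix t (insert v2 G) = 0 := by
        unfold ix
        rw [if_neg]
        intro h3
        rcases Finset.mem_insert.1 (h3 hv) with h4 | h4
        · exact h.hvv h4
        · exact h.hvG h4
      rw [cn_C0_v h hv, e1, e2]
      have h5 := h.hAr t hv ht
      unfold ix
      by_cases h6 : t ⊆ insert v G
      · rw [if_pos h6]
        have := h5.2 h6
        omega
      · rw [if_neg h6]
        have : ¬ cn A t % 2 = 1 := fun h7 => h6 (h5.1 h7)
        omega
    · by_cases hv2 : v2 ∈ t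
      · have e1 : cn (T \ BB T v A) t = 0 := by
          apply cn_zero
          intro F hF h3
          exact h.fresh F (Finset.mem_sdiff.1 hF).1 (h3 hv2)
        have e2 : ix t (insert v G) = 0 := by
          unfold ix
          rw [if_neg]
          intro h3
          rcases Finset.mem_insert.1 (h3 hv2) with h4 | h4
          · exact h.hvv h4.symm
          · exact h.hv2G h4
        have e3 : (∑ F ∈ BB T v A, ix t (rh v v2 F)) =
            cn (BB T v A) (insert v (t.erase v2)) :=
          Finset.sum_congr rfl fun F hF => ix_rh2 hv hv2 (mem_BB.1 hF).1.2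
        have hv' : v ∉ t.erase v2 := fun h3 => hv (Finset.mem_of_mem_erase h3)
        have hc : (insert v (t.erase v2)).card + 1 = d := by
          rw [Finset.card_insert_of_notMem hv', Finset.card_erase_add_one hv2, ht]
        have h5 := h.hAr _ (Finset.mem_insert_self v (t.erase v2)) hc
        have h6 := cn_A_B h (Finset.mem_insert_self v (t.erase v2))
        have h7 := hT.2 _ hc
        have h8 : t ⊆ insert v2 G ↔ insert v (t.erase v2) ⊆ insert v G := by
          rw [ins_sub_iff hv2, ins_sub_iff (Finset.mem_insert_self _ _), Finset.erase_insert hv']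
        rw [e1, e2, e3]
        unfold ix
        by_cases h9 : t ⊆ insert v2 G
        · rw [if_pos h9]
          have := h5.2 (h8.1 h9)
          omega
        · rw [if_neg h9]
          have : ¬ cn A (insert v (t.erase v2)) % 2 = 1 := fun h10 => h9 (h8.2 (h5.1 h10))
          omega
      · have e3 : (∑ F ∈ BB T v A, ix t (rh v v2 F)) = cn (BB T v A) t :=
          Finset.sum_congr rfl fun F _ => ix_rh1 hv hv2
        have h2 : T = (T \ BB T v A) ∪ BB T v A := by
          rw [Finset.sdiff_union_of_subset]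
          intro F hF
          exact (mem_BB.1 hF).1.1
        have h4 : cn T t = cn (T \ BB T v A) t + cn (BB T v A) t := by
          conv_lhs => rw [h2]
          unfold cn
          rw [Finset.sum_union Finset.sdiff_disjoint]
        have h7 := hT.2 _ ht
        have h8 : ix t (insert v G) = ix t (insert v2 G) := by
          unfold ix
          simp only [sub_ins_iff hv, sub_ins_iff hv2]
        rw [e3, h8]
        omega

lemma spl_min (h : SD d T v v2 G A) : MinCycle d (spl T v v2 G A) := by
  refine ⟨spl_cyc h, ⟨insert v G, by simp [spl]⟩, ?_⟩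
  intro Z hZ hZne hZc
  have hT := (isCycle_iff d T).1 h.min.1
  have hZ' := (isCycle_iff d Z).1 hZc
  set C := Z.filter (fun F => F ∈ T \ BB T v A) with hC
  set B := (BB T v A).filter (fun F => rh v v2 F ∈ Z) with hB
  set K := Z.filter (fun F => F ∈ ({insert v G, insert v2 G} : Finset (Finset V))) with hK
  have hCs : C ⊆ T \ BB T v A := fun F hF => (Finset.mem_filter.1 hF).2
  have hBs : B ⊆ BB T v A := Finset.filter_subset _ _
  have hKs : K ⊆ {insert v G, insert v2 G} := fun F hF => (Finset.mem_filter.1 hF).2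
  have hZe : Z = C ∪ B.image (rh v v2) ∪ K := by
    ext F
    rw [Finset.mem_union, Finset.mem_union]
    constructor
    · intro hF
      have := hZ hF
      unfold spl at this
      rw [Finset.mem_union, Finset.mem_union] at this
      rcases this with (h1 | h1) | h1
      · exact Or.inl (Or.inl (Finset.mem_filter.2 ⟨hF, h1⟩))
      · obtain ⟨F0, hF0, rfl⟩ := Finset.mem_image.1 h1
        exact Or.inl (Or.inr (Finset.mem_image.2 ⟨F0, Finset.mem_filter.2 ⟨hF0, hF⟩, rfl⟩))
      · exact Or.inr (Finset.mem_filter.2 ⟨hF, h1⟩)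
    · rintro ((h1 | h1) | h1)
      · exact (Finset.mem_filter.1 h1).1
      · obtain ⟨F0, hF0, rfl⟩ := Finset.mem_image.1 h1
        exact (Finset.mem_filter.1 hF0).2
      · exact (Finset.mem_filter.1 h1).1
  have hK1 : insert v G ∈ K ↔ insert v G ∈ Z := by
    rw [hK, Finset.mem_filter]
    simp
  have hK2 : insert v2 G ∈ K ↔ insert v2 G ∈ Z := by
    rw [hK, Finset.mem_filter]
    simp
  have hcn : ∀ t, cn Z t = cn C t + (∑ F ∈ B, ix t (rh v v2 F)) +
      ((if insert v G ∈ Z then ix t (insert v G) else 0) +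
        (if insert v2 G ∈ Z then ix t (insert v2 G) else 0)) := by
    intro t
    have h1 := cn_parts h hCs hBs hKs t
    rw [← hZe] at h1
    simp only [hK1, hK2] at h1
    exact h1
  -- both caps or none
  have hcap : insert v G ∈ Z ↔ insert v2 G ∈ Z := by
    have h1 := hcn G
    have h2 : cn C G = 0 := cn_zero fun F hF => h.nf F (Finset.mem_sdiff.1 (hCs hF)).1
    have h3 : (∑ F ∈ B, ix G (rh v v2 F)) = 0 := by
      refine Finset.sum_eq_zero fun F hF => ?_
      rw [ix_rh1 h.hvG h.hv2G]
      unfold ix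
      rw [if_neg (h.nf F (mem_BB.1 (hBs hF)).1.1)]
    have h4 : ix G (insert v G) = 1 := if_pos (Finset.subset_insert _ _)
    have h5 : ix G (insert v2 G) = 1 := if_pos (Finset.subset_insert _ _)
    have h6 := hZ'.2 G h.hG
    rw [h2, h3, h4, h5] at h1
    by_cases h7 : insert v G ∈ Z <;> by_cases h8 : insert v2 G ∈ Z
    · exact ⟨fun _ => h8, fun _ => h7⟩
    · rw [if_pos h7, if_neg h8] at h1; omega
    · rw [if_neg h7, if_pos h8] at h1; omega
    · exact ⟨fun h9 => absurd h9 h7, fun h9 => absurd h9 h8⟩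
  -- the image in `T`
  set Y := C ∪ B with hY
  have hYd : Disjoint C B := by
    rw [Finset.disjoint_left]
    intro F h1 h2
    exact (Finset.mem_sdiff.1 (hCs h1)).2 (hBs h2)
  have hYT : Y ⊆ T := by
    intro F hF
    rcases Finset.mem_union.1 hF with h1 | h1
    · exact (Finset.mem_sdiff.1 (hCs h1)).1
    · exact (mem_BB.1 (hBs h1)).1.1
  have hYcn : ∀ t, cn Y t = cn C t + cn B t := by
    intro t
    unfold cn
    rw [hY, Finset.sum_union hYd]
  have hYc : IsCycle d Y := by
    rw [isCycle_iff]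
    refine ⟨fun F hF => hT.1 F (hYT hF), fun t ht => ?_⟩
    rw [hYcn]
    by_cases hv2 : v2 ∈ t
    · have e1 : cn C t = 0 := cn_zero fun F hF h1 =>
        h.fresh F (Finset.mem_sdiff.1 (hCs hF)).1 (h1 hv2)
      have e2 : cn B t = 0 := cn_zero fun F hF h1 =>
        h.fresh F (mem_BB.1 (hBs hF)).1.1 (h1 hv2)
      rw [e1, e2]
    · by_cases hv : v ∈ t
      · -- the two ridges
        have h1 := hcn t
        have e1 : (∑ F ∈ B, ix t (rh v v2 F)) = 0 :=
          Finset.sum_eq_zero fun F _ => ix_rh3 hv h.hvv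
        have e2 : ix t (insert v2 G) = 0 := by
          unfold ix
          rw [if_neg]
          intro h3
          rcases Finset.mem_insert.1 (h3 hv) with h4 | h4
          · exact h.hvv h4
          · exact h.hvG h4
        rw [e1, e2] at h1
        have hv2' : v2 ∉ t.erase v := fun h3 => hv2 (Finset.mem_of_mem_erase h3)
        have hc : (insert v2 (t.erase v)).card + 1 = d := by
          rw [Finset.card_insert_of_notMem hv2', Finset.card_erase_add_one hv, ht]
        have h2 := hcn (insert v2 (t.erase v))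
        have hvn : v ∉ insert v2 (t.erase v) := by
          intro h3
          rcases Finset.mem_insert.1 h3 with h4 | h4
          · exact h.hvv h4
          · exact absurd rfl (Finset.mem_erase.1 h4).1
        have e3 : cn C (insert v2 (t.erase v)) = 0 := cn_zero fun F hF h1 =>
          h.fresh F (Finset.mem_sdiff.1 (hCs hF)).1 (h1 (Finset.mem_insert_self _ _))
        have e4 : (∑ F ∈ B, ix (insert v2 (t.erase v)) (rh v v2 F)) = cn B t := by
          refine Finset.sum_congr rfl fun F hF => ?_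
          rw [ix_rh2 hvn (Finset.mem_insert_self _ _) (mem_BB.1 (hBs hF)).1.2,
            Finset.erase_insert hv2', Finset.insert_erase hv]
        have e5 : ix (insert v2 (t.erase v)) (insert v G) = 0 := by
          unfold ix
          rw [if_neg]
          intro h3
          rcases Finset.mem_insert.1 (h3 (Finset.mem_insert_self _ _)) with h4 | h4
          · exact h.hvv h4.symm
          · exact h.hv2G h4
        have e6 : ix (insert v2 (t.erase v)) (insert v2 G) = ix t (insert v G) := by
          unfold ix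
          simp only [ins_sub_iff (Finset.mem_insert_self v2 (t.erase v)), ins_sub_iff hv,
            Finset.erase_insert hv2']
        rw [e3, e4, e5, e6] at h2
        have h3 := hZ'.2 t ht
        have h4 := hZ'.2 _ hc
        by_cases h7 : insert v G ∈ Z
        · have h8 := hcap.1 h7
          rw [if_pos h7] at h1
          rw [if_pos h8] at h2
          simp only [ite_self] at h1 h2
          omega
        · have h8 : ¬ insert v2 G ∈ Z := fun h9 => h7 (hcap.2 h9)
          rw [if_neg h7] at h1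
          rw [if_neg h8] at h2
          simp only [ite_self] at h1 h2
          omega
      · have h1 := hcn t
        have e1 : (∑ F ∈ B, ix t (rh v v2 F)) = cn B t :=
          Finset.sum_congr rfl fun F _ => ix_rh1 hv hv2
        have h8 : ix t (insert v G) = ix t (insert v2 G) := by
          unfold ix
          simp only [sub_ins_iff hv, sub_ins_iff hv2]
        rw [e1, h8] at h1
        have h3 := hZ'.2 t ht
        by_cases h7 : insert v G ∈ Z
        · have h9 := hcap.1 h7
          rw [if_pos h7, if_pos h9] at h1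
          omega
        · have h9 : ¬ insert v2 G ∈ Z := fun h9 => h7 (hcap.2 h9)
          rw [if_neg h7, if_neg h9] at h1
          omega
  -- a ridge of the first cap
  have hGne : G.Nonempty := by
    rw [← Finset.card_pos]
    have := h.hG
    have := h.hd
    omega
  obtain ⟨y, hy⟩ := hGne
  have hvr : v ∉ G.erase y := fun h3 => h.hvG (Finset.mem_of_mem_erase h3)
  have hr1 : (insert v (G.erase y)).card + 1 = d := by
    rw [Finset.card_insert_of_notMem hvr, Finset.card_erase_add_one hy, h.hG]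
  have hr2 : ix (insert v (G.erase y)) (insert v G) = 1 :=
    if_pos (Finset.insert_subset_insert _ (Finset.erase_subset _ _))
  have hr3 : ix (insert v (G.erase y)) (insert v2 G) = 0 := by
    unfold ix
    rw [if_neg]
    intro h3
    rcases Finset.mem_insert.1 (h3 (Finset.mem_insert_self _ _)) with h4 | h4
    · exact h.hvv h4
    · exact h.hvG h4
  have hr4 : ∀ F, ix (insert v (G.erase y)) (rh v v2 F) = 0 := fun F =>
    ix_rh3 (Finset.mem_insert_self _ _) h.hvv
  rcases Y.eq_empty_or_nonempty with hYe | hYne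
  · exfalso
    have hCe : C = ∅ := by
      rw [Finset.eq_empty_iff_forall_notMem]
      intro F hF
      have : F ∈ Y := Finset.mem_union_left _ hF
      rw [hYe] at this
      exact absurd this (Finset.notMem_empty F)
    have hBe : B = ∅ := by
      rw [Finset.eq_empty_iff_forall_notMem]
      intro F hF
      have : F ∈ Y := Finset.mem_union_right _ hF
      rw [hYe] at this
      exact absurd this (Finset.notMem_empty F)
    have hg1 : insert v G ∈ Z := by
      obtain ⟨F, hF⟩ := hZne
      rw [hZe, hCe, hBe, Finset.image_empty, Finset.empty_union, Finset.empty_union] at hF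
      have hFZ : F ∈ Z := (Finset.mem_filter.1 hF).1
      have := hKs hF
      rw [Finset.mem_insert, Finset.mem_singleton] at this
      rcases this with h1 | h1
      · rw [← h1]; exact hFZ
      · rw [hcap, ← h1]; exact hFZ
    have h1 := hcn (insert v (G.erase y))
    have h2 := hZ'.2 _ hr1
    rw [hCe, hBe, hr2, hr3, if_pos hg1] at h1
    simp [cn] at h1
    unfold cn at h2
    omega
  · have hYTe := h.min.2.2 Y hYT hYne hYc
    -- all of `T \ B` and the image of `B` belong to `Z`
    have hCT : T \ BB T v A ⊆ C := by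
      intro F hF
      have h1 : F ∈ Y := by rw [hYTe]; exact (Finset.mem_sdiff.1 hF).1
      rcases Finset.mem_union.1 h1 with h2 | h2
      · exact h2
      · exact absurd (hBs h2) (Finset.mem_sdiff.1 hF).2
    have hCe : C = T \ BB T v A := Finset.Subset.antisymm hCs hCT
    have hBT : BB T v A ⊆ B := by
      intro F hF
      have h1 : F ∈ Y := by rw [hYTe]; exact (mem_BB.1 hF).1.1
      rcases Finset.mem_union.1 h1 with h2 | h2
      · exact absurd hF (Finset.mem_sdiff.1 (hCs h2)).2
      · exact h2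
    have hBe : B = BB T v A := Finset.Subset.antisymm hBs hBT
    have hg1 : insert v G ∈ Z := by
      by_contra hg
      have hg' : ¬ insert v2 G ∈ Z := fun h9 => hg (hcap.2 h9)
      have h1 := hcn (insert v (G.erase y))
      have h2 := hZ'.2 _ hr1
      rw [if_neg hg, if_neg hg', hCe, hBe] at h1
      have h3 := cn_parts h (Finset.Subset.refl (T \ BB T v A))
        (Finset.Subset.refl (BB T v A))
        (Finset.Subset.refl {insert v G, insert v2 G}) (insert v (G.erase y))
      rw [if_pos (by simp), if_pos (by simp), hr2, hr3] at h3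
      have h4 := ((isCycle_iff d _).1 (spl_cyc h)).2 _ hr1
      unfold spl at h4
      omega
    refine Finset.Subset.antisymm hZ ?_
    rw [hZe]
    unfold spl
    rw [hCe, hBe]
    refine Finset.union_subset_union_right ?_
    intro F hF
    rw [Finset.mem_insert, Finset.mem_singleton] at hF
    rcases hF with rfl | rfl
    · exact hK1.2 hg1
    · exact hK2.2 (hcap.1 hg1)

end gen

/-! ### injective maps of the vertices -/

section tr
variable {V V' : Type} [Fintype V] [DecidableEq V] [Fintype V'] [DecidableEq V']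

lemma ix_image {e : V → V'} (he : Function.Injective e) (t F : Finset V) :
    ix (t.image e) (F.image e) = ix t F := by
  unfold ix
  simp only [Finset.image_subset_image_iff he]

lemma cn_image {e : V → V'} (he : Function.Injective e) (C : Finset (Finset V)) (t : Finset V) :
    cn (C.image (Finset.image e)) (t.image e) = cn C t := by
  unfold cn
  rw [Finset.sum_image (Finset.image_injective he).injOn]
  exact Finset.sum_congr rfl fun F _ => ix_image he t F

lemma cn_image0 {e : V → V'} (C : Finset (Finset V)) (t : Finset V')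
    (ht : ¬ ∃ t0 : Finset V, t0.image e = t) : cn (C.image (Finset.image e)) t = 0 := by
  apply cn_zero
  intro F hF h
  obtain ⟨F0, _, rfl⟩ := Finset.mem_image.1 hF
  obtain ⟨s, _, hs⟩ := Finset.subset_image_iff.1 h
  exact ht ⟨s, hs⟩

lemma min_image {e : V → V'} (he : Function.Injective e) {d : ℕ} {T : Finset (Finset V)}
    (h : MinCycle d T) : MinCycle d (T.image (Finset.image e)) := by
  have hT := (isCycle_iff d T).1 h.1
  refine ⟨?_, h.2.1.image _, ?_⟩
  · rw [isCycle_iff]
    constructor
    · intro F hF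
      obtain ⟨F0, hF0, rfl⟩ := Finset.mem_image.1 hF
      rw [Finset.card_image_of_injective _ he]
      exact hT.1 F0 hF0
    · intro t ht
      by_cases h1 : ∃ t0 : Finset V, t0.image e = t
      · obtain ⟨t0, rfl⟩ := h1
        rw [cn_image he]
        apply hT.2
        rwa [Finset.card_image_of_injective _ he] at ht
      · rw [cn_image0 T t h1]
  · intro Z hZ hne hZc
    have hZ' := (isCycle_iff d Z).1 hZc
    set Z0 := T.filter (fun F => F.image e ∈ Z) with hZ0
    have h1 : Z = Z0.image (Finset.image e) := by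
      ext F
      rw [Finset.mem_image]
      constructor
      · intro hF
        obtain ⟨F0, hF0, rfl⟩ := Finset.mem_image.1 (hZ hF)
        exact ⟨F0, Finset.mem_filter.2 ⟨hF0, hF⟩, rfl⟩
      · rintro ⟨F0, hF0, rfl⟩
        exact (Finset.mem_filter.1 hF0).2
    have h2 : Z0 = T := by
      apply h.2.2 Z0 (Finset.filter_subset _ _)
      · rw [h1] at hne
        exact Finset.image_nonempty.1 hne
      · rw [isCycle_iff]
        refine ⟨fun F hF => hT.1 F (Finset.mem_filter.1 hF).1, fun t ht => ?_⟩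
        rw [← cn_image he, ← h1]
        apply hZ'.2
        rw [Finset.card_image_of_injective _ he, ht]
    rw [h1, h2]

end tr

/-! ### the application -/

section app
variable {W : Type} [Fintype W] [DecidableEq W]

lemma opp_opp {W : Type} (x : SV W) : opp (opp x) = x := by
  unfold opp
  simp

lemma opp_inj {W : Type} : Function.Injective (opp : SV W → SV W) :=
  Function.LeftInverse.injective opp_opp

lemma opp_ne {W : Type} (x : SV W) : opp x ≠ x := by
  unfold opp
  intro h
  have := congrArg Prod.snd h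
  simp at this

lemma opp_fst {W : Type} (x : SV W) : (opp x).1 = x.1 := rfl

lemma OO (F : Finset (SV W)) : (F.image opp).image opp = F := by
  rw [Finset.image_image]
  have : (opp ∘ opp : SV W → SV W) = id := funext opp_opp
  rw [this, Finset.image_id]

lemma mem_O {F : Finset (SV W)} {x : SV W} : x ∈ F.image opp ↔ opp x ∈ F := by
  constructor
  · intro h
    obtain ⟨y, hy, rfl⟩ := Finset.mem_image.1 h
    rwa [opp_opp]
  · intro h
    exact Finset.mem_image.2 ⟨opp x, h, opp_opp x⟩

lemma mem_OO {C : Finset (Finset (SV W))} {F : Finset (SV W)} :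
    F ∈ C.image (Finset.image opp) ↔ F.image opp ∈ C := by
  constructor
  · intro h
    obtain ⟨y, hy, rfl⟩ := Finset.mem_image.1 h
    rwa [OO]
  · intro h
    exact Finset.mem_image.2 ⟨F.image opp, h, OO F⟩

/-- the embedding -/
def em (x : SV W) : SV (Option W) := (some x.1, x.2)

lemma em_inj : Function.Injective (em : SV W → SV (Option W)) := by
  intro x y h
  unfold em at h
  have h1 := congrArg Prod.fst h
  have h2 := congrArg Prod.snd h
  simp only [Option.some.injEq] at h1
  exact Prod.ext h1 h2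

lemma opp_em (x : SV W) : opp (em x) = em (opp x) := rfl

/-- the new vertex -/
def nv (v : SV W) : SV (Option W) := (none, v.2)

lemma nv_ne (v x : SV W) : em x ≠ nv v := by
  intro h
  have := congrArg Prod.fst h
  simp [em, nv] at this

lemma nv_ne' (v x : SV W) : em x ≠ opp (nv v) := by
  intro h
  have := congrArg Prod.fst h
  simp [em, nv, opp] at this

/-- the data -/
structure AD (d : ℕ) (T : Finset (Finset (SV W))) (v : SV W) (G : Finset (SV W))
    (A : Finset (Finset (SV W))) : Prop where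
  hd : 4 ≤ d
  sph : Sph d T
  hvG : v ∉ G
  hG : G.card + 1 = d
  hf : ∀ y ∈ G, face T (insert v (G.erase y))
  hnf : ¬ face T G
  hA : A ⊆ st T {v}
  hAr : ∀ r : Finset (SV W), v ∈ r → r.card + 1 = d → (cn A r % 2 = 1 ↔ r ⊆ insert v G)

variable {d : ℕ} {T : Finset (Finset (SV W))} {v : SV W} {G : Finset (SV W)}
  {A : Finset (Finset (SV W))}

lemma mem_st {F : Finset (SV W)} : F ∈ st T {v} ↔ F ∈ T ∧ v ∈ F := by
  unfold st
  rw [Finset.mem_filter, Finset.singleton_subset_iff]

lemma AD.min (h : AD d T v G A) : MinCycle d T := by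
  refine ⟨⟨h.sph.1.card, fun t ht => h.sph.1.cyc t ht (Finset.empty_subset _)⟩, h.sph.1.ne, ?_⟩
  intro Z hZ hne hc
  have h1 := h.sph.1.min ∅ Z (by have := h.hd; simp; omega)
    (by intro F hF; unfold st; exact Finset.mem_filter.2 ⟨hZ hF, Finset.empty_subset _⟩) hne
    (fun t ht _ => hc.2 t ht)
  rw [h1]
  unfold st
  rw [Finset.filter_true_of_mem]
  exact fun F _ => Finset.empty_subset _

/-- an element of `G` outside a small set -/
lemma AD.ex (h : AD d T v G A) (x y : SV W) : ∃ z ∈ G, z ≠ x ∧ z ≠ y := by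
  have h1 : 0 < (G \ {x, y}).card := by
    have h2 := Finset.le_card_sdiff {x, y} G
    have h3 : ({x, y} : Finset (SV W)).card ≤ 2 := Finset.card_le_two
    have h4 := h.hG
    have h5 := h.hd
    omega
  obtain ⟨z, hz⟩ := Finset.card_pos.1 h1
  rw [Finset.mem_sdiff, Finset.mem_insert, Finset.mem_singleton, not_or] at hz
  exact ⟨z, hz.1, hz.2.1, hz.2.2⟩

/-- pairs in `v ∪ G` are in common facets -/
lemma AD.pair (h : AD d T v G A) {x y : SV W} (hx : x ∈ insert v G) (hy : y ∈ insert v G) :
    ∃ F ∈ T, x ∈ F ∧ y ∈ F := by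
  obtain ⟨z, hz, hzx, hzy⟩ := h.ex x y
  obtain ⟨F, hF, hs⟩ := h.hf z hz
  refine ⟨F, hF, hs ?_, hs ?_⟩
  · rcases Finset.mem_insert.1 hx with h1 | h1
    · exact Finset.mem_insert.2 (Or.inl h1)
    · exact Finset.mem_insert_of_mem (Finset.mem_erase.2 ⟨fun h2 => hzx h2.symm, h1⟩)
  · rcases Finset.mem_insert.1 hy with h1 | h1
    · exact Finset.mem_insert.2 (Or.inl h1)
    · exact Finset.mem_insert_of_mem (Finset.mem_erase.2 ⟨fun h2 => hzy h2.symm, h1⟩)

lemma AD.noanti (h : AD d T v G A) {x : SV W} (hx : x ∈ insert v G) : opp x ∉ insert v G := by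
  intro h1
  obtain ⟨F, hF, h2, h3⟩ := h.pair hx h1
  exact h.sph.2.2 F hF x h2 h3

lemma AD.ov (h : AD d T v G A) : opp v ∉ G := fun h1 =>
  h.noanti (Finset.mem_insert_self v G) (Finset.mem_insert_of_mem h1)

/-- the common neighbours of the two new vertices -/
lemma AD.common (h : AD d T v G A) {x : SV W} (hxv : x ≠ v) {F F' : Finset (SV W)} (hF : F ∈ A)
    (hx : x ∈ F) (hF' : F' ∈ T) (hvF' : v ∈ F') (hF'A : F' ∉ A) (hx' : x ∈ F') : x ∈ G := by
  by_contra hxG
  have hvF : v ∈ F := (mem_st.1 (h.hA hF)).2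
  set Z := A.filter (fun H => {v, x} ⊆ H) with hZ
  have hcard : ({v, x} : Finset (SV W)).card < d := by
    have h3 : ({v, x} : Finset (SV W)).card ≤ 2 := Finset.card_le_two
    have := h.hd
    omega
  have h1 : Z = st T {v, x} := by
    apply h.sph.1.min {v, x} Z hcard
    · intro H hH
      obtain ⟨h2, h3⟩ := Finset.mem_filter.1 hH
      unfold st
      exact Finset.mem_filter.2 ⟨(mem_st.1 (h.hA h2)).1, h3⟩
    · refine ⟨F, Finset.mem_filter.2 ⟨hF, ?_⟩⟩
      intro y hy
      rw [Finset.mem_insert, Finset.mem_singleton] at hy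
      rcases hy with rfl | rfl
      · exact hvF
      · exact hx
    · intro t ht hst
      rw [cn_eq]
      have hvt : v ∈ t := hst (Finset.mem_insert_self _ _)
      have hxt : x ∈ t := hst (Finset.mem_insert_of_mem (Finset.mem_singleton_self _))
      have h2 : cn Z t = cn A t := by
        rw [hZ]
        unfold cn
        rw [Finset.sum_filter]
        refine Finset.sum_congr rfl fun H _ => ?_
        by_cases h3 : {v, x} ⊆ H
        · rw [if_pos h3]
        · rw [if_neg h3]
          unfold ix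
          rw [if_neg]
          exact fun h4 => h3 (hst.trans h4)
      rw [h2, Nat.even_iff]
      have h3 := h.hAr t hvt ht
      have h4 : ¬ t ⊆ insert v G := by
        intro h5
        rcases Finset.mem_insert.1 (h5 hxt) with h6 | h6
        · exact hxv h6
        · exact hxG h6
      have h5 : ¬ cn A t % 2 = 1 := fun h6 => h4 (h3.1 h6)
      omega
  have h2 : F' ∈ st T {v, x} := by
    unfold st
    refine Finset.mem_filter.2 ⟨hF', ?_⟩
    intro y hy
    rw [Finset.mem_insert, Finset.mem_singleton] at hy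
    rcases hy with rfl | rfl
    · exact hvF'
    · exact hx'
  rw [← h1] at h2
  exact hF'A (Finset.mem_filter.1 h2).1

/-- the complex in the new vertex set -/
def T0 (T : Finset (Finset (SV W))) : Finset (Finset (SV (Option W))) :=
  T.image (Finset.image em)

lemma T0_sym (h : AD d T v G A) : Sym (T0 T) := by
  constructor
  · intro F hF
    obtain ⟨F0, hF0, rfl⟩ := Finset.mem_image.1 hF
    refine Finset.mem_image.2 ⟨F0.image opp, h.sph.2.1 F0 hF0, ?_⟩
    rw [Finset.image_image, Finset.image_image]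
    rfl
  · intro F hF x hx hx'
    obtain ⟨F0, hF0, rfl⟩ := Finset.mem_image.1 hF
    obtain ⟨y, hy, rfl⟩ := Finset.mem_image.1 hx
    obtain ⟨z, hz, hz2⟩ := Finset.mem_image.1 hx'
    rw [opp_em] at hz2
    have := em_inj hz2
    exact h.sph.2.2 F0 hF0 y hy (this ▸ hz)

lemma T0_nv {F : Finset (SV (Option W))} (hF : F ∈ T0 T) : nv v ∉ F ∧ opp (nv v) ∉ F := by
  obtain ⟨F0, _, rfl⟩ := Finset.mem_image.1 hF
  constructor
  · intro hx
    obtain ⟨y, _, hy⟩ := Finset.mem_image.1 hx
    exact nv_ne v y hy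
  · intro hx
    obtain ⟨y, _, hy⟩ := Finset.mem_image.1 hx
    exact nv_ne' v y hy

lemma G0_nv : nv v ∉ G.image em ∧ opp (nv v) ∉ G.image em := by
  constructor
  · intro hx
    obtain ⟨y, _, hy⟩ := Finset.mem_image.1 hx
    exact nv_ne v y hy
  · intro hx
    obtain ⟨y, _, hy⟩ := Finset.mem_image.1 hx
    exact nv_ne' v y hy

lemma mem_im {F : Finset (SV W)} {x : SV W} : em x ∈ F.image em ↔ x ∈ F := by
  constructor
  · intro h
    obtain ⟨y, hy, h2⟩ := Finset.mem_image.1 h
    exact em_inj h2 ▸ hy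
  · intro h
    exact Finset.mem_image_of_mem _ h

lemma SD1 (h : AD d T v G A) :
    SD d (T0 T) (em v) (nv v) (G.image em) (A.image (Finset.image em)) where
  min := min_image em_inj h.min
  hd := by have := h.hd; omega
  hvv := nv_ne v v
  fresh := fun F hF => (T0_nv hF).1
  hG := by rw [Finset.card_image_of_injective _ em_inj, h.hG]
  hvG := by rw [mem_im]; exact h.hvG
  hv2G := G0_nv.1
  nf := by
    intro F hF hs
    obtain ⟨F0, hF0, rfl⟩ := Finset.mem_image.1 hF
    exact h.hnf ⟨F0, hF0, (Finset.image_subset_image_iff em_inj).1 hs⟩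
  hA := by
    intro F hF
    obtain ⟨F0, hF0, rfl⟩ := Finset.mem_image.1 hF
    exact Finset.mem_image_of_mem _ (mem_st.1 (h.hA hF0)).1
  hAv := by
    intro F hF
    obtain ⟨F0, hF0, rfl⟩ := Finset.mem_image.1 hF
    rw [mem_im]
    exact (mem_st.1 (h.hA hF0)).2
  hAr := by
    intro r hr hc
    have h1 : insert (em v) (G.image em) = (insert v G).image em := by
      rw [Finset.image_insert]
    rw [h1]
    by_cases h2 : ∃ t0 : Finset (SV W), t0.image em = r
    · obtain ⟨t0, rfl⟩ := h2
      rw [cn_image em_inj, Finset.image_subset_image_iff em_inj]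
      apply h.hAr
      · exact mem_im.1 hr
      · rwa [Finset.card_image_of_injective _ em_inj] at hc
    · rw [cn_image0 A r h2]
      constructor
      · intro h3; omega
      · intro h3
        obtain ⟨s, _, hs⟩ := Finset.subset_image_iff.1 h3
        exact absurd ⟨s, hs⟩ h2

/-- the first splitting -/
def T1 (T : Finset (Finset (SV W))) (v : SV W) (G : Finset (SV W)) (A : Finset (Finset (SV W))) :
    Finset (Finset (SV (Option W))) :=
  spl (T0 T) (em v) (nv v) (G.image em) (A.image (Finset.image em))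

lemma mem_spl {V : Type} [Fintype V] [DecidableEq V] {T : Finset (Finset V)} {v v2 : V}
    {G : Finset V} {A : Finset (Finset V)} (hA : ∀ F ∈ A, v ∈ F) {F : Finset V} :
    F ∈ spl T v v2 G A ↔ (F ∈ T ∧ (v ∈ F → F ∈ A)) ∨ (∃ F0 ∈ BB T v A, rh v v2 F0 = F) ∨
      F = insert v G ∨ F = insert v2 G := by
  unfold spl
  rw [Finset.mem_union, Finset.mem_union, mem_C0 hA, Finset.mem_image, Finset.mem_insert,
    Finset.mem_singleton, or_assoc]

lemma mem_T1 (h : AD d T v G A) {F : Finset (SV (Option W))} :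
    F ∈ T1 T v G A ↔ (F ∈ T0 T ∧ (em v ∈ F → F ∈ A.image (Finset.image em))) ∨
      (∃ F0 ∈ BB (T0 T) (em v) (A.image (Finset.image em)), rh (em v) (nv v) F0 = F) ∨
      F = insert (em v) (G.image em) ∨ F = insert (nv v) (G.image em) :=
  mem_spl (SD1 h).hAv

lemma opp_ev_ne (v : SV W) : opp (em v) ≠ nv v := by
  rw [opp_em]; exact nv_ne v _

lemma opp_nv_ne (v : SV W) : opp (nv v) ≠ nv v := opp_ne _

lemma opp_ev_G0 (h : AD d T v G A) : opp (em v) ∉ G.image em := by
  rw [opp_em, mem_im]; exact h.ov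

/-- facets of the first splitting at the antipode of `v` -/
lemma T1_opp (h : AD d T v G A) {F : Finset (SV (Option W))} (hF : F ∈ T1 T v G A)
    (hv : opp (em v) ∈ F) : F ∈ T0 T ∧ em v ∉ F := by
  rcases (mem_T1 h).1 hF with h1 | ⟨F0, hF0, rfl⟩ | h1 | h1
  · refine ⟨h1.1, fun h2 => ?_⟩
    exact (T0_sym h).2 F h1.1 _ h2 hv
  · exfalso
    obtain ⟨⟨h2, h3⟩, _⟩ := mem_BB.1 hF0
    rcases Finset.mem_insert.1 hv with h4 | h4
    · exact opp_ev_ne v h4
    · exact (T0_sym h).2 F0 h2 _ h3 (Finset.mem_of_mem_erase h4)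
  · exfalso
    rw [h1] at hv
    rcases Finset.mem_insert.1 hv with h4 | h4
    · exact opp_ne _ h4
    · exact opp_ev_G0 h h4
  · exfalso
    rw [h1] at hv
    rcases Finset.mem_insert.1 hv with h4 | h4
    · exact opp_ev_ne v h4
    · exact opp_ev_G0 h h4

lemma G0_noanti (h : AD d T v G A) {x : SV (Option W)} (hx : x ∈ G.image em) :
    opp x ∉ G.image em := by
  obtain ⟨y, hy, rfl⟩ := Finset.mem_image.1 hx
  rw [opp_em, mem_im]
  intro h1
  exact h.noanti (Finset.mem_insert_of_mem hy) (Finset.mem_insert_of_mem h1)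

lemma SD2 (h : AD d T v G A) :
    SD d (T1 T v G A) (opp (em v)) (opp (nv v)) ((G.image em).image opp)
      ((A.image (Finset.image em)).image (Finset.image opp)) where
  min := spl_min (SD1 h)
  hd := by have := h.hd; omega
  hvv := fun h1 => nv_ne v v (opp_inj h1)
  fresh := by
    intro F hF hn
    rcases (mem_T1 h).1 hF with h1 | ⟨F0, hF0, rfl⟩ | h1 | h1
    · exact (T0_nv h1.1).2 hn
    · obtain ⟨⟨h2, h3⟩, _⟩ := mem_BB.1 hF0
      rcases Finset.mem_insert.1 hn with h4 | h4
      · exact opp_ne _ h4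
      · exact (T0_nv h2).2 (Finset.mem_of_mem_erase h4)
    · rw [h1] at hn
      rcases Finset.mem_insert.1 hn with h4 | h4
      · exact nv_ne' v v h4.symm
      · exact G0_nv.2 h4
    · rw [h1] at hn
      rcases Finset.mem_insert.1 hn with h4 | h4
      · exact opp_ne _ h4
      · exact G0_nv.2 h4
  hG := by
    rw [Finset.card_image_of_injective _ opp_inj, Finset.card_image_of_injective _ em_inj, h.hG]
  hvG := by
    rw [mem_O, opp_opp, mem_im]; exact h.hvG
  hv2G := by
    rw [mem_O, opp_opp]; exact G0_nv.1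
  nf := by
    intro F hF hs
    have key : ∀ F0 ∈ T0 T, ¬ (G.image em).image opp ⊆ F0 := by
      intro F0 hF0 hs0
      have h1 := (T0_sym h).1 F0 hF0
      refine (SD1 h).nf _ h1 ?_
      have h2 := Finset.image_subset_image (f := opp) hs0
      rwa [OO] at h2
    have cap : ∀ w : SV (Option W), ¬ (G.image em).image opp ⊆ insert w (G.image em) := by
      intro w hs0
      have h1 : (G.image em).image opp ⊆ {w} := by
        intro x hx
        rcases Finset.mem_insert.1 (hs0 hx) with h2 | h2
        · exact Finset.mem_singleton.2 h2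
        · exact absurd (mem_O.1 hx) (G0_noanti h h2)
      have h2 := Finset.card_le_card h1
      rw [Finset.card_image_of_injective _ opp_inj, Finset.card_image_of_injective _ em_inj,
        Finset.card_singleton] at h2
      have := h.hG
      have := h.hd
      omega
    rcases (mem_T1 h).1 hF with h1 | ⟨F0, hF0, rfl⟩ | h1 | h1
    · exact key F h1.1 hs
    · obtain ⟨⟨h2, h3⟩, _⟩ := mem_BB.1 hF0
      refine key F0 h2 fun x hx => ?_
      rcases Finset.mem_insert.1 (hs hx) with h4 | h4
      · exfalso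
        rw [h4, mem_O] at hx
        exact G0_nv.2 hx
      · exact Finset.mem_of_mem_erase h4
    · rw [h1] at hs; exact cap _ hs
    · rw [h1] at hs; exact cap _ hs
  hA := by
    intro F hF
    have h1 := mem_OO.1 hF
    have h2 := (SD1 h).hA h1
    have h3 := (SD1 h).hAv _ h1
    have h4 := (T0_sym h).1 _ h2
    rw [OO] at h4
    refine (mem_T1 h).2 (Or.inl ⟨h4, fun h5 => ?_⟩)
    rw [mem_O] at h3
    exact absurd h3 ((T0_sym h).2 F h4 _ h5)
  hAv := by
    intro F hF
    have h1 := mem_OO.1 hF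
    have h3 := (SD1 h).hAv _ h1
    rwa [mem_O] at h3
  hAr := by
    intro r hr hc
    have h1 := (SD1 h).hAr (r.image opp) (by rwa [mem_O])
      (by rw [Finset.card_image_of_injective _ opp_inj, hc])
    have h2 := cn_image opp_inj (A.image (Finset.image em)) (r.image opp)
    rw [OO] at h2
    rw [h2, h1]
    have h3 : insert (opp (em v)) ((G.image em).image opp) =
        (insert (em v) (G.image em)).image opp := by
      rw [Finset.image_insert]
    rw [h3, ← Finset.image_subset_image_iff opp_inj, OO]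

/-- the second splitting -/
def T2 (T : Finset (Finset (SV W))) (v : SV W) (G : Finset (SV W)) (A : Finset (Finset (SV W))) :
    Finset (Finset (SV (Option W))) :=
  spl (T1 T v G A) (opp (em v)) (opp (nv v)) ((G.image em).image opp)
    ((A.image (Finset.image em)).image (Finset.image opp))

/-- half of the facets of the second splitting -/
def PP (T : Finset (Finset (SV W))) (v : SV W) (G : Finset (SV W)) (A : Finset (Finset (SV W)))
    (F : Finset (SV (Option W))) : Prop :=
  (F ∈ T0 T ∧ em v ∉ F ∧ opp (em v) ∉ F) ∨ F ∈ A.image (Finset.image em) ∨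
    (∃ F0 ∈ BB (T0 T) (em v) (A.image (Finset.image em)), rh (em v) (nv v) F0 = F) ∨
    F = insert (em v) (G.image em) ∨ F = insert (nv v) (G.image em)

lemma rh_O (u w : SV (Option W)) (F : Finset (SV (Option W))) :
    rh (opp u) (opp w) (F.image opp) = (rh u w F).image opp := by
  unfold rh
  rw [Finset.image_insert, Finset.image_erase opp_inj]

lemma BB_O (h : AD d T v G A) {F : Finset (SV (Option W))} :
    F ∈ BB (T1 T v G A) (opp (em v)) ((A.image (Finset.image em)).image (Finset.image opp)) ↔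
      F.image opp ∈ BB (T0 T) (em v) (A.image (Finset.image em)) := by
  rw [mem_BB, mem_BB, mem_OO, mem_O]
  constructor
  · rintro ⟨⟨h1, h2⟩, h3⟩
    exact ⟨⟨(T0_sym h).1 _ (T1_opp h h1 h2).1, h2⟩, h3⟩
  · rintro ⟨⟨h1, h2⟩, h3⟩
    have h4 := (T0_sym h).1 _ h1
    rw [OO] at h4
    exact ⟨⟨(mem_T1 h).2 (Or.inl ⟨h4, fun h5 => absurd h2 ((T0_sym h).2 F h4 _ h5)⟩), h2⟩, h3⟩

lemma mem_T2 (h : AD d T v G A) {F : Finset (SV (Option W))} :
    F ∈ T2 T v G A ↔ PP T v G A F ∨ PP T v G A (F.image opp) := by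
  have hm := mem_spl (T := T1 T v G A) (v2 := opp (nv v)) (G := (G.image em).image opp)
    (SD2 h).hAv (F := F)
  have hO1 : insert (opp (em v)) ((G.image em).image opp) =
      (insert (em v) (G.image em)).image opp := by rw [Finset.image_insert]
  have hO2 : insert (opp (nv v)) ((G.image em).image opp) =
      (insert (nv v) (G.image em)).image opp := by rw [Finset.image_insert]
  unfold T2
  rw [hm]
  constructor
  · rintro (⟨h1, h2⟩ | ⟨F0, hF0, h1⟩ | h1 | h1)
    · rcases (mem_T1 h).1 h1 with h3 | h3 | h3 | h3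
      · by_cases h4 : em v ∈ F
        · exact Or.inl (Or.inr (Or.inl (h3.2 h4)))
        · by_cases h5 : opp (em v) ∈ F
          · exact Or.inr (Or.inr (Or.inl (mem_OO.1 (h2 h5))))
          · exact Or.inl (Or.inl ⟨h3.1, h4, h5⟩)
      · exact Or.inl (Or.inr (Or.inr (Or.inl h3)))
      · exact Or.inl (Or.inr (Or.inr (Or.inr (Or.inl h3))))
      · exact Or.inl (Or.inr (Or.inr (Or.inr (Or.inr h3))))
    · refine Or.inr (Or.inr (Or.inr (Or.inl ⟨F0.image opp, (BB_O h).1 hF0, ?_⟩)))
      rw [← h1]
      have := rh_O (em v) (nv v) (F0.image opp)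
      rw [OO] at this
      rw [this, OO]
    · refine Or.inr (Or.inr (Or.inr (Or.inr (Or.inl ?_))))
      rw [h1, hO1, OO]
    · refine Or.inr (Or.inr (Or.inr (Or.inr (Or.inr ?_))))
      rw [h1, hO2, OO]
  · rintro (h1 | h1)
    · rcases h1 with ⟨h1, h2, h3⟩ | h1 | ⟨F0, hF0, h1⟩ | h1 | h1
      · exact Or.inl ⟨(mem_T1 h).2 (Or.inl ⟨h1, fun h4 => absurd h4 h2⟩), fun h4 => absurd h4 h3⟩
      · have h2 := (SD1 h).hA h1
        have h3 := (SD1 h).hAv _ h1
        exact Or.inl ⟨(mem_T1 h).2 (Or.inl ⟨h2, fun _ => h1⟩),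
          fun h4 => absurd h4 ((T0_sym h).2 F h2 _ h3)⟩
      · have h2 : F ∈ T1 T v G A := (mem_T1 h).2 (Or.inr (Or.inl ⟨F0, hF0, h1⟩))
        refine Or.inl ⟨h2, fun h4 => ?_⟩
        exfalso
        rw [← h1] at h4
        obtain ⟨⟨h5, h6⟩, _⟩ := mem_BB.1 hF0
        rcases Finset.mem_insert.1 h4 with h7 | h7
        · exact opp_ev_ne v h7
        · exact (T0_sym h).2 F0 h5 _ h6 (Finset.mem_of_mem_erase h7)
      · have h2 : F ∈ T1 T v G A := (mem_T1 h).2 (Or.inr (Or.inr (Or.inl h1)))
        refine Or.inl ⟨h2, fun h4 => ?_⟩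
        exfalso
        rw [h1] at h4
        rcases Finset.mem_insert.1 h4 with h7 | h7
        · exact opp_ne _ h7
        · exact opp_ev_G0 h h7
      · have h2 : F ∈ T1 T v G A := (mem_T1 h).2 (Or.inr (Or.inr (Or.inr h1)))
        refine Or.inl ⟨h2, fun h4 => ?_⟩
        exfalso
        rw [h1] at h4
        rcases Finset.mem_insert.1 h4 with h7 | h7
        · exact opp_ev_ne v h7
        · exact opp_ev_G0 h h7
    · rcases h1 with ⟨h1, h2, h3⟩ | h1 | ⟨F0, hF0, h1⟩ | h1 | h1
      · have h4 := (T0_sym h).1 _ h1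
        rw [OO] at h4
        rw [mem_O] at h2
        rw [mem_O, opp_opp] at h3
        exact Or.inl ⟨(mem_T1 h).2 (Or.inl ⟨h4, fun h5 => absurd h5 h3⟩), fun h5 => absurd h5 h2⟩
      · have h2 : F ∈ (A.image (Finset.image em)).image (Finset.image opp) := mem_OO.2 h1
        exact Or.inl ⟨(SD2 h).hA h2, fun _ => h2⟩
      · refine Or.inr (Or.inl ⟨F0.image opp, (BB_O h).2 (by rwa [OO]), ?_⟩)
        rw [rh_O, h1, OO]
      · refine Or.inr (Or.inr (Or.inl ?_))
        rw [hO1, ← h1, OO]
      · refine Or.inr (Or.inr (Or.inr ?_))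
        rw [hO2, ← h1, OO]

lemma PP_noanti (h : AD d T v G A) {F : Finset (SV (Option W))} (hF : PP T v G A F) :
    ∀ x ∈ F, opp x ∉ F := by
  intro x hx hx'
  rcases hF with ⟨h1, -, -⟩ | h1 | ⟨F0, hF0, h1⟩ | h1 | h1
  · exact (T0_sym h).2 F h1 x hx hx'
  · exact (T0_sym h).2 F ((SD1 h).hA h1) x hx hx'
  · obtain ⟨⟨h5, h6⟩, _⟩ := mem_BB.1 hF0
    rw [← h1] at hx hx'
    rcases Finset.mem_insert.1 hx with h2 | h2
    · rcases Finset.mem_insert.1 hx' with h3 | h3
      · rw [h2] at h3; exact opp_ne _ h3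
      · rw [h2] at h3; exact (T0_nv h5).2 (Finset.mem_of_mem_erase h3)
    · rcases Finset.mem_insert.1 hx' with h3 | h3
      · have h4 : x = opp (nv v) := by rw [← h3, opp_opp]
        rw [h4] at h2
        exact (T0_nv h5).2 (Finset.mem_of_mem_erase h2)
      · exact (T0_sym h).2 F0 h5 x (Finset.mem_of_mem_erase h2) (Finset.mem_of_mem_erase h3)
  · rw [h1] at hx hx'
    rcases Finset.mem_insert.1 hx with h2 | h2
    · rcases Finset.mem_insert.1 hx' with h3 | h3
      · rw [h2] at h3; exact opp_ne _ h3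
      · rw [h2] at h3; exact opp_ev_G0 h h3
    · rcases Finset.mem_insert.1 hx' with h3 | h3
      · have h4 : x = opp (em v) := by rw [← h3, opp_opp]
        rw [h4] at h2
        exact opp_ev_G0 h h2
      · exact G0_noanti h h2 h3
  · rw [h1] at hx hx'
    rcases Finset.mem_insert.1 hx with h2 | h2
    · rcases Finset.mem_insert.1 hx' with h3 | h3
      · rw [h2] at h3; exact opp_ne _ h3
      · rw [h2] at h3; exact G0_nv.2 h3
    · rcases Finset.mem_insert.1 hx' with h3 | h3
      · have h4 : x = opp (nv v) := by rw [← h3, opp_opp]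
        rw [h4] at h2
        exact G0_nv.2 h2
      · exact G0_noanti h h2 h3

lemma T2_sym (h : AD d T v G A) : Sym (T2 T v G A) := by
  constructor
  · intro F hF
    rw [mem_T2 h] at hF ⊢
    rw [OO]
    exact hF.symm
  · intro F hF x hx hx'
    rcases (mem_T2 h).1 hF with h1 | h1
    · exact PP_noanti h h1 x hx hx'
    · refine PP_noanti h h1 x ?_ ?_
      · rw [mem_O]; exact hx'
      · rw [mem_O, opp_opp]; exact hx

/-- the projection -/
def pr (v : SV W) (x : SV (Option W)) : SV W := (x.1.getD v.1, x.2)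

lemma pr_em (v x : SV W) : pr v (em x) = x := rfl

lemma pr_nv (v : SV W) : pr v (nv v) = v := rfl

lemma pr_opp (v : SV W) (x : SV (Option W)) : pr v (opp x) = opp (pr v x) := rfl

/-- facets at `em v` -/
lemma nb1 (h : AD d T v G A) {F : Finset (SV (Option W))} (hF : F ∈ T2 T v G A)
    (hv : em v ∈ F) : (∃ F0 ∈ A, F = F0.image em) ∨ F = insert (em v) (G.image em) := by
  rcases (mem_T2 h).1 hF with h1 | h1
  · rcases h1 with ⟨h1, h2, -⟩ | h1 | ⟨F0, hF0, h1⟩ | h1 | h1
    · exact absurd hv h2
    · obtain ⟨F0, hF0, h2⟩ := Finset.mem_image.1 h1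
      exact Or.inl ⟨F0, hF0, h2.symm⟩
    · rw [← h1] at hv
      exact absurd hv (rh_not_mem (nv_ne v v) F0)
    · exact Or.inr h1
    · rw [h1] at hv
      rcases Finset.mem_insert.1 hv with h2 | h2
      · exact absurd h2 (nv_ne v v)
      · exact absurd h2 (SD1 h).hvG
  · exfalso
    have hv' : opp (em v) ∈ F.image opp := by rw [mem_O, opp_opp]; exact hv
    rcases h1 with ⟨h1, -, h2⟩ | h1 | ⟨F0, hF0, h1⟩ | h1 | h1
    · exact h2 hv'
    · exact (T0_sym h).2 _ ((SD1 h).hA h1) _ ((SD1 h).hAv _ h1) hv'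
    · rw [← h1] at hv'
      obtain ⟨⟨h5, h6⟩, _⟩ := mem_BB.1 hF0
      rcases Finset.mem_insert.1 hv' with h2 | h2
      · exact opp_ev_ne v h2
      · exact (T0_sym h).2 _ h5 _ h6 (Finset.mem_of_mem_erase h2)
    · rw [h1] at hv'
      rcases Finset.mem_insert.1 hv' with h2 | h2
      · exact opp_ne _ h2
      · exact opp_ev_G0 h h2
    · rw [h1] at hv'
      rcases Finset.mem_insert.1 hv' with h2 | h2
      · exact opp_ev_ne v h2
      · exact opp_ev_G0 h h2

/-- facets at `nv v` -/
lemma nb2 (h : AD d T v G A) {F : Finset (SV (Option W))} (hF : F ∈ T2 T v G A)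
    (hv : nv v ∈ F) : (∃ F0 ∈ T, v ∈ F0 ∧ F0 ∉ A ∧ F = rh (em v) (nv v) (F0.image em)) ∨
      F = insert (nv v) (G.image em) := by
  rcases (mem_T2 h).1 hF with h1 | h1
  · rcases h1 with ⟨h1, -, -⟩ | h1 | ⟨F0, hF0, h1⟩ | h1 | h1
    · exact absurd hv (T0_nv h1).1
    · exact absurd hv (T0_nv ((SD1 h).hA h1)).1
    · obtain ⟨⟨h5, h6⟩, h7⟩ := mem_BB.1 hF0
      obtain ⟨F1, hF1, rfl⟩ := Finset.mem_image.1 h5
      refine Or.inl ⟨F1, hF1, mem_im.1 h6, fun h8 => h7 (Finset.mem_image_of_mem _ h8), h1.symm⟩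
    · rw [h1] at hv
      rcases Finset.mem_insert.1 hv with h2 | h2
      · exact absurd h2.symm (nv_ne v v)
      · exact absurd h2 G0_nv.1
    · exact Or.inr h1
  · exfalso
    have hv' : opp (nv v) ∈ F.image opp := by rw [mem_O, opp_opp]; exact hv
    rcases h1 with ⟨h1, -, h2⟩ | h1 | ⟨F0, hF0, h1⟩ | h1 | h1
    · exact (T0_nv h1).2 hv'
    · exact (T0_nv ((SD1 h).hA h1)).2 hv'
    · rw [← h1] at hv'
      obtain ⟨⟨h5, h6⟩, _⟩ := mem_BB.1 hF0
      rcases Finset.mem_insert.1 hv' with h2 | h2
      · exact opp_ne _ h2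
      · exact (T0_nv h5).2 (Finset.mem_of_mem_erase h2)
    · rw [h1] at hv'
      rcases Finset.mem_insert.1 hv' with h2 | h2
      · exact nv_ne' v v h2.symm
      · exact G0_nv.2 h2
    · rw [h1] at hv'
      rcases Finset.mem_insert.1 hv' with h2 | h2
      · exact opp_ne _ h2
      · exact G0_nv.2 h2

/-- projections of edges -/
lemma PP_pr (h : AD d T v G A) {F : Finset (SV (Option W))} (hF : PP T v G A F)
    {p q : SV (Option W)} (hp : p ∈ F) (hq : q ∈ F) (hpq : p ≠ q) :
    pr v p ≠ pr v q ∧ ∃ H ∈ T, pr v p ∈ H ∧ pr v q ∈ H := by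
  have easy : ∀ H ∈ T0 T, p ∈ H → q ∈ H →
      pr v p ≠ pr v q ∧ ∃ H ∈ T, pr v p ∈ H ∧ pr v q ∈ H := by
    intro H hH hp hq
    obtain ⟨H0, hH0, rfl⟩ := Finset.mem_image.1 hH
    obtain ⟨x, hx, rfl⟩ := Finset.mem_image.1 hp
    obtain ⟨y, hy, rfl⟩ := Finset.mem_image.1 hq
    exact ⟨fun h1 => hpq (congrArg em h1), H0, hH0, hx, hy⟩
  rcases hF with ⟨h1, -, -⟩ | h1 | ⟨F0, hF0, h1⟩ | h1 | h1
  · exact easy F h1 hp hq
  · exact easy F ((SD1 h).hA h1) hp hq
  · obtain ⟨⟨h5, h6⟩, h7⟩ := mem_BB.1 hF0
    obtain ⟨F1, hF1, rfl⟩ := Finset.mem_image.1 h5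
    have hvF := mem_im.1 h6
    rw [← h1] at hp hq
    rcases Finset.mem_insert.1 hp with h2 | h2
    · rcases Finset.mem_insert.1 hq with h3 | h3
      · exact absurd (h2.trans h3.symm) hpq
      · obtain ⟨h8, h9⟩ := Finset.mem_erase.1 h3
        obtain ⟨y, hy, rfl⟩ := Finset.mem_image.1 h9
        rw [h2]
        refine ⟨fun h10 => h8 ?_, F1, hF1, hvF, hy⟩
        rw [pr_nv, pr_em] at h10
        rw [h10]
    · obtain ⟨h8, h9⟩ := Finset.mem_erase.1 h2
      obtain ⟨x, hx, rfl⟩ := Finset.mem_image.1 h9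
      rcases Finset.mem_insert.1 hq with h3 | h3
      · rw [h3]
        refine ⟨fun h10 => h8 ?_, F1, hF1, hx, hvF⟩
        rw [pr_nv, pr_em] at h10
        rw [h10]
      · obtain ⟨h8', h9'⟩ := Finset.mem_erase.1 h3
        obtain ⟨y, hy, rfl⟩ := Finset.mem_image.1 h9'
        exact ⟨fun h1 => hpq (congrArg em h1), F1, hF1, hx, hy⟩
  · have h2 : insert (em v) (G.image em) = (insert v G).image em := by
      rw [Finset.image_insert]
    rw [h1, h2] at hp hq
    obtain ⟨x, hx, rfl⟩ := Finset.mem_image.1 hp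
    obtain ⟨y, hy, rfl⟩ := Finset.mem_image.1 hq
    obtain ⟨H, hH, h3, h4⟩ := h.pair hx hy
    exact ⟨fun h1 => hpq (congrArg em h1), H, hH, h3, h4⟩
  · rw [h1] at hp hq
    have key : ∀ p : SV (Option W), p ∈ insert (nv v) (G.image em) → pr v p ∈ insert v G := by
      intro p hp
      rcases Finset.mem_insert.1 hp with h2 | h2
      · rw [h2, pr_nv]; exact Finset.mem_insert_self _ _
      · obtain ⟨x, hx, rfl⟩ := Finset.mem_image.1 h2
        exact Finset.mem_insert_of_mem hx
    obtain ⟨H, hH, h3, h4⟩ := h.pair (key p hp) (key q hq)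
    refine ⟨?_, H, hH, h3, h4⟩
    rcases Finset.mem_insert.1 hp with h2 | h2
    · rcases Finset.mem_insert.1 hq with h5 | h5
      · exact absurd (h2.trans h5.symm) hpq
      · obtain ⟨y, hy, rfl⟩ := Finset.mem_image.1 h5
        rw [h2, pr_nv, pr_em]
        exact fun h6 => h.hvG (h6 ▸ hy)
    · obtain ⟨x, hx, rfl⟩ := Finset.mem_image.1 h2
      rcases Finset.mem_insert.1 hq with h5 | h5
      · rw [h5, pr_nv, pr_em]
        exact fun h6 => h.hvG (h6 ▸ hx)
      · obtain ⟨y, hy, rfl⟩ := Finset.mem_image.1 h5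
        exact fun h1 => hpq (congrArg em h1)

lemma T2_pr (h : AD d T v G A) {F : Finset (SV (Option W))} (hF : F ∈ T2 T v G A)
    {p q : SV (Option W)} (hp : p ∈ F) (hq : q ∈ F) (hpq : p ≠ q) :
    pr v p ≠ pr v q ∧ ∃ H ∈ T, pr v p ∈ H ∧ pr v q ∈ H := by
  rcases (mem_T2 h).1 hF with h1 | h1
  · exact PP_pr h h1 hp hq hpq
  · have hp' : opp p ∈ F.image opp := by rw [mem_O, opp_opp]; exact hp
    have hq' : opp q ∈ F.image opp := by rw [mem_O, opp_opp]; exact hq
    obtain ⟨h2, H, hH, h3, h4⟩ := PP_pr h h1 hp' hq' (fun h5 => hpq (opp_inj h5))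
    rw [pr_opp, pr_opp] at h2
    rw [pr_opp] at h3 h4
    refine ⟨fun h5 => h2 (congrArg opp h5), H.image opp, h.sph.2.1 H hH, ?_, ?_⟩
    · rw [mem_O]; exact h3
    · rw [mem_O]; exact h4

lemma mem_eg {V : Type} [Fintype V] [DecidableEq V] {C : Finset (Finset V)} {ε : Finset V} :
    ε ∈ eg C ↔ ε.card = 2 ∧ ∃ F ∈ C, ε ⊆ F := by
  unfold eg
  rw [Finset.mem_filter]
  exact ⟨fun h => h.2, fun h => ⟨Finset.mem_univ _, h⟩⟩

lemma mem_vs {V : Type} [Fintype V] [DecidableEq V] {C : Finset (Finset V)} {x : V} :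
    x ∈ vs C ↔ ∃ F ∈ C, x ∈ F := by
  unfold vs
  rw [Finset.mem_biUnion]
  rfl

lemma inj1 (h : AD d T v G A) {ε1 ε2 : Finset (SV (Option W))} (h1 : ε1 ∈ eg (T2 T v G A))
    (h2 : ε2 ∈ eg (T2 T v G A)) (hn : nv v ∈ ε1)
    (hx : ∀ x ∈ G, ε1 ≠ {nv v, em x}) (he : ε1.image (pr v) = ε2.image (pr v)) : ε1 = ε2 := by
  obtain ⟨hc1, F1, hF1, hs1⟩ := mem_eg.1 h1
  obtain ⟨hc2, F2, hF2, hs2⟩ := mem_eg.1 h2
  obtain ⟨q, hqn, rfl⟩ : ∃ q, q ≠ nv v ∧ ε1 = {nv v, q} := by
    obtain ⟨a, b, hab, rfl⟩ := Finset.card_eq_two.1 hc1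
    rw [Finset.mem_insert, Finset.mem_singleton] at hn
    rcases hn with h3 | h3
    · exact ⟨b, fun h4 => hab (h3.symm.trans h4.symm), by rw [h3]⟩
    · exact ⟨a, fun h4 => hab (h4.trans h3), by rw [h3, Finset.pair_comm]⟩
  have hnF : nv v ∈ F1 := hs1 (Finset.mem_insert_self _ _)
  have hqF : q ∈ F1 := hs1 (Finset.mem_insert_of_mem (Finset.mem_singleton_self _))
  rcases nb2 h hF1 hnF with ⟨F0, hF0, hvF0, hF0A, rfl⟩ | h3
  swap
  · exfalso
    rw [h3] at hqF
    rcases Finset.mem_insert.1 hqF with h4 | h4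
    · exact hqn h4
    · obtain ⟨x, hxG, rfl⟩ := Finset.mem_image.1 h4
      exact hx x hxG rfl
  obtain ⟨x, hxF0, rfl, hxv⟩ : ∃ x ∈ F0, em x = q ∧ x ≠ v := by
    rcases Finset.mem_insert.1 hqF with h4 | h4
    · exact absurd h4 hqn
    · obtain ⟨h5, h6⟩ := Finset.mem_erase.1 h4
      obtain ⟨x, hxF, rfl⟩ := Finset.mem_image.1 h6
      exact ⟨x, hxF, rfl, fun h7 => h5 (by rw [h7])⟩
  have hxG : x ∉ G := fun h4 => hx x h4 rfl
  have hxv1 : x.1 ≠ v.1 := by
    intro h4
    by_cases h5 : x.2 = v.2
    · exact hxv (Prod.ext h4 h5)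
    · have h6 : x = opp v := by
        refine Prod.ext h4 ?_
        unfold opp
        revert h5
        cases x.2 <;> cases v.2 <;> simp
      exact h.sph.2.2 F0 hF0 v hvF0 (h6 ▸ hxF0)
  have himg : ({nv v, em x} : Finset (SV (Option W))).image (pr v) = {v, x} := by
    rw [Finset.image_insert, Finset.image_singleton, pr_nv, pr_em]
  rw [himg] at he
  obtain ⟨a, b, hab, rfl⟩ := Finset.card_eq_two.1 hc2
  have key : ∀ a b : SV (Option W), a ∈ F2 → b ∈ F2 → pr v a = v → pr v b = x →
      a = nv v ∧ b = em x := by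
    intro a b ha hb h4 h5
    have hb' : b = em x := by
      rcases hb1 : b.1 with _ | w
      · exfalso
        have := congrArg Prod.fst h5
        unfold pr at this
        rw [hb1] at this
        exact hxv1 this.symm
      · have h6 := congrArg Prod.fst h5
        have h7 := congrArg Prod.snd h5
        unfold pr at h6 h7
        rw [hb1] at h6
        refine Prod.ext ?_ h7
        rw [hb1]
        exact congrArg some h6
    refine ⟨?_, hb'⟩
    rcases ha1 : a.1 with _ | w
    · have h7 := congrArg Prod.snd h4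
      exact Prod.ext ha1 h7
    · exfalso
      have h6 := congrArg Prod.fst h4
      have h7 := congrArg Prod.snd h4
      unfold pr at h6 h7
      rw [ha1] at h6
      have ha' : a = em v := by
        refine Prod.ext ?_ h7
        rw [ha1]
        exact congrArg some h6
      rw [ha'] at ha
      rw [hb'] at hb
      rcases nb1 h hF2 ha with ⟨H, hH, rfl⟩ | h8
      · exact hxG (h.common hxv hH (mem_im.1 hb) hF0 hvF0 hF0A hxF0)
      · rw [h8] at hb
        rcases Finset.mem_insert.1 hb with h9 | h9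
        · exact hxv (em_inj h9)
        · exact hxG (mem_im.1 h9)
  have haF : a ∈ F2 := hs2 (Finset.mem_insert_self _ _)
  have hbF : b ∈ F2 := hs2 (Finset.mem_insert_of_mem (Finset.mem_singleton_self _))
  rw [Finset.image_insert, Finset.image_singleton] at he
  have hv' : v ∈ ({pr v a, pr v b} : Finset (SV W)) := he ▸ Finset.mem_insert_self _ _
  have hx' : x ∈ ({pr v a, pr v b} : Finset (SV W)) :=
    he ▸ Finset.mem_insert_of_mem (Finset.mem_singleton_self _)
  rw [Finset.mem_insert, Finset.mem_singleton] at hv' hx'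
  rcases hv' with h4 | h4
  · have h5 : pr v b = x := by
      rcases hx' with h5 | h5
      · exact absurd (h5.trans h4.symm) hxv
      · exact h5.symm
    obtain ⟨h6, h7⟩ := key a b haF hbF h4.symm h5
    rw [h6, h7]
  · have h5 : pr v a = x := by
      rcases hx' with h5 | h5
      · exact h5.symm
      · exact absurd (h5.trans h4.symm) hxv
    obtain ⟨h6, h7⟩ := key b a hbF haF h4.symm h5
    rw [h6, h7, Finset.pair_comm]

/-- the possible double edges -/
def X1 (v : SV W) (G : Finset (SV W)) : Finset (Finset (SV (Option W))) :=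
  G.image (fun x => ({nv v, em x} : Finset (SV (Option W))))

lemma eg_O (h : AD d T v G A) {ε : Finset (SV (Option W))} (hε : ε ∈ eg (T2 T v G A)) :
    ε.image opp ∈ eg (T2 T v G A) := by
  obtain ⟨hc, F, hF, hs⟩ := mem_eg.1 hε
  exact mem_eg.2 ⟨by rw [Finset.card_image_of_injective _ opp_inj, hc], F.image opp,
    (T2_sym h).1 F hF, Finset.image_subset_image hs⟩

lemma pr_O (ε : Finset (SV (Option W))) :
    (ε.image opp).image (pr v) = (ε.image (pr v)).image opp := by
  rw [Finset.image_image, Finset.image_image]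
  rfl

lemma eg_le (h : AD d T v G A) : (eg (T2 T v G A)).card ≤ (eg T).card + 2 * (d - 1) := by
  set X := X1 v G ∪ (X1 v G).image (Finset.image opp) with hX
  have hXc : X.card ≤ 2 * (d - 1) := by
    have h1 : (X1 v G).card ≤ G.card := Finset.card_image_le
    have h2 : ((X1 v G).image (Finset.image opp)).card ≤ (X1 v G).card := Finset.card_image_le
    have h3 := Finset.card_union_le (X1 v G) ((X1 v G).image (Finset.image opp))
    have := h.hG
    rw [hX]
    omega
  have h1 : (eg (T2 T v G A) \ X).card ≤ (eg T).card := by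
    apply Finset.card_le_card_of_injOn (fun ε => ε.image (pr v))
    · intro ε hε
      have hε' := (Finset.mem_sdiff.1 (Finset.mem_coe.1 hε)).1
      obtain ⟨hc, F, hF, hs⟩ := mem_eg.1 hε'
      obtain ⟨p, q, hpq, rfl⟩ := Finset.card_eq_two.1 hc
      obtain ⟨h2, H, hH, h3, h4⟩ := T2_pr h hF (hs (Finset.mem_insert_self _ _))
        (hs (Finset.mem_insert_of_mem (Finset.mem_singleton_self _))) hpq
      refine Finset.mem_coe.2 (mem_eg.2 ⟨?_, H, hH, ?_⟩)
      · show (Finset.image (pr v) {p, q}).card = 2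
        rw [Finset.image_insert, Finset.image_singleton, Finset.card_pair h2]
      · show Finset.image (pr v) {p, q} ⊆ H
        rw [Finset.image_insert, Finset.image_singleton]
        intro y hy
        rw [Finset.mem_insert, Finset.mem_singleton] at hy
        rcases hy with rfl | rfl
        · exact h3
        · exact h4
    · intro ε1 hε1 ε2 hε2 he
      simp only at he
      obtain ⟨ha1, hb1⟩ := Finset.mem_sdiff.1 (Finset.mem_coe.1 hε1)
      obtain ⟨ha2, hb2⟩ := Finset.mem_sdiff.1 (Finset.mem_coe.1 hε2)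
      have hX1 : ∀ ε : Finset (SV (Option W)), ε ∉ X → ∀ x ∈ G, ε ≠ {nv v, em x} := by
        intro ε hε x hx h3
        exact hε (Finset.mem_union_left _ (Finset.mem_image.2 ⟨x, hx, h3.symm⟩))
      have hX2 : ∀ ε : Finset (SV (Option W)), ε ∉ X → ∀ x ∈ G,
          ε.image opp ≠ {nv v, em x} := by
        intro ε hε x hx h3
        refine hε (Finset.mem_union_right _ (mem_OO.2 ?_))
        exact Finset.mem_image.2 ⟨x, hx, h3.symm⟩
      by_cases hn1 : nv v ∈ ε1
      · exact inj1 h ha1 ha2 hn1 (hX1 ε1 hb1) he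
      by_cases hn2 : nv v ∈ ε2
      · exact (inj1 h ha2 ha1 hn2 (hX1 ε2 hb2) he.symm).symm
      by_cases hm1 : opp (nv v) ∈ ε1
      · have h3 := inj1 h (eg_O h ha1) (eg_O h ha2) (by rw [mem_O]; exact hm1) (hX2 ε1 hb1)
          (by rw [pr_O, pr_O, he])
        exact Finset.image_injective opp_inj h3
      by_cases hm2 : opp (nv v) ∈ ε2
      · have h3 := inj1 h (eg_O h ha2) (eg_O h ha1) (by rw [mem_O]; exact hm2) (hX2 ε2 hb2)
          (by rw [pr_O, pr_O, he])
        exact (Finset.image_injective opp_inj h3).symm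
      have key : ∀ ε : Finset (SV (Option W)), nv v ∉ ε → opp (nv v) ∉ ε → ε ∈ eg (T2 T v G A) →
          (ε.image (pr v)).image em = ε := by
        intro ε h3 h4 h5
        obtain ⟨_, F, hF, hs⟩ := mem_eg.1 h5
        rw [Finset.image_image]
        have h6 : ∀ x ∈ ε, (em ∘ pr v) x = x := by
          intro x hx
          rcases hx1 : x.1 with _ | w
          · exfalso
            by_cases h7 : x.2 = v.2
            · exact h3 ((Prod.ext hx1 h7 : x = nv v) ▸ hx)
            · have h8 : x = opp (nv v) := by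
                refine Prod.ext hx1 ?_
                show x.2 = !v.2
                revert h7
                cases x.2 <;> cases v.2 <;> simp
              exact h4 (h8 ▸ hx)
          · show em (pr v x) = x
            unfold em pr
            rw [hx1]
            exact Prod.ext hx1.symm rfl
        calc ε.image (em ∘ pr v) = ε.image id := Finset.image_congr (fun x hx => h6 x hx)
          _ = ε := Finset.image_id
      rw [← key ε1 hn1 hm1 ha1, he, key ε2 hn2 hm2 ha2]
  have h2 := Finset.card_le_card_sdiff_add_card (s := eg (T2 T v G A)) (t := X)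
  omega

lemma vs_ge (h : AD d T v G A) : (vs T).card + 2 ≤ (vs (T2 T v G A)).card := by
  have hsub : insert (nv v) (insert (opp (nv v)) ((vs T).image em)) ⊆ vs (T2 T v G A) := by
    have hg1 : insert (em v) (G.image em) ∈ T2 T v G A :=
      (mem_T2 h).2 (Or.inl (Or.inr (Or.inr (Or.inr (Or.inl rfl)))))
    have hg2 : insert (nv v) (G.image em) ∈ T2 T v G A :=
      (mem_T2 h).2 (Or.inl (Or.inr (Or.inr (Or.inr (Or.inr rfl)))))
    have hO : ∀ x, x ∈ vs (T2 T v G A) → opp x ∈ vs (T2 T v G A) := by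
      intro x hx
      obtain ⟨F, hF, hxF⟩ := mem_vs.1 hx
      exact mem_vs.2 ⟨F.image opp, (T2_sym h).1 F hF, by rw [mem_O, opp_opp]; exact hxF⟩
    have h1 : nv v ∈ vs (T2 T v G A) := mem_vs.2 ⟨_, hg2, Finset.mem_insert_self _ _⟩
    have h2 : em v ∈ vs (T2 T v G A) := mem_vs.2 ⟨_, hg1, Finset.mem_insert_self _ _⟩
    have h3 : ∀ x F, F ∈ T → v ∈ F → x ∈ F → x ≠ v → em x ∈ vs (T2 T v G A) := by
      intro x F hF hvF hxF hxv
      by_cases hA : F ∈ A
      · exact mem_vs.2 ⟨F.image em, (mem_T2 h).2 (Or.inl (Or.inr (Or.inl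
          (Finset.mem_image_of_mem _ hA)))), mem_im.2 hxF⟩
      · refine mem_vs.2 ⟨rh (em v) (nv v) (F.image em), (mem_T2 h).2 (Or.inl (Or.inr (Or.inr
          (Or.inl ⟨F.image em, mem_BB.2 ⟨⟨Finset.mem_image_of_mem _ hF, mem_im.2 hvF⟩, ?_⟩,
            rfl⟩)))), ?_⟩
        · intro h4
          obtain ⟨F', hF', h5⟩ := Finset.mem_image.1 h4
          exact hA ((Finset.image_injective em_inj h5) ▸ hF')
        · exact Finset.mem_insert_of_mem (Finset.mem_erase.2
            ⟨fun h4 => hxv (em_inj h4), mem_im.2 hxF⟩)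
    intro x hx
    rw [Finset.mem_insert, Finset.mem_insert] at hx
    rcases hx with rfl | rfl | hx
    · exact h1
    · exact hO _ h1
    · obtain ⟨y, hy, rfl⟩ := Finset.mem_image.1 hx
      obtain ⟨F, hF, hyF⟩ := mem_vs.1 hy
      by_cases hyv : y = v
      · rw [hyv]; exact h2
      by_cases hyv' : y = opp v
      · rw [hyv', ← opp_em]; exact hO _ h2
      by_cases hvF : v ∈ F
      · exact h3 y F hF hvF hyF hyv
      by_cases hvF' : opp v ∈ F
      · have h4 := h3 (opp y) (F.image opp) (h.sph.2.1 F hF) (by rw [mem_O]; exact hvF')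
          (by rw [mem_O, opp_opp]; exact hyF) (fun h5 => hyv' (by rw [← h5, opp_opp]))
        have h5 := hO _ h4
        rwa [opp_em, opp_opp] at h5
      · refine mem_vs.2 ⟨F.image em, (mem_T2 h).2 (Or.inl (Or.inl
          ⟨Finset.mem_image_of_mem _ hF, ?_, ?_⟩)), mem_im.2 hyF⟩
        · rw [mem_im]; exact hvF
        · rw [opp_em, mem_im]; exact hvF'
  have hc := Finset.card_le_card hsub
  rw [Finset.card_insert_of_notMem, Finset.card_insert_of_notMem,
    Finset.card_image_of_injective _ em_inj] at hc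
  · exact hc
  · intro h1
    obtain ⟨y, _, hy⟩ := Finset.mem_image.1 h1
    exact nv_ne' v y hy
  · intro h1
    rcases Finset.mem_insert.1 h1 with h2 | h2
    · exact opp_ne _ h2.symm
    · obtain ⟨y, _, hy⟩ := Finset.mem_image.1 h2
      exact nv_ne v y hy

end app

end C2

open C2 in
theorem t_2A (hLB : S_LB) : S_2A := by
  intro W _ _ d hd T hT v G hvG hG hf hn hnf
  obtain ⟨A, hA, hAr⟩ := hT.1.fill {v} (insert v G) (by simp)
    (Finset.singleton_subset_iff.2 (Finset.mem_insert_self _ _))
    (by rw [Finset.card_insert_of_notMem hvG, hG]) (by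
      intro r hr hvr hc
      have hvr' : v ∈ r := hvr (Finset.mem_singleton_self v)
      have h1 : (r.erase v).card < G.card := by
        rw [Finset.card_erase_of_mem hvr']
        have : 0 < r.card := Finset.card_pos.2 ⟨v, hvr'⟩
        omega
      obtain ⟨y, hy, hyr⟩ := Finset.exists_mem_notMem_of_card_lt_card h1
      obtain ⟨F, hF, hs⟩ := hf y hy
      refine ⟨F, hF, fun x hx => hs ?_⟩
      by_cases hxv : x = v
      · exact Finset.mem_insert.2 (Or.inl hxv)
      · refine Finset.mem_insert_of_mem (Finset.mem_erase.2 ⟨fun h2 => hyr ?_, ?_⟩)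
        · rw [← h2]; exact Finset.mem_erase.2 ⟨hxv, hx⟩
        · rcases Finset.mem_insert.1 (hr hx) with h2 | h2
          · exact absurd h2 hxv
          · exact h2)
  have h : AD d T v G A := ⟨hd, hT, hvG, hG, hf, hnf, hA, by
    intro r hvr hc
    have := hAr r (Finset.singleton_subset_iff.2 hvr) hc
    rwa [cn_eq, Nat.odd_iff] at this⟩
  have h1 := hLB (Option W) d (by omega) (T2 T v G A) (spl_min (SD2 h)) (T2_sym h)
  have h2 := eg_le h
  have h3 := vs_ge h
  have h4 : d * ((vs T).card + 2) ≤ d * (vs (T2 T v G A)).card := Nat.mul_le_mul_left d h3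
  have h5 : d * ((vs T).card + 2) = d * (vs T).card + 2 * d := by ring
  omega

end Pool.Agent.N525.CS
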