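import Pool.Agent.N525.CS.Stm

set_option autoImplicit false
set_option linter.unusedSectionVars false

/-! Contraction of an edge and of its antipode. -/

namespace Pool.Agent.N525.CS

open Pool.Agent.N525.VR

section gen
variable {V : Type} [Fintype V] [DecidableEq V]

/-- the link condition -/
def C3_LC (T : Finset (Finset V)) (u v : V) : Prop :=
  ∀ τ : Finset V, u ∈ τ → v ∈ τ → face T (τ.erase u) → face T (τ.erase v) → face T τ

/-- a neighbouring facet -/
theorem C3_nbf {d : ℕ} {T : Finset (Finset V)} (hT : IsCycle d T) {F : Finset V} (hF : F ∈ T)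
    {a : V} (ha : a ∈ F) : ∃ F' ∈ T, F.erase a ⊆ F' ∧ a ∉ F' := by
  have hc : (F.erase a).card + 1 = d := by
    rw [Finset.card_erase_of_mem ha, ← hT.1 F hF]
    have : 0 < F.card := Finset.card_pos.mpr ⟨a, ha⟩
    omega
  have hev := hT.2 (F.erase a) hc
  have hFm : F ∈ T.filter (fun G => F.erase a ⊆ G) := by
    simp [hF, Finset.erase_subset]
  have h2 : 1 < (T.filter (fun G => F.erase a ⊆ G)).card := by
    have h1 : 0 < (T.filter (fun G => F.erase a ⊆ G)).card := Finset.card_pos.mpr ⟨F, hFm⟩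
    rcases hev with ⟨k, hk⟩
    omega
  obtain ⟨F', hF', hne⟩ := Finset.exists_mem_ne h2 F
  rw [Finset.mem_filter] at hF'
  refine ⟨F', hF'.1, hF'.2, fun hmem => hne ?_⟩
  have hsub : F ⊆ F' := by
    intro y hy
    by_cases h : y = a
    · rw [h]; exact hmem
    · exact hF'.2 (Finset.mem_erase.mpr ⟨h, hy⟩)
  exact (Finset.eq_of_subset_of_card_le hsub (by rw [hT.1 F hF, hT.1 F' hF'.1])).symm

theorem C3_inj {d : ℕ} {T : Finset (Finset V)} (hT : ∀ F ∈ T, F.card = d) {u v : V}
    (huv : u ≠ v) (hl : C3_LC T u v) : Set.InjOn (con u v) (nb T u v : Set (Finset V)) := by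
  have key : ∀ F1 ∈ T, ∀ F2 ∈ T, ¬ (u ∈ F1 ∧ v ∈ F1) → v ∈ F1 → v ∉ F2 →
      insert u (F1.erase v) = F2 → False := by
    intro F1 h1 F2 h2 h3 h4 h5 h6
    have hu : u ∉ F1 := fun h => h3 ⟨h, h4⟩
    have h7 : face T (insert u F1) := by
      apply hl
      · exact Finset.mem_insert_self _ _
      · exact Finset.mem_insert_of_mem h4
      · rw [Finset.erase_insert hu]; exact ⟨F1, h1, subset_rfl⟩
      · rw [Finset.erase_insert_of_ne huv, h6]; exact ⟨F2, h2, subset_rfl⟩
    obtain ⟨G, hG, hsub⟩ := h7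
    have := Finset.card_le_card hsub
    rw [Finset.card_insert_of_notMem hu, hT G hG, hT F1 h1] at this
    omega
  intro F1 h1 F2 h2 h
  simp only [nb, Finset.coe_filter, Set.mem_ofPred_eq] at h1 h2
  unfold con at h
  by_cases a1 : v ∈ F1 <;> by_cases a2 : v ∈ F2
  · rw [if_pos a1, if_pos a2] at h
    have u1 : u ∉ F1.erase v := fun h' => h1.2 ⟨Finset.mem_of_mem_erase h', a1⟩
    have u2 : u ∉ F2.erase v := fun h' => h2.2 ⟨Finset.mem_of_mem_erase h', a2⟩
    have : F1.erase v = F2.erase v := by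
      rw [← Finset.erase_insert u1, ← Finset.erase_insert u2, h]
    rw [← Finset.insert_erase a1, ← Finset.insert_erase a2, this]
  · rw [if_pos a1, if_neg a2] at h
    exact (key F1 h1.1 F2 h2.1 h1.2 a1 a2 h).elim
  · rw [if_neg a1, if_pos a2] at h
    exact (key F2 h2.1 F1 h1.1 h2.2 a2 a1 h.symm).elim
  · rw [if_neg a1, if_neg a2] at h
    exact h

theorem C3_img {T : Finset (Finset V)} {u v : V}
    (hi : Set.InjOn (con u v) (nb T u v : Set (Finset V))) :
    contr T u v = (nb T u v).image (con u v) := by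
  ext G
  simp only [contr, Finset.mem_filter, Finset.mem_univ, true_and, Finset.mem_image]
  constructor
  · intro h
    obtain ⟨F, hF⟩ := Finset.card_pos.mp (lt_of_lt_of_eq Nat.one_pos h.symm)
    rw [Finset.mem_filter] at hF
    exact ⟨F, hF.1, hF.2⟩
  · rintro ⟨F, hF, rfl⟩
    rw [Finset.card_eq_one]
    refine ⟨F, ?_⟩
    ext F'
    rw [Finset.mem_filter, Finset.mem_singleton]
    constructor
    · rintro ⟨h1, h2⟩; exact hi (by exact_mod_cast h1) (by exact_mod_cast hF) h2
    · rintro rfl; exact ⟨hF, rfl⟩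

theorem C3_min (h2 : VR.S_CON) (h3 : VR.S_PLUS) {d : ℕ} (hd : 3 ≤ d) {T : Finset (Finset V)}
    (hT : MinCycle d T) {u v : V} (huv : u ≠ v) (hl : C3_LC T u v) :
    MinCycle d (contr T u v) ∧ contr T u v = (nb T u v).image (con u v) := by
  have hi := C3_inj hT.1.1 huv hl
  have him := C3_img hi
  have hcyc := (h2 V d (by omega) T hT.1 u v huv).1
  refine ⟨⟨hcyc, ?_, ?_⟩, him⟩
  · rw [him]
    apply Finset.Nonempty.image
    obtain ⟨F, hF⟩ := hT.2.1
    by_cases h : u ∈ F ∧ v ∈ F
    · obtain ⟨F', hF', -, hn⟩ := C3_nbf hT.1 hF h.1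
      exact ⟨F', Finset.mem_filter.mpr ⟨hF', fun h' => hn h'.1⟩⟩
    · exact ⟨F, Finset.mem_filter.mpr ⟨hF, h⟩⟩
  · intro Z hZ hne hZc
    have hp := (h3 V d hd T hT.1 u v huv Z hZc hZ).1
    have hZl : Z = (lift T u v Z).image (con u v) := by
      ext G
      rw [Finset.mem_image]
      constructor
      · intro hG
        have h4 := hZ hG
        rw [him, Finset.mem_image] at h4
        obtain ⟨F, hF, rfl⟩ := h4
        exact ⟨F, Finset.mem_filter.mpr ⟨hF, hG⟩, rfl⟩
      · rintro ⟨F, hF, rfl⟩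
        exact (Finset.mem_filter.mp hF).2
    have hsub : plus d T u v Z ⊆ T := by
      intro F hF
      rw [plus, Finset.mem_union] at hF
      rcases hF with hF | hF
      · exact (Finset.mem_filter.mp (Finset.mem_filter.mp hF).1).1
      · rw [added, Finset.mem_image] at hF
        obtain ⟨K, hK, rfl⟩ := hF
        rw [lam, Finset.mem_filter] at hK
        obtain ⟨-, hKc, huK, hvK, hodd⟩ := hK
        -- the number of members of `lift` containing `insert v K` is odd
        have hsum : ((lift T u v Z).filter (fun F => insert u K ⊆ F)).card +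
            ((lift T u v Z).filter (fun F => insert v K ⊆ F)).card =
            (Z.filter (fun F => insert u K ⊆ F)).card := by
          have h5 : Z.filter (fun F => insert u K ⊆ F) =
              (((lift T u v Z).filter (fun F => insert u K ⊆ F)) ∪
              ((lift T u v Z).filter (fun F => insert v K ⊆ F))).image (con u v) := by
            ext G
            simp only [Finset.mem_filter, Finset.mem_image, Finset.mem_union]
            constructor
            · rintro ⟨hG, hs⟩
              rw [hZl, Finset.mem_image] at hG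
              obtain ⟨F, hF, rfl⟩ := hG
              refine ⟨F, ?_, rfl⟩
              unfold con at hs
              by_cases hvF : v ∈ F
              · right
                rw [if_pos hvF] at hs
                refine ⟨hF, Finset.insert_subset hvF ?_⟩
                intro y hy
                have := hs (Finset.mem_insert_of_mem hy)
                rw [Finset.mem_insert] at this
                rcases this with h | h
                · rw [h] at hy; exact (huK hy).elim
                · exact Finset.mem_of_mem_erase h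
              · left
                rw [if_neg hvF] at hs
                exact ⟨hF, hs⟩
            · rintro ⟨F, hF, rfl⟩
              rcases hF with ⟨hF, hs⟩ | ⟨hF, hs⟩
              · refine ⟨(Finset.mem_filter.mp hF).2, ?_⟩
                have huF : u ∈ F := hs (Finset.mem_insert_self _ _)
                have hvF : v ∉ F := fun h =>
                  (Finset.mem_filter.mp (Finset.mem_filter.mp hF).1).2 ⟨huF, h⟩
                rw [con, if_neg hvF]; exact hs
              · refine ⟨(Finset.mem_filter.mp hF).2, ?_⟩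
                have hvF : v ∈ F := hs (Finset.mem_insert_self _ _)
                rw [con, if_pos hvF]
                apply Finset.insert_subset_insert
                intro y hy
                rw [Finset.mem_erase]
                refine ⟨fun h => hvK (h ▸ hy), hs (Finset.mem_insert_of_mem hy)⟩
          rw [h5, Finset.card_image_of_injOn, Finset.card_union_of_disjoint]
          · rw [Finset.disjoint_left]
            intro F hF hF'
            rw [Finset.mem_filter] at hF hF'
            exact (Finset.mem_filter.mp (Finset.mem_filter.mp hF.1).1).2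
              ⟨hF.2 (Finset.mem_insert_self _ _), hF'.2 (Finset.mem_insert_self _ _)⟩
          · apply hi.mono
            intro F hF
            rw [Finset.mem_coe, Finset.mem_union, Finset.mem_filter, Finset.mem_filter] at hF
            rcases hF with hF | hF
            · exact (Finset.mem_filter.mp hF.1).1
            · exact (Finset.mem_filter.mp hF.1).1
        have hev : Even (Z.filter (fun F => insert u K ⊆ F)).card := by
          apply hZc.2
          rw [Finset.card_insert_of_notMem huK]; omega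
        have hodd' : Odd ((lift T u v Z).filter (fun F => insert v K ⊆ F)).card := by
          rw [← hsum] at hev
          by_contra hno
          rw [Nat.not_odd_iff_even] at hno
          have := (Nat.even_add.mp hev).mpr hno
          exact (Nat.not_even_iff_odd.mpr hodd) this
        obtain ⟨F1, hF1⟩ := Finset.card_pos.mp hodd.pos
        obtain ⟨F2, hF2⟩ := Finset.card_pos.mp hodd'.pos
        rw [Finset.mem_filter] at hF1 hF2
        have m1 : F1 ∈ T := (Finset.mem_filter.mp (Finset.mem_filter.mp hF1.1).1).1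
        have m2 : F2 ∈ T := (Finset.mem_filter.mp (Finset.mem_filter.mp hF2.1).1).1
        have huv' : u ∉ insert v K := by
          rw [Finset.mem_insert]; rintro (h | h)
          · exact huv h
          · exact huK h
        have hf : face T (insert u (insert v K)) := by
          apply hl
          · simp
          · simp
          · rw [Finset.erase_insert huv']
            exact ⟨F2, m2, hF2.2⟩
          · rw [Finset.erase_insert_of_ne huv, Finset.erase_insert hvK]
            exact ⟨F1, m1, hF1.2⟩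
        obtain ⟨G, hG, hs⟩ := hf
        have : insert u (insert v K) = G := by
          apply Finset.eq_of_subset_of_card_le hs
          rw [hT.1.1 G hG, Finset.card_insert_of_notMem huv', Finset.card_insert_of_notMem hvK]
          omega
        rw [this]; exact hG
    have hne' : (plus d T u v Z).Nonempty := by
      rw [hZl] at hne
      obtain ⟨G, hG⟩ := hne
      rw [Finset.mem_image] at hG
      obtain ⟨F, hF, -⟩ := hG
      exact ⟨F, Finset.mem_union_left _ hF⟩
    have heq := hT.2.2 _ hsub hne' hp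
    apply Finset.Subset.antisymm hZ
    rw [him]
    intro G hG
    rw [Finset.mem_image] at hG
    obtain ⟨F, hF, rfl⟩ := hG
    have hFT : F ∈ T := (Finset.mem_filter.mp hF).1
    rw [← heq, plus, Finset.mem_union] at hFT
    rcases hFT with h | h
    · exact (Finset.mem_filter.mp h).2
    · rw [added, Finset.mem_image] at h
      obtain ⟨K, hK, rfl⟩ := h
      exact ((Finset.mem_filter.mp hF).2 ⟨by simp, by simp⟩).elim

end gen

section sym
variable {W : Type} [Fintype W] [DecidableEq W]

theorem C3_oo (x : SV W) : opp (opp x) = x := by simp [opp]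

theorem C3_ne (x : SV W) : opp x ≠ x := by
  intro h; have := congrArg Prod.snd h; simp [opp] at this

theorem C3_oi {x y : SV W} (h : opp x = opp y) : x = y := by
  rw [← C3_oo x, h, C3_oo]

theorem C3_ooi (F : Finset (SV W)) : (F.image opp).image opp = F := by
  have h : (opp ∘ opp : SV W → SV W) = id := by funext y; exact C3_oo y
  rw [Finset.image_image, h, Finset.image_id]

theorem C3_mo {F : Finset (SV W)} {x : SV W} : opp x ∈ F.image opp ↔ x ∈ F := by
  rw [Finset.mem_image]
  constructor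
  · rintro ⟨y, hy, h⟩; rw [← C3_oi h]; exact hy
  · intro h; exact ⟨x, h, rfl⟩

theorem C3_mo' {F : Finset (SV W)} {x : SV W} : x ∈ F.image opp ↔ opp x ∈ F := by
  rw [← C3_mo (x := opp x), C3_oo]

theorem C3_fo {T : Finset (Finset (SV W))} (hs : Sym T) {F : Finset (SV W)} (h : face T F) :
    face T (F.image opp) := by
  obtain ⟨G, hG, hsub⟩ := h
  exact ⟨G.image opp, hs.1 G hG, Finset.image_subset_image hsub⟩

/-- good facets -/
def C3_gd (T : Finset (Finset (SV W))) (v x : SV W) : Finset (Finset (SV W)) :=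
  T.filter (fun F => ¬ (x ∈ F ∧ v ∈ F) ∧ ¬ (opp x ∈ F ∧ opp v ∈ F))

theorem C3_lc {T : Finset (Finset (SV W))} {v x : SV W}
    (hL : ∀ τ : Finset (SV W), v ∈ τ → x ∈ τ → ¬ face T τ → ∃ y ∈ τ, ¬ face T (τ.erase y)) :
    C3_LC T x v := by
  intro τ
  induction hn : τ.card using Nat.strong_induction_on generalizing τ with
  | _ n ih =>
    intro hx hv h1 h2
    by_contra hno
    obtain ⟨y, hy, hyf⟩ := hL τ hv hx hno
    have hyx : y ≠ x := fun h => hyf (h ▸ h1)
    have hyv : y ≠ v := fun h => hyf (h ▸ h2)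
    apply hyf
    apply ih (τ.erase y).card _ _ rfl
    · exact Finset.mem_erase.mpr ⟨hyx.symm, hx⟩
    · exact Finset.mem_erase.mpr ⟨hyv.symm, hv⟩
    · obtain ⟨G, hG, hs⟩ := h1
      refine ⟨G, hG, fun z hz => hs ?_⟩
      simp only [Finset.mem_erase] at hz ⊢
      exact ⟨hz.1, hz.2.2⟩
    · obtain ⟨G, hG, hs⟩ := h2
      refine ⟨G, hG, fun z hz => hs ?_⟩
      simp only [Finset.mem_erase] at hz ⊢
      exact ⟨hz.1, hz.2.2⟩
    · rw [← hn]; exact Finset.card_erase_lt_of_mem hy

theorem C3_er {F : Finset (SV W)} {x : SV W} : (F.image opp).erase x = (F.erase (opp x)).image opp := by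
  ext z
  simp only [Finset.mem_erase, C3_mo']
  constructor
  · rintro ⟨h1, h2⟩; exact ⟨fun h => h1 (C3_oi h), h2⟩
  · rintro ⟨h1, h2⟩; exact ⟨fun h => h1 (h ▸ rfl), h2⟩

theorem C3_lco {T : Finset (Finset (SV W))} (hs : Sym T) {v x : SV W} (hL : C3_LC T x v) :
    C3_LC T (opp x) (opp v) := by
  intro τ hx hv h1 h2
  rw [← C3_ooi τ]
  apply C3_fo hs
  apply hL
  · rw [C3_mo']; exact hx
  · rw [C3_mo']; exact hv
  · rw [C3_er]; exact C3_fo hs h1
  · rw [C3_er]; exact C3_fo hs h2

theorem C3_T' (h2 : VR.S_CON) (h3 : VR.S_PLUS) {d : ℕ} (hd : 3 ≤ d) {T : Finset (Finset (SV W))}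
    (hT : MinCycle d T) (hs : Sym T) {v x : SV W} (hvx : v ≠ x) (hov : x ≠ opp v)
    (hna : ¬ ∃ F ∈ T, v ∈ F ∧ opp x ∈ F) (hL : C3_LC T x v) :
    MinCycle d ((C3_gd T v x).image (fun F => F.image (qv x v))) := by
  have hna' : ¬ ∃ F ∈ T, opp v ∈ F ∧ x ∈ F := by
    rintro ⟨F, hF, ha, hb⟩
    exact hna ⟨F.image opp, hs.1 F hF, C3_mo'.mpr ha, C3_mo.mpr hb⟩
  have hov' : opp x ≠ v := fun h => hov (by rw [← h, C3_oo])
  have hxx := C3_ne x
  have hvv := C3_ne v
  have hoo : opp x ≠ opp v := fun h => hvx (C3_oi h).symm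
  obtain ⟨m1, e1⟩ := C3_min h2 h3 hd hT hvx.symm hL
  have hc : ∀ F, v ∉ F → con x v F = F := fun F h => by rw [con, if_neg h]
  have mem1 : ∀ F, opp x ∈ con x v F ↔ opp x ∈ F := by
    intro F; unfold con; split_ifs with h
    · simp [hxx, hov']
    · rfl
  have mem2 : ∀ F, opp v ∈ con x v F ↔ opp v ∈ F := by
    intro F; unfold con; split_ifs with h
    · simp [hvv, hov.symm]
    · rfl
  have l1 : C3_LC (contr T x v) (opp x) (opp v) := by
    intro τ hx hv f1 f2
    have hx' : opp x ∈ τ.erase (opp v) := Finset.mem_erase.mpr ⟨hoo, hx⟩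
    have hv' : opp v ∈ τ.erase (opp x) := Finset.mem_erase.mpr ⟨hoo.symm, hv⟩
    obtain ⟨G1, hG1, s1⟩ := f1
    obtain ⟨G2, hG2, s2⟩ := f2
    rw [e1, Finset.mem_image] at hG1 hG2
    obtain ⟨F1, hF1, rfl⟩ := hG1
    obtain ⟨F2, hF2, rfl⟩ := hG2
    have a1 : opp v ∈ F1 := (mem2 F1).mp (s1 hv')
    have a2 : opp x ∈ F2 := (mem1 F2).mp (s2 hx')
    have t1 : F1 ∈ T := (Finset.mem_filter.mp hF1).1
    have t2 : F2 ∈ T := (Finset.mem_filter.mp hF2).1
    have b1 : v ∉ F1 := fun h => hs.2 F1 t1 v h a1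
    have b2 : v ∉ F2 := fun h => hna ⟨F2, t2, h, a2⟩
    rw [hc _ b1] at s1
    rw [hc _ b2] at s2
    obtain ⟨F, hF, hsub⟩ := C3_lco hs hL τ hx hv ⟨F1, t1, s1⟩ ⟨F2, t2, s2⟩
    have b : v ∉ F := fun h => hna ⟨F, hF, h, hsub hx⟩
    refine ⟨F, ?_, hsub⟩
    rw [e1, Finset.mem_image]
    exact ⟨F, Finset.mem_filter.mpr ⟨hF, fun h => b h.2⟩, hc F b⟩
  obtain ⟨m2, e2⟩ := C3_min h2 h3 hd m1 hoo l1
  have key : ∀ F, con (opp x) (opp v) (con x v F) = F.image (qv x v) := by
    have hcon : ∀ (a b : SV W) (F : Finset (SV W)), con a b F = F.image (fun y => if y = b then a else y) := by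
      intro a b F
      ext z
      unfold con
      split_ifs with h
      · simp only [Finset.mem_insert, Finset.mem_erase, Finset.mem_image]
        constructor
        · rintro (rfl | ⟨h1, h2⟩)
          · exact ⟨b, h, by simp⟩
          · exact ⟨z, h2, by simp [h1]⟩
        · rintro ⟨y, hy, rfl⟩
          split_ifs with hb
          · left; rfl
          · right; exact ⟨hb, hy⟩
      · simp only [Finset.mem_image]
        constructor
        · intro hz; exact ⟨z, hz, by rw [if_neg]; rintro rfl; exact h hz⟩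
        · rintro ⟨y, hy, rfl⟩
          rw [if_neg]
          · exact hy
          · rintro rfl; exact h hy
    intro F
    rw [hcon, hcon, Finset.image_image]
    congr 1
    funext y
    simp only [Function.comp, qv]
    by_cases h : y = v
    · simp [h, hov]
    · simp [h]
  rw [e2, e1] at m2
  convert m2 using 1
  ext G
  simp only [Finset.mem_image]
  constructor
  · rintro ⟨F, hF, rfl⟩
    rw [C3_gd, Finset.mem_filter] at hF
    refine ⟨con x v F, ?_, key F⟩
    rw [nb, Finset.mem_filter, mem1, mem2]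
    exact ⟨Finset.mem_image.mpr ⟨F, Finset.mem_filter.mpr ⟨hF.1, hF.2.1⟩, rfl⟩, hF.2.2⟩
  · rintro ⟨G, hG, rfl⟩
    rw [nb, Finset.mem_filter] at hG
    obtain ⟨hG, hG'⟩ := hG
    rw [Finset.mem_image] at hG
    obtain ⟨F, hF, rfl⟩ := hG
    rw [mem1, mem2] at hG'
    rw [nb, Finset.mem_filter] at hF
    exact ⟨F, Finset.mem_filter.mpr ⟨hF.1, hF.2, hG'⟩, (key F).symm⟩

theorem C3_qo {v x : SV W} (hov : x ≠ opp v) (y : SV W) : qv x v (opp y) = opp (qv x v y) := by
  have hvv := C3_ne v
  unfold qv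
  by_cases h1 : y = v
  · subst h1
    simp [hvv]
  · have h1' : opp y ≠ opp v := fun h => h1 (C3_oi h)
    by_cases h2 : y = opp v
    · subst h2
      simp [C3_oo, hvv]
    · have h2' : opp y ≠ v := fun h => h2 (by rw [← h, C3_oo])
      simp [h1, h2, h1', h2']

theorem C3_sym {T : Finset (Finset (SV W))} (hs : Sym T) {v x : SV W} (hov : x ≠ opp v)
    (hna : ¬ ∃ F ∈ T, v ∈ F ∧ opp x ∈ F) :
    Sym ((C3_gd T v x).image (fun F => F.image (qv x v))) := by
  have hna' : ¬ ∃ F ∈ T, opp v ∈ F ∧ x ∈ F := by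
    rintro ⟨F, hF, ha, hb⟩
    exact hna ⟨F.image opp, hs.1 F hF, C3_mo'.mpr ha, C3_mo.mpr hb⟩
  constructor
  · intro G hG
    rw [Finset.mem_image] at hG ⊢
    obtain ⟨F, hF, rfl⟩ := hG
    rw [C3_gd, Finset.mem_filter] at hF
    refine ⟨F.image opp, ?_, ?_⟩
    · rw [C3_gd, Finset.mem_filter]
      refine ⟨hs.1 F hF.1, ?_, ?_⟩
      · rw [C3_mo', C3_mo']; exact hF.2.2
      · rw [C3_mo, C3_mo]; exact hF.2.1
    · simp only [Finset.image_image]
      congr 1
      funext y
      exact C3_qo hov y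
  · intro G hG z hz hoz
    rw [Finset.mem_image] at hG
    obtain ⟨F, hF, rfl⟩ := hG
    rw [C3_gd, Finset.mem_filter] at hF
    simp only [Finset.mem_image] at hz hoz
    obtain ⟨a, ha, rfl⟩ := hz
    obtain ⟨b, hb, hab⟩ := hoz
    rw [← C3_qo hov] at hab
    have hsy := hs.2 F hF.1
    -- `qv x v b = qv x v (opp a)`
    have n1 : ¬ (v ∈ F ∧ opp x ∈ F) := fun h => hna ⟨F, hF.1, h⟩
    have n2 : ¬ (opp v ∈ F ∧ x ∈ F) := fun h => hna' ⟨F, hF.1, h⟩
    have hd : opp a ≠ b := fun h => hsy a ha (h ▸ hb)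
    have hab' : a = opp (opp a) := (C3_oo a).symm
    unfold qv at hab
    by_cases b1 : b = v
    · rw [if_pos b1] at hab
      by_cases a1 : opp a = v
      · exact hd (a1.trans b1.symm)
      · rw [if_neg a1] at hab
        by_cases a2 : opp a = opp v
        · rw [if_pos a2] at hab; exact C3_ne x hab.symm
        · rw [if_neg a2] at hab
          rw [hab', ← hab] at ha
          exact n1 ⟨b1 ▸ hb, ha⟩
    · rw [if_neg b1] at hab
      by_cases b2 : b = opp v
      · rw [if_pos b2] at hab
        by_cases a1 : opp a = v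
        · rw [if_pos a1] at hab; exact C3_ne x hab
        · rw [if_neg a1] at hab
          by_cases a2 : opp a = opp v
          · exact hd (a2.trans b2.symm)
          · rw [if_neg a2] at hab
            rw [hab', ← hab, C3_oo] at ha
            exact n2 ⟨b2 ▸ hb, ha⟩
      · rw [if_neg b2] at hab
        by_cases a1 : opp a = v
        · rw [if_pos a1] at hab
          rw [hab', a1] at ha
          exact n2 ⟨ha, hab ▸ hb⟩
        · rw [if_neg a1] at hab
          by_cases a2 : opp a = opp v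
          · rw [if_pos a2] at hab
            rw [hab', a2, C3_oo] at ha
            exact n1 ⟨ha, hab ▸ hb⟩
          · rw [if_neg a2] at hab
            exact hd hab.symm

theorem C3_vs {d : ℕ} {T : Finset (Finset (SV W))} (hT : IsCycle d T) (hs : Sym T) {v x : SV W}
    (hvx : v ≠ x) (hna : ¬ ∃ F ∈ T, v ∈ F ∧ opp x ∈ F) :
    (vs T).card ≤ (vs ((C3_gd T v x).image (fun F => F.image (qv x v)))).card + 2 := by
  have hna' : ¬ ∃ F ∈ T, opp v ∈ F ∧ x ∈ F := by
    rintro ⟨F, hF, ha, hb⟩
    exact hna ⟨F.image opp, hs.1 F hF, C3_mo'.mpr ha, C3_mo.mpr hb⟩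
  have hoo : opp x ≠ opp v := fun h => hvx (C3_oi h).symm
  have hsub : ((vs T).erase v).erase (opp v) ⊆
      vs ((C3_gd T v x).image (fun F => F.image (qv x v))) := by
    intro y hy
    simp only [Finset.mem_erase, vs, Finset.mem_biUnion, id] at hy
    obtain ⟨y1, y2, F, hF, hyF⟩ := hy
    -- a good facet containing `y`
    have hg : ∃ G ∈ C3_gd T v x, y ∈ G := by
      by_cases g1 : x ∈ F ∧ v ∈ F
      · by_cases hyx : y = x
        · obtain ⟨F', hF', hs', hn⟩ := C3_nbf hT hF g1.2
          have hyF' : y ∈ F' := hs' (Finset.mem_erase.mpr ⟨y2, hyF⟩)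
          refine ⟨F', Finset.mem_filter.mpr ⟨hF', fun h => hn h.2, fun h => ?_⟩, hyF'⟩
          exact hs.2 F' hF' x (hyx ▸ hyF') h.1
        · obtain ⟨F', hF', hs', hn⟩ := C3_nbf hT hF g1.1
          refine ⟨F', Finset.mem_filter.mpr ⟨hF', fun h => hn h.1, fun h => ?_⟩,
            hs' (Finset.mem_erase.mpr ⟨hyx, hyF⟩)⟩
          exact hs.2 F' hF' v (hs' (Finset.mem_erase.mpr ⟨hvx, g1.2⟩)) h.2
      · by_cases g2 : opp x ∈ F ∧ opp v ∈ F
        · by_cases hyx : y = opp x
          · obtain ⟨F', hF', hs', hn⟩ := C3_nbf hT hF g2.2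
            have hyF' : y ∈ F' := hs' (Finset.mem_erase.mpr ⟨y1, hyF⟩)
            refine ⟨F', Finset.mem_filter.mpr ⟨hF', fun h => ?_, fun h => hn h.2⟩, hyF'⟩
            exact hs.2 F' hF' x h.1 (hyx ▸ hyF')
          · obtain ⟨F', hF', hs', hn⟩ := C3_nbf hT hF g2.1
            refine ⟨F', Finset.mem_filter.mpr ⟨hF', fun h => ?_, fun h => hn h.1⟩,
              hs' (Finset.mem_erase.mpr ⟨hyx, hyF⟩)⟩
            exact hs.2 F' hF' v h.2 (hs' (Finset.mem_erase.mpr ⟨hoo.symm, g2.2⟩))
        · exact ⟨F, Finset.mem_filter.mpr ⟨hF, g1, g2⟩, hyF⟩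
    obtain ⟨G, hG, hyG⟩ := hg
    rw [vs, Finset.mem_biUnion]
    refine ⟨G.image (qv x v), Finset.mem_image.mpr ⟨G, hG, rfl⟩, ?_⟩
    rw [id, Finset.mem_image]
    exact ⟨y, hyG, by rw [qv, if_neg y2, if_neg y1]⟩
  have h1 := Finset.card_le_card hsub
  have h2 := Finset.pred_card_le_card_erase (s := vs T) (a := v)
  have h3 := Finset.pred_card_le_card_erase (s := (vs T).erase v) (a := opp v)
  omega

/-- the edges that disappear -/
def C3_rm (T : Finset (Finset (SV W))) (v x : SV W) : Finset (Finset (SV W)) :=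
  ({{v, x}, {opp v, opp x}} ∪ (nbr T v ∩ nbr T x).image (fun y => {v, y})) ∪
    (nbr T v ∩ nbr T x).image (fun y => {opp v, opp y})

theorem C3_pair {a b c : SV W} : ({a, b} : Finset (SV W)) = {a, c} ↔ b = c := by
  constructor
  · intro h
    have h1 : b ∈ ({a, c} : Finset (SV W)) := h ▸ (by simp)
    have h2 : c ∈ ({a, b} : Finset (SV W)) := h ▸ (by simp)
    simp only [Finset.mem_insert, Finset.mem_singleton] at h1 h2
    rcases h1 with h1 | h1
    · rcases h2 with h2 | h2
      · rw [h1, h2]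
      · exact h2.symm
    · exact h1
  · rintro rfl; rfl

theorem C3_rmc {T : Finset (Finset (SV W))} (hs : Sym T) {v x : SV W} (hvx : v ≠ x)
    (hov : x ≠ opp v) :
    (C3_rm T v x).card = 2 + 2 * (nbr T v ∩ nbr T x).card := by
  have hov' : opp x ≠ v := fun h => hov (by rw [← h, C3_oo])
  have hN : ∀ y ∈ nbr T v ∩ nbr T x, y ≠ v ∧ y ≠ x ∧ y ≠ opp v ∧ opp y ≠ v := by
    intro y hy
    simp only [nbr, Finset.mem_inter, Finset.mem_filter, Finset.mem_univ, true_and] at hy
    obtain ⟨⟨h1, F, hF, h2, h3⟩, h4, -⟩ := hy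
    refine ⟨h1, h4, ?_, ?_⟩
    · rintro rfl; exact hs.2 F hF v h2 h3
    · rintro rfl; exact hs.2 F hF y h3 h2
  have c1 : ((nbr T v ∩ nbr T x).image (fun y => ({v, y} : Finset (SV W)))).card =
      (nbr T v ∩ nbr T x).card := by
    apply Finset.card_image_of_injective
    intro a b h
    exact C3_pair.mp h
  have c2 : ((nbr T v ∩ nbr T x).image (fun y => ({opp v, opp y} : Finset (SV W)))).card =
      (nbr T v ∩ nbr T x).card := by
    apply Finset.card_image_of_injective
    intro a b h
    exact C3_oi (C3_pair.mp h)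
  have c3 : ({{v, x}, {opp v, opp x}} : Finset (Finset (SV W))).card = 2 := by
    rw [Finset.card_pair]
    intro h
    have : v ∈ ({opp v, opp x} : Finset (SV W)) := h ▸ (by simp)
    simp only [Finset.mem_insert, Finset.mem_singleton] at this
    rcases this with h | h
    · exact C3_ne v h.symm
    · exact hov' h.symm
  rw [C3_rm, Finset.card_union_of_disjoint, Finset.card_union_of_disjoint, c1, c2, c3]
  · omega
  · rw [Finset.disjoint_left]
    intro e he he'
    rw [Finset.mem_image] at he'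
    obtain ⟨y, hy, rfl⟩ := he'
    obtain ⟨y1, y2, y3, y4⟩ := hN y hy
    simp only [Finset.mem_insert, Finset.mem_singleton] at he
    rcases he with he | he
    · exact y2 (C3_pair.mp he)
    · have : v ∈ ({opp v, opp x} : Finset (SV W)) := he ▸ (by simp)
      simp only [Finset.mem_insert, Finset.mem_singleton] at this
      rcases this with h | h
      · exact C3_ne v h.symm
      · exact hov' h.symm
  · rw [Finset.disjoint_left]
    intro e he he'
    rw [Finset.mem_image] at he'
    obtain ⟨y, hy, rfl⟩ := he'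
    obtain ⟨y1, y2, y3, y4⟩ := hN y hy
    simp only [Finset.mem_union, Finset.mem_insert, Finset.mem_singleton, Finset.mem_image] at he
    have hno : v ∉ ({opp v, opp y} : Finset (SV W)) := by
      simp only [Finset.mem_insert, Finset.mem_singleton]
      rintro (h | h)
      · exact C3_ne v h.symm
      · exact y4 h.symm
    rcases he with (he | he) | ⟨z, hz, he⟩
    · exact hno (he ▸ (by simp))
    · exact y2 (C3_oi (C3_pair.mp he))
    · exact hno (he ▸ (by simp))

theorem C3_rms {T : Finset (Finset (SV W))} (hs : Sym T) {v x : SV W} (hvx : v ≠ x)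
    (hadj : ∃ F ∈ T, v ∈ F ∧ x ∈ F) : C3_rm T v x ⊆ eg T := by
  have hoo : opp v ≠ opp x := fun h => hvx (C3_oi h)
  intro e he
  simp only [C3_rm, Finset.mem_union, Finset.mem_insert, Finset.mem_singleton,
    Finset.mem_image] at he
  simp only [eg, Finset.mem_filter, Finset.mem_univ, true_and]
  have hpair : ∀ (a b : SV W) (F : Finset (SV W)), a ∈ F → b ∈ F → ({a, b} : Finset (SV W)) ⊆ F := by
    intro a b F ha hb z hz
    simp only [Finset.mem_insert, Finset.mem_singleton] at hz
    rcases hz with rfl | rfl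
    · exact ha
    · exact hb
  rcases he with ((rfl | rfl) | ⟨y, hy, rfl⟩) | ⟨y, hy, rfl⟩
  · obtain ⟨F, hF, h1, h2⟩ := hadj
    exact ⟨Finset.card_pair hvx, F, hF, hpair _ _ _ h1 h2⟩
  · obtain ⟨F, hF, h1, h2⟩ := hadj
    exact ⟨Finset.card_pair hoo, F.image opp, hs.1 F hF, hpair _ _ _ (C3_mo.mpr h1) (C3_mo.mpr h2)⟩
  · simp only [nbr, Finset.mem_inter, Finset.mem_filter, Finset.mem_univ, true_and] at hy
    obtain ⟨⟨h1, F, hF, h2, h3⟩, h4, -⟩ := hy
    exact ⟨Finset.card_pair h1.symm, F, hF, hpair _ _ _ h2 h3⟩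
  · simp only [nbr, Finset.mem_inter, Finset.mem_filter, Finset.mem_univ, true_and] at hy
    obtain ⟨⟨h1, F, hF, h2, h3⟩, h4, -⟩ := hy
    exact ⟨Finset.card_pair (fun h => h1 (C3_oi h).symm), F.image opp, hs.1 F hF,
      hpair _ _ _ (C3_mo.mpr h2) (C3_mo.mpr h3)⟩

theorem C3_eg {T : Finset (Finset (SV W))} (hs : Sym T) {v x : SV W} (hvx : v ≠ x)
    (hadj : ∃ F ∈ T, v ∈ F ∧ x ∈ F) (hna : ¬ ∃ F ∈ T, v ∈ F ∧ opp x ∈ F) (hov : x ≠ opp v) :
    (eg ((C3_gd T v x).image (fun F => F.image (qv x v)))).card + 2 +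
      2 * (nbr T v ∩ nbr T x).card ≤ (eg T).card := by
  have hna' : ¬ ∃ F ∈ T, opp v ∈ F ∧ x ∈ F := by
    rintro ⟨F, hF, ha, hb⟩
    exact hna ⟨F.image opp, hs.1 F hF, C3_mo'.mpr ha, C3_mo.mpr hb⟩
  have hoo : opp v ≠ opp x := fun h => hvx (C3_oi h)
  have hov' : opp x ≠ v := fun h => hov (by rw [← h, C3_oo])
  have hpair : ∀ (a b : SV W) (F : Finset (SV W)), a ∈ F → b ∈ F → ({a, b} : Finset (SV W)) ⊆ F := by
    intro a b F ha hb z hz
    simp only [Finset.mem_insert, Finset.mem_singleton] at hz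
    rcases hz with rfl | rfl
    · exact ha
    · exact hb
  have hmp : ∀ a b c : SV W, a ∈ ({b, c} : Finset (SV W)) ↔ a = b ∨ a = c := by
    intro a b c; simp
  have hN : ∀ y, y ∈ nbr T v ∩ nbr T x ↔ (y ≠ v ∧ ∃ F ∈ T, v ∈ F ∧ y ∈ F) ∧
      (y ≠ x ∧ ∃ F ∈ T, x ∈ F ∧ y ∈ F) := by
    intro y
    simp only [nbr, Finset.mem_inter, Finset.mem_filter, Finset.mem_univ, true_and]
  have hrm : ∀ e, e ∈ C3_rm T v x ↔ ((e = {v, x} ∨ e = {opp v, opp x}) ∨
      ∃ y ∈ nbr T v ∩ nbr T x, ({v, y} : Finset (SV W)) = e) ∨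
        ∃ y ∈ nbr T v ∩ nbr T x, ({opp v, opp y} : Finset (SV W)) = e := by
    intro e
    simp only [C3_rm, Finset.mem_union, Finset.mem_insert, Finset.mem_singleton, Finset.mem_image]
  have qx : qv x v x = x := by rw [qv, if_neg hvx.symm, if_neg hov]
  have qv1 : qv x v v = x := by rw [qv, if_pos rfl]
  have qox : qv x v (opp x) = opp x := by rw [C3_qo hov, qx]
  have qov : qv x v (opp v) = opp x := by rw [C3_qo hov, qv1]
  have hsub : eg ((C3_gd T v x).image (fun F => F.image (qv x v))) ⊆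
      (eg T \ C3_rm T v x).image (fun e => e.image (qv x v)) := by
    intro e he
    simp only [eg, Finset.mem_filter, Finset.mem_univ, true_and] at he
    obtain ⟨hc, G, hG, hsub⟩ := he
    rw [Finset.mem_image] at hG
    obtain ⟨F, hF, rfl⟩ := hG
    rw [C3_gd, Finset.mem_filter] at hF
    obtain ⟨hF, g1, g2⟩ := hF
    obtain ⟨p, q, hpq, rfl⟩ := Finset.card_eq_two.mp hc
    have hp := hsub ((hmp _ _ _).mpr (Or.inl rfl))
    have hq := hsub ((hmp _ _ _).mpr (Or.inr rfl))
    rw [Finset.mem_image] at hp hq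
    obtain ⟨a, ha, rfl⟩ := hp
    obtain ⟨b, hb, rfl⟩ := hq
    have hab : a ≠ b := fun h => hpq (by rw [h])
    have himg : ∀ a b : SV W, ({a, b} : Finset (SV W)).image (qv x v) = {qv x v a, qv x v b} := by
      intro a b; rw [Finset.image_insert, Finset.image_singleton]
    -- the general statement for an edge
    have mk : ∀ a' b' : SV W, a' ≠ b' → (∃ F ∈ T, a' ∈ F ∧ b' ∈ F) →
        ({a', b'} : Finset (SV W)) ∉ C3_rm T v x → qv x v a' = qv x v a → qv x v b' = qv x v b →
        ({qv x v a, qv x v b} : Finset (SV W)) ∈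
          (eg T \ C3_rm T v x).image (fun e => e.image (qv x v)) := by
      rintro a' b' hne ⟨F', hF', h1, h2⟩ h3 h4 h5
      rw [Finset.mem_image]
      refine ⟨{a', b'}, ?_, ?_⟩
      · rw [Finset.mem_sdiff]
        refine ⟨?_, h3⟩
        simp only [eg, Finset.mem_filter, Finset.mem_univ, true_and]
        exact ⟨Finset.card_pair hne, F', hF', hpair _ _ _ h1 h2⟩
      · simp only [himg, h4, h5]
    -- edges `{x, y}` are not removed
    have nx : ∀ y, y ≠ v → y ≠ opp v → ({x, y} : Finset (SV W)) ∉ C3_rm T v x := by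
      intro y h1 h1' h
      rw [hrm] at h
      have hv : ∀ z : SV W, ({v, z} : Finset (SV W)) ≠ {x, y} := by
        intro z hz
        have : v ∈ ({x, y} : Finset (SV W)) := hz ▸ (by simp)
        rw [hmp] at this
        rcases this with h | h
        · exact hvx h
        · exact h1 h.symm
      have hv' : ∀ z : SV W, ({opp v, z} : Finset (SV W)) ≠ {x, y} := by
        intro z hz
        have : opp v ∈ ({x, y} : Finset (SV W)) := hz ▸ (by simp)
        rw [hmp] at this
        rcases this with h | h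
        · exact hov h.symm
        · exact h1' h.symm
      rcases h with ((h | h) | ⟨z, -, h⟩) | ⟨z, -, h⟩
      · exact hv _ h.symm
      · exact hv' _ h.symm
      · exact hv _ h
      · exact hv' _ h
    have nox : ∀ y, y ≠ v → y ≠ opp v → ({opp x, y} : Finset (SV W)) ∉ C3_rm T v x := by
      intro y h1 h1' h
      rw [hrm] at h
      have hv : ∀ z : SV W, ({v, z} : Finset (SV W)) ≠ {opp x, y} := by
        intro z hz
        have : v ∈ ({opp x, y} : Finset (SV W)) := hz ▸ (by simp)
        rw [hmp] at this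
        rcases this with h | h
        · exact hov' h.symm
        · exact h1 h.symm
      have hv' : ∀ z : SV W, ({opp v, z} : Finset (SV W)) ≠ {opp x, y} := by
        intro z hz
        have : opp v ∈ ({opp x, y} : Finset (SV W)) := hz ▸ (by simp)
        rw [hmp] at this
        rcases this with h | h
        · exact hoo h
        · exact h1' h.symm
      rcases h with ((h | h) | ⟨z, -, h⟩) | ⟨z, -, h⟩
      · exact hv _ h.symm
      · exact hv' _ h.symm
      · exact hv _ h
      · exact hv' _ h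
    by_cases hr : ({a, b} : Finset (SV W)) ∈ C3_rm T v x
    · -- replace `v` by `x`
      have hcase : ∀ a b : SV W, a ∈ F → b ∈ F → qv x v a ≠ qv x v b →
          ({a, b} : Finset (SV W)) ∈ C3_rm T v x →
          (a = v ∧ b ∈ nbr T v ∩ nbr T x) ∨ (b = v ∧ a ∈ nbr T v ∩ nbr T x) ∨
          (a = opp v ∧ opp b ∈ nbr T v ∩ nbr T x) ∨ (b = opp v ∧ opp a ∈ nbr T v ∩ nbr T x) := by
        intro a b ha hb hne hr
        have eqp : ∀ p q : SV W, p ≠ q → ({p, q} : Finset (SV W)) = {a, b} →
            (p = a ∧ q = b) ∨ (p = b ∧ q = a) := by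
          intro p q hpq' h
          have h1 : p ∈ ({a, b} : Finset (SV W)) := h ▸ (by simp)
          have h2 : q ∈ ({a, b} : Finset (SV W)) := h ▸ (by simp)
          rw [hmp] at h1 h2
          rcases h1 with rfl | rfl <;> rcases h2 with rfl | rfl
          · exact (hpq' rfl).elim
          · left; exact ⟨rfl, rfl⟩
          · right; exact ⟨rfl, rfl⟩
          · exact (hpq' rfl).elim
        rw [hrm] at hr
        rcases hr with ((h | h) | ⟨y, hy, h⟩) | ⟨y, hy, h⟩
        · exfalso
          rcases eqp v x hvx h.symm with ⟨rfl, rfl⟩ | ⟨rfl, rfl⟩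
          · exact g1 ⟨hb, ha⟩
          · exact g1 ⟨ha, hb⟩
        · exfalso
          rcases eqp _ _ hoo h.symm with ⟨rfl, rfl⟩ | ⟨rfl, rfl⟩
          · exact g2 ⟨hb, ha⟩
          · exact g2 ⟨ha, hb⟩
        · rcases eqp _ _ ((hN y).mp hy).1.1.symm h with ⟨rfl, rfl⟩ | ⟨rfl, rfl⟩
          · left; exact ⟨rfl, hy⟩
          · right; left; exact ⟨rfl, hy⟩
        · have : opp v ≠ opp y := fun h' => ((hN y).mp hy).1.1 (C3_oi h').symm
          rcases eqp _ _ this h with ⟨rfl, rfl⟩ | ⟨rfl, rfl⟩
          · right; right; left; exact ⟨rfl, by rw [C3_oo]; exact hy⟩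
          · right; right; right; exact ⟨rfl, by rw [C3_oo]; exact hy⟩
      -- conclusion in one orientation
      have fin1 : ∀ b : SV W, b ∈ nbr T v ∩ nbr T x → (∃ F ∈ T, x ∈ F ∧ b ∈ F) ∧ b ≠ x ∧
          ({x, b} : Finset (SV W)) ∉ C3_rm T v x := by
        intro b hb
        obtain ⟨⟨h1, F1, hF1, h2, h3⟩, h4, h5⟩ := (hN b).mp hb
        refine ⟨h5, h4, nx b h1 ?_⟩
        rintro rfl
        exact hs.2 F1 hF1 v h2 h3
      have fin2 : ∀ b : SV W, opp b ∈ nbr T v ∩ nbr T x → (∃ F ∈ T, opp x ∈ F ∧ b ∈ F) ∧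
          b ≠ opp x ∧ ({opp x, b} : Finset (SV W)) ∉ C3_rm T v x := by
        intro b hb
        obtain ⟨⟨h1, F1, hF1, h2, h3⟩, h4, F2, hF2, h5, h6⟩ := (hN _).mp hb
        refine ⟨⟨F2.image opp, hs.1 F2 hF2, C3_mo.mpr h5, C3_mo'.mpr h6⟩, ?_, nox b ?_ ?_⟩
        · rintro rfl; exact h4 (C3_oo x)
        · rintro rfl; exact hs.2 F1 hF1 b h2 h3
        · rintro rfl; exact h1 (C3_oo v)
      rcases hcase a b ha hb hpq hr with ⟨rfl, h⟩ | ⟨rfl, h⟩ | ⟨rfl, h⟩ | ⟨rfl, h⟩
      · obtain ⟨f1, f2, f3⟩ := fin1 b h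
        exact mk x b f2.symm f1 f3 (by rw [qx, qv1]) rfl
      · obtain ⟨⟨F', hF', f1, f1'⟩, f2, f3⟩ := fin1 a h
        exact mk a x f2 ⟨F', hF', f1', f1⟩ (by rw [Finset.pair_comm]; exact f3) rfl
          (by rw [qx, qv1])
      · obtain ⟨f1, f2, f3⟩ := fin2 b h
        exact mk (opp x) b f2.symm f1 f3 (by rw [qox, qov]) rfl
      · obtain ⟨⟨F', hF', f1, f1'⟩, f2, f3⟩ := fin2 a h
        exact mk a (opp x) f2 ⟨F', hF', f1', f1⟩ (by rw [Finset.pair_comm]; exact f3) rfl
          (by rw [qox, qov])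
    · exact mk a b hab ⟨F, hF, ha, hb⟩ hr rfl rfl
  have h1 := (Finset.card_le_card hsub).trans Finset.card_image_le
  have h2 := Finset.card_sdiff_add_card_eq_card (C3_rms hs hvx hadj)
  rw [C3_rmc hs hvx hov] at h2
  omega

end sym

theorem t_2C (h : S_LB) (h2 : VR.S_CON) (h3 : VR.S_PLUS) : S_2C := by
  intro W _ _ d hd T hT v x hvx hadj hna hL
  obtain ⟨h0, hs⟩ := hT
  have hov : x ≠ opp v := by
    rintro rfl
    obtain ⟨F, hF, h1, h2⟩ := hadj
    exact hs.2 F hF v h1 h2
  have hcyc : ∀ Z : Finset (Finset (SV W)), (∀ F ∈ Z, F.card = d) → RC d ∅ Z → IsCycle d Z :=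
    fun Z hZ hr => ⟨hZ, fun t ht => hr t ht (Finset.empty_subset _)⟩
  have hmin : MinCycle d T := by
    refine ⟨hcyc T h0.card h0.cyc, h0.ne, ?_⟩
    intro Z hZ hne hZc
    have hst : st T ∅ = T := by
      rw [st, Finset.filter_true_of_mem]
      intro F _
      exact Finset.empty_subset _
    have := h0.min ∅ Z (by simp; omega) (by rw [hst]; exact hZ) hne (fun t ht _ => hZc.2 t ht)
    rw [this, hst]
  have hl := C3_lc hL
  have hm := C3_T' h2 h3 hd hmin hs hvx hov hna hl
  have hsy := C3_sym hs hov hna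
  have hlb := h W d hd _ hm hsy
  have hv := C3_vs hmin.1 hs hvx hna
  have he := C3_eg hs hvx hadj hna hov
  have hmul := Nat.mul_le_mul_left d hv
  rw [Nat.mul_add] at hmul
  omega

end Pool.Agent.N525.CS
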