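import Pool.Agent.N525.CS.Stm

set_option autoImplicit false

/-! Edges in missing faces of dimension between `2` and `d - 2`. -/

namespace Pool.Agent.N525.CS

open Pool.Agent.N525.VR
open scoped RealInnerProductSpace

section
variable {W : Type} [Fintype W] [DecidableEq W]

theorem C4_opp_opp (x : SV W) : opp (opp x) = x := by
  unfold opp
  simp

theorem C4_opp_inj : Function.Injective (opp : SV W → SV W) := by
  intro x y h
  rw [← C4_opp_opp x, h, C4_opp_opp]

theorem C4_image_image (e : Finset (SV W)) : (e.image opp).image opp = e := by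
  rw [Finset.image_image]
  have h : (opp ∘ opp : SV W → SV W) = id := funext fun x => C4_opp_opp x
  rw [h, Finset.image_id]

theorem C4_pos_opp {d : ℕ} (q : W → E d) (x : SV W) : pos q (opp x) = - pos q x := by
  rcases x with ⟨w, b⟩
  cases b <;> simp [pos, opp]

/-- a skew-symmetric map satisfies the constraint of every pair -/
theorem C4_skew {d : ℕ} {A : E d →ₗ[ℝ] E d} (hA : Skew A) (z : E d) : ⟪z, A z⟫ = 0 := by
  have h := hA z z
  rw [real_inner_comm] at h
  linarith

theorem C4_tt {d : ℕ} {S : Finset (SV W)} {q m : W → E d} (h : TT S q m) {x y : SV W} (hx : x ∈ S)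
    (hy : y ∈ S) : ⟪pos q x - pos q y, m x.1 - m y.1⟫ = 0 := by
  obtain ⟨A, b, hA, h⟩ := h
  rw [h x hx, h y hy]
  have e : A (pos q x) + b - (A (pos q y) + b) = A (pos q x - pos q y) := by
    rw [map_sub]
    abel
  rw [e]
  exact C4_skew hA _

end

theorem t_2D (h1 : S_MAIN) (h2 : S_LK) (h3 : S_COUNT) : S_2D := by
  intro W _ _ d hd T hS hEq τ hτ3 hτd hτ hface v hv x hx hvx
  obtain ⟨hS0, hSym1, hSym2⟩ := hS
  by_contra hcon
  -- symmetric form
  have hcon2 : ¬ ∃ F ∈ T, opp v ∈ F ∧ x ∈ F := by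
    rintro ⟨F, hF, h4, h5⟩
    exact hcon ⟨F.image opp, hSym1 F hF, Finset.mem_image.2 ⟨opp v, h4, C4_opp_opp v⟩,
      Finset.mem_image_of_mem opp h5⟩
  -- the third vertex
  obtain ⟨c, hc⟩ : ((τ.erase v).erase x).Nonempty := by
    rw [← Finset.card_pos, Finset.card_erase_of_mem (Finset.mem_erase.2 ⟨hvx.symm, hx⟩),
      Finset.card_erase_of_mem hv]
    omega
  have hcx : c ≠ x := (Finset.mem_erase.1 hc).1
  have hcv : c ≠ v := (Finset.mem_erase.1 (Finset.mem_erase.1 hc).2).1
  have hcτ : c ∈ τ := (Finset.mem_erase.1 (Finset.mem_erase.1 hc).2).2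
  obtain ⟨s, hs⟩ : ∃ s, s = (τ.erase v).erase c := ⟨_, rfl⟩
  have hmem : ∀ y, y ∈ s ↔ y ≠ c ∧ y ≠ v ∧ y ∈ τ := by
    intro y
    rw [hs, Finset.mem_erase, Finset.mem_erase]
  have hscard : s.card + 2 = τ.card := by
    rw [hs, Finset.card_erase_of_mem (Finset.mem_erase.2 ⟨hcv, hcτ⟩), Finset.card_erase_of_mem hv]
    omega
  have hxs : x ∈ s := (hmem x).2 ⟨hcx.symm, hvx.symm, hx⟩
  have hsv : v ∉ s := fun h => ((hmem v).1 h).2.1 rfl
  have hsc : c ∉ s := fun h => ((hmem c).1 h).1 rfl
  have hsface : face T s := by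
    obtain ⟨F, hF, h4⟩ := hface v hv
    exact ⟨F, hF, fun y hy => h4 (Finset.mem_erase.2 ⟨((hmem y).1 hy).2.1, ((hmem y).1 hy).2.2⟩)⟩
  have hC := h2 (SV W) d T hS0 s (by omega) hsface
  -- the members of the link
  have hlk : ∀ F ∈ lk T s, ∃ F' ∈ T, s ⊆ F' ∧ F = F' \ s := by
    intro F hF
    unfold lk st at hF
    obtain ⟨F', hF', rfl⟩ := Finset.mem_image.1 hF
    rw [Finset.mem_filter] at hF'
    exact ⟨F', hF'.1, hF'.2, rfl⟩
  have hvs : ∀ y, y ∈ vs (lk T s) ↔ ∃ F' ∈ T, s ⊆ F' ∧ y ∈ F' ∧ y ∉ s := by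
    intro y
    unfold vs lk st
    simp only [Finset.mem_biUnion, Finset.mem_image, Finset.mem_filter, id]
    constructor
    · rintro ⟨F, ⟨F', ⟨h4, h5⟩, rfl⟩, h6⟩
      rw [Finset.mem_sdiff] at h6
      exact ⟨F', h4, h5, h6.1, h6.2⟩
    · rintro ⟨F', h4, h5, h6, h7⟩
      exact ⟨F' \ s, ⟨F', ⟨h4, h5⟩, rfl⟩, Finset.mem_sdiff.2 ⟨h6, h7⟩⟩
  have hvC : v ∈ vs (lk T s) := by
    rw [hvs]
    obtain ⟨F, hF, h4⟩ := hface c hcτ
    exact ⟨F, hF, fun y hy => h4 (Finset.mem_erase.2 ⟨((hmem y).1 hy).1, ((hmem y).1 hy).2.2⟩),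
      h4 (Finset.mem_erase.2 ⟨hcv.symm, hv⟩), hsv⟩
  have hcC : c ∈ vs (lk T s) := by
    rw [hvs]
    obtain ⟨F, hF, h4⟩ := hface v hv
    exact ⟨F, hF, fun y hy => h4 (Finset.mem_erase.2 ⟨((hmem y).1 hy).2.1, ((hmem y).1 hy).2.2⟩),
      h4 (Finset.mem_erase.2 ⟨hcv, hcτ⟩), hsc⟩
  -- rigidity of the join
  have hR1 : TGR d (ER (lk T s) s) (vs (lk T s) ∪ s) := by
    refine h1 W d (d - s.card) (by omega) (lk T s) s hC (by omega) ?_ ?_ ⟨v, ?_⟩
    · intro y hy
      obtain ⟨F', hF', h4, h5, h6⟩ := (hvs y).1 hy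
      exact ⟨h6, fun h7 => hSym2 F' hF' y h5 (h4 h7)⟩
    · intro y hy h7
      obtain ⟨F', hF', h4⟩ := hsface
      exact hSym2 F' hF' y (h4 hy) (h4 h7)
    · intro F hF y hy h7
      obtain ⟨F', hF', h4, rfl⟩ := hlk F hF
      exact absurd (Finset.mem_sdiff.1 h7).1 (hSym2 F' hF' y (Finset.mem_sdiff.1 hy).1)
  -- rigidity of the whole complex
  have hlk0 : lk T ∅ = T := by
    unfold lk st
    ext F
    simp
  have hR0 : TGR d (ER T ∅) (vs T ∪ ∅) := by
    have hCT := h2 (SV W) d T hS0 ∅ (by rw [Finset.card_empty]; omega) (by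
      obtain ⟨F, hF⟩ := hS0.ne
      exact ⟨F, hF, Finset.empty_subset _⟩)
    rw [hlk0, Finset.card_empty, Nat.sub_zero] at hCT
    refine h1 W d d (by omega) T ∅ hCT (by simp) (fun y _ => ⟨Finset.notMem_empty _,
      Finset.notMem_empty _⟩) (fun y hy => absurd hy (Finset.notMem_empty _)) ⟨v, ?_⟩
    intro F hF y hy h7
    exact absurd h7 (hSym2 F hF y hy)
  -- the graph
  obtain ⟨G, hG⟩ : ∃ G, G = (eg T).filter (fun e => e ≠ {v, c} ∧ e ≠ {opp v, opp c}) := ⟨_, rfl⟩
  have hGmem : ∀ e, e ∈ G ↔ (e.card = 2 ∧ ∃ F ∈ T, e ⊆ F) ∧ e ≠ {v, c} ∧ e ≠ {opp v, opp c} := by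
    intro e
    rw [hG]
    unfold eg
    simp only [Finset.mem_filter, Finset.mem_univ, true_and]
  have hpair : ({v, c} : Finset (SV W)).image opp = {opp v, opp c} := by
    rw [Finset.image_insert, Finset.image_singleton]
  have hRG : TGR d (fun x y => x ≠ y ∧ {x, y} ∈ G) (vs T) := by
    intro q hq m hm
    have hm1 : TM (ER (lk T s) s) q m := by
      intro a b hab
      obtain ⟨F, hF, ha, hb⟩ := hab
      obtain ⟨F', hF', h4, rfl⟩ := hlk F hF
      rw [Finset.sdiff_union_of_subset h4] at ha hb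
      by_cases hne : a = b
      · rw [hne, sub_self, inner_zero_left]
      · apply hm a b
        refine ⟨hne, (hGmem _).2 ⟨⟨Finset.card_pair hne, F', hF', ?_⟩, ?_, ?_⟩⟩
        · intro y hy
          rcases Finset.mem_insert.1 hy with rfl | hy
          · exact ha
          · rw [Finset.mem_singleton.1 hy]; exact hb
        · intro h5
          have hsub : ({v, c} : Finset (SV W)) ⊆ F' := by
            rw [← h5]
            intro y hy
            rcases Finset.mem_insert.1 hy with rfl | hy
            · exact ha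
            · rw [Finset.mem_singleton.1 hy]; exact hb
          apply hτ
          refine ⟨F', hF', fun y hy => ?_⟩
          by_cases hyc : y = c
          · exact hsub (by rw [hyc]; simp)
          · by_cases hyv : y = v
            · exact hsub (by rw [hyv]; simp)
            · exact h4 ((hmem y).2 ⟨hyc, hyv, hy⟩)
        · intro h5
          have hsub : ({opp v, opp c} : Finset (SV W)) ⊆ F' := by
            rw [← h5]
            intro y hy
            rcases Finset.mem_insert.1 hy with rfl | hy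
            · exact ha
            · rw [Finset.mem_singleton.1 hy]; exact hb
          exact hcon2 ⟨F', hF', hsub (by simp), h4 hxs⟩
    have hT1 := hR1 q hq m hm1
    have hvc : ⟪pos q v - pos q c, m v.1 - m c.1⟫ = 0 :=
      C4_tt hT1 (Finset.mem_union_left _ hvC) (Finset.mem_union_left _ hcC)
    have hm0 : TM (ER T ∅) q m := by
      intro a b hab
      obtain ⟨F, hF, ha, hb⟩ := hab
      rw [Finset.union_empty] at ha hb
      by_cases hne : a = b
      · rw [hne, sub_self, inner_zero_left]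
      · by_cases h5 : ({a, b} : Finset (SV W)) = {v, c}
        · have h6 : (a = v ∧ b = c) ∨ (a = c ∧ b = v) := by
            have ha' : a ∈ ({v, c} : Finset (SV W)) := by rw [← h5]; simp
            have hb' : b ∈ ({v, c} : Finset (SV W)) := by rw [← h5]; simp
            simp only [Finset.mem_insert, Finset.mem_singleton] at ha' hb'
            rcases ha' with ha' | ha' <;> rcases hb' with hb' | hb'
            · exact absurd (ha'.trans hb'.symm) hne
            · exact Or.inl ⟨ha', hb'⟩
            · exact Or.inr ⟨ha', hb'⟩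
            · exact absurd (ha'.trans hb'.symm) hne
          rcases h6 with ⟨rfl, rfl⟩ | ⟨rfl, rfl⟩
          · exact hvc
          · rw [← neg_sub, ← neg_sub (m _) (m _), inner_neg_neg]
            exact hvc
        · by_cases h6 : ({a, b} : Finset (SV W)) = {opp v, opp c}
          · have h7 : (a = opp v ∧ b = opp c) ∨ (a = opp c ∧ b = opp v) := by
              have ha' : a ∈ ({opp v, opp c} : Finset (SV W)) := by rw [← h6]; simp
              have hb' : b ∈ ({opp v, opp c} : Finset (SV W)) := by rw [← h6]; simp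
              simp only [Finset.mem_insert, Finset.mem_singleton] at ha' hb'
              rcases ha' with ha' | ha' <;> rcases hb' with hb' | hb'
              · exact absurd (ha'.trans hb'.symm) hne
              · exact Or.inl ⟨ha', hb'⟩
              · exact Or.inr ⟨ha', hb'⟩
              · exact absurd (ha'.trans hb'.symm) hne
            have e1 : (opp v).1 = v.1 := rfl
            have e2 : (opp c).1 = c.1 := rfl
            rcases h7 with ⟨rfl, rfl⟩ | ⟨rfl, rfl⟩
            · rw [C4_pos_opp, C4_pos_opp, e1, e2,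
                show - pos q v - - pos q c = - (pos q v - pos q c) by abel, inner_neg_left, hvc,
                neg_zero]
            · rw [C4_pos_opp, C4_pos_opp, e1, e2,
                show - pos q c - - pos q v = pos q v - pos q c by abel,
                ← neg_sub (m _) (m _), inner_neg_right, hvc, neg_zero]
          · apply hm a b
            refine ⟨hne, (hGmem _).2 ⟨⟨Finset.card_pair hne, F, hF, ?_⟩, h5, h6⟩⟩
            intro y hy
            rcases Finset.mem_insert.1 hy with rfl | hy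
            · exact ha
            · rw [Finset.mem_singleton.1 hy]; exact hb
    have hT0 := hR0 q hq m hm0
    rwa [Finset.union_empty] at hT0
  -- counting
  have hmvs : ∀ y, y ∈ vs T ↔ ∃ F ∈ T, y ∈ F := by
    intro y
    unfold vs
    simp
  have hcount := h3 W d G (vs T) (by omega) ?_ ?_ ?_ hRG
  · have hlt : G.card < (eg T).card := by
      apply Finset.card_lt_card
      rw [Finset.ssubset_iff_of_subset (by rw [hG]; exact Finset.filter_subset _ _)]
      refine ⟨{v, c}, ?_, fun h => ((hGmem _).1 h).2.1 rfl⟩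
      unfold eg
      rw [Finset.mem_filter]
      refine ⟨Finset.mem_univ _, Finset.card_pair hcv.symm, ?_⟩
      obtain ⟨F, hF, h4⟩ := hface x hx
      refine ⟨F, hF, fun y hy => h4 ?_⟩
      rcases Finset.mem_insert.1 hy with rfl | hy
      · exact Finset.mem_erase.2 ⟨hvx, hv⟩
      · rw [Finset.mem_singleton.1 hy]; exact Finset.mem_erase.2 ⟨hcx, hcτ⟩
    unfold Eq0 at hEq
    omega
  · intro y hy
    obtain ⟨F, hF, h4⟩ := (hmvs y).1 hy
    exact (hmvs _).2 ⟨F.image opp, hSym1 F hF, Finset.mem_image_of_mem _ h4⟩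
  · intro e he
    obtain ⟨⟨h4, F, hF, h5⟩, h6, h7⟩ := (hGmem e).1 he
    refine ⟨h4, fun y hy => (hmvs y).2 ⟨F, hF, h5 hy⟩, (hGmem _).2 ⟨⟨?_, F.image opp, hSym1 F hF,
      Finset.image_subset_image h5⟩, ?_, ?_⟩, fun y hy h8 => hSym2 F hF y (h5 hy) (h5 h8)⟩
    · rw [Finset.card_image_of_injective _ C4_opp_inj, h4]
    · intro h8
      apply h7
      rw [← hpair, ← h8, C4_image_image]
    · intro h8
      apply h6
      rw [← hpair] at h8
      have h9 := congrArg (fun e : Finset (SV W) => e.image opp) h8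
      simp only [C4_image_image] at h9
      exact h9
  · obtain ⟨F, hF⟩ := hS0.ne
    have hFc := hS0.card F hF
    have hdisj : Disjoint F (F.image opp) := by
      rw [Finset.disjoint_left]
      intro y hy h8
      obtain ⟨z, hz, rfl⟩ := Finset.mem_image.1 h8
      exact hSym2 F hF z hz hy
    have hsub : F ∪ F.image opp ⊆ vs T := by
      intro y hy
      rcases Finset.mem_union.1 hy with hy | hy
      · exact (hmvs y).2 ⟨F, hF, hy⟩
      · exact (hmvs y).2 ⟨F.image opp, hSym1 F hF, hy⟩
    have := Finset.card_le_card hsub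
    rw [Finset.card_union_of_disjoint hdisj, Finset.card_image_of_injective _ C4_opp_inj, hFc] at this
    omega

end Pool.Agent.N525.CS
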