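import Pool.Agent.N525.CS.Stm

set_option autoImplicit false

/-! Common neighbours of the ends of an edge in the equality case. -/

namespace Pool.Agent.N525.CS

open Pool.Agent.N525.VR

section aux
variable {V : Type} [Fintype V] [DecidableEq V]

lemma C5_even (X t : Finset V) (hX : X.card = t.card + 2) :
    Even ((X.image (fun y => X.erase y)).filter (fun F => t ⊆ F)).card := by
  by_cases ht : t ⊆ X
  · have h1 : (X.image (fun y => X.erase y)).filter (fun F => t ⊆ F) =
        (X \ t).image (fun y => X.erase y) := by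
      ext F
      simp only [Finset.mem_filter, Finset.mem_image, Finset.mem_sdiff]
      constructor
      · rintro ⟨⟨y, hy, rfl⟩, h⟩
        exact ⟨y, ⟨hy, fun hyt => Finset.notMem_erase y X (h hyt)⟩, rfl⟩
      · rintro ⟨y, ⟨hy, hyt⟩, rfl⟩
        exact ⟨⟨y, hy, rfl⟩, Finset.subset_erase.mpr ⟨ht, hyt⟩⟩
    have h2 : ((X \ t).image (fun y => X.erase y)).card = (X \ t).card := by
      apply Finset.card_image_of_injOn
      intro a ha b hb hab
      have ha' : a ∈ X := (Finset.mem_sdiff.mp ha).1
      exact Finset.erase_injOn X ha' (Finset.mem_sdiff.mp hb).1 hab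
    rw [h1, h2, Finset.card_sdiff_of_subset ht, hX]
    exact ⟨1, by omega⟩
  · have h1 : (X.image (fun y => X.erase y)).filter (fun F => t ⊆ F) = ∅ := by
      rw [Finset.filter_eq_empty_iff]
      intro F hF htF
      obtain ⟨y, _, rfl⟩ := Finset.mem_image.mp hF
      exact ht (htF.trans (Finset.erase_subset _ _))
    rw [h1]; simp

lemma C5_insert_erase {v : V} {F : Finset V} {y : V} (hv : v ∉ F) (hy : y ∈ F) :
    insert v (F.erase y) = (insert v F).erase y := by
  have : v ≠ y := by rintro rfl; exact hv hy
  rw [Finset.erase_insert_of_ne this]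

lemma C5_cap {v : V} {F t : Finset V} (hv : v ∉ F) (hvt : v ∈ t) (hF : F.card = t.card + 1) :
    Even ((cap v F).filter (fun G => t ⊆ G)).card := by
  have h1 : (cap v F).filter (fun G => t ⊆ G) =
      ((insert v F).image (fun y => (insert v F).erase y)).filter (fun G => t ⊆ G) := by
    ext G
    simp only [Finset.mem_filter, cap, Finset.mem_image]
    constructor
    · rintro ⟨⟨y, hy, rfl⟩, h⟩
      exact ⟨⟨y, Finset.mem_insert_of_mem hy, (C5_insert_erase hv hy).symm⟩, h⟩
    · rintro ⟨⟨y, hy, rfl⟩, h⟩
      have hyv : y ≠ v := by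
        rintro rfl
        exact Finset.notMem_erase _ _ (h hvt)
      have hyF : y ∈ F := Finset.mem_of_mem_insert_of_ne hy hyv
      exact ⟨⟨y, hyF, C5_insert_erase hv hyF⟩, h⟩
  rw [h1]
  apply C5_even
  rw [Finset.card_insert_of_notMem hv, hF]

lemma C5_other {S : Finset (Finset V)} (h : Even S.card) {a : Finset V} (ha : a ∈ S) :
    ∃ b ∈ S, b ≠ a := by
  apply Finset.exists_mem_ne
  have h0 : 0 < S.card := Finset.card_pos.mpr ⟨a, ha⟩
  obtain ⟨k, hk⟩ := h
  omega

end aux

theorem t_2B (h2A : S_2A) : S_2B := by
  intro W _ _ d hd T hSph hEq v x hvx ⟨F0, hF0, hvF0, hxF0⟩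
  obtain ⟨hS, hSym⟩ := hSph
  -- the link of the edge
  set B : Finset (Finset (SV W)) := Finset.univ.filter (fun β => β.card + 2 = d ∧ v ∉ β ∧ x ∉ β ∧
    insert v (insert x β) ∈ T) with hB
  have memB : ∀ β, β ∈ B ↔ (β.card + 2 = d ∧ v ∉ β ∧ x ∉ β ∧ insert v (insert x β) ∈ T) := by
    intro β; rw [hB, Finset.mem_filter]; simp
  -- parity
  have hpar : ∀ γ : Finset (SV W), γ.card + 3 = d → Even (B.filter (fun β => γ ⊆ β)).card := by
    intro γ hγ
    by_cases hvγ : v ∈ γ
    · have : B.filter (fun β => γ ⊆ β) = ∅ := by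
        rw [Finset.filter_eq_empty_iff]
        intro β hβ hγβ
        exact ((memB β).mp hβ).2.1 (hγβ hvγ)
      rw [this]; simp
    by_cases hxγ : x ∈ γ
    · have : B.filter (fun β => γ ⊆ β) = ∅ := by
        rw [Finset.filter_eq_empty_iff]
        intro β hβ hγβ
        exact ((memB β).mp hβ).2.2.1 (hγβ hxγ)
      rw [this]; simp
    have hc := hS.cyc (insert v (insert x γ)) (by
      rw [Finset.card_insert_of_notMem (by
        rw [Finset.mem_insert, not_or]; exact ⟨hvx, hvγ⟩), Finset.card_insert_of_notMem hxγ]
      omega) (Finset.empty_subset _)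
    have hcard : (B.filter (fun β => γ ⊆ β)).card =
        (T.filter (fun F => insert v (insert x γ) ⊆ F)).card := by
      apply Finset.card_nbij' (fun β => insert v (insert x β)) (fun F => (F.erase v).erase x)
      · intro β hβ
        rw [Finset.mem_coe, Finset.mem_filter, memB] at hβ
        rw [Finset.mem_coe, Finset.mem_filter]
        exact ⟨hβ.1.2.2.2, Finset.insert_subset_insert _ (Finset.insert_subset_insert _ hβ.2)⟩
      · intro F hF
        rw [Finset.mem_coe, Finset.mem_filter] at hF
        obtain ⟨hFT, hF⟩ := hF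
        have hvF : v ∈ F := hF (Finset.mem_insert_self _ _)
        have hxF : x ∈ F := hF (Finset.mem_insert_of_mem (Finset.mem_insert_self _ _))
        have hxF' : x ∈ F.erase v := Finset.mem_erase.mpr ⟨hvx.symm, hxF⟩
        rw [Finset.mem_coe, Finset.mem_filter, memB]
        refine ⟨⟨?_, ?_, ?_, ?_⟩, ?_⟩
        · rw [Finset.card_erase_of_mem hxF', Finset.card_erase_of_mem hvF, hS.card F hFT]
          omega
        · intro h
          exact Finset.notMem_erase v F (Finset.mem_of_mem_erase h)
        · exact Finset.notMem_erase _ _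
        · rw [Finset.insert_erase hxF', Finset.insert_erase hvF]; exact hFT
        · intro z hz
          have hzF : z ∈ F := hF (Finset.mem_insert_of_mem (Finset.mem_insert_of_mem hz))
          have hzx : z ≠ x := by rintro rfl; exact hxγ hz
          have hzv : z ≠ v := by rintro rfl; exact hvγ hz
          exact Finset.mem_erase.mpr ⟨hzx, Finset.mem_erase.mpr ⟨hzv, hzF⟩⟩
      · intro β hβ
        rw [Finset.mem_coe, Finset.mem_filter, memB] at hβ
        obtain ⟨⟨_, hv, hx, _⟩, _⟩ := hβ
        have h1 : v ∉ insert x β := by rw [Finset.mem_insert, not_or]; exact ⟨hvx, hv⟩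
        beta_reduce
        rw [Finset.erase_insert h1, Finset.erase_insert hx]
      · intro F hF
        rw [Finset.mem_coe, Finset.mem_filter] at hF
        obtain ⟨hFT, hF⟩ := hF
        have hvF : v ∈ F := hF (Finset.mem_insert_self _ _)
        have hxF : x ∈ F := hF (Finset.mem_insert_of_mem (Finset.mem_insert_self _ _))
        have hxF' : x ∈ F.erase v := Finset.mem_erase.mpr ⟨hvx.symm, hxF⟩
        beta_reduce
        rw [Finset.insert_erase hxF', Finset.insert_erase hvF]
    rw [hcard]; exact hc
  -- the vertices of the link are common neighbours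
  have hBN : ∀ β ∈ B, β ⊆ nbr T v ∩ nbr T x := by
    intro β hβ z hz
    rw [memB] at hβ
    obtain ⟨_, hv, hx, hT⟩ := hβ
    have hzv : z ≠ v := by rintro rfl; exact hv hz
    have hzx : z ≠ x := by rintro rfl; exact hx hz
    have hzF : z ∈ insert v (insert x β) := Finset.mem_insert_of_mem (Finset.mem_insert_of_mem hz)
    rw [Finset.mem_inter]
    constructor
    · rw [nbr, Finset.mem_filter]
      exact ⟨Finset.mem_univ _, hzv, _, hT, Finset.mem_insert_self _ _, hzF⟩
    · rw [nbr, Finset.mem_filter]
      exact ⟨Finset.mem_univ _, hzx, _, hT,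
        Finset.mem_insert_of_mem (Finset.mem_insert_self _ _), hzF⟩
  -- a member
  have hxF0' : x ∈ F0.erase v := Finset.mem_erase.mpr ⟨hvx.symm, hxF0⟩
  have hβ0 : (F0.erase v).erase x ∈ B := by
    rw [memB]
    refine ⟨?_, ?_, ?_, ?_⟩
    · rw [Finset.card_erase_of_mem hxF0', Finset.card_erase_of_mem hvF0, hS.card F0 hF0]
      omega
    · intro h
      exact Finset.notMem_erase v F0 (Finset.mem_of_mem_erase h)
    · exact Finset.notMem_erase _ _
    · rw [Finset.insert_erase hxF0', Finset.insert_erase hvF0]; exact hF0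
  set β0 := (F0.erase v).erase x with hβ0def
  -- another member sharing all but one vertex
  have hother : ∀ β ∈ B, ∀ w ∈ β, ∃ z, z ∉ β ∧ insert z (β.erase w) ∈ B := by
    intro β hβ w hw
    have hc : β.card + 2 = d := ((memB β).mp hβ).1
    have hcw : (β.erase w).card + 3 = d := by
      rw [Finset.card_erase_of_mem hw]
      have : 0 < β.card := Finset.card_pos.mpr ⟨w, hw⟩
      omega
    obtain ⟨β', hβ', hne⟩ := C5_other (hpar (β.erase w) hcw)
      (a := β) (Finset.mem_filter.mpr ⟨hβ, Finset.erase_subset _ _⟩)
    rw [Finset.mem_filter] at hβ'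
    obtain ⟨hβ'B, hsub⟩ := hβ'
    have hc' : β'.card + 2 = d := ((memB β').mp hβ'B).1
    have h1 : (β' \ β.erase w).card = 1 := by
      rw [Finset.card_sdiff_of_subset hsub]; omega
    obtain ⟨z, hz⟩ := Finset.card_eq_one.mp h1
    have hz' : z ∈ β' \ β.erase w := by rw [hz]; exact Finset.mem_singleton_self _
    have hβ'eq : β' = insert z (β.erase w) := by
      have := Finset.sdiff_union_of_subset hsub
      rw [hz] at this
      rw [← this]; rfl
    refine ⟨z, ?_, ?_⟩
    · intro hzβ
      have hzw : z = w := by
        by_contra hzw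
        exact (Finset.mem_sdiff.mp hz').2 (Finset.mem_erase.mpr ⟨hzw, hzβ⟩)
      apply hne
      rw [hβ'eq, hzw, Finset.insert_erase hw]
    · rw [← hβ'eq]; exact hβ'B
  by_cases hcard : d ≤ (nbr T v ∩ nbr T x).card
  · exact Or.inl hcard
  right
  set G := nbr T v ∩ nbr T x with hG
  have hβ0card : β0.card + 2 = d := ((memB β0).mp hβ0).1
  -- `G` has exactly `d - 1` elements
  have hGcard : G.card + 1 = d := by
    have hne : β0.Nonempty := by
      rw [← Finset.card_pos]; omega
    obtain ⟨w, hw⟩ := hne
    obtain ⟨z, hz, hzB⟩ := hother β0 hβ0 w hw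
    have hzG : z ∈ G := hBN _ hzB (Finset.mem_insert_self _ _)
    have h1 : insert z β0 ⊆ G := Finset.insert_subset hzG (hBN _ hβ0)
    have h2 := Finset.card_le_card h1
    rw [Finset.card_insert_of_notMem hz] at h2
    omega
  have hvG : v ∉ G := by
    intro h
    rw [hG, Finset.mem_inter, nbr, Finset.mem_filter] at h
    exact h.1.2.1 rfl
  have hxG : x ∉ G := by
    intro h
    rw [hG, Finset.mem_inter] at h
    have := h.2
    rw [nbr, Finset.mem_filter] at this
    exact this.2.1 rfl
  -- all `(d-2)`-subsets of `G` are members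
  have hform : ∀ β ∈ B, ∃ z ∈ G, β = G.erase z := by
    intro β hβ
    have hc : β.card + 2 = d := ((memB β).mp hβ).1
    have hsub : β ⊆ G := hBN β hβ
    have h1 : (G \ β).card = 1 := by
      rw [Finset.card_sdiff_of_subset hsub]; omega
    obtain ⟨z, hz⟩ := Finset.card_eq_one.mp h1
    have hz' : z ∈ G \ β := by rw [hz]; exact Finset.mem_singleton_self _
    rw [Finset.mem_sdiff] at hz'
    refine ⟨z, hz'.1, ?_⟩
    have h2 : β ⊆ G.erase z := Finset.subset_erase.mpr ⟨hsub, hz'.2⟩
    apply Finset.eq_of_subset_of_card_le h2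
    rw [Finset.card_erase_of_mem hz'.1]; omega
  have hall : ∀ w ∈ G, G.erase w ∈ B := by
    obtain ⟨z0, hz0, he0⟩ := hform β0 hβ0
    intro w hw
    by_cases hwz : w = z0
    · rw [hwz, ← he0]; exact hβ0
    · have hwβ : w ∈ β0 := by rw [he0]; exact Finset.mem_erase.mpr ⟨hwz, hw⟩
      obtain ⟨z, hz, hzB⟩ := hother β0 hβ0 w hwβ
      have hzG : z ∈ G := hBN _ hzB (Finset.mem_insert_self _ _)
      have hzz0 : z = z0 := by
        by_contra hne
        exact hz (by rw [he0]; exact Finset.mem_erase.mpr ⟨hne, hzG⟩)
      have : G.erase w = insert z (β0.erase w) := by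
        rw [he0, hzz0, Finset.erase_right_comm]
        rw [Finset.insert_erase]
        exact Finset.mem_erase.mpr ⟨Ne.symm hwz, hz0⟩
      rw [this]; exact hzB
  have hallT : ∀ y ∈ G, insert v (insert x (G.erase y)) ∈ T :=
    fun y hy => ((memB _).mp (hall y hy)).2.2.2
  by_cases hvGT : insert v G ∈ T
  · -- third alternative
    right
    set F := insert x G with hF
    have hvF : v ∉ F := by rw [hF, Finset.mem_insert, not_or]; exact ⟨hvx, hvG⟩
    have hFcard : F.card = d := by rw [hF, Finset.card_insert_of_notMem hxG]; exact hGcard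
    have hcapT : ∀ y ∈ F, insert v (F.erase y) ∈ T := by
      intro y hy
      rw [hF, Finset.mem_insert] at hy
      rcases hy with rfl | hy
      · rw [hF, Finset.erase_insert hxG]; exact hvGT
      · have hxy : x ≠ y := by rintro rfl; exact hxG hy
        rw [hF, Finset.erase_insert_of_ne hxy]
        exact hallT y hy
    have hcapsub : cap v F ⊆ st T {v} := by
      intro K hK
      rw [cap, Finset.mem_image] at hK
      obtain ⟨y, hy, rfl⟩ := hK
      rw [st, Finset.mem_filter]
      exact ⟨hcapT y hy, by
        rw [Finset.singleton_subset_iff]; exact Finset.mem_insert_self _ _⟩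
    have hFne : F.Nonempty := ⟨x, by rw [hF]; exact Finset.mem_insert_self _ _⟩
    have hcapeq : cap v F = st T {v} := by
      apply hS.min {v} (cap v F) (by rw [Finset.card_singleton]; omega) hcapsub
      · rw [cap]; exact hFne.image _
      · intro t ht hvt
        exact C5_cap hvF (Finset.singleton_subset_iff.mp hvt) (by omega)
    have hFT : F ∉ T := by
      intro hFT
      set X := insert v F with hX
      have hXcard : X.card = d + 1 := by rw [hX, Finset.card_insert_of_notMem hvF, hFcard]
      have hZT : X.image (fun y => X.erase y) = st T ∅ := by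
        apply hS.min ∅ _ (by rw [Finset.card_empty]; omega)
        · intro K hK
          rw [Finset.mem_image] at hK
          obtain ⟨y, hy, rfl⟩ := hK
          rw [st, Finset.mem_filter]
          refine ⟨?_, Finset.empty_subset _⟩
          rw [hX, Finset.mem_insert] at hy
          rcases hy with rfl | hy
          · rw [hX, Finset.erase_insert hvF]; exact hFT
          · rw [hX, ← C5_insert_erase hvF hy]; exact hcapT y hy
        · exact (Finset.insert_nonempty v F).image _
        · intro t ht _
          apply C5_even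
          omega
      have hsub : ∀ K ∈ T, K ⊆ X := by
        intro K hK
        have : K ∈ X.image (fun y => X.erase y) := by
          rw [hZT, st, Finset.mem_filter]; exact ⟨hK, Finset.empty_subset _⟩
        rw [Finset.mem_image] at this
        obtain ⟨y, _, rfl⟩ := this
        exact Finset.erase_subset _ _
      have hoX : opp v ∈ X := by
        apply hsub _ (hSym.1 F0 hF0)
        exact Finset.mem_image_of_mem _ hvF0
      have hov : opp v ≠ v := by
        intro h
        have : (opp v).2 = v.2 := by rw [h]
        rw [opp] at this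
        simp at this
      have hoF : opp v ∈ F := Finset.mem_of_mem_insert_of_ne hoX hov
      obtain ⟨y, hyF, hyo⟩ := Finset.exists_mem_ne (s := F) (by omega) (opp v)
      exact hSym.2 _ (hcapT y hyF) v (Finset.mem_insert_self _ _)
        (Finset.mem_insert_of_mem (Finset.mem_erase.mpr ⟨hyo.symm, hoF⟩))
    exact ⟨F, ⟨hFcard, hFT, fun y hy => ⟨_, hcapT y hy, Finset.subset_insert _ _⟩⟩, hvF,
      hcapeq.symm⟩
  · left
    have hfc : ∀ y ∈ G, face T (insert v (G.erase y)) := fun y hy =>
      ⟨_, hallT y hy, Finset.insert_subset_insert _ (Finset.subset_insert _ _)⟩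
    by_cases hfG : face T G
    · refine ⟨insert v G, ⟨?_, hvGT, ?_⟩, Finset.mem_insert_self _ _⟩
      · rw [Finset.card_insert_of_notMem hvG]; exact hGcard
      · intro y hy
        rw [Finset.mem_insert] at hy
        rcases hy with rfl | hy
        · rw [Finset.erase_insert hvG]; exact hfG
        · rw [← C5_insert_erase hvG hy]; exact hfc y hy
    · exfalso
      have := h2A W d hd T ⟨hS, hSym⟩ v G hvG hGcard hfc hvGT hfG
      rw [Eq0] at hEq
      omega

end Pool.Agent.N525.CS
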