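import Pool.Agent.N525.CS.Stm

set_option autoImplicit false

/-!
# A second missing facet gives a smaller part
-/

namespace Pool.Agent.N525.CS

open Pool.Agent.N525.VR

set_option linter.unusedSectionVars false

section
variable {V : Type} [Fintype V] [DecidableEq V]

/-- double counting of the pairs (vertex, member) over a set with two elements less -/
lemma C7_double (d : ℕ) (X : Finset (Finset V)) (hX : ∀ G ∈ X, G.card = d) (t : Finset V)
    (ht : t.card + 2 = d) :
    Even (∑ a ∈ (Finset.univ \ t), (X.filter (fun G => insert a t ⊆ G)).card) := by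
  have h1 : ∑ a ∈ (Finset.univ \ t), (X.filter (fun G => insert a t ⊆ G)).card =
      ∑ G ∈ X.filter (fun G => t ⊆ G), (G \ t).card := by
    have e1 : ∀ a ∈ (Finset.univ \ t), (X.filter (fun G => insert a t ⊆ G)).card =
        ∑ G ∈ X.filter (fun G => t ⊆ G), if a ∈ G then 1 else 0 := by
      intro a _
      rw [← Finset.card_filter, Finset.filter_filter]
      congr 1
      apply Finset.filter_congr
      intro G _
      rw [Finset.insert_subset_iff]
      tauto
    rw [Finset.sum_congr rfl e1, Finset.sum_comm]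
    apply Finset.sum_congr rfl
    intro G _
    rw [← Finset.card_filter]
    congr 1
    ext a
    simp [and_comm]
  rw [h1]
  have h2 : ∀ G ∈ X.filter (fun G => t ⊆ G), (G \ t).card = 2 := by
    intro G hG
    rw [Finset.mem_filter] at hG
    have := Finset.card_sdiff_add_card_eq_card hG.2
    have := hX G hG.1
    omega
  rw [Finset.sum_congr rfl h2]
  simp

/-- parity of the boundary at two ridges of one simplex -/
lemma C7_two (d : ℕ) (X : Finset (Finset V)) (hX : ∀ G ∈ X, G.card = d) (F : Finset V)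
    (hF : F.card = d)
    (hev : ∀ r : Finset V, r.card + 1 = d → ¬ r ⊆ F → Even (X.filter (fun G => r ⊆ G)).card)
    (y z : V) (hy : y ∈ F) (hz : z ∈ F) (hyz : y ≠ z)
    (ho : Odd (X.filter (fun G => F.erase y ⊆ G)).card) :
    Odd (X.filter (fun G => F.erase z ⊆ G)).card := by
  set t := (F.erase y).erase z with htdef
  have hzy : z ∈ F.erase y := Finset.mem_erase.2 ⟨hyz.symm, hz⟩
  have ht : t.card + 2 = d := by
    have h1 := Finset.card_erase_add_one hzy
    have h2 := Finset.card_erase_add_one hy
    rw [← htdef] at h1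
    omega
  have hd := C7_double d X hX t ht
  have hyt : y ∉ t := by simp [htdef]
  have hzt : z ∉ t := by simp [htdef]
  have e1 : insert z t = F.erase y := by
    rw [htdef, Finset.insert_erase hzy]
  have e2 : insert y t = F.erase z := by
    have : t = (F.erase z).erase y := by rw [htdef, Finset.erase_right_comm]
    rw [this, Finset.insert_erase (Finset.mem_erase.2 ⟨hyz, hy⟩)]
  have hs : (Finset.univ \ t) = insert y (insert z ((Finset.univ \ t).filter
      (fun a => a ≠ y ∧ a ≠ z))) := by
    ext a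
    simp only [Finset.mem_sdiff, Finset.mem_univ, true_and, Finset.mem_insert, Finset.mem_filter]
    constructor
    · intro h
      by_cases h1 : a = y
      · exact Or.inl h1
      by_cases h2 : a = z
      · exact Or.inr (Or.inl h2)
      exact Or.inr (Or.inr ⟨h, h1, h2⟩)
    · rintro (h | h | h)
      · rw [h]; exact hyt
      · rw [h]; exact hzt
      · exact h.1
  rw [hs, Finset.sum_insert (by simp [hyz]), Finset.sum_insert (by simp), e1, e2] at hd
  have hrest : Even (∑ a ∈ (Finset.univ \ t).filter (fun a => a ≠ y ∧ a ≠ z),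
      (X.filter (fun G => insert a t ⊆ G)).card) := by
    apply Finset.even_sum
    intro a ha
    simp only [Finset.mem_filter, Finset.mem_sdiff, Finset.mem_univ, true_and] at ha
    apply hev
    · rw [Finset.card_insert_of_notMem ha.1]; omega
    · intro hsub
      have haF : a ∈ F := hsub (Finset.mem_insert_self _ _)
      exact ha.1 (Finset.mem_erase.2 ⟨ha.2.2, Finset.mem_erase.2 ⟨ha.2.1, haF⟩⟩)
  rw [Nat.even_add, Nat.even_add] at hd
  rw [← Nat.not_even_iff_odd] at ho ⊢
  tauto

/-- a `(d-1)`-subset of a `d`-set -/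
lemma C7_ridge (d : ℕ) (F r : Finset V) (hF : F.card = d) (hr : r.card + 1 = d) (h : r ⊆ F) :
    ∃ y ∈ F, r = F.erase y := by
  have h1 : (F \ r).card = 1 := by
    have := Finset.card_sdiff_add_card_eq_card h
    omega
  obtain ⟨y, hy⟩ := Finset.card_eq_one.1 h1
  have hyF : y ∈ F \ r := by rw [hy]; exact Finset.mem_singleton_self y
  rw [Finset.mem_sdiff] at hyF
  refine ⟨y, hyF.1, ?_⟩
  apply Finset.eq_of_subset_of_card_le
  · intro x hx
    exact Finset.mem_erase.2 ⟨fun e => hyF.2 (e ▸ hx), h hx⟩
  · have := Finset.card_erase_add_one hyF.1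
    omega

/-- the members of a set with even count at a ridge: none or all -/
lemma C7_all (d : ℕ) (T : Finset (Finset V)) (hT : Sph0 d T) (A : Finset (Finset V)) (hA : A ⊆ T)
    (r : Finset V) (hr : r.card + 1 = d) (he : Even (A.filter (fun G => r ⊆ G)).card) :
    A.filter (fun G => r ⊆ G) = ∅ ∨ A.filter (fun G => r ⊆ G) = T.filter (fun G => r ⊆ G) := by
  rcases Finset.eq_empty_or_nonempty (A.filter (fun G => r ⊆ G)) with h | h
  · exact Or.inl h
  right
  refine hT.min r _ (by omega) ?_ h ?_
  · intro G hG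
    rw [Finset.mem_filter] at hG
    exact Finset.mem_filter.2 ⟨hA hG.1, hG.2⟩
  · intro t ht hrt
    have e : r = t := Finset.eq_of_subset_of_card_le hrt (by omega)
    rw [← e, Finset.filter_filter]
    simpa using he

/-- closed subsets are trivial -/
lemma C7_min (d : ℕ) (hd : 0 < d) (T : Finset (Finset V)) (hT : Sph0 d T) (X : Finset (Finset V))
    (hX : X ⊆ T)
    (he : ∀ r : Finset V, r.card + 1 = d → Even (X.filter (fun G => r ⊆ G)).card)
    (hne : ∃ G ∈ T, G ∉ X) : X = ∅ := by
  rcases Finset.eq_empty_or_nonempty X with h | h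
  · exact h
  exfalso
  have h1 : X = st T ∅ := hT.min ∅ X (by simpa using hd) (by
    intro G hG
    exact Finset.mem_filter.2 ⟨hX hG, Finset.empty_subset _⟩) h (fun t ht _ => he t ht)
  obtain ⟨G, hG, hGX⟩ := hne
  exact hGX (by rw [h1]; exact Finset.mem_filter.2 ⟨hG, Finset.empty_subset _⟩)

/-- counts of complements -/
lemma C7_sdiff (A T : Finset (Finset V)) (hA : A ⊆ T) (r : Finset V) :
    ((T \ A).filter (fun G => r ⊆ G)).card + (A.filter (fun G => r ⊆ G)).card =
      (T.filter (fun G => r ⊆ G)).card := by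
  rw [← Finset.card_union_of_disjoint, ← Finset.filter_union, Finset.sdiff_union_of_subset hA]
  exact Finset.disjoint_filter_filter Finset.sdiff_disjoint

end

theorem t_CAP3 (h : S_CAP2) : S_CAP3 := by
  intro W _ _ d hd T hT F hF A hAT hA hopp w hw hwF F' hF' hwF'
  obtain ⟨hc1, -, -⟩ := h W d hd T hT F hF A hAT hA hopp
  have hS := hT.1
  -- the part cut off by `F'`
  obtain ⟨A1, hA1, hb⟩ := hS.fill ∅ F' (by simp) (Finset.empty_subset _) hF'.1 (by
    intro r hr _ hrc
    obtain ⟨y, hy, e⟩ := C7_ridge d F' r hF'.1 hrc hr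
    rw [e]
    exact hF'.2.2 y hy)
  have hA1T : A1 ⊆ T := fun G hG => (Finset.mem_filter.1 (hA1 hG)).1
  have hb' : ∀ r : Finset (SV W), r.card + 1 = d →
      (Odd (A1.filter (fun G => r ⊆ G)).card ↔ r ⊆ F') := fun r hr => hb r (Finset.empty_subset _) hr
  -- the vertices of `F'` are vertices of `A`
  have hvs : ∀ y ∈ F', y ∈ vs A := by
    intro y hy
    by_cases hyw : y = w
    · rw [hyw]; exact hw
    have h3 : (({w, y} : Finset (SV W))).card ≤ 2 := Finset.card_le_two
    obtain ⟨z, hz⟩ : (F' \ {w, y}).Nonempty := by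
      rw [← Finset.card_pos]
      have := Finset.le_card_sdiff ({w, y} : Finset (SV W)) F'
      have := hF'.1
      omega
    rw [Finset.mem_sdiff] at hz
    simp only [Finset.mem_insert, Finset.mem_singleton, not_or] at hz
    obtain ⟨G, hG, hsub⟩ := hF'.2.2 z hz.1
    have hwG : w ∈ G := hsub (Finset.mem_erase.2 ⟨fun e => hz.2.1 e.symm, hwF'⟩)
    have hyG : y ∈ G := hsub (Finset.mem_erase.2 ⟨fun e => hz.2.2 e.symm, hy⟩)
    have hGA : G ∈ A := hc1 w hw hwF (Finset.mem_filter.2 ⟨hG, by simpa using hwG⟩)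
    exact Finset.mem_biUnion.2 ⟨G, hGA, hyG⟩
  -- even counts
  set X := A1 \ A with hXdef
  have hXT : X ⊆ T := Finset.sdiff_subset.trans hA1T
  have hev : ∀ r : Finset (SV W), r.card + 1 = d → ¬ r ⊆ F →
      Even (X.filter (fun G => r ⊆ G)).card := by
    intro r hr hrF
    have heA : Even (A.filter (fun G => r ⊆ G)).card := by
      rw [← Nat.not_odd_iff_even, hA r hr]; exact hrF
    by_cases hrF' : r ⊆ F'
    · obtain ⟨y, hy, hyF⟩ := Finset.not_subset.1 hrF
      have h0 : X.filter (fun G => r ⊆ G) = ∅ := by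
        apply Finset.filter_eq_empty_iff.2
        intro G hG hrG
        rw [hXdef, Finset.mem_sdiff] at hG
        exact hG.2 (hc1 y (hvs y (hrF' hy)) hyF (Finset.mem_filter.2 ⟨hA1T hG.1, by
          simpa using hrG hy⟩))
      rw [h0]; simp
    · have heA1 : Even (A1.filter (fun G => r ⊆ G)).card := by
        rw [← Nat.not_odd_iff_even, hb' r hr]; exact hrF'
      have heT : Even (T.filter (fun G => r ⊆ G)).card := hS.cyc r hr (Finset.empty_subset _)
      have e0 : X.filter (fun G => r ⊆ G) =
          A1.filter (fun G => r ⊆ G) \ A.filter (fun G => r ⊆ G) := by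
        ext G
        simp only [hXdef, Finset.mem_filter, Finset.mem_sdiff]
        tauto
      rw [e0]
      rcases C7_all d T hS A1 hA1T r hr heA1 with h1 | h1
      · rw [h1]; simp
      rcases C7_all d T hS A hAT r hr heA with h2 | h2
      · rw [h1, h2]; simpa using heT
      · rw [h1, h2]; simp
  have hAne : ∃ G ∈ T, G ∈ A := by
    obtain ⟨G, hG, -⟩ := Finset.mem_biUnion.1 hw
    exact ⟨G, hAT hG, hG⟩
  -- conclusion
  suffices hmain : ∃ A', A' ⊆ A ∧
      ∀ r : Finset (SV W), r.card + 1 = d → (Odd (A'.filter (fun G => r ⊆ G)).card ↔ r ⊆ F') by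
    obtain ⟨A', h1, h2⟩ := hmain
    refine ⟨A', h1, Finset.card_lt_card (Finset.ssubset_iff_subset_ne.2 ⟨h1, ?_⟩), h2,
      fun G hG hG' => hopp G (h1 hG) (h1 hG')⟩
    intro e
    obtain ⟨z, hz⟩ : (F' \ {w}).Nonempty := by
      rw [← Finset.card_pos]
      have k1 := Finset.le_card_sdiff ({w} : Finset (SV W)) F'
      have k2 := hF'.1
      rw [Finset.card_singleton] at k1
      omega
    rw [Finset.mem_sdiff, Finset.mem_singleton] at hz
    have hc : (F'.erase z).card + 1 = d := by
      rw [Finset.card_erase_add_one hz.1, hF'.1]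
    have h3 := (h2 _ hc).2 (Finset.erase_subset _ _)
    rw [e, hA _ hc] at h3
    exact hwF (h3 (Finset.mem_erase.2 ⟨fun e => hz.2 e.symm, hwF'⟩))
  by_cases hcase : ∃ r : Finset (SV W), r.card + 1 = d ∧ Odd (X.filter (fun G => r ⊆ G)).card
  · -- all ridges of `F` have odd counts
    obtain ⟨r0, hr0, ho0⟩ := hcase
    have hr0F : r0 ⊆ F := by
      by_contra hcon
      exact (Nat.not_even_iff_odd.2 ho0) (hev r0 hr0 hcon)
    obtain ⟨y0, hy0, e0⟩ := C7_ridge d F r0 hF.1 hr0 hr0F
    have hall : ∀ r : Finset (SV W), r.card + 1 = d → r ⊆ F →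
        Odd (X.filter (fun G => r ⊆ G)).card := by
      intro r hr hrF
      obtain ⟨y, hy, e⟩ := C7_ridge d F r hF.1 hr hrF
      by_cases hyy : y = y0
      · rw [e, hyy, ← e0]; exact ho0
      · rw [e]
        rw [e0] at ho0
        exact C7_two d X (fun G hG => hS.card G (hXT hG)) F hF.1 hev y0 y hy0 hy
          (fun e => hyy e.symm) ho0
    have hY : (T \ A) \ X = ∅ := by
      apply C7_min d (by omega) T hS _ (Finset.sdiff_subset.trans Finset.sdiff_subset)
      · intro r hr
        have hXB : X ⊆ T \ A := by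
          intro G hG
          rw [hXdef, Finset.mem_sdiff] at hG
          exact Finset.mem_sdiff.2 ⟨hA1T hG.1, hG.2⟩
        have k1 := C7_sdiff X (T \ A) hXB r
        have k2 := C7_sdiff A T hAT r
        have k3 : Even (T.filter (fun G => r ⊆ G)).card := hS.cyc r hr (Finset.empty_subset _)
        by_cases hrF : r ⊆ F
        · have k4 := hall r hr hrF
          have k5 := (hA r hr).2 hrF
          rw [Nat.even_iff] at k3 ⊢
          rw [Nat.odd_iff] at k4 k5
          omega
        · have k4 := hev r hr hrF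
          have k5 : ¬ Odd (A.filter (fun G => r ⊆ G)).card := fun hh => hrF ((hA r hr).1 hh)
          rw [Nat.even_iff] at k3 k4 ⊢
          rw [Nat.odd_iff] at k5
          omega
      · obtain ⟨G, hG, hGA⟩ := hAne
        exact ⟨G, hG, by simp [hGA]⟩
    refine ⟨T \ A1, ?_, ?_⟩
    · intro G hG
      rw [Finset.mem_sdiff] at hG
      by_contra hGA
      have : G ∈ (T \ A) \ X := by
        rw [Finset.mem_sdiff, Finset.mem_sdiff, hXdef, Finset.mem_sdiff]
        exact ⟨⟨hG.1, hGA⟩, fun hh => hG.2 hh.1⟩
      rw [hY] at this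
      simp at this
    · intro r hr
      have k2 := C7_sdiff A1 T hA1T r
      have k3 : Even (T.filter (fun G => r ⊆ G)).card := hS.cyc r hr (Finset.empty_subset _)
      rw [← hb' r hr, Nat.odd_iff, Nat.odd_iff]
      rw [Nat.even_iff] at k3
      omega
  · refine ⟨A1, ?_, hb'⟩
    have hX0 : X = ∅ := by
      apply C7_min d (by omega) T hS X hXT
      · intro r hr
        rw [← Nat.not_odd_iff_even]
        exact fun hh => hcase ⟨r, hr, hh⟩
      · obtain ⟨G, hG, hGA⟩ := hAne
        exact ⟨G, hG, by simp [hXdef, hGA]⟩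
    intro G hG
    by_contra hGA
    have : G ∈ X := by rw [hXdef, Finset.mem_sdiff]; exact ⟨hG, hGA⟩
    rw [hX0] at this
    simp at this

end Pool.Agent.N525.CS
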