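import Pool.Agent.N525.CS.B5
import Pool.Agent.N525.VR.C5

set_option autoImplicit false

/-! A missing facet implies a symmetric stacking, in the equality case (helper525). -/

namespace Pool.Agent.N525.CS

open Pool.Agent.N525.VR

/-- a symmetric sphere is not the boundary of a simplex -/
theorem C8_nosimplex {W : Type} [Fintype W] [DecidableEq W] (d : ℕ) (hd : 3 ≤ d)
    (T : Finset (Finset (SV W))) (hT : Sph d T) (τ : Finset (SV W)) (hτ : τ.card = d + 1)
    (h : ∀ y ∈ τ, face T (τ.erase y)) : False := by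
  have hsub : τ.powersetCard d ⊆ T := by
    intro F hF
    obtain ⟨hF1, hF2⟩ := Finset.mem_powersetCard.1 hF
    have hc : (τ \ F).card = 1 := by
      rw [Finset.card_sdiff_of_subset hF1, hτ, hF2]; omega
    obtain ⟨y, hy⟩ := Finset.card_eq_one.1 hc
    have hyτ : y ∈ τ \ F := by rw [hy]; simp
    obtain ⟨hy1, hy2⟩ := Finset.mem_sdiff.1 hyτ
    have hFe : F ⊆ τ.erase y := fun z hz =>
      Finset.mem_erase.2 ⟨fun hzy => hy2 (hzy ▸ hz), hF1 hz⟩
    obtain ⟨G, hG, hGs⟩ := h y hy1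
    have : F = G := Finset.eq_of_subset_of_card_le (hFe.trans hGs) (by rw [hT.1.card G hG, hF2])
    rw [this]; exact hG
  have hcyc := C5_ps_cycle (V := SV W) d (by omega) τ hτ
  have hne : (τ.powersetCard d).Nonempty := Finset.powersetCard_nonempty.2 (by omega)
  have heq : τ.powersetCard d = st T ∅ := by
    refine hT.1.min ∅ _ (by simp; omega) ?_ hne ?_
    · intro F hF
      exact Finset.mem_filter.2 ⟨hsub hF, Finset.empty_subset _⟩
    · intro t ht _
      exact hcyc.2 t ht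
  obtain ⟨w, hw⟩ : τ.Nonempty := Finset.card_pos.1 (by omega)
  have hin : ∀ F ∈ T, F ⊆ τ := by
    intro F hF
    have : F ∈ st T ∅ := Finset.mem_filter.2 ⟨hF, Finset.empty_subset _⟩
    rw [← heq] at this
    exact (Finset.mem_powersetCard.1 this).1
  have hex : ∀ x ∈ τ, ∀ y ∈ τ, ∃ F ∈ T, x ∈ F ∧ y ∈ F := by
    intro x hx y hy
    have : 2 < τ.card := by omega
    have hne2 : (τ \ {x, y}).Nonempty := by
      rw [← Finset.card_pos]
      have h1 := Finset.le_card_sdiff {x, y} τ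
      have h2 : ({x, y} : Finset (SV W)).card ≤ 2 := Finset.card_le_two
      omega
    obtain ⟨z, hz⟩ := hne2
    obtain ⟨hz1, hz2⟩ := Finset.mem_sdiff.1 hz
    simp only [Finset.mem_insert, Finset.mem_singleton, not_or] at hz2
    refine ⟨τ.erase z, hsub (Finset.mem_powersetCard.2 ⟨Finset.erase_subset _ _, by
      rw [Finset.card_erase_of_mem hz1]; omega⟩), Finset.mem_erase.2 ⟨fun h => hz2.1 h.symm, hx⟩,
      Finset.mem_erase.2 ⟨fun h => hz2.2 h.symm, hy⟩⟩
  obtain ⟨F, hF, hwF, _⟩ := hex w hw w hw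
  have hw' : opp w ∈ τ := hin _ (hT.2.1 F hF) (Finset.mem_image_of_mem _ hwF)
  obtain ⟨F', hF', h1, h2⟩ := hex w hw (opp w) hw'
  exact hT.2.2 F' hF' w h1 h2

/-- the link condition and the common neighbours contradict equality -/
theorem C8_contra {W : Type} [Fintype W] [DecidableEq W] (h5 : S_2C) (h6 : S_2D) (d : ℕ)
    (hd : 4 ≤ d) (T : Finset (Finset (SV W))) (hT : Sph d T) (hE : Eq0 d T) (w x : SV W)
    (hwx : w ≠ x) (hF : ∃ F ∈ T, w ∈ F ∧ x ∈ F) (hno : ¬ ∃ F ∈ T, w ∈ F ∧ opp x ∈ F)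
    (hMF : ∀ F, MF d T F → w ∉ F) (hc : d ≤ (nbr T w ∩ nbr T x).card) : False := by
  have h := h5 W d (by omega) T hT w x hwx hF hno ?_
  · unfold Eq0 at hE
    omega
  · intro τ hw hx hτ
    by_contra hcon
    push Not at hcon
    have hτ3 : 3 ≤ τ.card := by
      by_contra hlt
      have hsub : ({w, x} : Finset (SV W)) ⊆ τ := by
        intro z hz
        rcases Finset.mem_insert.1 hz with rfl | hz
        · exact hw
        · rw [Finset.mem_singleton.1 hz]; exact hx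
      have h2 : ({w, x} : Finset (SV W)).card = 2 := Finset.card_pair hwx
      have : ({w, x} : Finset (SV W)) = τ :=
        Finset.eq_of_subset_of_card_le hsub (by omega)
      apply hτ
      obtain ⟨F, hF1, hF2, hF3⟩ := hF
      refine ⟨F, hF1, ?_⟩
      rw [← this]
      intro z hz
      rcases Finset.mem_insert.1 hz with rfl | hz
      · exact hF2
      · rw [Finset.mem_singleton.1 hz]; exact hF3
    have hτd : τ.card ≤ d + 1 := by
      obtain ⟨G, hG, hGs⟩ := hcon w hw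
      have := Finset.card_le_card hGs
      rw [Finset.card_erase_of_mem hw, hT.1.card G hG] at this
      omega
    rcases Nat.lt_or_ge τ.card d with h1 | h1
    · obtain ⟨F, hF1, hF2, hF3⟩ := h6 W d hd T hT hE τ hτ3 h1 hτ hcon w hw x hx hwx
      exact hno ⟨F, hF1, hF2, hF3⟩
    · rcases Nat.lt_or_ge d τ.card with h2 | h2
      · exact C8_nosimplex d (by omega) T hT τ (by omega) hcon
      · have hτeq : τ.card = d := by omega
        refine hMF τ ⟨hτeq, ?_, hcon⟩ hw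
        intro hmem
        exact hτ ⟨τ, hmem, Finset.Subset.refl _⟩

theorem t_INNER (h1 : S_CAP) (h2 : S_CAP2) (h3 : S_CAP3) (h4 : S_2B) (h5 : S_2C) (h6 : S_2D) :
    S_INNER := by
  classical
  intro W _ _ d hd T hT hE hMF
  obtain ⟨F1, hF1⟩ := hMF
  let Q : Finset (Finset (SV W)) → Prop := fun A => ∃ F, MF d T F ∧
    (∀ r : Finset (SV W), r.card + 1 = d → (Odd (A.filter (fun G => r ⊆ G)).card ↔ r ⊆ F)) ∧
    ∀ G ∈ A, G.image opp ∉ A
  have hne : (T.powerset.filter Q).Nonempty := by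
    obtain ⟨A, hA1, hA2, hA3⟩ := h1 W d (by omega) T hT F1 hF1
    exact ⟨A, Finset.mem_filter.2 ⟨Finset.mem_powerset.2 hA1, F1, hF1, hA2, hA3⟩⟩
  obtain ⟨A, hA, hmin⟩ := Finset.exists_min_image (T.powerset.filter Q) Finset.card hne
  obtain ⟨hA1, F, hF, hA2, hA3⟩ := Finset.mem_filter.1 hA
  rw [Finset.mem_powerset] at hA1
  obtain ⟨ha, hb, w, hwA, hwF⟩ := h2 W d (by omega) T hT F hF A hA1 hA2 hA3
  have hnoMF : ∀ F', MF d T F' → w ∉ F' := by
    intro F' hF' hw
    obtain ⟨A', hs, hc, h7, h8⟩ := h3 W d (by omega) T hT F hF A hA1 hA2 hA3 w hwA hwF F' hF' hw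
    have := hmin A' (Finset.mem_filter.2 ⟨Finset.mem_powerset.2 (hs.trans hA1), F', hF', h7, h8⟩)
    omega
  obtain ⟨G, hG, hwG⟩ := (B5_mem_vs A w).1 hwA
  have hGd := hT.1.card G (hA1 hG)
  obtain ⟨x, hxG, hxw⟩ := Finset.exists_mem_ne (by omega : 1 < G.card) w
  have hxA : x ∈ vs A := (B5_mem_vs A x).2 ⟨G, hG, hxG⟩
  have hno : ¬ ∃ F ∈ T, w ∈ F ∧ opp x ∈ F := by
    rintro ⟨F', hF', h7, h8⟩
    have : F' ∈ A := ha w hwA hwF (Finset.mem_filter.2 ⟨hF', by simpa using h7⟩)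
    exact hb x hxA ((B5_mem_vs A _).2 ⟨F', this, h8⟩)
  rcases h4 W d hd T hT hE w x hxw.symm ⟨G, hA1 hG, hwG, hxG⟩ with h7 | ⟨F', hF', h7⟩ |
    ⟨F', hF', h7, h8⟩
  · exact (C8_contra h5 h6 d hd T hT hE w x hxw.symm ⟨G, hA1 hG, hwG, hxG⟩ hno hnoMF h7).elim
  · exact absurd h7 (hnoMF F' hF')
  · exact ⟨w, F', hF', h7, h8⟩

end Pool.Agent.N525.CS
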