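import Pool.Agent.N525.CS.Stm

set_option autoImplicit false
set_option linter.unusedSectionVars false

/-! C9: a sphere without missing facets is the cross-polytope, in the equality case (helper607) -/

namespace Pool.Agent.N525.CS

open Pool.Agent.N525.VR
open Finset

section C9
variable {W : Type} [Fintype W] [DecidableEq W]

omit [Fintype W] [DecidableEq W] in
lemma C9_opp_opp (x : SV W) : opp (opp x) = x := by
  simp [opp]

omit [Fintype W] [DecidableEq W] in
lemma C9_fst {x y : SV W} (h : y.1 = x.1) : y = x ∨ y = opp x := by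
  obtain ⟨a, b⟩ := x
  obtain ⟨c, e⟩ := y
  simp only at h
  subst h
  cases b <;> cases e <;> simp [opp]

omit [Fintype W] [DecidableEq W] in
lemma C9_opp_ne (x : SV W) : opp x ≠ x := by
  intro h
  have := congrArg Prod.snd h
  simp [opp] at this

lemma C9_inj {d : ℕ} {F : Finset (SV W)} {O : Finset W} (hF : F.card = d) (hO : O.card = d)
    (h : F.image Prod.fst = O) : Set.InjOn Prod.fst (F : Set (SV W)) :=
  card_image_iff.1 (by rw [h, hF, hO])

lemma C9_ins {d : ℕ} {t F : Finset (SV W)} (hF : F.card = d) (ht : t.card + 1 = d) (htF : t ⊆ F)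
    {x : SV W} (hx : x ∈ F) (hxt : x ∉ t) : insert x t = F :=
  eq_of_subset_of_card_le (insert_subset hx htF) (by rw [card_insert_of_notMem hxt, hF, ht])

lemma C9_key {d : ℕ} {O : Finset W} {t F G : Finset (SV W)} (hO : O.card = d) (hF : F.card = d)
    (hFO : F.image Prod.fst = O) (hG : G.card = d) (hGO : G.image Prod.fst = O)
    (ht : t.card + 1 = d) (htF : t ⊆ F) (htG : t ⊆ G) {x : SV W} (hx : x ∈ F) (hxt : x ∉ t) :
    G = insert x t ∨ G = insert (opp x) t := by
  have h1 : ∃ y ∈ G, y ∉ t := by
    by_contra hcon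
    push Not at hcon
    have := card_le_card (show G ⊆ t from hcon)
    omega
  obtain ⟨y, hy, hyt⟩ := h1
  have h2 : insert y t = G := C9_ins hG ht htG hy hyt
  have h3 : insert x t = F := C9_ins hF ht htF hx hxt
  have h4 : y.1 ∈ F.image Prod.fst := by
    rw [hFO, ← hGO]
    exact mem_image_of_mem _ hy
  obtain ⟨z, hz, hzy⟩ := mem_image.1 h4
  have h5 : y.1 = x.1 := by
    rw [← h3, mem_insert] at hz
    rcases hz with rfl | hz
    · exact hzy.symm
    · exfalso
      have h6 := C9_inj hG hO hGO (mem_coe.2 (htG hz)) (mem_coe.2 hy) hzy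
      exact hyt (h6 ▸ hz)
  rcases C9_fst h5 with rfl | rfl
  · exact Or.inl h2.symm
  · exact Or.inr h2.symm

/-- all transversals of a set of `d` antipodal pairs form a cycle -/
lemma C9_cyc {d : ℕ} {O : Finset W} (hO : O.card = d) (Y : Finset (Finset (SV W)))
    (hY : ∀ F, F ∈ Y ↔ F.card = d ∧ F.image Prod.fst = O) : RC d ∅ Y := by
  intro t ht _
  by_cases hne : (Y.filter (fun F => t ⊆ F)) = ∅
  · rw [hne, card_empty]
    exact Even.zero
  · obtain ⟨F, hF⟩ := nonempty_iff_ne_empty.2 hne
    rw [mem_filter, hY] at hF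
    obtain ⟨⟨hFc, hFO⟩, htF⟩ := hF
    have h1 : ∃ x ∈ F, x ∉ t := by
      by_contra hcon
      push Not at hcon
      have := card_le_card (show F ⊆ t from hcon)
      omega
    obtain ⟨x, hx, hxt⟩ := h1
    have h3 : insert x t = F := C9_ins hFc ht htF hx hxt
    have hinj := C9_inj hFc hO hFO
    have hox : opp x ∉ F := by
      intro h
      have := hinj (mem_coe.2 h) (mem_coe.2 hx) rfl
      exact C9_opp_ne x this
    have hoxt : opp x ∉ t := fun h => hox (htF h)
    have h4 : (Y.filter (fun F => t ⊆ F)) = {insert x t, insert (opp x) t} := by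
      ext G
      rw [mem_filter, hY, mem_insert, mem_singleton]
      constructor
      · rintro ⟨⟨hG, hGO⟩, htG⟩
        exact C9_key hO hFc hFO hG hGO ht htF htG hx hxt
      · rintro (rfl | rfl)
        · rw [h3]
          exact ⟨⟨hFc, hFO⟩, htF⟩
        · refine ⟨⟨?_, ?_⟩, subset_insert _ _⟩
          · rw [card_insert_of_notMem hoxt, ht]
          · rw [image_insert, ← hFO, ← h3, image_insert]
            rfl
    rw [h4, card_pair]
    · exact even_two
    · intro h
      have h5 : opp x ∈ insert x t := by
        rw [h]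
        exact mem_insert_self _ _
      rw [h3] at h5
      exact hox h5

end C9

theorem t_PRIME (h4 : S_2B) (h5 : S_2C) (h6 : S_2D) : S_PRIME := by
  intro W _ _ d hd T hS hE hM
  obtain ⟨hS0, hsym1, hsym2⟩ := hS
  have hMF : ∀ F, ¬ MF d T F := fun F h => hM ⟨F, h⟩
  have hst : st T ∅ = T := by
    unfold st
    rw [filter_true_of_mem fun F _ => empty_subset F]
  -- faces with `d` elements are facets
  have hface : ∀ s : Finset (SV W), face T s → s.card = d → s ∈ T := by
    rintro s ⟨F, hF, hs⟩ hc
    have : s = F := eq_of_subset_of_card_le hs (by rw [hS0.card F hF, hc])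
    rwa [this]
  -- step 1
  have step1 : ∀ v x : SV W, v ≠ x → (∃ F ∈ T, v ∈ F ∧ x ∈ F) → ∃ F ∈ T, v ∈ F ∧ opp x ∈ F := by
    intro v x hvx hF
    by_contra hcon
    have h1 : d ≤ (nbr T v ∩ nbr T x).card := by
      rcases h4 W d hd T ⟨hS0, hsym1, hsym2⟩ hE v x hvx hF with h | ⟨F, h, -⟩ | ⟨F, h, -⟩
      · exact h
      · exact absurd h (hMF F)
      · exact absurd h (hMF F)
    have h2 : ∀ τ : Finset (SV W), v ∈ τ → x ∈ τ → ¬ face T τ → ∃ y ∈ τ, ¬ face T (τ.erase y) := by
      intro τ hvτ hxτ hτ
      by_contra hcon2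
      push Not at hcon2
      have hpair : ({v, x} : Finset (SV W)) ⊆ τ := by
        intro z hz
        rw [mem_insert, mem_singleton] at hz
        rcases hz with rfl | rfl
        · exact hvτ
        · exact hxτ
      have hc2 : 2 ≤ τ.card := by
        have := card_le_card hpair
        rwa [card_pair hvx] at this
      have hc3 : τ.card ≠ 2 := by
        intro h
        have h3 : ({v, x} : Finset (SV W)) = τ :=
          eq_of_subset_of_card_le hpair (by rw [h, card_pair hvx])
        apply hτ
        obtain ⟨F, hF, hvF, hxF⟩ := hF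
        refine ⟨F, hF, ?_⟩
        rw [← h3]
        intro z hz
        rw [mem_insert, mem_singleton] at hz
        rcases hz with rfl | rfl
        · exact hvF
        · exact hxF
      have hcd : τ.card ≤ d + 1 := by
        obtain ⟨F, hF, hs⟩ := hcon2 v hvτ
        have h3 := card_le_card hs
        rw [hS0.card F hF, card_erase_of_mem hvτ] at h3
        omega
      rcases lt_trichotomy τ.card d with hlt | heq | hgt
      · -- missing face of middle dimension
        exact hcon (h6 W d hd T ⟨hS0, hsym1, hsym2⟩ hE τ (by omega) hlt hτ hcon2 v hvτ x hxτ hvx)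
      · -- missing facet
        refine hMF τ ⟨heq, fun h => hτ ⟨τ, h, Subset.refl _⟩, hcon2⟩
      · -- boundary of a simplex
        have hc : τ.card = d + 1 := by omega
        have hmem : ∀ y ∈ τ, τ.erase y ∈ T := by
          intro y hy
          refine hface _ (hcon2 y hy) ?_
          rw [card_erase_of_mem hy, hc]
          rfl
        have hZ : τ.image (fun y => τ.erase y) = st T ∅ := by
          refine hS0.min ∅ _ (by rw [card_empty]; omega) ?_ ?_ ?_
          · rw [hst]
            intro F hF
            obtain ⟨y, hy, rfl⟩ := mem_image.1 hF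
            exact hmem y hy
          · exact ⟨_, mem_image_of_mem _ hvτ⟩
          · intro t ht _
            by_cases htτ : t ⊆ τ
            · have h3 : (τ.image (fun y => τ.erase y)).filter (fun F => t ⊆ F) =
                  (τ \ t).image (fun y => τ.erase y) := by
                ext G
                simp only [mem_filter, mem_image, mem_sdiff]
                constructor
                · rintro ⟨⟨y, hy, rfl⟩, htG⟩
                  refine ⟨y, ⟨hy, fun hyt => ?_⟩, rfl⟩
                  exact (notMem_erase y τ) (htG hyt)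
                · rintro ⟨y, ⟨hy, hyt⟩, rfl⟩
                  refine ⟨⟨y, hy, rfl⟩, fun z hz => ?_⟩
                  refine mem_erase.2 ⟨?_, htτ hz⟩
                  rintro rfl
                  exact hyt hz
              rw [h3, card_image_of_injOn, card_sdiff_of_subset htτ, hc]
              · have : d + 1 - t.card = 2 := by omega
                rw [this]
                exact even_two
              · intro a ha b hb hab
                rw [mem_coe, mem_sdiff] at ha hb
                exact erase_injOn τ (mem_coe.2 ha.1) (mem_coe.2 hb.1) hab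
            · have h3 : (τ.image (fun y => τ.erase y)).filter (fun F => t ⊆ F) = ∅ := by
                rw [filter_eq_empty_iff]
                intro G hG htG
                obtain ⟨y, hy, rfl⟩ := mem_image.1 hG
                exact htτ (htG.trans (erase_subset _ _))
              rw [h3, card_empty]
              exact Even.zero
        rw [hst] at hZ
        have hT1 := hmem v hvτ
        have hxF : x ∈ τ.erase v := mem_erase.2 ⟨hvx.symm, hxτ⟩
        have hT2 := hsym1 _ hT1
        rw [← hZ, mem_image] at hT2
        obtain ⟨z, hz, hz2⟩ := hT2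
        have hox : opp x ∈ τ := by
          have h3 : opp x ∈ (τ.erase v).image opp := mem_image_of_mem _ hxF
          rw [← hz2] at h3
          exact mem_of_mem_erase h3
        have h7 : ((τ.erase x).erase (opp x)).Nonempty := by
          rw [← card_pos, card_erase_of_mem (mem_erase.2 ⟨C9_opp_ne x, hox⟩),
            card_erase_of_mem hxτ, hc]
          omega
        obtain ⟨y, hy⟩ := h7
        rw [mem_erase, mem_erase] at hy
        exact hsym2 _ (hmem y hy.2.2) x (mem_erase.2 ⟨hy.2.1.symm, hxτ⟩)
          (mem_erase.2 ⟨hy.1.symm, hox⟩)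
    have h3 := h5 W d (by omega) T ⟨hS0, hsym1, hsym2⟩ v x hvx hF hcon h2
    unfold Eq0 at hE
    omega
  -- step 2
  have hnb : ∀ v x, x ∈ nbr T v ↔ x ≠ v ∧ ∃ F ∈ T, v ∈ F ∧ x ∈ F := by
    intro v x
    unfold nbr
    simp only [mem_filter, mem_univ, true_and]
  have hopp : ∀ v x, x ∈ nbr T v → opp x ∈ nbr T v := by
    intro v x hx
    rw [hnb] at hx ⊢
    obtain ⟨hne, F, hF, hv, hxF⟩ := hx
    refine ⟨?_, step1 v x hne.symm ⟨F, hF, hv, hxF⟩⟩
    rintro rfl
    exact hsym2 F hF x hxF hv
  have hcount : ∀ v, 2 * ((nbr T v).image Prod.fst).card ≤ (nbr T v).card := by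
    intro v
    have h1 : ((nbr T v).image Prod.fst) ×ˢ (univ : Finset Bool) ⊆ nbr T v := by
      intro y hy
      rw [mem_product] at hy
      obtain ⟨x, hx, hxy⟩ := mem_image.1 hy.1
      rcases C9_fst (x := x) (y := y) hxy.symm with rfl | rfl
      · exact hx
      · exact hopp v x hx
    have h2 := card_le_card h1
    rw [card_product, card_univ, Fintype.card_bool] at h2
    omega
  have hflag : ∑ v ∈ vs T, (nbr T v).card ≤ 2 * (eg T).card := by
    rw [← card_sigma]
    have h1 := card_le_mul_card_image (f := fun p : (Σ _ : SV W, SV W) => ({p.1, p.2} : Finset (SV W)))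
      ((vs T).sigma (nbr T)) 2 (by
        intro a ha
        obtain ⟨⟨u, w⟩, hp, rfl⟩ := mem_image.1 ha
        refine (card_le_card (t := {⟨u, w⟩, ⟨w, u⟩}) ?_).trans card_le_two
        rintro ⟨x, y⟩ hxy
        simp only [mem_filter, mem_sigma] at hxy hp
        obtain ⟨⟨hx, hy⟩, he⟩ := hxy
        have hne : y ≠ x := ((hnb x y).1 hy).1
        have hx2 : x ∈ ({u, w} : Finset (SV W)) := by rw [← he]; exact mem_insert_self _ _
        have hy2 : y ∈ ({u, w} : Finset (SV W)) := by
          rw [← he]; exact mem_insert_of_mem (mem_singleton_self _)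
        rw [mem_insert, mem_singleton] at hx2 hy2
        rw [mem_insert, mem_singleton]
        rcases hx2 with rfl | rfl
        · rcases hy2 with rfl | rfl
          · exact absurd rfl hne
          · exact Or.inl rfl
        · rcases hy2 with rfl | rfl
          · exact Or.inr rfl
          · exact absurd rfl hne)
    refine h1.trans (Nat.mul_le_mul_left 2 (card_le_card ?_))
    intro e he
    obtain ⟨⟨u, w⟩, hp, rfl⟩ := mem_image.1 he
    simp only [mem_sigma] at hp
    obtain ⟨hne, F, hF, hu, hw⟩ := (hnb u w).1 hp.2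
    unfold eg
    rw [mem_filter]
    refine ⟨mem_univ _, card_pair hne.symm, F, hF, ?_⟩
    intro z hz
    rw [mem_insert, mem_singleton] at hz
    rcases hz with rfl | rfl
    · exact hu
    · exact hw
  have hv : ∃ v ∈ vs T, ((nbr T v).image Prod.fst).card < d := by
    by_contra hcon
    push Not at hcon
    have h1 : ∑ v ∈ vs T, 2 * d ≤ ∑ v ∈ vs T, (nbr T v).card :=
      sum_le_sum fun v hv => (Nat.mul_le_mul_left 2 (hcon v hv)).trans (hcount v)
    rw [sum_const, smul_eq_mul] at h1
    have h2 := h1.trans hflag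
    unfold Eq0 at hE
    have h3 : (vs T).card * (2 * d) = 2 * (d * (vs T).card) := by ring
    rw [h3, ← hE] at h2
    omega
  obtain ⟨v, hvT, hvk⟩ := hv
  obtain ⟨F0, hF0, hvF0⟩ : ∃ F0 ∈ T, v ∈ F0 := by
    unfold vs at hvT
    simpa using hvT
  -- step 3
  have hinjT : ∀ F ∈ T, Set.InjOn Prod.fst (F : Set (SV W)) := by
    intro F hF a ha b hb hab
    rcases C9_fst (x := b) (y := a) hab with h | h
    · exact h
    · exfalso
      subst h
      exact hsym2 F hF b hb ha
  obtain ⟨O', hO'⟩ : ∃ O' : Finset W, O' = (nbr T v).image Prod.fst := ⟨_, rfl⟩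
  have hvO' : v.1 ∉ O' := by
    rw [hO']
    intro h
    obtain ⟨x, hx, hxv⟩ := mem_image.1 h
    rcases C9_fst (x := v) (y := x) hxv with rfl | rfl
    · exact ((hnb _ _).1 hx).1 rfl
    · obtain ⟨_, F, hF, h1, h2⟩ := (hnb _ _).1 hx
      exact hsym2 F hF v h1 h2
  have hFv : ∀ F ∈ T, v ∈ F → (F.erase v).image Prod.fst = O' := by
    intro F hF hvF
    refine eq_of_subset_of_card_le ?_ ?_
    · rw [hO']
      refine image_subset_image fun x hx => ?_
      rw [mem_erase] at hx
      exact (hnb v x).2 ⟨hx.1, F, hF, hvF, hx.2⟩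
    · rw [card_image_of_injOn ((hinjT F hF).mono (by
        rw [coe_subset]
        exact erase_subset _ _)), card_erase_of_mem hvF, hS0.card F hF, hO']
      omega
  obtain ⟨O, hOdef⟩ : ∃ O : Finset W, O = insert v.1 O' := ⟨_, rfl⟩
  have hFO : ∀ F ∈ T, v ∈ F → F.image Prod.fst = O := by
    intro F hF hvF
    rw [← insert_erase hvF, image_insert, hFv F hF hvF, hOdef]
  have hOc : O.card = d := by
    rw [← hFO F0 hF0 hvF0, card_image_of_injOn (hinjT F0 hF0), hS0.card F0 hF0]
  -- switching
  have hsw : ∀ F ∈ T, v ∈ F → ∀ x ∈ F, x ≠ v → insert (opp x) (F.erase x) ∈ T := by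
    intro F hF hvF x hx hxv
    have ht : (F.erase x).card + 1 = d := by
      rw [card_erase_of_mem hx, hS0.card F hF]
      omega
    have h1 := hS0.cyc (F.erase x) ht (empty_subset _)
    have h2 : F ∈ T.filter (fun G => F.erase x ⊆ G) :=
      mem_filter.2 ⟨hF, erase_subset _ _⟩
    have h3 : 1 < (T.filter (fun G => F.erase x ⊆ G)).card := by
      have h4 : 0 < (T.filter (fun G => F.erase x ⊆ G)).card := card_pos.2 ⟨F, h2⟩
      obtain ⟨k, hk⟩ := h1
      omega
    obtain ⟨G, hG, hGF⟩ := exists_mem_ne h3 F
    rw [mem_filter] at hG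
    have hvG : v ∈ G := hG.2 (mem_erase.2 ⟨hxv.symm, hvF⟩)
    rcases C9_key hOc (hS0.card F hF) (hFO F hF hvF) (hS0.card G hG.1) (hFO G hG.1 hvG) ht
      (erase_subset _ _) hG.2 hx (notMem_erase x F) with h | h
    · rw [insert_erase hx] at h
      exact absurd h hGF
    · rw [← h]
      exact hG.1
  have hall : ∀ n : ℕ, ∀ F : Finset (SV W), F.card = d → F.image Prod.fst = O → v ∈ F →
      (F0 \ F).card = n → F ∈ T := by
    intro n
    induction n with
    | zero =>
      intro F hFc hFO' hvF hn
      rw [card_eq_zero, sdiff_eq_empty_iff_subset] at hn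
      have : F0 = F := eq_of_subset_of_card_le hn (by rw [hFc, hS0.card F0 hF0])
      rwa [← this]
    | succ n ih =>
      intro F hFc hFO' hvF hn
      obtain ⟨x, hx⟩ : (F0 \ F).Nonempty := by
        rw [← card_pos, hn]
        omega
      rw [mem_sdiff] at hx
      have h1 : x.1 ∈ F.image Prod.fst := by
        rw [hFO', ← hFO F0 hF0 hvF0]
        exact mem_image_of_mem _ hx.1
      obtain ⟨y, hy, hyx⟩ := mem_image.1 h1
      have hyo : y = opp x := by
        rcases C9_fst (x := x) (y := y) hyx with rfl | h
        · exact absurd hy hx.2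
        · exact h
      have hxv : x ≠ v := by
        rintro rfl
        exact hx.2 hvF
      have hyv : y ≠ v := by
        rintro rfl
        exact hxv (hinjT F0 hF0 (mem_coe.2 hx.1) (mem_coe.2 hvF0) hyx.symm)
      have hxe : x ∉ F.erase y := fun h => hx.2 (mem_of_mem_erase h)
      have hF1c : (insert x (F.erase y)).card = d := by
        rw [card_insert_of_notMem hxe, card_erase_of_mem hy, hFc]
        omega
      have hF1O : (insert x (F.erase y)).image Prod.fst = O := by
        rw [image_insert, ← hyx, ← image_insert, insert_erase hy, hFO']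
      have hF1v : v ∈ insert x (F.erase y) := mem_insert_of_mem (mem_erase.2 ⟨hyv.symm, hvF⟩)
      have hyF0 : y ∉ F0 := by
        intro h
        rw [hyo] at h
        exact hsym2 F0 hF0 x hx.1 h
      have hF1n : (F0 \ (insert x (F.erase y))).card = n := by
        have h2 : F0 \ (insert x (F.erase y)) = (F0 \ F).erase x := by
          ext z
          simp only [mem_sdiff, mem_insert, mem_erase, not_or, not_and]
          constructor
          · rintro ⟨hz, hzx, hz2⟩
            refine ⟨hzx, hz, fun h => hz2 ?_ h⟩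
            rintro rfl
            exact hyF0 hz
          · rintro ⟨hzx, hz, hzF⟩
            exact ⟨hz, hzx, fun _ h => hzF h⟩
        rw [h2, card_erase_of_mem (mem_sdiff.2 hx), hn]
        rfl
      have h3 := ih _ hF1c hF1O hF1v hF1n
      have h4 := hsw _ h3 hF1v x (mem_insert_self _ _) hxv
      rw [erase_insert hxe, ← hyo, insert_erase hy] at h4
      exact h4
  have himg : ∀ F : Finset (SV W), (F.image opp).image opp = F := by
    intro F
    rw [image_image]
    have : (opp ∘ opp : SV W → SV W) = id := by
      funext x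
      exact C9_opp_opp x
    rw [this, image_id]
  refine ⟨O, hOc, ?_⟩
  obtain ⟨Y, hYdef⟩ : ∃ Y : Finset (Finset (SV W)), Y =
    univ.filter (fun F : Finset (SV W) => F.card = d ∧ F.image Prod.fst = O) := ⟨_, rfl⟩
  have hY : ∀ F, F ∈ Y ↔ F.card = d ∧ F.image Prod.fst = O := by
    intro F
    rw [hYdef, mem_filter]
    simp
  have hYT : Y ⊆ T := by
    intro F hF
    rw [hY] at hF
    obtain ⟨hFc, hFO'⟩ := hF
    have h1 : v.1 ∈ F.image Prod.fst := by
      rw [hFO', hOdef]
      exact mem_insert_self _ _
    obtain ⟨y, hy, hyv⟩ := mem_image.1 h1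
    rcases C9_fst (x := v) (y := y) hyv with rfl | rfl
    · exact hall _ F hFc hFO' hy rfl
    · have h2 : F.image opp ∈ T := by
        refine hall _ (F.image opp) ?_ ?_ ?_ rfl
        · rw [card_image_of_injective _ (Function.LeftInverse.injective (g := opp) C9_opp_opp), hFc]
        · rw [image_image]
          exact hFO'
        · refine mem_image.2 ⟨_, hy, C9_opp_opp v⟩
      have h3 := hsym1 _ h2
      rwa [himg] at h3
  have hYeq : Y = st T ∅ := by
    refine hS0.min ∅ Y (by rw [card_empty]; omega) (by rw [hst]; exact hYT) ?_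
      (C9_cyc hOc Y hY)
    exact ⟨F0, (hY F0).2 ⟨hS0.card F0 hF0, hFO F0 hF0 hvF0⟩⟩
  rw [hst] at hYeq
  intro F
  rw [← hYeq]
  exact hY F

end Pool.Agent.N525.CS
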