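import Pool.Agent.N525.CS.Stm

set_option autoImplicit false

/-!
The cross-polytope.
-/

namespace Pool.Agent.N525.CS

open Pool.Agent.N525.VR
open scoped RealInnerProductSpace

/-- the vertices of the cross-polytope -/
noncomputable def d1p {d : ℕ} (x : Fin d × Bool) : E d :=
  if x.2 then EuclideanSpace.single x.1 (1 : ℝ) else - EuclideanSpace.single x.1 (1 : ℝ)

/-- the sign -/
def d1s (s : Bool) : ℝ := if s then 1 else -1

theorem d1s_sq (s : Bool) : d1s s * d1s s = 1 := by
  unfold d1s; cases s <;> norm_num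

theorem d1s_ne (s : Bool) : d1s s ≠ 0 := by
  unfold d1s; cases s <;> norm_num

theorem d1s_inj {s t : Bool} (h : d1s s = d1s t) : s = t := by
  unfold d1s at h
  cases s <;> cases t <;> first | rfl | (exfalso; norm_num at h)

theorem d1s_not (s : Bool) : d1s (!s) = - d1s s := by
  unfold d1s; cases s <;> norm_num

theorem d1p_inner {d : ℕ} (c : E d) (i : Fin d) (s : Bool) : ⟪c, d1p (i, s)⟫ = d1s s * c i := by
  unfold d1p d1s
  cases s
  · simp [inner_neg_right, EuclideanSpace.inner_single_right]
  · simp [EuclideanSpace.inner_single_right]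

theorem d1p_apply {d : ℕ} (i : Fin d) (s : Bool) (j : Fin d) :
    (d1p (i, s) : E d) j = if j = i then d1s s else 0 := by
  unfold d1p d1s
  cases s
  · by_cases h : j = i
    · subst h; simp
    · simp [h]
  · by_cases h : j = i
    · subst h; simp
    · simp [h]

theorem d1p_inj {d : ℕ} : Function.Injective (d1p : Fin d × Bool → E d) := by
  rintro ⟨i, s⟩ ⟨j, t⟩ h
  have h1 := congrArg (fun v : E d => v i) h
  simp only [d1p_apply, if_true] at h1
  by_cases hij : i = j
  · subst hij
    rw [if_pos rfl] at h1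
    rw [d1s_inj h1]
  · rw [if_neg hij] at h1
    exact absurd h1 (d1s_ne s)

theorem d1p_neg {d : ℕ} (i : Fin d) (s : Bool) : (d1p (i, !s) : E d) = - d1p (i, s) := by
  unfold d1p; cases s <;> simp

theorem d1_crossV (d : ℕ) : crossV d = (Finset.univ : Finset (Fin d × Bool)).image d1p := rfl

theorem d1_mem {d : ℕ} {y : E d} : y ∈ crossV d ↔ ∃ i s, d1p (i, s) = y := by
  rw [d1_crossV, Finset.mem_image]
  constructor
  · rintro ⟨⟨i, s⟩, -, h⟩; exact ⟨i, s, h⟩
  · rintro ⟨i, s, h⟩; exact ⟨(i, s), Finset.mem_univ _, h⟩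

theorem d1_FF {d : ℕ} (c : E d) : FF (crossV d) c ↔ ∀ i, c i * c i = 1 := by
  constructor
  · rintro ⟨h1, h2⟩ i
    by_contra hci
    let φ : E d →ₗ[ℝ] ℝ := (EuclideanSpace.proj i : E d →L[ℝ] ℝ).toLinearMap
    have hφ : ∀ y : E d, φ y = y i := fun _ => rfl
    have h3 : Submodule.span ℝ {y : E d | y ∈ crossV d ∧ ⟪c, y⟫ = 1} ≤ LinearMap.ker φ := by
      rw [Submodule.span_le]
      rintro y ⟨hy, hy1⟩
      obtain ⟨j, t, rfl⟩ := d1_mem.1 hy
      rw [d1p_inner] at hy1
      change d1p (j, t) ∈ LinearMap.ker φ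
      rw [LinearMap.mem_ker, hφ, d1p_apply]
      have hij : i ≠ j := by
        rintro rfl
        apply hci
        have h4 : c i = d1s t := by
          have := congrArg (fun z => d1s t * z) hy1
          simp only at this
          rw [← mul_assoc, d1s_sq, one_mul, mul_one] at this
          exact this
        rw [h4, d1s_sq]
      rw [if_neg hij]
    rw [h2] at h3
    have h5 : (d1p (i, true) : E d) ∈ LinearMap.ker φ := h3 Submodule.mem_top
    rw [LinearMap.mem_ker, hφ, d1p_apply, if_pos rfl] at h5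
    exact d1s_ne _ h5
  · intro h
    refine ⟨?_, ?_⟩
    · intro y hy
      obtain ⟨j, t, rfl⟩ := d1_mem.1 hy
      rw [d1p_inner]
      have h1 := h j
      have h2 := d1s_sq t
      nlinarith [sq_nonneg (d1s t - c j)]
    · rw [eq_top_iff]
      intro v _
      have h3 : v = ∑ i, (v i * c i) • (d1p (i, decide (c i = 1)) : E d) := by
        ext j
        simp only [WithLp.ofLp_sum, WithLp.ofLp_smul, Finset.sum_apply, Pi.smul_apply, smul_eq_mul]
        rw [Finset.sum_eq_single j]
        · rw [d1p_apply, if_pos rfl]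
          rcases mul_self_eq_one_iff.1 (h j) with h4 | h4
          · rw [h4]; simp [d1s]
          · rw [h4]
            have : ¬ ((-1 : ℝ) = 1) := by norm_num
            simp [d1s, this]
        · intro b _ hb
          rw [d1p_apply, if_neg (Ne.symm hb), mul_zero]
        · intro hj; exact absurd (Finset.mem_univ j) hj
      rw [h3]
      refine Submodule.sum_mem _ fun i _ => Submodule.smul_mem _ _ (Submodule.subset_span ?_)
      refine ⟨d1_mem.2 ⟨_, _, rfl⟩, ?_⟩
      rw [d1p_inner]
      rcases mul_self_eq_one_iff.1 (h i) with h4 | h4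
      · rw [h4]; simp [d1s]
      · rw [h4]
        have : ¬ ((-1 : ℝ) = 1) := by norm_num
        simp [d1s, this]

theorem d1_ff_mem {d : ℕ} (c y : E d) : y ∈ ff (crossV d) c ↔ y ∈ crossV d ∧ ⟪c, y⟫ = 1 := by
  unfold ff
  rw [Finset.mem_filter]

theorem d1_Supp {d : ℕ} (S : Finset (E d)) : Supp (crossV d) S ↔ S ⊆ crossV d ∧
    ∀ i : Fin d, ¬ ((d1p (i, true) : E d) ∈ S ∧ (d1p (i, false) : E d) ∈ S) := by
  classical
  constructor
  · rintro ⟨hS, c, hc⟩
    refine ⟨hS, fun i hi => ?_⟩
    have h1 := (hc _ (hS hi.1)).1 hi.1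
    have h2 := (hc _ (hS hi.2)).1 hi.2
    rw [d1p_inner] at h1 h2
    unfold d1s at h1 h2
    simp only [if_true, Bool.false_eq_true, if_false] at h1 h2
    linarith
  · rintro ⟨hS, hn⟩
    refine ⟨hS, WithLp.toLp 2 (fun i => if (d1p (i, true) : E d) ∈ S then 1 else
      if (d1p (i, false) : E d) ∈ S then -1 else 0), ?_⟩
    intro y hy
    obtain ⟨i, s, rfl⟩ := d1_mem.1 hy
    rw [d1p_inner]
    change (d1p (i, s) ∈ S → d1s s * (if (d1p (i, true) : E d) ∈ S then (1 : ℝ) else
      if (d1p (i, false) : E d) ∈ S then -1 else 0) = 1) ∧ (d1p (i, s) ∉ S →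
      d1s s * (if (d1p (i, true) : E d) ∈ S then (1 : ℝ) else
      if (d1p (i, false) : E d) ∈ S then -1 else 0) < 1)
    have hni := hn i
    cases s
    · constructor
      · intro h
        have h1 : (d1p (i, true) : E d) ∉ S := fun h' => hni ⟨h', h⟩
        rw [if_neg h1, if_pos h]
        norm_num [d1s]
      · intro h
        rw [if_neg h]
        split_ifs <;> norm_num [d1s]
    · constructor
      · intro h
        rw [if_pos h]
        norm_num [d1s]
      · intro h
        rw [if_neg h]
        split_ifs <;> norm_num [d1s]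

theorem d1_inner_self {d : ℕ} (i : Fin d) (s : Bool) (j : Fin d) (t : Bool) :
    ⟪(d1p (i, s) : E d), d1p (j, t)⟫ = if j = i then d1s t * d1s s else 0 := by
  rw [d1p_inner, d1p_apply]
  split_ifs <;> simp

theorem d1_Simp (d : ℕ) : Simp d (crossV d) := by
  classical
  refine ⟨?_, ?_, ?_, ?_, ?_⟩
  · intro x hx
    obtain ⟨i, s, rfl⟩ := d1_mem.1 hx
    exact d1_mem.2 ⟨i, !s, d1p_neg i s⟩
  · intro x hx
    rw [d1_Supp]
    refine ⟨Finset.singleton_subset_iff.2 hx, fun i hi => ?_⟩
    have h1 := Finset.mem_singleton.1 hi.1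
    have h2 := Finset.mem_singleton.1 hi.2
    have h3 := d1p_inj (h1.trans h2.symm)
    simp at h3
  · intro S hS
    rw [d1_Supp] at hS
    obtain ⟨hS, hn⟩ := hS
    refine ⟨WithLp.toLp 2 (fun i => if (d1p (i, false) : E d) ∈ S then -1 else 1), ?_, ?_⟩
    · rw [d1_FF]
      intro i
      change (if (d1p (i, false) : E d) ∈ S then (-1 : ℝ) else 1) *
        (if (d1p (i, false) : E d) ∈ S then (-1 : ℝ) else 1) = 1
      split_ifs <;> norm_num
    · intro y hy
      rw [d1_ff_mem]
      refine ⟨hS hy, ?_⟩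
      obtain ⟨i, s, rfl⟩ := d1_mem.1 (hS hy)
      rw [d1p_inner]
      change d1s s * (if (d1p (i, false) : E d) ∈ S then (-1 : ℝ) else 1) = 1
      cases s
      · rw [if_pos hy]; norm_num [d1s]
      · rw [if_neg (fun h => hn i ⟨hy, h⟩)]; norm_num [d1s]
  · intro c hc
    rw [d1_FF] at hc
    have h1 : ff (crossV d) c = Finset.univ.image (fun i : Fin d => (d1p (i, decide (c i = 1)) : E d)) := by
      ext y
      rw [d1_ff_mem, Finset.mem_image]
      constructor
      · rintro ⟨hy, hy1⟩
        obtain ⟨i, s, rfl⟩ := d1_mem.1 hy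
        rw [d1p_inner] at hy1
        refine ⟨i, Finset.mem_univ _, ?_⟩
        rcases mul_self_eq_one_iff.1 (hc i) with h4 | h4
        · rw [h4] at hy1 ⊢
          cases s
          · exfalso; norm_num [d1s] at hy1
          · simp
        · rw [h4] at hy1 ⊢
          have h5 : ¬ ((-1 : ℝ) = 1) := by norm_num
          cases s
          · simp [h5]
          · exfalso; norm_num [d1s] at hy1
      · rintro ⟨i, -, rfl⟩
        refine ⟨d1_mem.2 ⟨_, _, rfl⟩, ?_⟩
        rw [d1p_inner]
        rcases mul_self_eq_one_iff.1 (hc i) with h4 | h4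
        · rw [h4]; simp [d1s]
        · rw [h4]
          have : ¬ ((-1 : ℝ) = 1) := by norm_num
          simp [d1s, this]
    rw [h1, Finset.card_image_of_injective, Finset.card_univ, Fintype.card_fin]
    intro i j hij
    exact congrArg Prod.fst (d1p_inj hij)
  · intro c hc x hx
    rw [d1_FF] at hc
    rw [d1_ff_mem] at hx
    obtain ⟨hx, hx1⟩ := hx
    obtain ⟨i, s, rfl⟩ := d1_mem.1 hx
    rw [d1p_inner] at hx1
    refine ⟨WithLp.toLp 2 (fun j => if j = i then - c j else c j), ?_, ?_, ?_⟩
    · rw [d1_FF]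
      intro j
      change (if j = i then - c j else c j) * (if j = i then - c j else c j) = 1
      have := hc j
      split_ifs <;> nlinarith
    · intro h
      have h1 := congrArg (fun v : E d => v i) h
      change (if i = i then - c i else c i) = c i at h1
      rw [if_pos rfl] at h1
      have h2 := hc i
      have h3 : c i = 0 := by linarith
      rw [h3] at h2
      norm_num at h2
    · intro y hy hyx
      rw [d1_ff_mem] at hy ⊢
      refine ⟨hy.1, ?_⟩
      obtain ⟨j, t, rfl⟩ := d1_mem.1 hy.1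
      have hy1 := hy.2
      rw [d1p_inner] at hy1 ⊢
      change d1s t * (if j = i then - c j else c j) = 1
      rw [if_neg]
      · exact hy1
      · rintro rfl
        apply hyx
        have h1 : d1s s = d1s t := by
          have h2 : c j ≠ 0 := by
            intro h3
            rw [h3] at hy1
            norm_num at hy1
          exact mul_right_cancel₀ h2 (hx1.trans hy1.symm)
        rw [d1s_inj h1]

theorem d1_real {d : ℕ} (W : Type) [Fintype W] [DecidableEq W] (O : Finset W) (hO : O.card = d)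
    (T : Finset (Finset (SV W)))
    (hT : ∀ F : Finset (SV W), F ∈ T ↔ (F.card = d ∧ F.image Prod.fst = O)) :
    ∃ f : SV W → E d, Rea d T f (crossV d) := by
  classical
  let e : O ≃ Fin d := Finset.equivFinOfCardEq hO
  let f : SV W → E d := fun x => if h : x.1 ∈ O then d1p (e ⟨x.1, h⟩, x.2) else 0
  have hf : ∀ (a : W) (h : a ∈ O) (s : Bool), f (a, s) = d1p (e ⟨a, h⟩, s) := by
    intro a h s
    exact dif_pos h
  -- the transversals
  have htr : ∀ g : W → Bool, O.image (fun b => (b, g b)) ∈ T := by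
    intro g
    rw [hT]
    refine ⟨?_, ?_⟩
    · rw [Finset.card_image_of_injective, hO]
      intro a b hab
      exact congrArg Prod.fst hab
    · rw [Finset.image_image]
      exact Finset.image_id
  have hvs : ∀ x : SV W, x ∈ vs T ↔ x.1 ∈ O := by
    intro x
    unfold vs
    rw [Finset.mem_biUnion]
    constructor
    · rintro ⟨F, hF, hxF⟩
      rw [← ((hT F).1 hF).2]
      exact Finset.mem_image_of_mem _ hxF
    · intro hx
      refine ⟨_, htr (fun _ => x.2), ?_⟩
      exact Finset.mem_image.2 ⟨x.1, hx, rfl⟩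
  have hinj : Set.InjOn f (vs T) := by
    rintro ⟨a, s⟩ ha ⟨b, t⟩ hb hab
    have ha' := (hvs _).1 ha
    have hb' := (hvs _).1 hb
    rw [hf a ha', hf b hb'] at hab
    have h1 := d1p_inj hab
    rw [Prod.mk.injEq] at h1
    have h2 := congrArg Subtype.val (e.injective h1.1)
    simp only at h2
    rw [h2, h1.2]
  refine ⟨f, ?_, hinj, ?_, ?_⟩
  · rintro ⟨a, s⟩
    by_cases h : a ∈ O
    · change f (a, !s) = - f (a, s)
      rw [hf a h, hf a h, d1p_neg]
    · have h1 : f (a, s) = 0 := dif_neg h
      have h2 : f (a, !s) = 0 := dif_neg h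
      change f (a, !s) = - f (a, s)
      rw [h1, h2, neg_zero]
  · ext y
    rw [Finset.mem_image, d1_mem]
    constructor
    · rintro ⟨i, s, rfl⟩
      refine ⟨((e.symm i).1, s), (hvs _).2 (e.symm i).2, ?_⟩
      rw [hf _ (e.symm i).2]
      simp
    · rintro ⟨⟨a, s⟩, ha, rfl⟩
      have ha' := (hvs _).1 ha
      exact ⟨_, _, (hf a ha' s).symm⟩
  · intro S hS
    rw [d1_Supp]
    have hpre : ∀ (i : Fin d) (s : Bool), (d1p (i, s) : E d) ∈ S.image f ↔
        ((e.symm i).1, s) ∈ S := by
      intro i s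
      rw [Finset.mem_image]
      constructor
      · rintro ⟨⟨a, t⟩, hat, h1⟩
        have ha' := (hvs _).1 (hS hat)
        rw [hf a ha'] at h1
        have h2 := d1p_inj h1
        rw [Prod.mk.injEq] at h2
        rw [← h2.1, ← h2.2, Equiv.symm_apply_apply]
        exact hat
      · intro h
        refine ⟨_, h, ?_⟩
        rw [hf _ (e.symm i).2]
        simp
    constructor
    · rintro ⟨F, hF, hSF⟩
      refine ⟨?_, ?_⟩
      · intro y hy
        obtain ⟨⟨a, s⟩, ha, rfl⟩ := Finset.mem_image.1 hy
        have ha' := (hvs _).1 (hS ha)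
        rw [hf a ha']
        exact d1_mem.2 ⟨_, _, rfl⟩
      · intro i hi
        rw [hpre, hpre] at hi
        have h1 := (hT F).1 hF
        have h2 : Set.InjOn Prod.fst (F : Set (SV W)) := by
          apply Finset.card_image_iff.1
          rw [h1.2, h1.1, hO]
        have h3 := h2 (hSF hi.1) (hSF hi.2) rfl
        simp at h3
    · rintro ⟨-, hn⟩
      refine ⟨_, htr (fun a => decide ((a, true) ∈ S)), ?_⟩
      rintro ⟨a, s⟩ has
      have ha' := (hvs _).1 (hS has)
      refine Finset.mem_image.2 ⟨a, ha', ?_⟩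
      have hni := hn (e ⟨a, ha'⟩)
      rw [hpre, hpre, Equiv.symm_apply_apply] at hni
      rw [Prod.mk.injEq]
      refine ⟨rfl, ?_⟩
      cases s
      · have : (a, true) ∉ S := fun h => hni ⟨h, has⟩
        exact decide_eq_false this
      · exact decide_eq_true has

theorem t_CROSS : S_CROSS := by
  intro d _
  refine ⟨d1_Simp d, ?_, ?_⟩
  · rw [d1_crossV, Finset.card_image_of_injective _ d1p_inj, Finset.card_univ, Fintype.card_prod,
      Fintype.card_fin, Fintype.card_bool, mul_comm]
  · intro W _ _ O hO T hT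
    exact d1_real W O hO T hT

end Pool.Agent.N525.CS
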