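import Pool.Agent.N525.CS.Stm

set_option autoImplicit false

/-! Faces of simplicial polytopes by functionals, existence of stacking points. -/

namespace Pool.Agent.N525.CS

open Pool.Agent.N525.VR
open scoped RealInnerProductSpace

theorem D2_mem {d : ℕ} {X : Finset (E d)} {c y : E d} : y ∈ ff X c ↔ y ∈ X ∧ ⟪c, y⟫ = 1 := by
  unfold ff
  exact @Finset.mem_filter _ _ _ _ _

theorem D2_orth {d : ℕ} {s : Set (E d)} (hs : Submodule.span ℝ s = ⊤) {c : E d}
    (h : ∀ y ∈ s, ⟪c, y⟫ = 0) : c = 0 := by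
  have h1 : ∀ z ∈ Submodule.span ℝ s, ⟪c, z⟫ = 0 := by
    intro z hz
    induction hz using Submodule.span_induction with
    | mem x hx => exact h x hx
    | zero => exact inner_zero_right _
    | add x y _ _ hx hy => rw [inner_add_right, hx, hy, add_zero]
    | smul a x _ hx => rw [inner_smul_right, hx, mul_zero]
  have h2 := h1 c (by rw [hs]; trivial)
  exact inner_self_eq_zero.1 h2

theorem D2_ext {d : ℕ} {X : Finset (E d)} {c c' : E d} (h : FF X c)
    (h' : ∀ y ∈ ff X c, ⟪c', y⟫ = 1) : c' = c := by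
  have h1 : c' - c = 0 := by
    refine D2_orth h.2 ?_
    intro y hy
    rw [inner_sub_left, h' y (D2_mem.2 hy), hy.2, sub_self]
  exact sub_eq_zero.1 h1

theorem D2_fin {d : ℕ} (X : Finset (E d)) : {c | FF X c}.Finite := by
  refine Set.Finite.of_finite_image (f := fun c => ff X c) ?_ ?_
  · refine (Finset.finite_toSet X.powerset).subset ?_
    rintro _ ⟨c, _, rfl⟩
    rw [Finset.mem_coe, Finset.mem_powerset]
    intro y hy
    exact (D2_mem.1 hy).1
  · intro c hc c' hc' h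
    have h' : ff X c = ff X c' := h
    refine D2_ext hc' ?_
    intro y hy
    rw [← h'] at hy
    exact (D2_mem.1 hy).2

/-- averaging -/
theorem D2_avg {d : ℕ} {X : Finset (E d)}
    (adj : ∀ c, FF X c → ∀ x ∈ ff X c, ∃ c', FF X c' ∧ c' ≠ c ∧
      ∀ y ∈ ff X c, y ≠ x → y ∈ ff X c') {S : Finset (E d)} {c : E d} (hc : FF X c)
    (hS : S ⊆ ff X c) : Supp X S := by
  classical
  set C : Finset (E d) := (D2_fin X).toFinset.filter (fun c => S ⊆ ff X c) with hC
  have mC : ∀ c, c ∈ C ↔ FF X c ∧ S ⊆ ff X c := by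
    intro c
    rw [hC, Finset.mem_filter, Set.Finite.mem_toFinset]
    rfl
  have hN : 0 < C.card := Finset.card_pos.2 ⟨c, (mC c).2 ⟨hc, hS⟩⟩
  have hN' : (0 : ℝ) < C.card := by exact_mod_cast hN
  have hin : ∀ x, ⟪(1 / (C.card : ℝ)) • ∑ c ∈ C, c, x⟫ = (1 / (C.card : ℝ)) * ∑ c ∈ C, ⟪c, x⟫ := by
    intro x
    rw [real_inner_smul_left, sum_inner]
  refine ⟨fun y hy => (D2_mem.1 (hS hy)).1, (1 / (C.card : ℝ)) • ∑ c ∈ C, c, ?_⟩
  intro x hx
  rw [hin]
  constructor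
  · intro hxS
    have h1 : ∀ c ∈ C, ⟪c, x⟫ = 1 := fun c hc => (D2_mem.1 (((mC c).1 hc).2 hxS)).2
    rw [Finset.sum_congr rfl h1, Finset.sum_const, nsmul_eq_mul, mul_one]
    field_simp
  · intro hxS
    have h1 : ∃ c ∈ C, ⟪c, x⟫ < 1 := by
      by_cases hxc : x ∈ ff X c
      · obtain ⟨c', h1, h2, h3⟩ := adj c hc x hxc
        refine ⟨c', (mC c').2 ⟨h1, fun y hy => h3 y (hS hy) ?_⟩, ?_⟩
        · rintro rfl; exact hxS hy
        · refine lt_of_le_of_ne (h1.1 x hx) ?_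
          intro h4
          refine h2 (D2_ext hc ?_)
          intro y hy
          by_cases hyx : y = x
          · rw [hyx, h4]
          · exact (D2_mem.1 (h3 y hy hyx)).2
      · refine ⟨c, (mC c).2 ⟨hc, hS⟩, lt_of_le_of_ne (hc.1 x hx) ?_⟩
        intro h4
        exact hxc (D2_mem.2 ⟨hx, h4⟩)
    have h2 : ∑ c ∈ C, ⟪c, x⟫ < ∑ c ∈ C, (1 : ℝ) := by
      obtain ⟨c1, h3, h4⟩ := h1
      exact Finset.sum_lt_sum (fun c hc => ((mC c).1 hc).1.1 x hx) ⟨c1, h3, h4⟩
    rw [Finset.sum_const, nsmul_eq_mul, mul_one] at h2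
    rw [div_mul_eq_mul_div, one_mul, div_lt_one hN']
    exact h2

theorem t_SUPP : S_SUPP := by
  intro d X _ hX S
  constructor
  · exact hX.facet S
  · rintro ⟨c, hc, hS⟩
    exact D2_avg hX.adj hc hS

theorem t_BEY : S_BEY := by
  intro d X hd hX c0 hc0
  have hcard := hX.card c0 hc0
  have hN : (0 : ℝ) < (ff X c0).card := by
    rw [hcard]; exact_mod_cast hd
  set b : E d := (1 / ((ff X c0).card : ℝ)) • ∑ y ∈ ff X c0, y with hb
  have hin : ∀ c : E d, ⟪c, b⟫ = (1 / ((ff X c0).card : ℝ)) * ∑ y ∈ ff X c0, ⟪c, y⟫ := by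
    intro c
    rw [hb, real_inner_smul_right, inner_sum]
  have h0 : ⟪c0, b⟫ = 1 := by
    rw [hin, Finset.sum_congr rfl (fun y hy => (D2_mem.1 hy).2), Finset.sum_const, nsmul_eq_mul,
      mul_one]
    field_simp
  have h1 : ∀ c, FF X c → c ≠ c0 → ⟪c, b⟫ < 1 := by
    intro c hc hne
    have h2 : ∃ y ∈ ff X c0, ⟪c, y⟫ < 1 := by
      by_contra hcon
      push Not at hcon
      refine hne (D2_ext hc0 fun y hy => le_antisymm (hc.1 y (D2_mem.1 hy).1) (hcon y hy))
    have h3 : ∑ y ∈ ff X c0, ⟪c, y⟫ < ∑ y ∈ ff X c0, (1 : ℝ) :=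
      Finset.sum_lt_sum (fun y hy => hc.1 y (D2_mem.1 hy).1) h2
    rw [Finset.sum_const, nsmul_eq_mul, mul_one] at h3
    rw [hin, div_mul_eq_mul_div, one_mul, div_lt_one hN]
    exact h3
  have h2 : ∀ᶠ ε : ℝ in nhdsWithin 0 (Set.Ioi 0), ∀ c ∈ {c | FF X c}, c ≠ c0 →
      ⟪c, (1 + ε) • b⟫ < 1 := by
    rw [Filter.eventually_all_finite (D2_fin X)]
    intro c hc
    by_cases hne : c = c0
    · exact Filter.Eventually.of_forall fun ε h => absurd hne h
    · have h3 : Filter.Tendsto (fun ε : ℝ => ⟪c, (1 + ε) • b⟫) (nhdsWithin 0 (Set.Ioi 0))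
          (nhds ⟪c, b⟫) := by
        have h4 : Continuous (fun ε : ℝ => ⟪c, (1 + ε) • b⟫) := by fun_prop
        have h5 := h4.tendsto 0
        simp only [add_zero, one_smul] at h5
        exact h5.mono_left nhdsWithin_le_nhds
      filter_upwards [h3.eventually_lt_const (h1 c hc hne)] with ε hε _
      exact hε
  obtain ⟨ε, hε, hε0⟩ := (h2.and self_mem_nhdsWithin).exists
  refine ⟨(1 + ε) • b, hc0, ?_, fun c hc hne => hε c hc hne⟩
  rw [real_inner_smul_right, h0]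
  have : (0 : ℝ) < ε := hε0
  linarith

end Pool.Agent.N525.CS
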