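import Pool.Agent.N525.CS.D2

set_option autoImplicit false

/-! The faces after a stacking step. -/

namespace Pool.Agent.N525.CS

open Pool.Agent.N525.VR
open scoped RealInnerProductSpace

theorem D3_neg {d : ℕ} {X : Finset (E d)} (hX : ∀ x ∈ X, -x ∈ X) {c : E d} (h : FF X c) :
    FF X (-c) := by
  refine ⟨fun y hy => ?_, ?_⟩
  · rw [inner_neg_left, ← inner_neg_right]
    exact h.1 _ (hX y hy)
  · rw [eq_top_iff, ← h.2, Submodule.span_le]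
    intro y hy
    have h1 : -y ∈ Submodule.span ℝ {y : E d | y ∈ X ∧ ⟪-c, y⟫ = 1} := by
      refine Submodule.subset_span ⟨hX y hy.1, ?_⟩
      rw [inner_neg_neg]
      exact hy.2
    have h2 := Submodule.neg_mem _ h1
    rwa [neg_neg] at h2

theorem D3_ffneg {d : ℕ} {X : Finset (E d)} (hX : ∀ x ∈ X, -x ∈ X) (c : E d) :
    ff X (-c) = (ff X c).image (fun y => -y) := by
  ext y
  rw [D2_mem, Finset.mem_image]
  constructor
  · rintro ⟨h1, h2⟩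
    refine ⟨-y, D2_mem.2 ⟨hX y h1, ?_⟩, neg_neg y⟩
    rw [inner_neg_right, ← inner_neg_left]
    exact h2
  · rintro ⟨z, hz, rfl⟩
    rw [D2_mem] at hz
    refine ⟨hX z hz.1, ?_⟩
    rw [inner_neg_neg]
    exact hz.2

theorem D3_step {d : ℕ} {X : Finset (E d)} (hX : ∀ x ∈ X, -x ∈ X) {c0 v : E d}
    (h : StackStep X c0 v) : StackStep X (-c0) (-v) := by
  refine ⟨D3_neg hX h.1, ?_, ?_⟩
  · rw [inner_neg_neg]; exact h.2.1
  · intro c hc hne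
    rw [inner_neg_right, ← inner_neg_left]
    refine h.2.2 (-c) (D3_neg hX hc) ?_
    rintro rfl
    exact hne (neg_neg c).symm

/-- coordinates -/
theorem D3_coord {d : ℕ} {X : Finset (E d)} {c : E d} (h : FF X c) (z : E d) :
    ∃ α : E d → ℝ, ∑ y ∈ ff X c, α y • y = z := by
  have h1 : z ∈ Submodule.span ℝ ((ff X c : Finset (E d)) : Set (E d)) := by
    have h2 : ((ff X c : Finset (E d)) : Set (E d)) = {y : E d | y ∈ X ∧ ⟪c, y⟫ = 1} := by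
      ext y
      rw [Finset.mem_coe, D2_mem]
      rfl
    rw [h2, h.2]
    trivial
  obtain ⟨α, _, hα⟩ := Submodule.mem_span_finset.1 h1
  exact ⟨α, hα⟩

section Ctx

variable {d : ℕ} {X : Finset (E d)} {c0 v : E d}

/-- the neighbouring facets -/
theorem D3_nb (hd : 2 ≤ d) (hX : Simp d X) (hs : StackStep X c0 v) (x : E d) (hx : x ∈ ff X c0) :
    ∃ g, FF X g ∧ g ≠ c0 ∧ g ≠ -c0 ∧ (∀ y ∈ ff X c0, y ≠ x → ⟪g, y⟫ = 1) ∧ ⟪g, x⟫ < 1 ∧
      ⟪g, v⟫ < 1 ∧ -1 < ⟪g, v⟫ := by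
  obtain ⟨g, h1, h2, h3⟩ := hX.adj c0 hs.1 x hx
  have h4 : ∀ y ∈ ff X c0, y ≠ x → ⟪g, y⟫ = 1 := fun y hy hyx => (D2_mem.1 (h3 y hy hyx)).2
  have h5 : g ≠ -c0 := by
    intro h
    have h6 : 1 < (ff X c0).card := by rw [hX.card c0 hs.1]; omega
    obtain ⟨y, hy, hyx⟩ := Finset.exists_mem_ne h6 x
    have h7 := h4 y hy hyx
    rw [h, inner_neg_left, (D2_mem.1 hy).2] at h7
    norm_num at h7
  refine ⟨g, h1, h2, h5, h4, ?_, hs.2.2 g h1 h2, ?_⟩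
  · refine lt_of_le_of_ne (h1.1 x (D2_mem.1 hx).1) ?_
    intro h6
    refine h2 (D2_ext hs.1 fun y hy => ?_)
    by_cases hyx : y = x
    · rw [hyx, h6]
    · exact h4 y hy hyx
  · have h6 := hs.2.2 (-g) (D3_neg hX.neg h1) (by
      intro h7
      apply h5
      rw [← h7, neg_neg])
    rw [inner_neg_left] at h6
    linarith

/-- a linear identity -/
theorem D3_lin {F : Finset (E d)} {g x z : E d} {α : E d → ℝ} (hz : ∑ y ∈ F, α y • y = z)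
    (h0 : ∀ y ∈ F, ⟪c0, y⟫ = 1) (hx : x ∈ F) (hg : ∀ y ∈ F, y ≠ x → ⟪g, y⟫ = 1) :
    ⟪c0, z⟫ - ⟪g, z⟫ = α x * (1 - ⟪g, x⟫) := by
  rw [← inner_sub_left, ← hz, inner_sum]
  rw [Finset.sum_eq_single x]
  · rw [real_inner_smul_right, inner_sub_left, h0 x hx]
  · intro y hy hyx
    rw [real_inner_smul_right, inner_sub_left, h0 y hy, hg y hy hyx, sub_self, mul_zero]
  · intro h; exact absurd hx h

variable {X' : Finset (E d)}

/-- the new facets -/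
theorem D3_new (hd : 2 ≤ d) (hX : Simp d X) (hs : StackStep X c0 v)
    (hX' : ∀ y, y ∈ X' ↔ y ∈ X ∨ y = v ∨ y = -v) (x : E d) (hx : x ∈ ff X c0) :
    ∃ g, FF X' g ∧ ∀ y, y ∈ ff X' g ↔ y = v ∨ (y ∈ ff X c0 ∧ y ≠ x) := by
  obtain ⟨cx, h1, h2, h3, h4, h5, h6, h7⟩ := D3_nb hd hX hs x hx
  have h8 : 1 < ⟪c0, v⟫ := hs.2.1
  have h9 : 0 < ⟪c0, v⟫ - ⟪cx, v⟫ := by linarith
  obtain ⟨a, ha0, ha1, hav⟩ : ∃ a : ℝ, 0 < a ∧ a < 1 ∧ a * ⟪c0, v⟫ + (1 - a) * ⟪cx, v⟫ = 1 := by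
    refine ⟨(1 - ⟪cx, v⟫) / (⟪c0, v⟫ - ⟪cx, v⟫), div_pos (by linarith) h9, ?_, ?_⟩
    · rw [div_lt_one h9]; linarith
    · field_simp
      ring
  set g : E d := a • c0 + (1 - a) • cx with hg
  have hin : ∀ y, ⟪g, y⟫ = a * ⟪c0, y⟫ + (1 - a) * ⟪cx, y⟫ := by
    intro y
    rw [hg, inner_add_left, real_inner_smul_left, real_inner_smul_left]
  have hgv : ⟪g, v⟫ = 1 := by rw [hin, hav]
  have hgX : ∀ y ∈ X, ⟪g, y⟫ ≤ 1 := by
    intro y hy
    rw [hin]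
    have := hs.1.1 y hy
    have := h1.1 y hy
    nlinarith
  have hle : ∀ y ∈ X', ⟪g, y⟫ ≤ 1 := by
    intro y hy
    rcases (hX' y).1 hy with h | h | h
    · exact hgX y h
    · rw [h, hgv]
    · rw [h, inner_neg_right, hgv]; norm_num
  have hiff : ∀ y, (y ∈ X' ∧ ⟪g, y⟫ = 1) ↔ y = v ∨ (y ∈ ff X c0 ∧ y ≠ x) := by
    intro y
    constructor
    · rintro ⟨hy, hy1⟩
      rcases (hX' y).1 hy with h | h | h
      · right
        have h10 := hs.1.1 y h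
        have h11 := h1.1 y h
        rw [hin] at hy1
        have h12 : ⟪c0, y⟫ = 1 := by nlinarith
        have h13 : ⟪cx, y⟫ = 1 := by nlinarith
        refine ⟨D2_mem.2 ⟨h, h12⟩, ?_⟩
        rintro rfl
        linarith
      · exact Or.inl h
      · rw [h, inner_neg_right, hgv] at hy1
        norm_num at hy1
    · rintro (h | ⟨h, h'⟩)
      · exact ⟨(hX' y).2 (Or.inr (Or.inl h)), by rw [h, hgv]⟩
      · refine ⟨(hX' y).2 (Or.inl (D2_mem.1 h).1), ?_⟩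
        rw [hin, (D2_mem.1 h).2, h4 y h h']
        ring
  refine ⟨g, ⟨hle, ?_⟩, fun y => D2_mem.trans (hiff y)⟩
  -- the span
  obtain ⟨α, hα⟩ := D3_coord hs.1 v
  have h10 := D3_lin hα (fun y hy => (D2_mem.1 hy).2) hx h4
  have h11 : α x ≠ 0 := by
    intro h
    rw [h, zero_mul] at h10
    linarith
  rw [eq_top_iff, ← hs.1.2, Submodule.span_le]
  have h12 : ∀ y ∈ ff X c0, y ≠ x → y ∈ Submodule.span ℝ {y : E d | y ∈ X' ∧ ⟪g, y⟫ = 1} :=
    fun y hy hyx => Submodule.subset_span ((hiff y).2 (Or.inr ⟨hy, hyx⟩))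
  have h13 : v ∈ Submodule.span ℝ {y : E d | y ∈ X' ∧ ⟪g, y⟫ = 1} :=
    Submodule.subset_span ((hiff v).2 (Or.inl rfl))
  have h14 : x ∈ Submodule.span ℝ {y : E d | y ∈ X' ∧ ⟪g, y⟫ = 1} := by
    rw [← Finset.add_sum_erase _ _ hx] at hα
    have h15 : α x • x = v - ∑ y ∈ (ff X c0).erase x, α y • y := eq_sub_of_add_eq hα
    have h16 : α x • x ∈ Submodule.span ℝ {y : E d | y ∈ X' ∧ ⟪g, y⟫ = 1} := by
      rw [h15]
      refine Submodule.sub_mem _ h13 (Submodule.sum_mem _ fun y hy => Submodule.smul_mem _ _ ?_)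
      exact h12 y (Finset.mem_of_mem_erase hy) (Finset.ne_of_mem_erase hy)
    have h17 := Submodule.smul_mem _ (α x)⁻¹ h16
    rwa [smul_smul, inv_mul_cancel₀ h11, one_smul] at h17
  intro y hy
  by_cases hyx : y = x
  · rw [hyx]; exact h14
  · exact h12 y (D2_mem.2 hy) hyx

/-- the key claim -/
theorem D3_key (hd : 2 ≤ d) (hX : Simp d X) (hs : StackStep X c0 v) {c : E d}
    (hc : ∀ y ∈ X, ⟪c, y⟫ ≤ 1) (hcv : ⟪c, v⟫ = 1) (y : E d) (hy : y ∈ X) (hcy : ⟪c, y⟫ = 1) :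
    y ∈ ff X c0 := by
  have h8 : 1 < ⟪c0, v⟫ := hs.2.1
  by_contra hcon
  have h1 : ⟪c0, y⟫ < 1 := by
    refine lt_of_le_of_ne (hs.1.1 y hy) fun h => hcon (D2_mem.2 ⟨hy, h⟩)
  have h2 : 0 < ⟪c0, v⟫ - ⟪c0, y⟫ := by linarith
  obtain ⟨t, ht0, ht1, htv⟩ : ∃ t : ℝ, 0 < t ∧ t < 1 ∧ (1 - t) * ⟪c0, v⟫ + t * ⟪c0, y⟫ = 1 := by
    refine ⟨(⟪c0, v⟫ - 1) / (⟪c0, v⟫ - ⟪c0, y⟫), div_pos (by linarith) h2, ?_, ?_⟩
    · rw [div_lt_one h2]; linarith
    · field_simp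
      ring
  set z : E d := (1 - t) • v + t • y with hz
  have hin : ∀ g : E d, ⟪g, z⟫ = (1 - t) * ⟪g, v⟫ + t * ⟪g, y⟫ := by
    intro g
    rw [hz, inner_add_right, real_inner_smul_right, real_inner_smul_right]
  obtain ⟨α, hα⟩ := D3_coord hs.1 z
  have hpos : ∀ x ∈ ff X c0, 0 < α x := by
    intro x hx
    obtain ⟨cx, k1, k2, k3, k4, k5, k6, k7⟩ := D3_nb hd hX hs x hx
    have h3 := D3_lin hα (fun y hy => (D2_mem.1 hy).2) hx k4
    have h4 : ⟪c0, z⟫ = 1 := by rw [hin, htv]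
    have h5 : ⟪cx, z⟫ < 1 := by
      rw [hin]
      have := k1.1 y hy
      nlinarith
    have h6 : 0 < α x * (1 - ⟪cx, x⟫) := by rw [← h3]; linarith
    exact (mul_pos_iff_of_pos_right (by linarith)).1 h6
  have h3 : ∑ x ∈ ff X c0, α x * (1 - ⟪c, x⟫) = 0 := by
    have h4 : ⟪c0, z⟫ - ⟪c, z⟫ = ∑ x ∈ ff X c0, α x * (1 - ⟪c, x⟫) := by
      rw [← inner_sub_left]
      conv_lhs => rw [← hα]
      rw [inner_sum]
      refine Finset.sum_congr rfl fun x hx => ?_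
      rw [real_inner_smul_right, inner_sub_left, (D2_mem.1 hx).2]
    rw [← h4, hin, hin, htv, hcv, hcy]
    ring
  have h4 : ∀ x ∈ ff X c0, α x * (1 - ⟪c, x⟫) = 0 := by
    refine (Finset.sum_eq_zero_iff_of_nonneg ?_).1 h3
    intro x hx
    have := hc x (D2_mem.1 hx).1
    exact mul_nonneg (hpos x hx).le (by linarith)
  have h5 : c = c0 := by
    refine D2_ext hs.1 fun x hx => ?_
    rcases mul_eq_zero.1 (h4 x hx) with h | h
    · exact absurd h (hpos x hx).ne'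
    · linarith
  rw [h5] at hcv
  linarith

/-- the remaining old facets -/
theorem D3_old (hX : Simp d X) (hs : StackStep X c0 v)
    (hX' : ∀ y, y ∈ X' ↔ y ∈ X ∨ y = v ∨ y = -v) {c : E d} (hc : FF X c) (h1 : c ≠ c0)
    (h2 : c ≠ -c0) : FF X' c ∧ ff X' c = ff X c ∧ ⟪c, v⟫ < 1 ∧ -1 < ⟪c, v⟫ := by
  have h3 : ⟪c, v⟫ < 1 := hs.2.2 c hc h1
  have h4 : -1 < ⟪c, v⟫ := by
    have h6 := hs.2.2 (-c) (D3_neg hX.neg hc) (by
      intro h7
      apply h2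
      rw [← h7, neg_neg])
    rw [inner_neg_left] at h6
    linarith
  have h5 : ∀ y, (y ∈ X' ∧ ⟪c, y⟫ = 1) ↔ (y ∈ X ∧ ⟪c, y⟫ = 1) := by
    intro y
    constructor
    · rintro ⟨hy, hy1⟩
      rcases (hX' y).1 hy with h | h | h
      · exact ⟨h, hy1⟩
      · rw [h] at hy1; linarith
      · rw [h, inner_neg_right] at hy1; linarith
    · rintro ⟨hy, hy1⟩
      exact ⟨(hX' y).2 (Or.inl hy), hy1⟩
  refine ⟨⟨?_, ?_⟩, ?_, h3, h4⟩
  · intro y hy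
    rcases (hX' y).1 hy with h | h | h
    · exact hc.1 y h
    · rw [h]; exact h3.le
    · rw [h, inner_neg_right]; linarith
  · rw [← hc.2]
    congr 1
    ext y
    exact h5 y
  · ext y
    rw [D2_mem, D2_mem, h5]

theorem D3_clsv (hd : 2 ≤ d) (hX : Simp d X) (hs : StackStep X c0 v)
    (hX' : ∀ y, y ∈ X' ↔ y ∈ X ∨ y = v ∨ y = -v) {c : E d} (hc : FF X' c) (hcv : ⟪c, v⟫ = 1) :
    ∃ x ∈ ff X c0, ∀ y, y ∈ ff X' c ↔ y = v ∨ (y ∈ ff X c0 ∧ y ≠ x) := by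
  have h1 : ∀ y ∈ X, ⟪c, y⟫ ≤ 1 := fun y hy => hc.1 y ((hX' y).2 (Or.inl hy))
  have h2 : ∃ x ∈ ff X c0, ⟪c, x⟫ ≠ 1 := by
    by_contra hcon
    push Not at hcon
    have h3 := D2_ext hs.1 hcon
    rw [h3] at hcv
    have := hs.2.1
    linarith
  obtain ⟨x, hx, hx1⟩ := h2
  obtain ⟨g, hg, hg'⟩ := D3_new hd hX hs hX' x hx
  have h3 : g = c := by
    refine D2_ext hc fun y hy => ?_
    have h4 := D2_mem.1 hy
    have h5 : y ∈ ff X' g := by
      rw [hg']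
      rcases (hX' y).1 h4.1 with h | h | h
      · right
        refine ⟨D3_key hd hX hs h1 hcv y h h4.2, ?_⟩
        rintro rfl
        exact hx1 h4.2
      · exact Or.inl h
      · rw [h, inner_neg_right, hcv] at h4
        have := h4.2
        norm_num at this
    exact (D2_mem.1 h5).2
  rw [← h3]
  exact ⟨x, hx, hg'⟩

theorem D3_sw (hX' : ∀ y, y ∈ X' ↔ y ∈ X ∨ y = v ∨ y = -v) :
    ∀ y, y ∈ X' ↔ y ∈ X ∨ y = -v ∨ y = - -v := by
  intro y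
  rw [hX', neg_neg]
  tauto

/-- classification of the facets -/
theorem D3_cls (hd : 2 ≤ d) (hX : Simp d X) (hs : StackStep X c0 v)
    (hX' : ∀ y, y ∈ X' ↔ y ∈ X ∨ y = v ∨ y = -v) {c : E d} (hc : FF X' c) :
    (FF X c ∧ c ≠ c0 ∧ c ≠ -c0) ∨
    (∃ x ∈ ff X c0, ∀ y, y ∈ ff X' c ↔ y = v ∨ (y ∈ ff X c0 ∧ y ≠ x)) ∨
    (∃ x ∈ ff X (-c0), ∀ y, y ∈ ff X' c ↔ y = -v ∨ (y ∈ ff X (-c0) ∧ y ≠ x)) := by
  by_cases h1 : ⟪c, v⟫ = 1
  · exact Or.inr (Or.inl (D3_clsv hd hX hs hX' hc h1))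
  by_cases h2 : ⟪c, -v⟫ = 1
  · exact Or.inr (Or.inr (D3_clsv hd hX (D3_step hX.neg hs) (D3_sw hX') hc h2))
  left
  have hv : ⟪c, v⟫ < 1 := lt_of_le_of_ne (hc.1 v ((hX' v).2 (Or.inr (Or.inl rfl)))) h1
  have hv' : ⟪c, -v⟫ < 1 := lt_of_le_of_ne (hc.1 (-v) ((hX' _).2 (Or.inr (Or.inr rfl)))) h2
  have hv2 := hs.2.1
  rw [inner_neg_right] at hv'
  refine ⟨⟨fun y hy => hc.1 y ((hX' y).2 (Or.inl hy)), ?_⟩, ?_, ?_⟩
  · rw [← hc.2]
    congr 1
    ext y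
    constructor
    · rintro ⟨hy, hy1⟩
      exact ⟨(hX' y).2 (Or.inl hy), hy1⟩
    · rintro ⟨hy, hy1⟩
      rcases (hX' y).1 hy with h | h | h
      · exact ⟨h, hy1⟩
      · rw [h] at hy1; exact absurd hy1 h1
      · rw [h] at hy1; exact absurd hy1 h2
  · rintro rfl
    linarith
  · rintro rfl
    rw [inner_neg_left] at hv'
    linarith

theorem D3_vX (hX : Simp d X) (hs : StackStep X c0 v) : v ∉ X ∧ -v ∉ X ∧ v ≠ -v := by
  have h2 := hs.2.1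
  refine ⟨?_, ?_, ?_⟩
  · intro h
    have := hs.1.1 v h
    linarith
  · intro h
    have h1 := hX.neg _ h
    rw [neg_neg] at h1
    have := hs.1.1 v h1
    linarith
  · intro h
    have h1 : ⟪c0, v⟫ = ⟪c0, -v⟫ := by rw [← h]
    rw [inner_neg_right] at h1
    linarith

theorem D3_cardv (hd : 2 ≤ d) (hX : Simp d X) (hs : StackStep X c0 v) {c x : E d}
    (hx : x ∈ ff X c0) (h : ∀ y, y ∈ ff X' c ↔ y = v ∨ (y ∈ ff X c0 ∧ y ≠ x)) :
    (ff X' c).card = d := by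
  have h1 : ff X' c = insert v ((ff X c0).erase x) := by
    ext y
    rw [h, Finset.mem_insert, Finset.mem_erase]
    tauto
  rw [h1, Finset.card_insert_of_notMem, Finset.card_erase_of_mem hx, hX.card c0 hs.1]
  · omega
  · intro h2
    exact (D3_vX hX hs).1 (D2_mem.1 (Finset.mem_of_mem_erase h2)).1

theorem D3_card (hd : 2 ≤ d) (hX : Simp d X) (hs : StackStep X c0 v)
    (hX' : ∀ y, y ∈ X' ↔ y ∈ X ∨ y = v ∨ y = -v) {c : E d} (hc : FF X' c) :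
    (ff X' c).card = d := by
  rcases D3_cls hd hX hs hX' hc with ⟨h1, h2, h3⟩ | ⟨x, hx, h⟩ | ⟨x, hx, h⟩
  · rw [(D3_old hX hs hX' h1 h2 h3).2.1]
    exact hX.card c h1
  · exact D3_cardv hd hX hs hx h
  · exact D3_cardv hd hX (D3_step hX.neg hs) hx h

/-- a new facet containing a proper subset of the old one -/
theorem D3_sub (hd : 2 ≤ d) (hX : Simp d X) (hs : StackStep X c0 v)
    (hX' : ∀ y, y ∈ X' ↔ y ∈ X ∨ y = v ∨ y = -v) {S : Finset (E d)} (hS : S ⊆ ff X c0)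
    (hS' : S ≠ ff X c0) : ∃ g, FF X' g ∧ v ∈ ff X' g ∧ S ⊆ ff X' g := by
  obtain ⟨x, hx, hxS⟩ := Finset.exists_of_ssubset (hS.ssubset_of_ne hS')
  obtain ⟨g, hg, hg'⟩ := D3_new hd hX hs hX' x hx
  refine ⟨g, hg, (hg' v).2 (Or.inl rfl), fun y hy => (hg' y).2 (Or.inr ⟨hS hy, ?_⟩)⟩
  rintro rfl
  exact hxS hy

theorem D3_adjv (hd : 2 ≤ d) (hX : Simp d X) (hs : StackStep X c0 v)
    (hX' : ∀ y, y ∈ X' ↔ y ∈ X ∨ y = v ∨ y = -v) {c : E d} {x0 : E d}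
    (hx0 : x0 ∈ ff X c0) (h : ∀ y, y ∈ ff X' c ↔ y = v ∨ (y ∈ ff X c0 ∧ y ≠ x0)) (x : E d)
    (hx : x ∈ ff X' c) : ∃ c', FF X' c' ∧ c' ≠ c ∧ ∀ y ∈ ff X' c, y ≠ x → y ∈ ff X' c' := by
  rcases (h x).1 hx with h1 | ⟨h1, h2⟩
  · obtain ⟨g, k1, k2, k3, k4, k5, k6, k7⟩ := D3_nb hd hX hs x0 hx0
    have k8 := D3_old hX hs hX' k1 k2 k3
    refine ⟨g, k8.1, ?_, ?_⟩
    · intro h3
      have h4 := (D2_mem.1 ((h v).2 (Or.inl rfl))).2
      rw [← h3] at h4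
      linarith
    · intro y hy hyx
      rcases (h y).1 hy with h3 | ⟨h3, h4⟩
      · rw [h1] at hyx; exact absurd h3 hyx
      · rw [k8.2.1, D2_mem]
        exact ⟨(D2_mem.1 h3).1, k4 y h3 h4⟩
  · obtain ⟨g, hg, hg'⟩ := D3_new hd hX hs hX' x h1
    refine ⟨g, hg, ?_, ?_⟩
    · intro h3
      rw [← h3] at hx
      rcases (hg' x).1 hx with h4 | ⟨_, h4⟩
      · rw [h4] at h1
        exact (D3_vX hX hs).1 (D2_mem.1 h1).1
      · exact h4 rfl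
    · intro y hy hyx
      rcases (h y).1 hy with h3 | ⟨h3, h4⟩
      · exact (hg' y).2 (Or.inl h3)
      · exact (hg' y).2 (Or.inr ⟨h3, hyx⟩)

theorem D3_adj (hd : 2 ≤ d) (hX : Simp d X) (hs : StackStep X c0 v)
    (hX' : ∀ y, y ∈ X' ↔ y ∈ X ∨ y = v ∨ y = -v) (c : E d) (hc : FF X' c) (x : E d)
    (hx : x ∈ ff X' c) : ∃ c', FF X' c' ∧ c' ≠ c ∧ ∀ y ∈ ff X' c, y ≠ x → y ∈ ff X' c' := by
  have hs' := D3_step hX.neg hs
  rcases D3_cls hd hX hs hX' hc with ⟨h1, h2, h3⟩ | ⟨x0, hx0, h⟩ | ⟨x0, hx0, h⟩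
  · obtain ⟨_, k2, k3, k4⟩ := D3_old hX hs hX' h1 h2 h3
    rw [k2] at hx ⊢
    obtain ⟨c', l1, l2, l3⟩ := hX.adj c h1 x hx
    have hsub : (ff X c).erase x ⊆ ff X c' := fun y hy =>
      l3 y (Finset.mem_of_mem_erase hy) (Finset.ne_of_mem_erase hy)
    have hne : (ff X c).erase x ≠ ff X c' := by
      intro h
      have h4 := congrArg Finset.card h
      rw [Finset.card_erase_of_mem hx, hX.card c h1, hX.card c' l1] at h4
      omega
    by_cases e1 : c' = c0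
    · rw [e1] at hsub hne
      obtain ⟨g, m1, m2, m3⟩ := D3_sub hd hX hs hX' hsub hne
      refine ⟨g, m1, ?_, fun y hy hyx => m3 (Finset.mem_erase.2 ⟨hyx, hy⟩)⟩
      rintro rfl
      have := (D2_mem.1 m2).2
      linarith
    by_cases e2 : c' = -c0
    · rw [e2] at hsub hne
      obtain ⟨g, m1, m2, m3⟩ := D3_sub hd hX hs' (D3_sw hX') hsub hne
      refine ⟨g, m1, ?_, fun y hy hyx => m3 (Finset.mem_erase.2 ⟨hyx, hy⟩)⟩
      rintro rfl
      have := (D2_mem.1 m2).2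
      rw [inner_neg_right] at this
      linarith
    obtain ⟨m1, m2, m3, m4⟩ := D3_old hX hs hX' l1 e1 e2
    refine ⟨c', m1, l2, ?_⟩
    rw [m2]
    exact l3
  · exact D3_adjv hd hX hs hX' hx0 h x hx
  · exact D3_adjv hd hX hs' (D3_sw hX') hx0 h x hx

/-- old faces lie in facets -/
theorem D3_fold (hd : 2 ≤ d) (hX : Simp d X) (hs : StackStep X c0 v)
    (hX' : ∀ y, y ∈ X' ↔ y ∈ X ∨ y = v ∨ y = -v) {S : Finset (E d)} (hS : Supp X S)
    (h1 : S ≠ ff X c0) (h2 : S ≠ ff X (-c0)) : ∃ c, FF X' c ∧ S ⊆ ff X' c := by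
  obtain ⟨c, hc, hSc⟩ := hX.facet S hS
  by_cases e1 : c = c0
  · rw [e1] at hSc
    obtain ⟨g, m1, m2, m3⟩ := D3_sub hd hX hs hX' hSc h1
    exact ⟨g, m1, m3⟩
  by_cases e2 : c = -c0
  · rw [e2] at hSc
    obtain ⟨g, m1, m2, m3⟩ := D3_sub hd hX (D3_step hX.neg hs) (D3_sw hX') hSc h2
    exact ⟨g, m1, m3⟩
  obtain ⟨m1, m2, m3, m4⟩ := D3_old hX hs hX' hc e1 e2
  exact ⟨c, m1, by rw [m2]; exact hSc⟩

theorem D3_fnew (hd : 2 ≤ d) (hX : Simp d X) (hs : StackStep X c0 v)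
    (hX' : ∀ y, y ∈ X' ↔ y ∈ X ∨ y = v ∨ y = -v) {S : Finset (E d)} (hS : S ⊂ ff X c0) :
    ∃ c, FF X' c ∧ insert v S ⊆ ff X' c := by
  obtain ⟨g, m1, m2, m3⟩ := D3_sub hd hX hs hX' hS.1 hS.ne
  refine ⟨g, m1, ?_⟩
  intro y hy
  rcases Finset.mem_insert.1 hy with h | h
  · rw [h]; exact m2
  · exact m3 h

theorem D3_supv (hd : 2 ≤ d) (hX : Simp d X) (hs : StackStep X c0 v)
    (hX' : ∀ y, y ∈ X' ↔ y ∈ X ∨ y = v ∨ y = -v) {S : Finset (E d)} (hS : Supp X' S)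
    (hv : v ∈ S) : ∃ S', S' ⊂ ff X c0 ∧ S = insert v S' := by
  obtain ⟨hS1, c, hc⟩ := hS
  have hle : ∀ y ∈ X', ⟪c, y⟫ ≤ 1 := by
    intro y hy
    by_cases h : y ∈ S
    · exact ((hc y hy).1 h).le
    · exact ((hc y hy).2 h).le
  have hcv : ⟪c, v⟫ = 1 := (hc v (hS1 hv)).1 hv
  refine ⟨S.erase v, ?_, (Finset.insert_erase hv).symm⟩
  have h1 : S.erase v ⊆ ff X c0 := by
    intro y hy
    have hyS := Finset.mem_of_mem_erase hy
    have hyv := Finset.ne_of_mem_erase hy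
    have hy1 := (hc y (hS1 hyS)).1 hyS
    rcases (hX' y).1 (hS1 hyS) with h | h | h
    · exact D3_key hd hX hs (fun y hy => hle y ((hX' y).2 (Or.inl hy))) hcv y h hy1
    · exact absurd h hyv
    · rw [h, inner_neg_right, hcv] at hy1
      norm_num at hy1
  refine h1.ssubset_of_ne ?_
  intro h2
  have h3 : c = c0 := by
    refine D2_ext hs.1 fun y hy => ?_
    rw [← h2] at hy
    have hyS := Finset.mem_of_mem_erase hy
    exact (hc y (hS1 hyS)).1 hyS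
  rw [h3] at hcv
  have := hs.2.1
  linarith

theorem D3_supX (hX : Simp d X) (hs : StackStep X c0 v)
    (hX' : ∀ y, y ∈ X' ↔ y ∈ X ∨ y = v ∨ y = -v) {S : Finset (E d)} (hS : Supp X' S)
    (hv : v ∉ S) (hv' : -v ∉ S) : Supp X S ∧ S ≠ ff X c0 := by
  obtain ⟨hS1, c, hc⟩ := hS
  refine ⟨⟨?_, c, fun x hx => hc x ((hX' x).2 (Or.inl hx))⟩, ?_⟩
  · intro y hy
    rcases (hX' y).1 (hS1 hy) with h | h | h
    · exact h
    · rw [h] at hy; exact absurd hy hv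
    · rw [h] at hy; exact absurd hy hv'
  · intro h
    have h3 : c = c0 := by
      refine D2_ext hs.1 fun y hy => ?_
      rw [← h] at hy
      exact (hc y (hS1 hy)).1 hy
    have h4 := (hc v ((hX' v).2 (Or.inr (Or.inl rfl)))).2 hv
    rw [h3] at h4
    have := hs.2.1
    linarith

end Ctx

theorem t_STK : S_STK := by
  intro d X hd hX c0 v hs
  set X' : Finset (E d) := X ∪ {v, -v} with hX'def
  have hX' : ∀ y, y ∈ X' ↔ y ∈ X ∨ y = v ∨ y = -v := by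
    intro y
    rw [hX'def, Finset.mem_union, Finset.mem_insert, Finset.mem_singleton]
  have hX'' := D3_sw hX'
  have hs' := D3_step hX.neg hs
  obtain ⟨v1, v2, v3⟩ := D3_vX hX hs
  have hadj := D3_adj hd hX hs hX'
  have hfn := D3_ffneg hX.neg c0
  have hsupp : ∀ S : Finset (E d), Supp X' S ↔
      (Supp X S ∧ S ≠ ff X c0 ∧ S ≠ (ff X c0).image (fun y => -y)) ∨
      (∃ S', S' ⊂ ff X c0 ∧ S = insert v S') ∨
      (∃ S', S' ⊂ (ff X c0).image (fun y => -y) ∧ S = insert (-v) S') := by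
    intro S
    rw [← hfn]
    constructor
    · intro hS
      by_cases h1 : v ∈ S
      · exact Or.inr (Or.inl (D3_supv hd hX hs hX' hS h1))
      by_cases h2 : -v ∈ S
      · exact Or.inr (Or.inr (D3_supv hd hX hs' hX'' hS h2))
      left
      have h3 := D3_supX hX hs hX' hS h1 h2
      have h4 := D3_supX hX hs' hX'' hS h2 (by rwa [neg_neg])
      exact ⟨h3.1, h3.2, h4.2⟩
    · rintro (⟨h1, h2, h3⟩ | ⟨S', h1, rfl⟩ | ⟨S', h1, rfl⟩)
      · obtain ⟨c, hc, hS⟩ := D3_fold hd hX hs hX' h1 h2 h3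
        exact D2_avg hadj hc hS
      · obtain ⟨c, hc, hS⟩ := D3_fnew hd hX hs hX' h1
        exact D2_avg hadj hc hS
      · obtain ⟨c, hc, hS⟩ := D3_fnew hd hX hs' hX'' h1
        exact D2_avg hadj hc hS
  have hne : (ff X c0).Nonempty := by
    rw [← Finset.card_pos, hX.card c0 hs.1]; omega
  have hne' : (ff X (-c0)).Nonempty := by
    rw [← Finset.card_pos, hX.card _ hs'.1]; omega
  refine ⟨⟨?_, ?_, ?_, ?_, hadj⟩, v1, v2, v3, hsupp⟩
  · intro x hx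
    rw [hX'] at hx ⊢
    rcases hx with h | h | h
    · exact Or.inl (hX.neg x h)
    · rw [h]; exact Or.inr (Or.inr rfl)
    · rw [h, neg_neg]; exact Or.inr (Or.inl rfl)
  · intro x hx
    rw [hsupp, ← hfn]
    rcases (hX' x).1 hx with h | h | h
    · left
      refine ⟨hX.vert x h, ?_, ?_⟩
      · intro h1
        have h2 := hX.card c0 hs.1
        rw [← h1, Finset.card_singleton] at h2
        omega
      · intro h1
        have h2 := hX.card _ hs'.1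
        rw [← h1, Finset.card_singleton] at h2
        omega
    · right; left
      exact ⟨∅, Finset.ssubset_iff_subset_ne.2 ⟨Finset.empty_subset _, hne.ne_empty.symm⟩,
        by rw [h]; rfl⟩
    · right; right
      exact ⟨∅, Finset.ssubset_iff_subset_ne.2 ⟨Finset.empty_subset _, hne'.ne_empty.symm⟩,
        by rw [h]; rfl⟩
  · intro S hS
    rw [hsupp, ← hfn] at hS
    rcases hS with ⟨h1, h2, h3⟩ | ⟨S', h1, rfl⟩ | ⟨S', h1, rfl⟩
    · exact D3_fold hd hX hs hX' h1 h2 h3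
    · exact D3_fnew hd hX hs hX' h1
    · exact D3_fnew hd hX hs' hX'' h1
  · intro c hc
    exact D3_card hd hX hs hX' hc

end Pool.Agent.N525.CS
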