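import Pool.Agent.N525.CS.Stm

set_option autoImplicit false

/-! Realisation of a symmetric stacking. -/

namespace Pool.Agent.N525.CS

open Pool.Agent.N525.VR
open scoped RealInnerProductSpace

section
variable {W : Type} [Fintype W] [DecidableEq W] {d : ℕ}

theorem D4_opp (x : SV W) : opp (opp x) = x := by
  obtain ⟨a, b⟩ := x
  simp [opp]

theorem D4_opp_ne (x : SV W) : opp x ≠ x := by
  obtain ⟨a, b⟩ := x
  simp [opp]

theorem D4_inj {f' : SV W → E d} {U : Finset (SV W)} (hinj : Set.InjOn f' U)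
    {S F : Finset (SV W)} (hS : S ⊆ U) (hF : F ⊆ U) (h : S.image f' = F.image f') : S = F := by
  have key : ∀ A B : Finset (SV W), A ⊆ U → B ⊆ U → A.image f' = B.image f' → A ⊆ B := by
    intro A B hA hB hAB x hx
    have h1 : f' x ∈ B.image f' := by rw [← hAB]; exact Finset.mem_image_of_mem _ hx
    obtain ⟨y, hy, hyx⟩ := Finset.mem_image.1 h1
    have h2 : y = x := hinj (hB hy) (hA hx) hyx
    rw [← h2]; exact hy
  exact Finset.Subset.antisymm (key S F hS hF h) (key F S hF hS h.symm)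

theorem D4_key {f' : SV W → E d} {U : Finset (SV W)} (hinj : Set.InjOn f' U)
    {S F : Finset (SV W)} (hS : S ⊆ U) (hF : F ⊆ U) {w : SV W} (hwU : w ∈ U) :
    (∃ S', S' ⊂ F ∧ S = insert w S') ↔ ∃ S'', S'' ⊂ F.image f' ∧ S.image f' = insert (f' w) S'' := by
  constructor
  · rintro ⟨S', h1, rfl⟩
    refine ⟨S'.image f', ?_, Finset.image_insert _ _ _⟩
    refine (Finset.image_subset_image h1.1).ssubset_of_ne ?_
    intro h
    exact h1.ne (D4_inj hinj (h1.1.trans hF) hF h)
  · rintro ⟨S'', h1, h2⟩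
    have hw : w ∈ S := by
      have h3 : f' w ∈ S.image f' := by rw [h2]; exact Finset.mem_insert_self _ _
      obtain ⟨x, hx, hxw⟩ := Finset.mem_image.1 h3
      rw [← hinj (hS hx) hwU hxw]
      exact hx
    refine ⟨S.erase w, ?_, (Finset.insert_erase hw).symm⟩
    have h3 : ∀ x ∈ S, x ≠ w → f' x ∈ S'' := by
      intro x hx hxw
      have h4 : f' x ∈ insert (f' w) S'' := by rw [← h2]; exact Finset.mem_image_of_mem _ hx
      rcases Finset.mem_insert.1 h4 with h5 | h5
      · exact absurd (hinj (hS hx) hwU h5) hxw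
      · exact h5
    have h4 : S.erase w ⊆ F := by
      intro x hx
      have hxS := Finset.mem_of_mem_erase hx
      obtain ⟨z, hz, hzx⟩ := Finset.mem_image.1 (h1.1 (h3 x hxS (Finset.ne_of_mem_erase hx)))
      rw [← hinj (hF hz) (hS hxS) hzx]
      exact hz
    refine h4.ssubset_of_ne ?_
    intro h5
    apply h1.2
    intro y hy
    obtain ⟨z, hz, rfl⟩ := Finset.mem_image.1 hy
    rw [← h5] at hz
    exact h3 z (Finset.mem_of_mem_erase hz) (Finset.ne_of_mem_erase hz)

/-- the faces of a stacking -/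
theorem D4_face (hd : 4 ≤ d) {T0 T : Finset (Finset (SV W))} {w : SV W} {F : Finset (SV W)}
    (hFd : F.card = d) (hF : F ∈ T0) (hF' : F.image opp ∈ T0) (hc : ∀ G ∈ T0, G.card = d)
    (hw : w ∉ vs T0) (hw' : opp w ∉ vs T0)
    (hT : T = (T0 \ {F, F.image opp}) ∪ cap w F ∪ cap (opp w) (F.image opp))
    (S : Finset (SV W)) : face T S ↔
      (S ⊆ vs T0 ∧ face T0 S ∧ S ≠ F ∧ S ≠ F.image opp) ∨ (∃ S', S' ⊂ F ∧ S = insert w S') ∨
        (∃ S', S' ⊂ F.image opp ∧ S = insert (opp w) S') := by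
  have hvs : ∀ G ∈ T0, G ⊆ vs T0 := fun G hG => Finset.subset_biUnion_of_mem id hG
  have capw : ∀ (u : SV W) (F1 : Finset (SV W)), F1 ∈ T0 → u ∉ vs T0 → ∀ y ∈ F1,
      S ⊆ insert u (F1.erase y) →
      (S ⊆ vs T0 ∧ face T0 S ∧ S ≠ F ∧ S ≠ F.image opp) ∨ (∃ S', S' ⊂ F1 ∧ S = insert u S') := by
    intro u F1 hF1 hu y hy hS
    by_cases huS : u ∈ S
    · right
      refine ⟨S.erase u, ?_, (Finset.insert_erase huS).symm⟩
      have h1 : S.erase u ⊆ F1.erase y := by
        intro z hz
        rcases Finset.mem_insert.1 (hS (Finset.mem_of_mem_erase hz)) with h | h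
        · exact absurd h (Finset.ne_of_mem_erase hz)
        · exact h
      exact lt_of_le_of_lt h1 (Finset.erase_ssubset hy)
    · left
      have h1 : S ⊆ F1.erase y := by
        intro z hz
        rcases Finset.mem_insert.1 (hS hz) with h | h
        · rw [h] at hz; exact absurd hz huS
        · exact h
      have h2 : S ⊆ F1 := h1.trans (Finset.erase_subset _ _)
      have h3 : S.card < d := by
        have := Finset.card_le_card h1
        rw [Finset.card_erase_of_mem hy, hc F1 hF1] at this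
        omega
      refine ⟨h2.trans (hvs F1 hF1), ⟨F1, hF1, h2⟩, ?_, ?_⟩
      · rintro rfl; omega
      · rintro rfl
        have := hc _ hF'
        omega
  have mT : ∀ G, G ∈ T ↔ (G ∈ T0 ∧ G ≠ F ∧ G ≠ F.image opp) ∨ (∃ y ∈ F, insert w (F.erase y) = G) ∨
      (∃ y ∈ F.image opp, insert (opp w) ((F.image opp).erase y) = G) := by
    intro G
    rw [hT, Finset.mem_union, Finset.mem_union, Finset.mem_sdiff, Finset.mem_insert,
      Finset.mem_singleton, cap, cap, Finset.mem_image, Finset.mem_image, or_assoc, not_or]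
  constructor
  · rintro ⟨G, hG, hSG⟩
    rcases (mT G).1 hG with ⟨h1, h2, h3⟩ | ⟨y, hy, rfl⟩ | ⟨y, hy, rfl⟩
    · left
      refine ⟨hSG.trans (hvs G h1), ⟨G, h1, hSG⟩, ?_, ?_⟩
      · rintro rfl
        exact h2 (Finset.eq_of_subset_of_card_le hSG (by rw [hc G h1, hFd])).symm
      · rintro rfl
        exact h3 (Finset.eq_of_subset_of_card_le hSG (by rw [hc G h1, hc _ hF'])).symm
    · rcases capw w F hF hw y hy hSG with h | h
      · exact Or.inl h
      · exact Or.inr (Or.inl h)
    · rcases capw (opp w) (F.image opp) hF' hw' y hy hSG with h | h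
      · exact Or.inl h
      · exact Or.inr (Or.inr h)
  · rintro (⟨_, ⟨G, hG, hSG⟩, h2, h3⟩ | ⟨S', h1, rfl⟩ | ⟨S', h1, rfl⟩)
    · by_cases e1 : G = F
      · rw [e1] at hSG
        obtain ⟨y, hy, hyS⟩ := Finset.exists_of_ssubset (hSG.ssubset_of_ne h2)
        refine ⟨_, (mT _).2 (Or.inr (Or.inl ⟨y, hy, rfl⟩)), fun z hz => ?_⟩
        refine Finset.mem_insert_of_mem (Finset.mem_erase.2 ⟨?_, hSG hz⟩)
        rintro rfl; exact hyS hz
      by_cases e2 : G = F.image opp
      · rw [e2] at hSG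
        obtain ⟨y, hy, hyS⟩ := Finset.exists_of_ssubset (hSG.ssubset_of_ne h3)
        refine ⟨_, (mT _).2 (Or.inr (Or.inr ⟨y, hy, rfl⟩)), fun z hz => ?_⟩
        refine Finset.mem_insert_of_mem (Finset.mem_erase.2 ⟨?_, hSG hz⟩)
        rintro rfl; exact hyS hz
      exact ⟨G, (mT G).2 (Or.inl ⟨hG, e1, e2⟩), hSG⟩
    · obtain ⟨y, hy, hyS⟩ := Finset.exists_of_ssubset h1
      refine ⟨_, (mT _).2 (Or.inr (Or.inl ⟨y, hy, rfl⟩)), Finset.insert_subset_insert _ fun z hz => ?_⟩
      refine Finset.mem_erase.2 ⟨?_, h1.1 hz⟩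
      rintro rfl; exact hyS hz
    · obtain ⟨y, hy, hyS⟩ := Finset.exists_of_ssubset h1
      refine ⟨_, (mT _).2 (Or.inr (Or.inr ⟨y, hy, rfl⟩)), Finset.insert_subset_insert _ fun z hz => ?_⟩
      refine Finset.mem_erase.2 ⟨?_, h1.1 hz⟩
      rintro rfl; exact hyS hz

theorem D4_vs (hd : 4 ≤ d) {T0 T : Finset (Finset (SV W))} {w : SV W} {F : Finset (SV W)}
    (hFd : F.card = d) (hF : F ∈ T0) (hF' : F.image opp ∈ T0) (hc : ∀ G ∈ T0, G.card = d)
    (hw : w ∉ vs T0) (hw' : opp w ∉ vs T0)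
    (hT : T = (T0 \ {F, F.image opp}) ∪ cap w F ∪ cap (opp w) (F.image opp)) :
    vs T = vs T0 ∪ {w, opp w} := by
  have hsing : ∀ x, x ∈ vs T ↔ face T {x} := by
    intro x
    unfold vs face
    rw [Finset.mem_biUnion]
    constructor
    · rintro ⟨G, hG, hx⟩; exact ⟨G, hG, Finset.singleton_subset_iff.2 hx⟩
    · rintro ⟨G, hG, hx⟩; exact ⟨G, hG, Finset.singleton_subset_iff.1 hx⟩
  have hF'd := hc _ hF'
  ext x
  rw [hsing, D4_face hd hFd hF hF' hc hw hw' hT, Finset.mem_union, Finset.mem_insert,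
    Finset.mem_singleton]
  constructor
  · rintro (⟨h, _⟩ | ⟨S', h1, h2⟩ | ⟨S', h1, h2⟩)
    · exact Or.inl (Finset.singleton_subset_iff.1 h)
    · have : w ∈ ({x} : Finset (SV W)) := by rw [h2]; exact Finset.mem_insert_self _ _
      exact Or.inr (Or.inl (Finset.mem_singleton.1 this).symm)
    · have : opp w ∈ ({x} : Finset (SV W)) := by rw [h2]; exact Finset.mem_insert_self _ _
      exact Or.inr (Or.inr (Finset.mem_singleton.1 this).symm)
  · rintro (h | h | h)
    · left
      obtain ⟨G, hG, hx⟩ := Finset.mem_biUnion.1 h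
      refine ⟨Finset.singleton_subset_iff.2 h, ⟨G, hG, Finset.singleton_subset_iff.2 hx⟩, ?_, ?_⟩
      · intro h1; rw [← h1, Finset.card_singleton] at hFd; omega
      · intro h1; rw [← h1, Finset.card_singleton] at hF'd; omega
    · right; left
      refine ⟨∅, Finset.ssubset_iff_subset_ne.2 ⟨Finset.empty_subset _, ?_⟩, by rw [h]; rfl⟩
      intro h1; rw [← h1, Finset.card_empty] at hFd; omega
    · right; right
      refine ⟨∅, Finset.ssubset_iff_subset_ne.2 ⟨Finset.empty_subset _, ?_⟩, by rw [h]; rfl⟩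
      intro h1; rw [← h1, Finset.card_empty] at hF'd; omega

end

theorem t_REA (h1 : S_SUPP) (h2 : S_STK) (h3 : S_BEY) : S_REA := by
  intro W _ _ d hd T0 T w F f X hX hR hFd hF hF' hc _ hw hw' _ hT
  obtain ⟨r1, r2, r3, r4⟩ := hR
  have hvs : ∀ G ∈ T0, G ⊆ vs T0 := fun G hG => Finset.subset_biUnion_of_mem id hG
  have hff : ∀ c y, y ∈ ff X c → y ∈ X ∧ ⟪c, y⟫ = 1 := by
    intro c y h
    unfold ff at h
    exact (@Finset.mem_filter _ _ _ _ _).1 h
  -- the facet
  have k1 : Supp X (F.image f) := (r4 F (hvs F hF)).1 ⟨F, hF, Finset.Subset.refl _⟩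
  obtain ⟨c0, hc0, hFc0⟩ := (h1 d X (by omega) hX _).1 k1
  have k2 : (F.image f).card = d := by
    rw [Finset.card_image_of_injOn, hFd]
    exact r2.mono (by exact_mod_cast hvs F hF)
  have k3 : F.image f = ff X c0 :=
    Finset.eq_of_subset_of_card_le hFc0 (by rw [hX.card c0 hc0, k2])
  obtain ⟨v, hv⟩ := h3 d X (by omega) hX c0 hc0
  obtain ⟨_, v1, v2, v3, hsupp⟩ := h2 d X (by omega) hX c0 v hv
  -- the map
  set f' : SV W → E d := fun x => if x = w then v else if x = opp w then -v else f x with hf'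
  have fw : f' w = v := by simp [hf']
  have fow : f' (opp w) = -v := by
    simp [hf', D4_opp_ne w]
  have fx : ∀ x, x ≠ w → x ≠ opp w → f' x = f x := by
    intro x h h'
    rw [hf']
    simp only
    rw [if_neg h, if_neg h']
  have fvs : ∀ x ∈ vs T0, f' x = f x := by
    intro x hx
    refine fx x ?_ ?_
    · rintro rfl; exact hw hx
    · rintro rfl; exact hw' hx
  have hvsT := D4_vs hd hFd hF hF' hc hw hw' hT
  have fX : ∀ x ∈ vs T0, f' x ∈ X := by
    intro x hx
    rw [fvs x hx, r3]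
    exact Finset.mem_image_of_mem _ hx
  have hcase : ∀ x ∈ vs T, x ∈ vs T0 ∨ x = w ∨ x = opp w := by
    intro x hx
    rw [hvsT, Finset.mem_union, Finset.mem_insert, Finset.mem_singleton] at hx
    exact hx
  have hinj : Set.InjOn f' (vs T) := by
    intro x hx y hy hxy
    have hxy' : f' x = f' y := hxy
    rcases hcase x hx with h | h | h <;> rcases hcase y hy with h' | h' | h'
    · rw [fvs x h, fvs y h'] at hxy'
      exact r2 h h' hxy'
    · rw [h', fw] at hxy'
      exact absurd (by rw [← hxy']; exact fX x h) v1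
    · rw [h', fow] at hxy'
      exact absurd (by rw [← hxy']; exact fX x h) v2
    · rw [h, fw] at hxy'
      exact absurd (by rw [hxy']; exact fX y h') v1
    · rw [h, h']
    · rw [h, h', fw, fow] at hxy'
      exact absurd hxy' v3
    · rw [h, fow] at hxy'
      exact absurd (by rw [hxy']; exact fX y h') v2
    · rw [h, h', fw, fow] at hxy'
      exact absurd hxy'.symm v3
    · rw [h, h']
  have hsub0 : vs T0 ⊆ vs T := by rw [hvsT]; exact Finset.subset_union_left
  have hwT : w ∈ vs T := by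
    rw [hvsT, Finset.mem_union, Finset.mem_insert]; exact Or.inr (Or.inl rfl)
  have hw'T : opp w ∈ vs T := by
    rw [hvsT, Finset.mem_union, Finset.mem_insert, Finset.mem_singleton]
    exact Or.inr (Or.inr rfl)
  have himg : ∀ S, S ⊆ vs T0 → S.image f' = S.image f := by
    intro S hS
    exact Finset.image_congr fun x hx => fvs x (hS hx)
  have kF : F.image f' = ff X c0 := by rw [himg F (hvs F hF), k3]
  have kF' : (F.image opp).image f' = (ff X c0).image (fun y => -y) := by
    rw [himg _ (hvs _ hF'), ← k3, Finset.image_image, Finset.image_image]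
    refine Finset.image_congr fun x _ => ?_
    exact r1 x
  refine ⟨c0, v, f', hv, ?_, hinj, ?_, ?_⟩
  · intro x
    by_cases e1 : x = w
    · rw [e1, fow, fw]
    by_cases e2 : x = opp w
    · rw [e2, D4_opp, fow, fw, neg_neg]
    rw [fx x e1 e2, fx (opp x), r1]
    · intro h; apply e2; rw [← h, D4_opp]
    · intro h; apply e1; rw [← D4_opp x, h, D4_opp]
  · rw [hvsT, Finset.image_union, himg _ (Finset.Subset.refl _), ← r3, Finset.image_insert,
      Finset.image_singleton, fw, fow]
  · intro S hS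
    rw [D4_face hd hFd hF hF' hc hw hw' hT, hsupp]
    have b1 := D4_key (w := w) hinj hS ((hvs F hF).trans hsub0) hwT
    have b2 := D4_key (w := opp w) hinj hS ((hvs _ hF').trans hsub0) hw'T
    rw [kF, fw] at b1
    rw [kF', fow] at b2
    rw [b1, b2]
    have b3 : (S ⊆ vs T0 ∧ face T0 S ∧ S ≠ F ∧ S ≠ F.image opp) ↔
        (Supp X (S.image f') ∧ S.image f' ≠ ff X c0 ∧
          S.image f' ≠ (ff X c0).image (fun y => -y)) := by
      constructor
      · rintro ⟨l1, l2, l3, l4⟩
        refine ⟨?_, ?_, ?_⟩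
        · rw [himg S l1]; exact (r4 S l1).1 l2
        · rw [← kF]
          intro h; exact l3 (D4_inj hinj hS ((hvs F hF).trans hsub0) h)
        · rw [← kF']
          intro h; exact l4 (D4_inj hinj hS ((hvs _ hF').trans hsub0) h)
      · rintro ⟨l1, l2, l3⟩
        have l4 : S ⊆ vs T0 := by
          intro x hx
          have l5 : f' x ∈ X := l1.1 (Finset.mem_image_of_mem _ hx)
          rcases hcase x (hS hx) with h | h | h
          · exact h
          · rw [h, fw] at l5; exact absurd l5 v1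
          · rw [h, fow] at l5; exact absurd l5 v2
        refine ⟨l4, ?_, ?_, ?_⟩
        · rw [himg S l4] at l1; exact (r4 S l4).2 l1
        · rintro rfl; exact l2 kF
        · rintro rfl; exact l3 kF'
    rw [b3]

end Pool.Agent.N525.CS
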