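import Pool.Agent.N525.CS.Stm

set_option autoImplicit false

/-! Counting for stacked polytopes. -/

namespace Pool.Agent.N525.CS

open Pool.Agent.N525.VR
open scoped RealInnerProductSpace

theorem D5_mem {d : ℕ} {X : Finset (E d)} {c y : E d} : y ∈ ff X c ↔ y ∈ X ∧ ⟪c, y⟫ = 1 := by
  unfold ff
  exact @Finset.mem_filter _ _ _ _ _

theorem D5_cr {d : ℕ} {x : E d} : x ∈ crossV d ↔
    ∃ i : Fin d, x = EuclideanSpace.single i (1 : ℝ) ∨ x = - EuclideanSpace.single i (1 : ℝ) := by
  unfold crossV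
  rw [Finset.mem_image]
  constructor
  · rintro ⟨⟨i, b⟩, _, h⟩
    refine ⟨i, ?_⟩
    cases b
    · right; simpa using h.symm
    · left; simpa using h.symm
  · rintro ⟨i, h | h⟩
    · exact ⟨(i, true), Finset.mem_univ _, by simp [h]⟩
    · exact ⟨(i, false), Finset.mem_univ _, by simp [h]⟩

theorem D5_ii {d : ℕ} (i j : Fin d) : ⟪(EuclideanSpace.single i (1 : ℝ) : E d),
    EuclideanSpace.single j (1 : ℝ)⟫ = if i = j then 1 else 0 := by
  rw [EuclideanSpace.inner_single_left]
  simp

/-- inner products of the vertices of the cross-polytope -/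
theorem D5_in {d : ℕ} {x y : E d} (hx : x ∈ crossV d) (hy : y ∈ crossV d) :
    ⟪x, y⟫ = (if x = y then 1 else 0) - (if x = -y then 1 else 0) := by
  have hne : ∀ i j : Fin d, (EuclideanSpace.single i (1 : ℝ) : E d) ≠
      - EuclideanSpace.single j (1 : ℝ) := by
    intro i j h
    have h1 := D5_ii i i
    rw [if_pos rfl] at h1
    have h2 : ⟪(EuclideanSpace.single i (1 : ℝ) : E d), EuclideanSpace.single i (1 : ℝ)⟫ =
      ⟪(EuclideanSpace.single i (1 : ℝ) : E d), - EuclideanSpace.single j (1 : ℝ)⟫ := by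
      rw [← h]
    rw [h1, inner_neg_right, D5_ii] at h2
    split_ifs at h2 <;> norm_num at h2
  have hne' : ∀ i j : Fin d, - (EuclideanSpace.single i (1 : ℝ) : E d) ≠
      EuclideanSpace.single j (1 : ℝ) := fun i j h => hne i j (neg_eq_iff_eq_neg.1 h)
  have hinj : ∀ i j : Fin d, (EuclideanSpace.single i (1 : ℝ) : E d) =
      EuclideanSpace.single j (1 : ℝ) ↔ i = j := by
    intro i j
    constructor
    · intro h
      have h2 := D5_ii i j
      rw [← h, D5_ii i i, if_pos rfl] at h2
      by_contra hij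
      rw [if_neg hij] at h2
      norm_num at h2
    · rintro rfl; rfl
  obtain ⟨i, hi | hi⟩ := D5_cr.1 hx <;> obtain ⟨j, hj | hj⟩ := D5_cr.1 hy <;> subst hi <;> subst hj
  · rw [D5_ii, if_neg (hne i j), sub_zero]
    simp only [hinj]
  · rw [inner_neg_right, D5_ii, if_neg (hne i j), neg_neg, zero_sub]
    simp only [hinj]
  · rw [inner_neg_left, D5_ii, if_neg (hne' i j), zero_sub]
    simp only [neg_inj, hinj]
  · rw [inner_neg_neg, D5_ii, neg_neg, if_neg (hne' i j), sub_zero]
    simp only [neg_inj, hinj]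

theorem D5_crneg {d : ℕ} {x : E d} (hx : x ∈ crossV d) : -x ∈ crossV d := by
  rw [D5_cr] at hx ⊢
  obtain ⟨i, hi | hi⟩ := hx
  · exact ⟨i, Or.inr (by rw [hi])⟩
  · exact ⟨i, Or.inl (by rw [hi, neg_neg])⟩

theorem D5_ne {d : ℕ} {x : E d} (hx : x ∈ crossV d) : x ≠ -x := by
  intro h
  have h1 := D5_in hx hx
  have h2 : ⟪x, x⟫ = ⟪x, -x⟫ := by rw [← h]
  rw [inner_neg_right] at h2
  have h3 : ⟪x, x⟫ = 0 := by linarith
  have h4 : x = 0 := inner_self_eq_zero.1 h3
  have h5 : (1 : ℝ) = 0 := by
    obtain ⟨i, hi⟩ := D5_cr.1 hx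
    have h6 := D5_ii i i
    have h7 : (EuclideanSpace.single i (1 : ℝ) : E d) = 0 := by
      rcases hi with hi | hi
      · rw [← hi, h4]
      · rw [← neg_eq_zero, ← hi, h4]
    rw [h7, inner_zero_left, if_pos rfl] at h6
    exact h6.symm
  norm_num at h5

/-- the faces of the cross-polytope -/
theorem D5_supp {d : ℕ} (S : Finset (E d)) :
    Supp (crossV d) S ↔ S ⊆ crossV d ∧ ∀ x ∈ S, -x ∉ S := by
  classical
  constructor
  · rintro ⟨hS, c, hc⟩
    refine ⟨hS, fun x hx hx' => ?_⟩
    have h1 := (hc x (hS hx)).1 hx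
    have h2 := (hc (-x) (hS hx')).1 hx'
    rw [inner_neg_right, h1] at h2
    norm_num at h2
  · rintro ⟨hS, hn⟩
    refine ⟨hS, ∑ x ∈ S, x, fun y hy => ?_⟩
    have h1 : ⟪∑ x ∈ S, x, y⟫ = (if y ∈ S then 1 else 0) - (if -y ∈ S then 1 else 0) := by
      rw [sum_inner, Finset.sum_congr rfl (fun x hx => D5_in (hS hx) hy), Finset.sum_sub_distrib,
        Finset.sum_ite_eq', Finset.sum_ite_eq']
    rw [h1]
    constructor
    · intro h
      rw [if_pos h, if_neg (hn y h)]
      norm_num
    · intro h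
      rw [if_neg h]
      split_ifs <;> norm_num

theorem D5_crosscount {d : ℕ} (hcard : (crossV d).card = 2 * d) (G : Finset (Finset (E d)))
    (hG : ∀ e, e ∈ G ↔ (e.card = 2 ∧ Supp (crossV d) e)) : G.card + 2 * d = d * (2 * d) := by
  classical
  set A : Finset (Finset (E d)) := (Finset.univ : Finset (Fin d)).image
    (fun i => {(EuclideanSpace.single i (1 : ℝ) : E d), - EuclideanSpace.single i (1 : ℝ)}) with hA
  have hmem : ∀ i : Fin d, (EuclideanSpace.single i (1 : ℝ) : E d) ∈ crossV d := fun i =>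
    D5_cr.2 ⟨i, Or.inl rfl⟩
  have hAcard : A.card = d := by
    rw [hA, Finset.card_image_of_injective, Finset.card_univ, Fintype.card_fin]
    intro i j h
    have h1 : (EuclideanSpace.single i (1 : ℝ) : E d) ∈
        ({(EuclideanSpace.single j (1 : ℝ) : E d), - EuclideanSpace.single j (1 : ℝ)} :
          Finset (E d)) := by
      have h2 : ({(EuclideanSpace.single i (1 : ℝ) : E d), - EuclideanSpace.single i (1 : ℝ)} :
          Finset (E d)) = {(EuclideanSpace.single j (1 : ℝ) : E d),
            - EuclideanSpace.single j (1 : ℝ)} := h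
      rw [← h2]
      exact Finset.mem_insert_self _ _
    rw [Finset.mem_insert, Finset.mem_singleton] at h1
    by_contra hij
    have h3 := D5_ii i j
    rw [if_neg hij] at h3
    rcases h1 with h1 | h1
    · rw [h1, D5_ii, if_pos rfl] at h3
      norm_num at h3
    · rw [h1, inner_neg_left, D5_ii, if_pos rfl] at h3
      norm_num at h3
  have hunion : (crossV d).powersetCard 2 = G ∪ A := by
    ext e
    rw [Finset.mem_powersetCard, Finset.mem_union, hG, D5_supp, hA, Finset.mem_image]
    constructor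
    · rintro ⟨h1, h2⟩
      by_cases h3 : ∀ x ∈ e, -x ∉ e
      · exact Or.inl ⟨h2, h1, h3⟩
      · right
        push Not at h3
        obtain ⟨x, hx, hx'⟩ := h3
        have h4 : ({x, -x} : Finset (E d)) = e := by
          refine Finset.eq_of_subset_of_card_le ?_ ?_
          · intro y hy
            rw [Finset.mem_insert, Finset.mem_singleton] at hy
            rcases hy with rfl | rfl
            · exact hx
            · exact hx'
          · rw [h2, Finset.card_pair (D5_ne (h1 hx))]
        obtain ⟨i, hi | hi⟩ := D5_cr.1 (h1 hx)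
        · exact ⟨i, Finset.mem_univ _, by rw [← h4, hi]⟩
        · refine ⟨i, Finset.mem_univ _, ?_⟩
          rw [← h4, hi, neg_neg, Finset.pair_comm]
    · rintro (⟨h1, h2, _⟩ | ⟨i, _, rfl⟩)
      · exact ⟨h2, h1⟩
      · refine ⟨?_, Finset.card_pair (D5_ne (hmem i))⟩
        intro y hy
        rw [Finset.mem_insert, Finset.mem_singleton] at hy
        rcases hy with rfl | rfl
        · exact hmem i
        · exact D5_crneg (hmem i)
  have hdis : Disjoint G A := by
    rw [Finset.disjoint_left]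
    intro e he he'
    rw [hG, D5_supp] at he
    rw [hA, Finset.mem_image] at he'
    obtain ⟨i, _, rfl⟩ := he'
    exact he.2.2 _ (Finset.mem_insert_self _ _)
      (Finset.mem_insert_of_mem (Finset.mem_singleton_self _))
  have h1 := congrArg Finset.card hunion
  rw [Finset.card_powersetCard, hcard, Finset.card_union_of_disjoint hdis, hAcard,
    Nat.choose_two_right] at h1
  have h2 : 2 * d * (2 * d - 1) / 2 = d * (2 * d - 1) := by
    rw [mul_assoc, Nat.mul_div_cancel_left _ (by norm_num)]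
  rw [h2] at h1
  rcases Nat.eq_zero_or_pos d with h0 | h0
  · subst h0
    simp at h1 ⊢
    exact Finset.card_eq_zero.1 h1.symm
  · have h3 : d * (2 * d - 1) + d = d * (2 * d) := by
      rw [← Nat.mul_succ]
      congr 1
      omega
    omega

theorem D5_stepcount {d : ℕ} (hd : 3 ≤ d) {X F0 : Finset (E d)} {v : E d} (hF0 : F0 ⊆ X)
    (hF0c : F0.card = d) (hv : v ∉ X) (hv' : -v ∉ X) (hvv : v ≠ -v)
    (G' : Finset (Finset (E d))) (G : Finset (Finset (E d)))
    (hG : ∀ e, e ∈ G ↔ (e.card = 2 ∧ Supp X e))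
    (F1 : Finset (E d)) (hF1 : F1 ⊆ X) (hF1c : F1.card = d)
    (hG' : ∀ e, e ∈ G' ↔ (e.card = 2 ∧ ((Supp X e ∧ e ≠ F0 ∧ e ≠ F1) ∨
      (∃ S', S' ⊂ F0 ∧ e = insert v S') ∨ (∃ S', S' ⊂ F1 ∧ e = insert (-v) S')))) :
    G'.card = G.card + 2 * d := by
  classical
  have hpair : ∀ (w : E d) (F : Finset (E d)), w ∉ X → F ⊆ X → F.card = d → ∀ e : Finset (E d),
      (e.card = 2 ∧ ∃ S', S' ⊂ F ∧ e = insert w S') ↔ e ∈ F.image (fun y => ({w, y} : Finset (E d))) := by
    intro w F hw hF hFc e
    rw [Finset.mem_image]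
    constructor
    · rintro ⟨h1, S', h2, rfl⟩
      rw [Finset.card_insert_of_notMem (fun h => hw (hF (h2.1 h)))] at h1
      obtain ⟨y, hy⟩ := Finset.card_eq_one.1 (by omega : S'.card = 1)
      refine ⟨y, h2.1 (by rw [hy]; exact Finset.mem_singleton_self y), by rw [hy]⟩
    · rintro ⟨y, hy, rfl⟩
      refine ⟨Finset.card_pair ?_, {y}, ?_, rfl⟩
      · rintro rfl; exact hw (hF hy)
      · refine Finset.ssubset_iff_subset_ne.2 ⟨Finset.singleton_subset_iff.2 hy, ?_⟩
        intro h
        rw [← h, Finset.card_singleton] at hFc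
        omega
  have himg : ∀ (w : E d) (F : Finset (E d)), w ∉ X → F ⊆ X →
      (F.image (fun y => ({w, y} : Finset (E d)))).card = F.card := by
    intro w F hw hF
    refine Finset.card_image_of_injOn ?_
    intro y hy z hz h
    have h1 : y ∈ ({w, z} : Finset (E d)) := by
      have h2 : ({w, y} : Finset (E d)) = {w, z} := h
      rw [← h2]
      exact Finset.mem_insert_of_mem (Finset.mem_singleton_self _)
    rw [Finset.mem_insert, Finset.mem_singleton] at h1
    rcases h1 with h1 | h1
    · rw [h1] at hy; exact absurd (hF hy) hw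
    · exact h1
  have hunion : G' = (G ∪ F0.image (fun y => ({v, y} : Finset (E d)))) ∪
      F1.image (fun y => ({-v, y} : Finset (E d))) := by
    ext e
    rw [Finset.mem_union, Finset.mem_union, ← hpair v F0 hv hF0 hF0c, ← hpair (-v) F1 hv' hF1 hF1c,
      hG', hG]
    constructor
    · rintro ⟨h1, ⟨h2, _, _⟩ | h2 | h2⟩
      · exact Or.inl (Or.inl ⟨h1, h2⟩)
      · exact Or.inl (Or.inr ⟨h1, h2⟩)
      · exact Or.inr ⟨h1, h2⟩
    · rintro ((⟨h1, h2⟩ | ⟨h1, h2⟩) | ⟨h1, h2⟩)
      · refine ⟨h1, Or.inl ⟨h2, ?_, ?_⟩⟩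
        · rintro rfl; omega
        · rintro rfl; omega
      · exact ⟨h1, Or.inr (Or.inl h2)⟩
      · exact ⟨h1, Or.inr (Or.inr h2)⟩
  have hd1 : Disjoint G (F0.image (fun y => ({v, y} : Finset (E d)))) := by
    rw [Finset.disjoint_left]
    intro e he he'
    obtain ⟨y, _, rfl⟩ := Finset.mem_image.1 he'
    exact hv (((hG _).1 he).2.1 (Finset.mem_insert_self _ _))
  have hd2 : Disjoint (G ∪ F0.image (fun y => ({v, y} : Finset (E d))))
      (F1.image (fun y => ({-v, y} : Finset (E d)))) := by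
    rw [Finset.disjoint_left]
    intro e he he'
    obtain ⟨y, _, rfl⟩ := Finset.mem_image.1 he'
    rcases Finset.mem_union.1 he with h | h
    · exact hv' (((hG _).1 h).2.1 (Finset.mem_insert_self _ _))
    · obtain ⟨z, hz, hz'⟩ := Finset.mem_image.1 h
      have h1 : -v ∈ ({v, z} : Finset (E d)) := by
        rw [hz']; exact Finset.mem_insert_self _ _
      rw [Finset.mem_insert, Finset.mem_singleton] at h1
      rcases h1 with h1 | h1
      · exact hvv h1.symm
      · rw [h1] at hv'; exact hv' (hF0 hz)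
  rw [hunion, Finset.card_union_of_disjoint hd2, Finset.card_union_of_disjoint hd1,
    himg v F0 hv hF0, himg (-v) F1 hv' hF1, hF0c, hF1c]
  ring

theorem t_CNT (h1 : S_CROSS) (h2 : S_STK) : S_CNT := by
  intro d X hd h
  induction h with
  | cross =>
    obtain ⟨k1, k2, _⟩ := h1 d (by omega)
    refine ⟨k1, k2.ge, fun G hG => ?_⟩
    rw [k2]
    exact D5_crosscount k2 G hG
  | stack X c0 v _ hs ih =>
    classical
    obtain ⟨i1, i2, i3⟩ := ih
    obtain ⟨k1, k2, k3, k4, k5⟩ := h2 d X (by omega) i1 c0 v hs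
    have hcard : (X ∪ {v, -v}).card = X.card + 2 := by
      rw [Finset.card_union_of_disjoint, Finset.card_pair k4]
      rw [Finset.disjoint_left]
      intro y hy hy'
      rw [Finset.mem_insert, Finset.mem_singleton] at hy'
      rcases hy' with rfl | rfl
      · exact k2 hy
      · exact k3 hy
    refine ⟨k1, by omega, fun G' hG' => ?_⟩
    set G : Finset (Finset (E d)) := X.powerset.filter (fun e => e.card = 2 ∧ Supp X e) with hGdef
    have hG : ∀ e, e ∈ G ↔ (e.card = 2 ∧ Supp X e) := by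
      intro e
      rw [hGdef, Finset.mem_filter, Finset.mem_powerset]
      constructor
      · rintro ⟨_, h⟩; exact h
      · rintro h; exact ⟨h.2.1, h⟩
    have hF0 : ff X c0 ⊆ X := fun y hy => (D5_mem.1 hy).1
    have hF0c := i1.card c0 hs.1
    have hF1 : (ff X c0).image (fun y => -y) ⊆ X := by
      intro y hy
      obtain ⟨z, hz, rfl⟩ := Finset.mem_image.1 hy
      exact i1.neg z (hF0 hz)
    have hF1c : ((ff X c0).image (fun y => -y)).card = d := by
      rw [Finset.card_image_of_injective _ neg_injective, hF0c]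
    have h3 := D5_stepcount hd hF0 hF0c k2 k3 k4 G' G hG _ hF1 hF1c
      (fun e => by rw [hG' e, k5 e])
    have h4 := i3 G hG
    rw [hcard, h3, mul_add, ← h4]
    ring

end Pool.Agent.N525.CS
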