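import Pool.Agent.N525.CS.Stm

set_option autoImplicit false

/-!
# The equality case is realised by stacked polytopes
-/

namespace Pool.Agent.N525.CS

open Pool.Agent.N525.VR
open scoped RealInnerProductSpace

theorem t_ONLY (h1 : S_INNER) (h2 : S_PRIME) (h3 : S_UNST) (h4 : S_CROSS) (h5 : S_STK)
    (h6 : S_REA) : S_ONLY := by
  intro W _ _ d hd T hT hE
  obtain ⟨N, hN⟩ : ∃ N, N = (vs T).card := ⟨_, rfl⟩
  induction N using Nat.strong_induction_on generalizing T with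
  | _ N ih =>
    by_cases hF : ∃ F, MF d T F
    · obtain ⟨w, F, hMF, hw, hst⟩ := h1 W d hd T hT hE hF
      obtain ⟨T0, hT0, hFT, hw0, hw1, hv, he, hTe⟩ := h3 W d hd T hT w F hMF hw hst
      have hE0 : Eq0 d T0 := by
        unfold Eq0 at hE ⊢
        rw [← hv, ← he, mul_add] at hE
        omega
      obtain ⟨X, f, hX, hS, hR⟩ := ih (vs T0).card (by omega) T0 hT0 hE0 rfl
      obtain ⟨c0, v, f', hstep, hR'⟩ := h6 W d hd T0 T w F f X hS hR hMF.1 hFT
        (hT0.2.1 F hFT) hT0.1.card hT0.2.2 hw0 hw1 hw hTe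
      exact ⟨_, f', Stacked.stack d X c0 v hX hstep, (h5 d X (by omega) hS c0 v hstep).1, hR'⟩
    · obtain ⟨O, hO, hOT⟩ := h2 W d hd T hT hE hF
      obtain ⟨hS, -, hC⟩ := h4 d (by omega)
      obtain ⟨f, hf⟩ := hC W O hO T hOT
      exact ⟨_, f, Stacked.cross d, hS, hf⟩

end Pool.Agent.N525.CS
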