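import Pool.Agent.N525.CS.Stm

set_option autoImplicit false

/-! Charts of triangulated spheres, transport (helper525). -/

namespace Pool.Agent.N525.CS

open Pool.Agent.N525.VR

theorem t_CHART : S_CHART := by
  intro n d K hd ⟨h⟩
  obtain ⟨m, rfl⟩ : ∃ m, d = m + 1 := ⟨d - 1, by omega⟩
  intro x
  let c := chartAt (EuclideanSpace ℝ (Fin m)) (h x)
  refine ⟨h.toOpenPartialHomeomorph.trans c, ?_⟩
  rw [OpenPartialHomeomorph.trans_source]
  exact ⟨trivial, mem_chart_source (EuclideanSpace ℝ (Fin m)) (h x)⟩

section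
variable {V V' : Type} [Fintype V] [DecidableEq V] [Fintype V'] [DecidableEq V']

theorem E1_sub (g : V ≃ V') (s t : Finset V) : s.image g ⊆ t.image g ↔ s ⊆ t := by
  constructor
  · intro h x hx
    obtain ⟨y, hy, hxy⟩ := Finset.mem_image.1 (h (Finset.mem_image_of_mem _ hx))
    rw [← g.injective hxy]; exact hy
  · exact Finset.image_subset_image

theorem E1_card (g : V ≃ V') (s : Finset V) : (s.image g).card = s.card :=
  Finset.card_image_of_injective _ g.injective

theorem E1_symm (g : V ≃ V') (s : Finset V') : (s.image g.symm).image g = s := by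
  rw [Finset.image_image]; simp

theorem E1_symm' (g : V ≃ V') (s : Finset V) : (s.image g).image g.symm = s := by
  rw [Finset.image_image]; simp

theorem E1_filter (g : V ≃ V') (Z : Finset (Finset V)) (t : Finset V) :
    ((Z.image (fun F => F.image g)).filter (fun F => t.image g ⊆ F)).card =
      (Z.filter (fun F => t ⊆ F)).card := by
  have : (Z.image (fun F => F.image g)).filter (fun F => t.image g ⊆ F) =
      (Z.filter (fun F => t ⊆ F)).image (fun F => F.image g) := by
    ext G
    simp only [Finset.mem_filter, Finset.mem_image]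
    constructor
    · rintro ⟨⟨F, hF, rfl⟩, h⟩
      exact ⟨F, ⟨hF, (E1_sub g _ _).1 h⟩, rfl⟩
    · rintro ⟨F, ⟨hF, h⟩, rfl⟩
      exact ⟨⟨F, hF, rfl⟩, (E1_sub g _ _).2 h⟩
  rw [this, Finset.card_image_of_injective _ (Finset.image_injective g.injective)]

theorem E1_RC (g : V ≃ V') (d : ℕ) (s : Finset V) (Z : Finset (Finset V)) :
    RC d (s.image g) (Z.image (fun F => F.image g)) ↔ RC d s Z := by
  constructor
  · intro h t ht hs
    rw [← E1_filter g]
    exact h _ (by rw [E1_card]; exact ht) ((E1_sub g _ _).2 hs)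
  · intro h t ht hs
    have e1 := E1_symm g t
    rw [← e1, E1_filter g]
    refine h _ (by rw [E1_card]; exact ht) ?_
    rw [← E1_sub g, e1]; exact hs

theorem E1_st (g : V ≃ V') (T : Finset (Finset V)) (s : Finset V) :
    st (T.image (fun F => F.image g)) (s.image g) = (st T s).image (fun F => F.image g) := by
  ext G
  unfold st
  simp only [Finset.mem_filter, Finset.mem_image]
  constructor
  · rintro ⟨⟨F, hF, rfl⟩, h⟩
    exact ⟨F, ⟨hF, (E1_sub g _ _).1 h⟩, rfl⟩
  · rintro ⟨F, ⟨hF, h⟩, rfl⟩
    exact ⟨⟨F, hF, rfl⟩, (E1_sub g _ _).2 h⟩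

theorem E1_face (g : V ≃ V') (T : Finset (Finset V)) (s : Finset V) :
    face (T.image (fun F => F.image g)) (s.image g) ↔ face T s := by
  constructor
  · rintro ⟨G, hG, hs⟩
    obtain ⟨F, hF, rfl⟩ := Finset.mem_image.1 hG
    exact ⟨F, hF, (E1_sub g _ _).1 hs⟩
  · rintro ⟨F, hF, hs⟩
    exact ⟨_, Finset.mem_image_of_mem _ hF, (E1_sub g _ _).2 hs⟩

theorem E1_fam (g : V ≃ V') (Z : Finset (Finset V')) :
    (Z.image (fun F => F.image g.symm)).image (fun F => F.image g) = Z := by
  rw [Finset.image_image]
  have : ((fun F : Finset V => F.image g) ∘ fun F : Finset V' => F.image g.symm) = id := by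
    funext F
    exact E1_symm g F
  rw [this, Finset.image_id]

end

theorem t_TRANS : S_TRANS := by
  intro V V' _ _ _ _ g d T hT
  refine ⟨hT.ne.image _, ?_, ?_, ?_, ?_⟩
  · intro F hF
    obtain ⟨G, hG, rfl⟩ := Finset.mem_image.1 hF
    rw [E1_card]; exact hT.card G hG
  · have := (E1_RC g d ∅ T).2 hT.cyc
    rwa [Finset.image_empty] at this
  · intro s Z hs hZ hne hRC
    have es := E1_symm g s
    have eZ := E1_fam g Z
    rw [← es, ← eZ] at hZ hRC ⊢
    rw [E1_st] at hZ ⊢
    rw [E1_RC] at hRC
    congr 1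
    refine hT.min _ _ (by rw [E1_card]; exact hs) ?_ (hne.image _) hRC
    intro F hF
    obtain ⟨G, hG, hGF⟩ := Finset.mem_image.1 (hZ (Finset.mem_image_of_mem _ hF))
    have : G = F := Finset.image_injective g.injective hGF
    rw [← this]; exact hG
  · intro s F hs hsF hF hr
    have es := E1_symm g s
    have eF := E1_symm g F
    obtain ⟨A, hA1, hA2⟩ := hT.fill (s.image g.symm) (F.image g.symm) (by rw [E1_card]; exact hs)
      (Finset.image_subset_image hsF) (by rw [E1_card]; exact hF) (by
        intro r hr1 hr2 hr3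
        rw [← E1_face g]
        refine hr _ ?_ ?_ (by rw [E1_card]; exact hr3)
        · rw [← eF]; exact Finset.image_subset_image hr1
        · rw [← es]; exact Finset.image_subset_image hr2)
    refine ⟨A.image (fun F => F.image g), ?_, ?_⟩
    · rw [← es, E1_st]
      exact Finset.image_subset_image hA1
    · intro r hr1 hr2
      have er := E1_symm g r
      rw [← er, E1_filter]
      rw [← eF, E1_sub]
      refine hA2 _ ?_ (by rw [E1_card]; exact hr2)
      exact Finset.image_subset_image hr1

end Pool.Agent.N525.CS
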