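import Pool.Agent.N525.CS.StmE

set_option autoImplicit false

/-! S_GACY: triangulated spheres are acyclic below the top dimension (helper505, for helper525).
The cone over a triangulated sphere has a Euclidean chart at the apex. -/

namespace Pool.Agent.N525.CS

open Pool.Agent.N525.VR Pool.Agent.Helper611 Pool.Agent.Helper611.ZBase

/-! ### the cone complex -/

/-- the old vertices of a set -/
def e2old {n : ℕ} (σ : Finset (Fin (n + 1))) : Finset (Fin n) :=
  Finset.univ.filter (fun v => Fin.castSucc v ∈ σ)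

/-- the cone over a set -/
def e2cone {n : ℕ} (ρ : Finset (Fin n)) : Finset (Fin (n + 1)) :=
  insert (Fin.last n) (ρ.map Fin.castSuccEmb)

theorem e2mem_old {n : ℕ} (σ : Finset (Fin (n + 1))) (v : Fin n) :
    v ∈ e2old σ ↔ Fin.castSucc v ∈ σ := by simp [e2old]

theorem e2last_mem {n : ℕ} (ρ : Finset (Fin n)) : Fin.last n ∈ e2cone ρ :=
  Finset.mem_insert_self _ _

theorem e2cast_mem {n : ℕ} (ρ : Finset (Fin n)) (v : Fin n) :
    Fin.castSucc v ∈ e2cone ρ ↔ v ∈ ρ := by
  unfold e2cone
  rw [Finset.mem_insert, Finset.mem_map]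
  constructor
  · rintro (h | ⟨w, hw, h⟩)
    · exact absurd h (Fin.castSucc_lt_last v).ne
    · have : w = v := Fin.castSucc_injective n h
      exact this ▸ hw
  · intro h
    exact Or.inr ⟨v, h, rfl⟩

theorem e2old_cone {n : ℕ} (ρ : Finset (Fin n)) : e2old (e2cone ρ) = ρ := by
  ext v; rw [e2mem_old, e2cast_mem]

theorem e2cone_old {n : ℕ} (σ : Finset (Fin (n + 1))) (h : Fin.last n ∈ σ) :
    e2cone (e2old σ) = σ := by
  ext x
  refine Fin.lastCases ?_ (fun v => ?_) x
  · exact ⟨fun _ => h, fun _ => e2last_mem _⟩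
  · rw [e2cast_mem, e2mem_old]

theorem e2card_cone {n : ℕ} (ρ : Finset (Fin n)) : (e2cone ρ).card = ρ.card + 1 := by
  unfold e2cone
  rw [Finset.card_insert_of_notMem, Finset.card_map]
  rw [Finset.mem_map]
  rintro ⟨w, _, h⟩
  exact (Fin.castSucc_lt_last w).ne h

theorem e2cone_insert {n : ℕ} (ρ : Finset (Fin n)) (v : Fin n) :
    insert (Fin.castSucc v) (e2cone ρ) = e2cone (insert v ρ) := by
  ext x
  refine Fin.lastCases ?_ (fun w => ?_) x
  · exact ⟨fun _ => e2last_mem _, fun _ => Finset.mem_insert_of_mem (e2last_mem _)⟩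
  · rw [e2cast_mem, Finset.mem_insert, Finset.mem_insert, e2cast_mem]
    constructor
    · rintro (h | h)
      · exact Or.inl (Fin.castSucc_injective n h)
      · exact Or.inr h
    · rintro (h | h)
      · exact Or.inl (by rw [h])
      · exact Or.inr h

theorem e2compl {n : ℕ} (ρ : Finset (Fin n)) : (e2cone ρ)ᶜ = (ρᶜ).map Fin.castSuccEmb := by
  ext x
  refine Fin.lastCases ?_ (fun w => ?_) x
  · rw [Finset.mem_compl, Finset.mem_map]
    constructor
    · intro h; exact absurd (e2last_mem ρ) h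
    · rintro ⟨w, _, h⟩; exact absurd h (Fin.castSucc_lt_last w).ne
  · rw [Finset.mem_compl, Finset.mem_map, e2cast_mem]
    constructor
    · intro h; exact ⟨w, Finset.mem_compl.2 h, rfl⟩
    · rintro ⟨w', hw', h⟩
      have : w' = w := Fin.castSucc_injective n h
      exact this ▸ Finset.mem_compl.1 hw'

theorem e2sgn {n : ℕ} (ρ : Finset (Fin n)) (v : Fin n) :
    sgn (Fin.castSucc v) (e2cone ρ) = sgn v ρ := by
  unfold sgn
  congr 1
  have : (e2cone ρ).filter (· < Fin.castSucc v) = (ρ.filter (· < v)).map Fin.castSuccEmb := by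
    ext x
    refine Fin.lastCases ?_ (fun w => ?_) x
    · rw [Finset.mem_filter, Finset.mem_map]
      constructor
      · rintro ⟨_, h⟩
        exact absurd h (not_lt.2 (Fin.castSucc_lt_last v).le)
      · rintro ⟨w, _, h⟩; exact absurd h (Fin.castSucc_lt_last w).ne
    · rw [Finset.mem_filter, Finset.mem_map, e2cast_mem]
      constructor
      · rintro ⟨h1, h2⟩
        exact ⟨w, Finset.mem_filter.2 ⟨h1, Fin.castSucc_lt_castSucc_iff.1 h2⟩, rfl⟩
      · rintro ⟨w', hw', h⟩
        have : w' = w := Fin.castSucc_injective n h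
        subst this
        rw [Finset.mem_filter] at hw'
        exact ⟨hw'.1, Fin.castSucc_lt_castSucc_iff.2 hw'.2⟩
  rw [this, Finset.card_map]

theorem e2bd {n : ℕ} (F : Finset (Fin (n + 1)) → ℤ) (ρ : Finset (Fin n)) :
    bd F (e2cone ρ) = bd (fun τ => F (e2cone τ)) ρ := by
  unfold bd
  rw [e2compl, Finset.sum_map]
  refine Finset.sum_congr rfl fun v _ => ?_
  have h1 := e2sgn ρ v
  have h2 := e2cone_insert ρ v
  show sgn (Fin.castSucc v) (e2cone ρ) • F (insert (Fin.castSucc v) (e2cone ρ)) = _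
  rw [h1, h2]

/-- the cone complex -/
def e2CK {n : ℕ} (K : VR.Cx n) : ZBase.Cx (Fin (n + 1)) where
  faces := Finset.univ.filter (fun σ => e2old σ ∈ K.faces)
  empty_mem := by
    rw [Finset.mem_filter]
    refine ⟨Finset.mem_univ _, ?_⟩
    have : e2old (∅ : Finset (Fin (n + 1))) = ∅ := by
      ext v; simp [e2old]
    rw [this]; exact K.empty_mem
  down := by
    intro σ hσ τ hτ
    rw [Finset.mem_filter] at hσ ⊢
    refine ⟨Finset.mem_univ _, K.down _ hσ.2 _ ?_⟩
    intro v hv
    rw [e2mem_old] at hv ⊢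
    exact hτ hv

theorem e2mem_CK {n : ℕ} (K : VR.Cx n) (σ : Finset (Fin (n + 1))) :
    σ ∈ (e2CK K).faces ↔ e2old σ ∈ K.faces := by
  show σ ∈ Finset.univ.filter _ ↔ _
  rw [Finset.mem_filter]
  exact ⟨fun h => h.2, fun h => ⟨Finset.mem_univ _, h⟩⟩

/-- acyclicity of the link of the apex gives acyclicity of the base -/
theorem e2acy {n : ℕ} (K : VR.Cx n) (k : ℕ) (h : Acy (e2CK K) ℤ {Fin.last n} (k + 1)) :
    Acy (t2Z K) ℤ ∅ k := by
  intro c hc hcz
  obtain ⟨b, hb, hbz⟩ := h (fun σ => if Fin.last n ∈ σ then c (e2old σ) else 0) (by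
    intro σ hσ
    have hσ' : (if Fin.last n ∈ σ then c (e2old σ) else 0) ≠ 0 := hσ
    by_cases hl : Fin.last n ∈ σ
    · rw [if_pos hl] at hσ'
      obtain ⟨h1, _, h3⟩ := hc _ hσ'
      refine ⟨(e2mem_CK K σ).2 h1, Finset.singleton_subset_iff.2 hl, ?_⟩
      have := e2card_cone (e2old σ)
      rw [e2cone_old σ hl, h3] at this
      exact this
    · rw [if_neg hl] at hσ'; exact absurd rfl hσ') (by
    intro ρ hρ
    have hl := Finset.singleton_subset_iff.1 hρ
    rw [← e2cone_old ρ hl, e2bd]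
    have : (fun τ : Finset (Fin n) => if Fin.last n ∈ e2cone τ then c (e2old (e2cone τ)) else 0)
        = c := by
      funext τ; rw [if_pos (e2last_mem τ), e2old_cone]
    rw [this]
    exact hcz _ (Finset.empty_subset _))
  refine ⟨fun τ => b (e2cone τ), ?_, ?_⟩
  · intro σ hσ
    obtain ⟨h1, _, h3⟩ := hb _ hσ
    rw [e2mem_CK, e2old_cone] at h1
    refine ⟨h1, Finset.empty_subset _, ?_⟩
    have := e2card_cone σ
    omega
  · intro ρ _
    rw [← e2bd, hbz _ (Finset.singleton_subset_iff.2 (e2last_mem ρ)), if_pos (e2last_mem ρ),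
      e2old_cone]

/-! ### the chart at the apex -/

section chart
variable {n d : ℕ} (K : VR.Cx n) (h : K.space ≃ₜ Metric.sphere (0 : E d) 1)

/-- radial projection -/
noncomputable def e2N (w : {w : E d // w ≠ 0}) : Metric.sphere (0 : E d) 1 :=
  ⟨‖w.1‖⁻¹ • w.1, by
    rw [mem_sphere_zero_iff_norm, norm_smul, norm_inv, norm_norm,
      inv_mul_cancel₀ (norm_ne_zero_iff.2 w.2)]⟩

theorem e2N_cont : Continuous (e2N (d := d)) := by
  refine Continuous.subtype_mk ?_ _
  refine Continuous.smul (Continuous.inv₀ (continuous_norm.comp continuous_subtype_val) ?_)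
    continuous_subtype_val
  intro w
  exact norm_ne_zero_iff.2 w.2

open Classical in
/-- the point of the base under `w` -/
noncomputable def e2g (w : E d) : Fin n → ℝ :=
  if hw : w ≠ 0 then (h.symm (e2N ⟨w, hw⟩)).1 else 0

theorem e2g_ne (w : E d) (hw : w ≠ 0) : e2g K h w = (h.symm (e2N ⟨w, hw⟩)).1 := dif_pos hw

theorem e2g_mem (w : E d) (hw : w ≠ 0) : e2g K h w ∈ K.space := by
  rw [e2g_ne K h w hw]; exact (h.symm _).2

theorem e2g_nonneg (w : E d) (v : Fin n) : 0 ≤ e2g K h w v := by
  by_cases hw : w ≠ 0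
  · exact (e2g_mem K h w hw).1 v
  · unfold e2g; rw [dif_neg hw]; exact le_rfl

theorem e2g_le (w : E d) (v : Fin n) : e2g K h w v ≤ 1 := by
  by_cases hw : w ≠ 0
  · have h1 := e2g_mem K h w hw
    rw [← h1.2.1]
    exact Finset.single_le_sum (f := e2g K h w) (fun i _ => h1.1 i) (Finset.mem_univ v)
  · unfold e2g; rw [dif_neg hw]; exact zero_le_one

/-- the chart -/
noncomputable def e2e (w : E d) : Fin (n + 1) → ℝ :=
  Fin.snoc (α := fun _ => ℝ) (fun v => ‖w‖ * e2g K h w v) (1 - ‖w‖)

theorem e2e_last (w : E d) : e2e K h w (Fin.last n) = 1 - ‖w‖ := by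
  unfold e2e; rw [Fin.snoc_last]

theorem e2e_cast (w : E d) (v : Fin n) : e2e K h w (Fin.castSucc v) = ‖w‖ * e2g K h w v := by
  unfold e2e; rw [Fin.snoc_castSucc]

theorem e2e_cont : Continuous (e2e K h) := by
  refine continuous_pi fun i => ?_
  refine Fin.lastCases ?_ (fun v => ?_) i
  · simp_rw [e2e_last]
    exact continuous_const.sub continuous_norm
  · simp_rw [e2e_cast]
    rw [continuous_iff_continuousAt]
    intro w
    by_cases hw : w = 0
    · subst hw
      have h00 : (fun w : E d => ‖w‖ * e2g K h w v) 0 = 0 := by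
        show ‖(0 : E d)‖ * e2g K h 0 v = 0
        rw [norm_zero, zero_mul]
      unfold ContinuousAt
      rw [h00]
      refine squeeze_zero_norm (a := fun w : E d => ‖w‖) ?_ ?_
      · intro w
        rw [norm_mul, norm_norm, Real.norm_eq_abs, abs_of_nonneg (e2g_nonneg K h w v)]
        have := e2g_le K h w v
        have := norm_nonneg w
        nlinarith
      · have := (continuous_norm (E := E d)).tendsto 0
        rw [norm_zero] at this
        exact this
    · have hopen : IsOpen {w : E d | w ≠ 0} := isOpen_ne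
      have hc : ContinuousOn (fun w => e2g K h w v) {w : E d | w ≠ 0} := by
        rw [continuousOn_iff_continuous_domRestrict]
        have : Set.domRestrict {w : E d | w ≠ 0} (fun w => e2g K h w v) =
            fun w : {w : E d // w ≠ 0} => (h.symm (e2N w)).1 v := by
          funext w
          show e2g K h w.1 v = _
          rw [e2g_ne K h w.1 w.2]
          rfl
        rw [this]
        exact (continuous_apply v).comp
          (continuous_subtype_val.comp (h.symm.continuous.comp e2N_cont))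
      exact continuous_norm.continuousAt.mul (hc.continuousAt (hopen.mem_nhds hw))

theorem e2e_inj {w w' : E d} (he : e2e K h w = e2e K h w') : w = w' := by
  have h1 : ‖w‖ = ‖w'‖ := by
    have := congrFun he (Fin.last n)
    rw [e2e_last, e2e_last] at this
    linarith
  by_cases hw : w = 0
  · rw [hw, norm_zero] at h1
    rw [hw, norm_eq_zero.1 h1.symm]
  · have hw0 : ‖w‖ ≠ 0 := norm_ne_zero_iff.2 hw
    have hw' : w' ≠ 0 := by
      intro h2; rw [h2, norm_zero] at h1; exact hw0 h1
    have h2 : e2g K h w = e2g K h w' := by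
      funext v
      have := congrFun he (Fin.castSucc v)
      rw [e2e_cast, e2e_cast, ← h1] at this
      exact mul_left_cancel₀ hw0 this
    rw [e2g_ne K h w hw, e2g_ne K h w' hw'] at h2
    have h3 := h.symm.injective (Subtype.ext h2)
    have h4 : ‖w‖⁻¹ • w = ‖w'‖⁻¹ • w' := congrArg Subtype.val h3
    rw [← h1] at h4
    exact (smul_right_injective _ (inv_ne_zero hw0)) h4

theorem e2e_real (w : E d) (hw : ‖w‖ ≤ 1) : e2e K h w ∈ realization (e2CK K) := by
  have hn := norm_nonneg w
  refine ⟨?_, ?_, ?_⟩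
  · intro i
    refine Fin.lastCases ?_ (fun v => ?_) i
    · rw [e2e_last]; linarith
    · rw [e2e_cast]; exact mul_nonneg hn (e2g_nonneg K h w v)
  · rw [Fin.sum_univ_castSucc, e2e_last]
    simp_rw [e2e_cast]
    rw [← Finset.mul_sum]
    by_cases h0 : w = 0
    · rw [h0, norm_zero]; ring
    · rw [(e2g_mem K h w h0).2.1]; ring
  · by_cases h0 : w = 0
    · refine ⟨e2cone ∅, ?_, ?_⟩
      · rw [e2mem_CK, e2old_cone]; exact K.empty_mem
      · intro i hi
        refine Fin.lastCases (motive := fun i => i ∉ e2cone ∅ → e2e K h w i = 0) ?_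
          (fun v => ?_) i hi
        · intro hl; exact absurd (e2last_mem _) hl
        · intro _; rw [e2e_cast, h0, norm_zero, zero_mul]
    · obtain ⟨σ, hσ, hσ0⟩ := (e2g_mem K h w h0).2.2
      refine ⟨e2cone σ, ?_, ?_⟩
      · rw [e2mem_CK, e2old_cone]; exact hσ
      · intro i hi
        refine Fin.lastCases (motive := fun i => i ∉ e2cone σ → e2e K h w i = 0) ?_
          (fun v => ?_) i hi
        · intro hl; exact absurd (e2last_mem _) hl
        · intro hv; rw [e2e_cast, hσ0 v (fun h2 => hv ((e2cast_mem σ v).2 h2)), mul_zero]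

theorem e2e_surj (u : Fin (n + 1) → ℝ) (hu : u ∈ realization (e2CK K))
    (hl : 1 / 2 < u (Fin.last n)) : ∃ w ∈ Metric.ball (0 : E d) (1 / 2), e2e K h w = u := by
  obtain ⟨hu0, hu1, σ, hσ, hσ0⟩ := hu
  have hsum : ∑ v : Fin n, u (Fin.castSucc v) = 1 - u (Fin.last n) := by
    rw [Fin.sum_univ_castSucc] at hu1; linarith
  have hs0 : 0 ≤ 1 - u (Fin.last n) := by
    rw [← hsum]; exact Finset.sum_nonneg fun v _ => hu0 _
  rcases hs0.eq_or_lt with hs | hs
  · refine ⟨0, by simp, ?_⟩
    funext i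
    refine Fin.lastCases ?_ (fun v => ?_) i
    · rw [e2e_last, norm_zero]; linarith
    · rw [e2e_cast, norm_zero, zero_mul]
      rw [← hs] at hsum
      exact ((Finset.sum_eq_zero_iff_of_nonneg (fun v _ => hu0 _)).1 hsum v
        (Finset.mem_univ v)).symm
  · obtain ⟨s, hsdef⟩ : ∃ s, s = 1 - u (Fin.last n) := ⟨_, rfl⟩
    rw [← hsdef] at hs hsum
    have hp : (fun v : Fin n => u (Fin.castSucc v) / s) ∈ K.space := by
      refine ⟨fun v => div_nonneg (hu0 _) hs.le, ?_, e2old σ, (e2mem_CK K σ).1 hσ, ?_⟩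
      · rw [← Finset.sum_div, hsum, div_self hs.ne']
      · intro v hv
        show u (Fin.castSucc v) / s = 0
        rw [hσ0 _ (fun h2 => hv ((e2mem_old σ v).2 h2)), zero_div]
    obtain ⟨y, hy⟩ : ∃ y, y = h ⟨_, hp⟩ := ⟨_, rfl⟩
    have hy1 : ‖(y : E d)‖ = 1 := mem_sphere_zero_iff_norm.1 y.2
    have hws : ‖s • (y : E d)‖ = s := by
      rw [norm_smul, hy1, mul_one, Real.norm_eq_abs, abs_of_pos hs]
    have hw0 : s • (y : E d) ≠ 0 := by
      rw [← norm_ne_zero_iff, hws]; exact hs.ne'
    have hN : e2N ⟨s • (y : E d), hw0⟩ = y := by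
      apply Subtype.ext
      show ‖s • (y : E d)‖⁻¹ • (s • (y : E d)) = y
      rw [hws, smul_smul, inv_mul_cancel₀ hs.ne', one_smul]
    have hg : ∀ v, e2g K h (s • (y : E d)) v = u (Fin.castSucc v) / s := by
      intro v
      rw [e2g_ne K h _ hw0, hN, hy, h.symm_apply_apply]
    refine ⟨s • (y : E d), ?_, ?_⟩
    · rw [mem_ball_zero_iff, hws]; linarith
    · funext i
      refine Fin.lastCases ?_ (fun v => ?_) i
      · rw [e2e_last, hws, hsdef]; ring
      · rw [e2e_cast, hws, hg v]; field_simp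

end chart

theorem t_GACY : S_GACY := by
  intro n d K hd ⟨h⟩ k hk
  refine e2acy K k ?_
  have hx0 : ∀ v : Fin (n + 1), 0 ≤ (Pi.single (Fin.last n) (1 : ℝ) : Fin (n + 1) → ℝ) v := by
    intro v
    by_cases hv : v = Fin.last n
    · rw [hv, Pi.single_eq_same]; exact zero_le_one
    · rw [Pi.single_eq_of_ne hv]
  refine UTop.acy_int (n := d) (e2CK K) (by omega) {Fin.last n} ?_ (Finset.singleton_nonempty _)
    (Pi.single (Fin.last n) (1 : ℝ)) ?_ ?_ (0 : E d) (1 / 2) (by norm_num) (e2e K h)
    (e2e_cont K h).continuousOn (fun w _ w' _ he => e2e_inj K h he) ?_ ?_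
    {u | 1 / 2 < u (Fin.last n)} ?_ ?_ (k + 1) hk
  · rw [e2mem_CK]
    have : e2old ({Fin.last n} : Finset (Fin (n + 1))) = ∅ := by
      ext v
      rw [e2mem_old, Finset.mem_singleton]
      constructor
      · intro h2; exact absurd h2 (Fin.castSucc_lt_last v).ne
      · intro h2; exact absurd h2 (Finset.notMem_empty v)
    rw [this]; exact K.empty_mem
  · refine ⟨hx0, by simp, ?_⟩
    intro v hv
    exact Pi.single_eq_of_ne (fun h2 => hv (Finset.mem_singleton.2 h2)) _
  · intro v hv
    rw [Finset.mem_singleton.1 hv, Pi.single_eq_same]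
    exact zero_lt_one
  · intro w hw
    rw [mem_closedBall_zero_iff] at hw
    exact e2e_real K h w (by linarith)
  · funext i
    refine Fin.lastCases ?_ (fun v => ?_) i
    · rw [e2e_last, norm_zero, Pi.single_eq_same]; ring
    · rw [e2e_cast, norm_zero, zero_mul, Pi.single_eq_of_ne (Fin.castSucc_lt_last v).ne]
  · exact isOpen_lt continuous_const (continuous_apply _)
  · intro u hu
    constructor
    · intro hl; exact e2e_surj K h u hu hl
    · rintro ⟨w, hw, rfl⟩
      rw [mem_ball_zero_iff] at hw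
      show 1 / 2 < e2e K h w (Fin.last n)
      rw [e2e_last]; linarith

end Pool.Agent.N525.CS
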