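import Pool.Agent.N525.CS.StmE

set_option autoImplicit false

/-! Combinatorial spheres from acyclicity (helper405, for helper525). -/

namespace Pool.Agent.N525.CS

open Pool.Agent.N525.VR Pool.Agent.Helper611

/-- the boundary with coefficients mod 2 -/
theorem E3_bd {n : ℕ} (c : Finset (Fin n) → ZMod 2) (ρ : Finset (Fin n)) :
    ZBase.bd c ρ = ∑ x ∈ ρᶜ, c (insert x ρ) := by
  unfold ZBase.bd
  refine Finset.sum_congr rfl fun x _ => ?_
  unfold ZBase.sgn
  rcases neg_one_pow_eq_or ℤ (ρ.filter (· < x)).card with h | h
  · rw [h, one_smul]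
  · rw [h, neg_smul, one_smul]
    exact ZMod.neg_eq_self_mod_two _

/-- the boundary at a ridge counts the facets of the support -/
theorem E3_cnt {n k : ℕ} (b : Finset (Fin n) → ZMod 2) (ρ : Finset (Fin n)) (hρ : ρ.card = k)
    (A : Finset (Finset (Fin n))) (hA : ∀ G, G ∈ A ↔ b G ≠ 0) (hc : ∀ G ∈ A, G.card = k + 1) :
    ZBase.bd b ρ = ((A.filter (fun G => ρ ⊆ G)).card : ZMod 2) := by
  classical
  rw [E3_bd]
  have hval : ∀ G, b G = if G ∈ A then 1 else 0 := by
    intro G
    by_cases h : G ∈ A
    · rw [if_pos h]
      have h1 := (hA G).1 h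
      have : ∀ z : ZMod 2, z ≠ 0 → z = 1 := by decide
      exact this _ h1
    · rw [if_neg h]
      by_contra h1
      exact h ((hA G).2 h1)
  rw [Finset.card_eq_sum_ones, Nat.cast_sum]
  have h1 : ∑ x ∈ ρᶜ, b (insert x ρ) = ∑ x ∈ ρᶜ.filter (fun x => insert x ρ ∈ A), (1 : ZMod 2) := by
    rw [Finset.sum_filter]
    refine Finset.sum_congr rfl fun x _ => ?_
    rw [hval]
  rw [h1]
  refine Finset.sum_bij (fun x _ => insert x ρ) ?_ ?_ ?_ ?_
  · intro x hx
    rw [Finset.mem_filter] at hx ⊢
    exact ⟨hx.2, Finset.subset_insert _ _⟩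
  · intro x hx y hy hxy
    rw [Finset.mem_filter, Finset.mem_compl] at hx hy
    have : x ∈ insert y ρ := by
      rw [← hxy]
      exact Finset.mem_insert_self _ _
    rcases Finset.mem_insert.1 this with h | h
    · exact h
    · exact absurd h hx.1
  · intro G hG
    rw [Finset.mem_filter] at hG
    have h2 : (G \ ρ).card = 1 := by
      rw [Finset.card_sdiff_of_subset hG.2, hc G hG.1, hρ]
      omega
    obtain ⟨x, hx⟩ := Finset.card_eq_one.1 h2
    have hx' : x ∈ G \ ρ := by rw [hx]; exact Finset.mem_singleton_self _
    rw [Finset.mem_sdiff] at hx'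
    have h3 : insert x ρ = G := by
      apply Finset.eq_of_subset_of_card_le
      · intro y hy
        rcases Finset.mem_insert.1 hy with h | h
        · rw [h]; exact hx'.1
        · exact hG.2 h
      · rw [Finset.card_insert_of_notMem hx'.2, hc G hG.1, hρ]
    refine ⟨x, ?_, h3⟩
    rw [Finset.mem_filter, Finset.mem_compl]
    exact ⟨hx'.2, by rw [h3]; exact hG.1⟩
  · intro x _
    simp

/-- purity -/
theorem E3_pure {n d : ℕ} (K : Cx n) (hd : ∀ σ ∈ K.faces, σ.card ≤ d)
    (h : ∀ (τ : Finset (Fin n)) (k : ℕ), k + 1 ≤ d → ZBase.Acy (t2Z K) (ZMod 2) τ k) :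
    ∀ σ ∈ K.faces, ∃ F ∈ K.fc d, σ ⊆ F := by
  classical
  have key : ∀ m : ℕ, ∀ s : Finset (Fin n), s ∈ K.faces → d - s.card = m →
      ∃ F ∈ K.fc d, s ⊆ F := by
    intro m
    induction m with
    | zero =>
      intro s hs h5
      refine ⟨s, ?_, subset_rfl⟩
      rw [Cx.fc, Finset.mem_filter]
      exact ⟨hs, by have := hd s hs; omega⟩
    | succ m ih =>
      intro s hs h5
      obtain ⟨b, hb1, hb2⟩ := h s s.card (by omega) (Pi.single s 1) (by
        intro t ht
        by_cases hts : t = s
        · subst hts
          exact ⟨hs, subset_rfl, rfl⟩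
        · exact absurd (Pi.single_eq_of_ne hts _) ht) (by
        intro ρ hρ
        rw [E3_bd]
        refine Finset.sum_eq_zero fun x hx => ?_
        have hx' : x ∉ ρ := Finset.mem_compl.1 hx
        have hne : insert x ρ ≠ s := by
          intro he
          exact hx' (hρ (he ▸ Finset.mem_insert_self x ρ))
        rw [Pi.single_eq_of_ne hne])
      have h1 : ZBase.bd b s = 1 := by
        rw [hb2 s subset_rfl, Pi.single_eq_same]
      have h2 : ZBase.bd b s ≠ 0 := by
        rw [h1]; exact one_ne_zero
      rw [E3_bd] at h2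
      obtain ⟨x, hx, hx2⟩ := Finset.exists_ne_zero_of_sum_ne_zero h2
      obtain ⟨h6, _, h7⟩ := hb1 _ hx2
      obtain ⟨F, hF, hF2⟩ := ih (insert x s) h6 (by omega)
      exact ⟨F, hF, (Finset.subset_insert _ _).trans hF2⟩
  intro σ hσ
  exact key _ σ hσ rfl

/-- links are minimal cycles -/
theorem E3_min {n d : ℕ} (K : Cx n) (hpure : ∀ σ ∈ K.faces, ∃ F ∈ K.fc d, σ ⊆ F)
    (h : ∀ (τ : Finset (Fin n)) (k : ℕ), k + 1 ≤ d → ZBase.Acy (t2Z K) (ZMod 2) τ k)
    (htwo : ∀ t ∈ K.faces, t.card + 1 = d →
      (K.faces.filter (fun F => t ⊆ F ∧ F.card = d)).card = 2) :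
    ∀ (m : ℕ) (s : Finset (Fin n)) (Z : Finset (Finset (Fin n))), s.card + 1 + m = d →
      Z ⊆ st (K.fc d) s → Z.Nonempty → RC d s Z → Z = st (K.fc d) s := by
  classical
  intro m
  induction m with
  | zero =>
    intro s Z hs hZ hne hRC
    obtain ⟨F, hF⟩ := hne
    have hF' := hZ hF
    rw [st, Finset.mem_filter, Cx.fc, Finset.mem_filter] at hF'
    have hsf : s ∈ K.faces := K.down F hF'.1.1 s hF'.2
    have h2 : (st (K.fc d) s).card = 2 := by
      rw [← htwo s hsf (by omega)]
      congr 1
      ext G
      simp only [st, Cx.fc, Finset.mem_filter]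
      tauto
    have h3 : Z.filter (fun F => s ⊆ F) = Z := by
      apply Finset.filter_true_of_mem
      intro G hG
      have := hZ hG
      rw [st, Finset.mem_filter] at this
      exact this.2
    have h4 := hRC s (by omega) subset_rfl
    rw [h3] at h4
    have h5 : 0 < Z.card := Finset.card_pos.2 ⟨F, hF⟩
    obtain ⟨r, hr⟩ := h4
    apply Finset.eq_of_subset_of_card_le hZ
    omega
  | succ m ih =>
    intro s Z hs hZ hne hRC
    by_contra hcon
    have hst : ∀ (a : Finset (Fin n)) G, G ∈ st (K.fc d) a ↔ (G ∈ K.faces ∧ G.card = d) ∧ a ⊆ G := by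
      intro a G
      rw [st, Finset.mem_filter, Cx.fc, Finset.mem_filter]
    -- alternative
    have halt : ∀ x, x ∉ s → (∃ G ∈ Z, x ∈ G) → ∀ G ∈ st (K.fc d) (insert x s), G ∈ Z := by
      intro x hx hGx G hG
      obtain ⟨G0, hG0, hxG0⟩ := hGx
      have hZ' : Z.filter (fun F => insert x s ⊆ F) = st (K.fc d) (insert x s) := by
        apply ih
        · rw [Finset.card_insert_of_notMem hx]; omega
        · intro G' hG'
          rw [Finset.mem_filter] at hG'
          have := (hst _ _).1 (hZ hG'.1)
          exact (hst _ _).2 ⟨this.1, hG'.2⟩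
        · refine ⟨G0, ?_⟩
          rw [Finset.mem_filter]
          refine ⟨hG0, ?_⟩
          have := (hst _ _).1 (hZ hG0)
          intro y hy
          rcases Finset.mem_insert.1 hy with h1 | h1
          · rw [h1]; exact hxG0
          · exact this.2 h1
        · intro t ht hst'
          rw [Finset.filter_filter]
          have : Z.filter (fun a => insert x s ⊆ a ∧ t ⊆ a) = Z.filter (fun a => t ⊆ a) := by
            apply Finset.filter_congr
            intro a _
            constructor
            · exact fun h => h.2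
            · exact fun h => ⟨hst'.trans h, h⟩
          rw [this]
          exact hRC t ht ((Finset.subset_insert _ _).trans hst')
      rw [← hZ'] at hG
      exact (Finset.mem_filter.1 hG).1
    obtain ⟨G1, hG1⟩ := hne
    obtain ⟨G2, hG2, hG2Z⟩ : ∃ G2 ∈ st (K.fc d) s, G2 ∉ Z := by
      by_contra hc
      push Not at hc
      exact hcon (Finset.Subset.antisymm hZ hc)
    have hG1' := (hst _ _).1 (hZ hG1)
    have hG2' := (hst _ _).1 hG2
    have hex : ∀ G : Finset (Fin n), G.card = d → s ⊆ G → ∃ x ∈ G, x ∉ s := by
      intro G hG hsG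
      by_contra hc
      push Not at hc
      have := Finset.card_le_card (show G ⊆ s from hc)
      omega
    obtain ⟨x, hx1, hx2⟩ := hex G1 hG1'.1.2 hG1'.2
    obtain ⟨y, hy1, hy2⟩ := hex G2 hG2'.1.2 hG2'.2
    let X : Finset (Fin n) := Finset.univ.filter (fun p => p ∉ s ∧ ∃ G ∈ Z, p ∈ G)
    have hX : ∀ p, p ∈ X ↔ (p ∉ s ∧ ∃ G ∈ Z, p ∈ G) := by
      intro p
      simp [X]
    have hxX : x ∈ X := (hX x).2 ⟨hx2, G1, hG1, hx1⟩
    have hins : ∀ (G : Finset (Fin n)) (p : Fin n), s ⊆ G → p ∈ G → insert p s ⊆ G := by
      intro G p h1 h2 q hq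
      rcases Finset.mem_insert.1 hq with h3 | h3
      · rw [h3]; exact h2
      · exact h1 h3
    have hyX : y ∉ X := by
      intro hy
      rw [hX] at hy
      exact hG2Z (halt y hy2 hy.2 G2 ((hst _ _).2 ⟨hG2'.1, hins G2 y hG2'.2 hy1⟩))
    have hxy : x ≠ y := by
      rintro rfl
      exact hyX hxX
    have hxf : insert x s ∈ K.faces := K.down G1 hG1'.1.1 _ (hins G1 x hG1'.2 hx1)
    have hyf : insert y s ∈ K.faces := K.down G2 hG2'.1.1 _ (hins G2 y hG2'.2 hy1)
    have hneq : insert x s ≠ insert y s := by
      intro he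
      have : x ∈ insert y s := by rw [← he]; exact Finset.mem_insert_self _ _
      rcases Finset.mem_insert.1 this with h1 | h1
      · exact hxy h1
      · exact hx2 h1
    let c : Finset (Fin n) → ZMod 2 := fun t => if t = insert x s ∨ t = insert y s then 1 else 0
    obtain ⟨b, hb1, hb2⟩ := h s (s.card + 1) (by omega) c (by
        intro t ht
        have ht' : t = insert x s ∨ t = insert y s := by
          by_contra hc
          exact ht (if_neg hc)
        rcases ht' with rfl | rfl
        · exact ⟨hxf, Finset.subset_insert _ _, Finset.card_insert_of_notMem hx2⟩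
        · exact ⟨hyf, Finset.subset_insert _ _, Finset.card_insert_of_notMem hy2⟩) (by
        intro ρ hρ
        rw [E3_bd]
        by_cases hρs : ρ = s
        · subst hρs
          have h1 : ∀ z ∈ ρᶜ, c (insert z ρ) = (if z = x then 1 else 0) + (if z = y then 1 else 0) := by
            intro z hz
            have hz' := Finset.mem_compl.1 hz
            have e1 : ∀ w, w ∉ ρ → (insert z ρ = insert w ρ ↔ z = w) := by
              intro w hw
              constructor
              · intro he
                have : z ∈ insert w ρ := by rw [← he]; exact Finset.mem_insert_self _ _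
                rcases Finset.mem_insert.1 this with h1 | h1
                · exact h1
                · exact absurd h1 hz'
              · rintro rfl; rfl
            show (if insert z ρ = insert x ρ ∨ insert z ρ = insert y ρ then (1 : ZMod 2) else 0) = _
            simp only [e1 x hx2, e1 y hy2]
            by_cases h1 : z = x
            · have h2 : ¬ z = y := by rw [h1]; exact hxy
              rw [if_pos (Or.inl h1), if_pos h1, if_neg h2, add_zero]
            · by_cases h2 : z = y
              · rw [if_pos (Or.inr h2), if_neg h1, if_pos h2, zero_add]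
              · rw [if_neg (by tauto), if_neg h1, if_neg h2, add_zero]
          rw [Finset.sum_congr rfl h1, Finset.sum_add_distrib, Finset.sum_ite_eq', Finset.sum_ite_eq',
            if_pos (Finset.mem_compl.2 hx2), if_pos (Finset.mem_compl.2 hy2)]
          decide
        · refine Finset.sum_eq_zero fun z hz => ?_
          have hz' := Finset.mem_compl.1 hz
          apply if_neg
          intro hc
          have hcard : (insert z ρ).card = s.card + 1 := by
            rcases hc with h1 | h1
            · rw [h1, Finset.card_insert_of_notMem hx2]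
            · rw [h1, Finset.card_insert_of_notMem hy2]
          rw [Finset.card_insert_of_notMem hz'] at hcard
          exact hρs (Finset.eq_of_subset_of_card_le hρ (by omega)).symm)
    -- the two sums
    have hs1 : ∑ p ∈ X, ZBase.bd b (insert p s) = 1 := by
      have h1 : ∀ p ∈ X, ZBase.bd b (insert p s) = if p = x then 1 else 0 := by
        intro p hp
        rw [hb2 _ (Finset.subset_insert _ _)]
        have hp' := (hX p).1 hp
        show (if insert p s = insert x s ∨ insert p s = insert y s then (1 : ZMod 2) else 0) = _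
        have e1 : ∀ w, (insert p s = insert w s ↔ p = w) := by
          intro w
          constructor
          · intro he
            have : p ∈ insert w s := by rw [← he]; exact Finset.mem_insert_self _ _
            rcases Finset.mem_insert.1 this with h1 | h1
            · exact h1
            · exact absurd h1 hp'.1
          · rintro rfl; rfl
        simp only [e1 x, e1 y]
        have hpy : p ≠ y := by
          rintro rfl
          exact hyX hp
        by_cases h2 : p = x
        · rw [if_pos (Or.inl h2), if_pos h2]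
        · rw [if_neg (by tauto), if_neg h2]
      rw [Finset.sum_congr rfl h1, Finset.sum_ite_eq', if_pos hxX]
    have hs2 : ∑ p ∈ X, ZBase.bd b (insert p s) = 0 := by
      have h1 : ∀ p ∈ X, ZBase.bd b (insert p s) = ∑ q ∈ X.erase p, b (insert q (insert p s)) := by
        intro p hp
        have hp' := (hX p).1 hp
        rw [E3_bd]
        symm
        apply Finset.sum_subset
        · intro q hq
          rw [Finset.mem_erase] at hq
          have hq' := (hX q).1 hq.2
          rw [Finset.mem_compl, Finset.mem_insert]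
          push Not
          exact ⟨hq.1, hq'.1⟩
        · intro q hq hq2
          rw [Finset.mem_compl, Finset.mem_insert] at hq
          push Not at hq
          by_contra hb0
          obtain ⟨hf, _, _⟩ := hb1 _ hb0
          obtain ⟨F, hF, hF2⟩ := hpure _ hf
          have hF' : F ∈ K.faces ∧ F.card = d := by
            rw [Cx.fc, Finset.mem_filter] at hF
            exact hF
          have hpF : insert p s ⊆ F := (Finset.subset_insert _ _).trans hF2
          have hFZ : F ∈ Z := halt p hp'.1 hp'.2 F ((hst _ _).2 ⟨hF', hpF⟩)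
          apply hq2
          rw [Finset.mem_erase]
          exact ⟨hq.1, (hX q).2 ⟨hq.2, F, hFZ, hF2 (Finset.mem_insert_self _ _)⟩⟩
      rw [Finset.sum_congr rfl h1]
      apply ZBase.sum_anti
      intro p _ q _ _
      rw [Finset.insert_comm]
      exact (ZMod.neg_eq_self_mod_two _).symm
    rw [hs1] at hs2
    exact one_ne_zero hs2

theorem t_ALG : S_ALG := by
  classical
  intro n d K hd3 hdim hacy htwo
  have h2 : ∀ (τ : Finset (Fin n)) (k : ℕ), k + 1 ≤ d → ZBase.Acy (t2Z K) (ZMod 2) τ k := by
    intro τ k hk
    exact ZBase.acy_change (R := ℤ) (M := ZMod 2) (t2Z K) τ (d - 1)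
      (fun k' hk' => hacy τ k' (by omega)) k (by omega)
  have hpure := E3_pure K hdim h2
  have hmem : ∀ F, F ∈ K.fc d ↔ F ∈ K.faces ∧ F.card = d := by
    intro F
    rw [Cx.fc, Finset.mem_filter]
  have hface : ∀ t, face (K.fc d) t ↔ t ∈ K.faces := by
    intro t
    constructor
    · rintro ⟨F, hF, htF⟩
      exact K.down F ((hmem F).1 hF).1 t htF
    · intro ht
      exact hpure t ht
  refine ⟨⟨?_, ?_, ?_, ?_, ?_⟩, hpure⟩
  · obtain ⟨F, hF, _⟩ := hpure ∅ K.empty_mem
    exact ⟨F, hF⟩
  · intro F hF
    exact ((hmem F).1 hF).2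
  · intro t ht _
    by_cases htf : t ∈ K.faces
    · have : (K.fc d).filter (fun F => t ⊆ F) = K.faces.filter (fun F => t ⊆ F ∧ F.card = d) := by
        ext G
        simp only [Cx.fc, Finset.mem_filter]
        tauto
      rw [this, htwo t htf ht]
      decide
    · have : (K.fc d).filter (fun F => t ⊆ F) = ∅ := by
        rw [Finset.eq_empty_iff_forall_notMem]
        intro G hG
        rw [Finset.mem_filter] at hG
        exact htf ((hface t).1 ⟨G, hG.1, hG.2⟩)
      rw [this, Finset.card_empty]
      decide
  · intro s Z hs hZ hne hRC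
    exact E3_min K hpure h2 htwo (d - 1 - s.card) s Z (by omega) hZ hne hRC
  · intro s F hs hsF hF hall
    let c : Finset (Fin n) → ZMod 2 := fun r => if s ⊆ r ∧ r ⊆ F ∧ r.card + 1 = d then 1 else 0
    have hc0 : ∀ r, c r ≠ 0 → s ⊆ r ∧ r ⊆ F ∧ r.card + 1 = d := by
      intro r hr
      by_contra hcon
      exact hr (if_neg hcon)
    obtain ⟨b, hb1, hb2⟩ := h2 s (d - 1) (by omega) c (by
        intro r hr
        obtain ⟨h3, h4, h5⟩ := hc0 r hr
        exact ⟨(hface r).1 (hall r h4 h3 h5), h3, by omega⟩) (by
        intro ρ hρ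
        rw [E3_bd]
        by_cases h3 : ρ ⊆ F ∧ ρ.card + 2 = d
        · have h4 : ∑ x ∈ ρᶜ, c (insert x ρ) = ∑ x ∈ F \ ρ, (1 : ZMod 2) := by
            symm
            have h5 : ∑ x ∈ F \ ρ, (1 : ZMod 2) = ∑ x ∈ F \ ρ, c (insert x ρ) := by
              refine Finset.sum_congr rfl fun x hx => ?_
              rw [Finset.mem_sdiff] at hx
              symm
              apply if_pos
              refine ⟨hρ.trans (Finset.subset_insert _ _), ?_, ?_⟩
              · intro y hy
                rcases Finset.mem_insert.1 hy with h6 | h6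
                · rw [h6]; exact hx.1
                · exact h3.1 h6
              · rw [Finset.card_insert_of_notMem hx.2]; omega
            rw [h5]
            apply Finset.sum_subset
            · intro x hx
              rw [Finset.mem_sdiff] at hx
              exact Finset.mem_compl.2 hx.2
            · intro x hx hx2
              by_contra hcx
              obtain ⟨_, h7, _⟩ := hc0 _ hcx
              exact hx2 (Finset.mem_sdiff.2 ⟨h7 (Finset.mem_insert_self _ _), Finset.mem_compl.1 hx⟩)
          rw [h4, Finset.sum_const, Finset.card_sdiff_of_subset h3.1, hF]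
          have : d - ρ.card = 2 := by omega
          rw [this]
          decide
        · refine Finset.sum_eq_zero fun x hx => ?_
          have hx' := Finset.mem_compl.1 hx
          by_contra hcx
          obtain ⟨_, h7, h8⟩ := hc0 _ hcx
          rw [Finset.card_insert_of_notMem hx'] at h8
          exact h3 ⟨(Finset.subset_insert _ _).trans h7, by omega⟩)
    let A : Finset (Finset (Fin n)) := Finset.univ.filter (fun G => b G ≠ 0)
    have hA : ∀ G, G ∈ A ↔ b G ≠ 0 := by
      intro G
      simp [A]
    refine ⟨A, ?_, ?_⟩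
    · intro G hG
      obtain ⟨h3, h4, h5⟩ := hb1 G ((hA G).1 hG)
      rw [st, Finset.mem_filter]
      exact ⟨(hmem G).2 ⟨h3, by omega⟩, h4⟩
    · intro r hsr hr
      have h3 := E3_cnt (k := d - 1) b r (by omega) A hA (fun G hG => (hb1 G ((hA G).1 hG)).2.2)
      rw [hb2 r hsr] at h3
      have h4 : Odd (A.filter (fun G => r ⊆ G)).card ↔ c r = 1 := by
        rw [h3]
        exact (ZMod.natCast_eq_one_iff_odd).symm
      rw [h4]
      constructor
      · intro h5
        have : c r ≠ 0 := by rw [h5]; exact one_ne_zero
        exact (hc0 r this).2.1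
      · intro h5
        exact if_pos ⟨hsr, h5, hr⟩

theorem t_SPH (h1 : S_CHART) (h2 : S_GACY) (h3 : S_ALG) (h4 : VR.S_TWO) : S_SPH := by
  intro n d K hd hv hne
  have hch : K.Charts (d - 1) := h1 n d K (by omega) hne
  have hdim := t2_dim_of_charts K hch
  have hdd : d - 1 + 1 = d := by omega
  rw [hdd] at hdim
  have hl := t2_lacy_of_charts K hch
  refine h3 n d K hd hdim ?_ ?_
  · intro τ k hk
    rcases Finset.eq_empty_or_nonempty τ with h5 | h5
    · subst h5
      exact h2 n d K (by omega) hne k hk
    · exact hl τ k h5 (by omega)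
  · intro t ht htc
    have h5 := h4 n (d - 1) K (by omega) hch (by rw [hdd]; exact hdim) t ht (by omega)
    rw [hdd] at h5
    exact h5


end Pool.Agent.N525.CS
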