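import Pool.Agent.N525.CS.A1
import Pool.Agent.N525.CS.A2
import Pool.Agent.N525.CS.A3
import Pool.Agent.N525.CS.A4
import Pool.Agent.N525.CS.A5
import Pool.Agent.N525.CS.A6
import Pool.Agent.N525.CS.A7
import Pool.Agent.N525.CS.B1
import Pool.Agent.N525.CS.B2
import Pool.Agent.N525.CS.B3
import Pool.Agent.N525.CS.B5
import Pool.Agent.N525.CS.C1
import Pool.Agent.N525.CS.C2
import Pool.Agent.N525.CS.C3
import Pool.Agent.N525.CS.C4
import Pool.Agent.N525.CS.C5
import Pool.Agent.N525.CS.C6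
import Pool.Agent.N525.CS.C7
import Pool.Agent.N525.CS.C8
import Pool.Agent.N525.CS.C9
import Pool.Agent.N525.CS.C10
import Pool.Agent.N525.CS.D1
import Pool.Agent.N525.CS.D2
import Pool.Agent.N525.CS.D3
import Pool.Agent.N525.CS.D4
import Pool.Agent.N525.CS.D5
import Pool.Agent.N525.CS.D6
import Pool.Agent.N525.CS.E1
import Pool.Agent.N525.CS.E2
import Pool.Agent.N525.CS.E3
import Pool.Agent.N525.CS.Asm
import Pool.Agent.N525.VR.C1
import Pool.Agent.N525.VR.C2
import Pool.Agent.N525.VR.R1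
import Pool.Agent.N525.VR.T1

set_option autoImplicit false

/-! All steps together. -/

namespace Pool.Agent.N525.CS

open Pool.Agent.N525.VR

theorem a_TR : S_TR := t_TR t_RK

theorem a_SPLIT : S_SPLIT := t_SPLIT t_AIN t_SPAN t_MV a_TR

theorem a_KD : S_KD := t_KD t_AIN t_STR

theorem a_GL : S_GL := t_GL t_SK0

theorem a_COUNT : S_COUNT := t_COUNT t_EX t_SPAN

theorem a_PIECES : S_PIECES := t_PIECES t_LIFT t_DEC t_CON t_PLUS

theorem a_MAIN : S_MAIN := t_MAIN t_AIN a_SPLIT a_KD a_GL a_PIECES t_CHOICE t_NB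

theorem a_LB : S_LB := t_LB a_MAIN a_COUNT

theorem a_2A : S_2A := t_2A a_LB

theorem a_2C : S_2C := t_2C a_LB t_CON t_PLUS

theorem a_2D : S_2D := t_2D a_MAIN t_LK a_COUNT

theorem a_2B : S_2B := t_2B a_2A

theorem a_CAP3 : S_CAP3 := t_CAP3 t_CAP2

theorem a_INNER : S_INNER := t_INNER t_CAP t_CAP2 a_CAP3 a_2B a_2C a_2D

theorem a_PRIME : S_PRIME := t_PRIME a_2B a_2C a_2D

theorem a_STK : S_STK := t_STK

theorem a_REA : S_REA := t_REA t_SUPP a_STK t_BEY

theorem a_CNT : S_CNT := t_CNT t_CROSS a_STK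

theorem a_ONLY : S_ONLY := t_ONLY a_INNER a_PRIME t_UNST t_CROSS a_STK a_REA

theorem a_SPH : S_SPH := t_SPH t_CHART t_GACY t_ALG t_TWO

/-- the two parts of the theorem -/
theorem final (d : ℕ) (hd : 4 ≤ d) (n : ℕ) (K : Cx n) (hv : ∀ v, {v} ∈ K.faces)
    (hK : Nonempty (K.space ≃ₜ Metric.sphere (0 : E d) 1)) (φ : Fin n → Fin n)
    (h1 : ∀ v, φ (φ v) = v) (h2 : ∀ F ∈ K.faces, F.image φ ∈ K.faces)
    (h3 : ∀ F ∈ K.faces, F.Nonempty → F.image φ ≠ F) :
    d * n ≤ (K.faces.filter (fun F => F.card = 2)).card + 2 * d ∧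
    ((K.faces.filter (fun F => F.card = 2)).card + 2 * d = d * n →
      ∃ (X : Finset (E d)) (f : Fin n → E d), Stacked d X ∧ Function.Injective f ∧
        X = Finset.univ.image f ∧ (∀ S, S ∈ K.faces ↔ PF X (S.image f)) ∧ ∀ v, f (φ v) = - f v) ∧
    (∀ (X : Finset (E d)) (f : Fin n → E d), Stacked d X → Function.Injective f →
        X = Finset.univ.image f → (∀ S, S ∈ K.faces ↔ PF X (S.image f)) →
        (K.faces.filter (fun F => F.card = 2)).card + 2 * d = d * n) :=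
  asm_main a_LB a_ONLY a_CNT a_SPH t_TRANS d hd n K hv hK φ h1 h2 h3

end Pool.Agent.N525.CS
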