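import Pool.Agent.N525.CS.Stm

set_option autoImplicit false

/-! Parts cut off by missing facets (`S_CAP`, `S_CAP2`). -/

namespace Pool.Agent.N525.CS

open Pool.Agent.N525.VR

section
variable {W : Type} [Fintype W] [DecidableEq W]

lemma C6_opp_opp (x : SV W) : opp (opp x) = x := by
  rcases x with ⟨a, b⟩
  simp [opp]

lemma C6_opp_inj : Function.Injective (opp : SV W → SV W) := fun x y h => by
  have := congrArg opp h
  simpa [C6_opp_opp] using this

lemma C6_mem_image (x : SV W) (G : Finset (SV W)) : x ∈ G.image opp ↔ opp x ∈ G := by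
  constructor
  · intro h
    obtain ⟨y, hy, rfl⟩ := Finset.mem_image.1 h
    rwa [C6_opp_opp]
  · intro h
    exact Finset.mem_image.2 ⟨opp x, h, C6_opp_opp x⟩

lemma C6_image_image (G : Finset (SV W)) : (G.image opp).image opp = G := by
  ext x
  rw [C6_mem_image, C6_mem_image, C6_opp_opp]

lemma C6_subset (r G : Finset (SV W)) : r ⊆ G.image opp ↔ r.image opp ⊆ G := by
  constructor
  · intro h x hx
    have := h ((C6_mem_image x r).1 hx)
    rwa [C6_mem_image, C6_opp_opp] at this
  · intro h x hx
    rw [C6_mem_image]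
    apply h
    rw [C6_mem_image, C6_opp_opp]
    exact hx

/-- the antipodal set of facets -/
def C6_ast (A : Finset (Finset (SV W))) : Finset (Finset (SV W)) := A.image (fun G => G.image opp)

lemma C6_mem_ast (A : Finset (Finset (SV W))) (G : Finset (SV W)) :
    G ∈ C6_ast A ↔ G.image opp ∈ A := by
  unfold C6_ast
  constructor
  · intro h
    obtain ⟨H, hH, rfl⟩ := Finset.mem_image.1 h
    rwa [C6_image_image]
  · intro h
    exact Finset.mem_image.2 ⟨G.image opp, h, C6_image_image G⟩

lemma C6_card_ast (A : Finset (Finset (SV W))) (r : Finset (SV W)) :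
    ((C6_ast A).filter (fun G => r ⊆ G)).card = (A.filter (fun G => r.image opp ⊆ G)).card := by
  apply Finset.card_bij (fun G _ => G.image opp)
  · intro G hG
    rw [Finset.mem_filter] at hG ⊢
    refine ⟨(C6_mem_ast A G).1 hG.1, ?_⟩
    rw [← C6_subset, C6_image_image]
    exact hG.2
  · intro G _ H _ h
    have := congrArg (Finset.image opp) h
    simpa [C6_image_image] using this
  · intro H hH
    rw [Finset.mem_filter] at hH
    refine ⟨H.image opp, ?_, C6_image_image H⟩
    rw [Finset.mem_filter, C6_mem_ast, C6_image_image, C6_subset]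
    exact hH

/-- a missing facet contains no antipodal vertices, and any two vertices lie in a facet -/
lemma C6_edge {d : ℕ} (hd : 3 ≤ d) {T : Finset (Finset (SV W))} {F : Finset (SV W)}
    (hF : MF d T F) {x y : SV W} (hx : x ∈ F) (hy : y ∈ F) : ∃ G ∈ T, x ∈ G ∧ y ∈ G := by
  have hc : ∃ z ∈ F, z ∉ ({x, y} : Finset (SV W)) := by
    by_contra hcon
    push Not at hcon
    have h1 : F.card ≤ ({x, y} : Finset (SV W)).card := Finset.card_le_card hcon
    have h2 : ({x, y} : Finset (SV W)).card ≤ 2 := Finset.card_le_two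
    have := hF.1
    omega
  obtain ⟨z, hz, hzn⟩ := hc
  simp only [Finset.mem_insert, Finset.mem_singleton, not_or] at hzn
  obtain ⟨G, hG, hs⟩ := hF.2.2 z hz
  exact ⟨G, hG, hs (Finset.mem_erase.2 ⟨fun h => hzn.1 h.symm, hx⟩),
    hs (Finset.mem_erase.2 ⟨fun h => hzn.2 h.symm, hy⟩)⟩

lemma C6_opp_notMem {d : ℕ} (hd : 3 ≤ d) {T : Finset (Finset (SV W))} (hT : Sym T)
    {F : Finset (SV W)} (hF : MF d T F) {x : SV W} (hx : x ∈ F) : opp x ∉ F := by
  intro h
  obtain ⟨G, hG, h1, h2⟩ := C6_edge hd hF hx h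
  exact hT.2 G hG x h1 h2

/-- the alternative for sets with even counts in the star of `s` -/
lemma C6_alt {V : Type} [Fintype V] [DecidableEq V] {d : ℕ} {T : Finset (Finset V)}
    (hT : Sph0 d T) (s : Finset V) (hs : s.card < d) (B : Finset (Finset V)) (hB : B ⊆ T)
    (h : ∀ t : Finset V, t.card + 1 = d → s ⊆ t → Even (B.filter (fun G => t ⊆ G)).card) :
    (∀ G ∈ B, ¬ s ⊆ G) ∨ st T s ⊆ B := by
  by_cases hne : (B.filter (fun G => s ⊆ G)).Nonempty
  · right
    have hsub : B.filter (fun G => s ⊆ G) ⊆ st T s := by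
      intro G hG
      rw [Finset.mem_filter] at hG
      exact Finset.mem_filter.2 ⟨hB hG.1, hG.2⟩
    have hRC : RC d s (B.filter (fun G => s ⊆ G)) := by
      intro t ht hst
      have heq : (B.filter (fun G => s ⊆ G)).filter (fun F => t ⊆ F)
          = B.filter (fun G => t ⊆ G) := by
        ext G
        simp only [Finset.mem_filter]
        constructor
        · rintro ⟨⟨h1, _⟩, h2⟩
          exact ⟨h1, h2⟩
        · rintro ⟨h1, h2⟩
          exact ⟨⟨h1, hst.trans h2⟩, h2⟩
      rw [heq]
      exact h t ht hst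
    have := hT.min s _ hs hsub hne hRC
    rw [← this]
    exact Finset.filter_subset _ _
  · left
    intro G hG hs'
    exact hne ⟨G, Finset.mem_filter.2 ⟨hG, hs'⟩⟩

/-- the main case -/
lemma C6_caseI {d : ℕ} (hd : 3 ≤ d) {T : Finset (Finset (SV W))} (hT : Sph d T)
    {F : Finset (SV W)} (hF : MF d T F) {A : Finset (Finset (SV W))} (hA : A ⊆ T)
    (hb : ∀ r : Finset (SV W), r.card + 1 = d →
      (Odd (A.filter (fun G => r ⊆ G)).card ↔ r ⊆ F))
    (hI : ∀ x ∈ F, ∀ G ∈ A, opp x ∉ G) : ∀ G ∈ A, G.image opp ∉ A := by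
  have hAs : C6_ast A ⊆ T := by
    intro G hG
    rw [C6_mem_ast] at hG
    have := hT.2.1 _ (hA hG)
    rwa [C6_image_image] at this
  have hRC : ∀ t : Finset (SV W), t.card + 1 = d → (∅ : Finset (SV W)) ⊆ t →
      Even ((A ∩ C6_ast A).filter (fun G => t ⊆ G)).card := by
    intro t ht _
    by_cases h1 : ∃ x ∈ t, x ∈ F
    · obtain ⟨x, hxt, hxF⟩ := h1
      have : (A ∩ C6_ast A).filter (fun G => t ⊆ G) = ∅ := by
        rw [Finset.filter_eq_empty_iff]
        intro G hG htG
        rw [Finset.mem_inter, C6_mem_ast] at hG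
        apply hI x hxF _ hG.2
        rw [C6_mem_image, C6_opp_opp]
        exact htG hxt
      rw [this]
      simp
    by_cases h2 : ∃ x ∈ t, opp x ∈ F
    · obtain ⟨x, hxt, hxF⟩ := h2
      have : (A ∩ C6_ast A).filter (fun G => t ⊆ G) = ∅ := by
        rw [Finset.filter_eq_empty_iff]
        intro G hG htG
        rw [Finset.mem_inter, C6_mem_ast] at hG
        apply hI _ hxF G hG.1
        rw [C6_opp_opp]
        exact htG hxt
      rw [this]
      simp
    push Not at h1 h2
    have htne : t.Nonempty := by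
      rw [← Finset.card_pos]
      omega
    obtain ⟨x0, hx0⟩ := htne
    -- both alternatives
    have haltA := C6_alt hT.1 t (by omega) A hA (by
      intro t' ht' htt'
      rw [← Nat.not_odd_iff_even, hb t' ht']
      intro hc
      exact h1 x0 hx0 (hc (htt' hx0)))
    have haltB := C6_alt hT.1 t (by omega) (C6_ast A) hAs (by
      intro t' ht' htt'
      rw [C6_card_ast, ← Nat.not_odd_iff_even, hb (t'.image opp) (by
        rw [Finset.card_image_of_injective _ C6_opp_inj]; exact ht')]
      intro hc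
      apply h2 x0 hx0
      apply hc
      rw [C6_mem_image, C6_opp_opp]
      exact htt' hx0)
    rcases haltA with hA1 | hA1
    · have : (A ∩ C6_ast A).filter (fun G => t ⊆ G) = ∅ := by
        rw [Finset.filter_eq_empty_iff]
        intro G hG
        exact hA1 G (Finset.mem_inter.1 hG).1
      rw [this]; simp
    rcases haltB with hB1 | hB1
    · have : (A ∩ C6_ast A).filter (fun G => t ⊆ G) = ∅ := by
        rw [Finset.filter_eq_empty_iff]
        intro G hG
        exact hB1 G (Finset.mem_inter.1 hG).2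
      rw [this]; simp
    have : (A ∩ C6_ast A).filter (fun G => t ⊆ G) = T.filter (fun G => t ⊆ G) := by
      ext G
      simp only [Finset.mem_filter, Finset.mem_inter]
      constructor
      · rintro ⟨⟨h3, _⟩, h4⟩
        exact ⟨hA h3, h4⟩
      · rintro ⟨h3, h4⟩
        have hG : G ∈ st T t := Finset.mem_filter.2 ⟨h3, h4⟩
        exact ⟨⟨hA1 hG, hB1 hG⟩, h4⟩
    rw [this]
    exact hT.1.cyc t ht (Finset.empty_subset _)
  have halt := C6_alt hT.1 ∅ (by simp; omega) (A ∩ C6_ast A)
    (fun G hG => hA (Finset.mem_inter.1 hG).1) hRC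
  rcases halt with h | h
  · intro G hG hG'
    exact h G (Finset.mem_inter.2 ⟨hG, (C6_mem_ast A G).2 hG'⟩) (Finset.empty_subset _)
  · exfalso
    have hAT : A = T := by
      apply Finset.Subset.antisymm hA
      intro G hG
      exact (Finset.mem_inter.1 (h (Finset.mem_filter.2 ⟨hG, Finset.empty_subset _⟩))).1
    have hFne : F.Nonempty := by
      rw [← Finset.card_pos, hF.1]; omega
    obtain ⟨y, hy⟩ := hFne
    have hcard : (F.erase y).card + 1 = d := by
      rw [Finset.card_erase_add_one hy, hF.1]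
    have h1 := (hb (F.erase y) hcard).2 (Finset.erase_subset _ _)
    rw [hAT] at h1
    exact (Nat.not_even_iff_odd.2 h1) (hT.1.cyc _ hcard (Finset.empty_subset _))

theorem t_CAP : S_CAP := by
  intro W _ _ d hd T hT F hF
  obtain ⟨A, hA, hb⟩ := hT.1.fill ∅ F (by simp) (Finset.empty_subset _) hF.1 (by
    intro r hr _ hrd
    have : ∃ y ∈ F, y ∉ r := by
      by_contra hcon
      push Not at hcon
      have := Finset.card_le_card (show F ⊆ r from hcon)
      have := hF.1
      omega
    obtain ⟨y, hy, hyr⟩ := this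
    obtain ⟨G, hG, hs⟩ := hF.2.2 y hy
    exact ⟨G, hG, fun z hz => hs (Finset.mem_erase.2 ⟨fun h => hyr (h ▸ hz), hr hz⟩)⟩)
  have hA' : A ⊆ T := fun G hG => (Finset.mem_filter.1 (hA hG)).1
  have hb' : ∀ r : Finset (SV W), r.card + 1 = d →
      (Odd (A.filter (fun G => r ⊆ G)).card ↔ r ⊆ F) :=
    fun r hr => hb r (Finset.empty_subset _) hr
  have hAs : C6_ast A ⊆ T := by
    intro G hG
    rw [C6_mem_ast] at hG
    have := hT.2.1 _ (hA' hG)
    rwa [C6_image_image] at this
  have halt : ∀ x ∈ F, (∀ G ∈ C6_ast A, ¬ ({x} : Finset (SV W)) ⊆ G) ∨ st T {x} ⊆ C6_ast A := by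
    intro x hx
    apply C6_alt hT.1 {x} (by simp; omega) (C6_ast A) hAs
    intro t ht hxt
    rw [C6_card_ast, ← Nat.not_odd_iff_even, hb' (t.image opp) (by
      rw [Finset.card_image_of_injective _ C6_opp_inj]; exact ht)]
    intro hc
    apply C6_opp_notMem hd hT.2 hF hx
    apply hc
    rw [C6_mem_image, C6_opp_opp]
    exact hxt (Finset.mem_singleton_self x)
  have hFne : F.Nonempty := by
    rw [← Finset.card_pos, hF.1]; omega
  obtain ⟨x0, hx0⟩ := hFne
  rcases halt x0 hx0 with h0 | h0
  · refine ⟨A, hA', hb', ?_⟩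
    apply C6_caseI hd hT hF hA' hb'
    intro x hx G hG hxG
    rcases halt x hx with h1 | h1
    · apply h1 (G.image opp)
      · rw [C6_mem_ast, C6_image_image]; exact hG
      · rw [Finset.singleton_subset_iff, C6_mem_image]; exact hxG
    · obtain ⟨H, hH, hH0, hH1⟩ := C6_edge hd hF hx0 hx
      have : H ∈ C6_ast A := h1 (Finset.mem_filter.2 ⟨hH, Finset.singleton_subset_iff.2 hH1⟩)
      exact h0 H this (Finset.singleton_subset_iff.2 hH0)
  · have hAc : T \ A ⊆ T := Finset.sdiff_subset
    have hbc : ∀ r : Finset (SV W), r.card + 1 = d →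
        (Odd ((T \ A).filter (fun G => r ⊆ G)).card ↔ r ⊆ F) := by
      intro r hr
      rw [← hb' r hr]
      have h1 : ((T \ A).filter (fun G => r ⊆ G)).card + (A.filter (fun G => r ⊆ G)).card
          = (T.filter (fun G => r ⊆ G)).card := by
        rw [← Finset.card_union_of_disjoint]
        · rw [← Finset.filter_union, Finset.sdiff_union_of_subset hA']
        · apply Finset.disjoint_filter_filter
          exact Finset.sdiff_disjoint
      have h2 := hT.1.cyc r hr (Finset.empty_subset _)
      rw [← h1, Nat.even_add] at h2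
      rw [← Nat.not_even_iff_odd, ← Nat.not_even_iff_odd, h2]
    refine ⟨T \ A, hAc, hbc, ?_⟩
    apply C6_caseI hd hT hF hAc hbc
    intro x hx G hG hxG
    rw [Finset.mem_sdiff] at hG
    rcases halt x hx with h1 | h1
    · obtain ⟨H, hH, hH0, hH1⟩ := C6_edge hd hF hx0 hx
      have : H ∈ C6_ast A := h0 (Finset.mem_filter.2 ⟨hH, Finset.singleton_subset_iff.2 hH0⟩)
      exact h1 H this (Finset.singleton_subset_iff.2 hH1)
    · have h2 : G.image opp ∈ st T {x} := by
        refine Finset.mem_filter.2 ⟨hT.2.1 G hG.1, ?_⟩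
        rw [Finset.singleton_subset_iff, C6_mem_image]; exact hxG
      have h3 := h1 h2
      rw [C6_mem_ast, C6_image_image] at h3
      exact hG.2 h3

theorem t_CAP2 : S_CAP2 := by
  intro W _ _ d hd T hT F hF A hA hb hdis
  have ha : ∀ x ∈ vs A, x ∉ F → st T {x} ⊆ A := by
    intro x hx hxF
    rcases C6_alt hT.1 {x} (by simp; omega) A hA (by
      intro t ht hxt
      rw [← Nat.not_odd_iff_even, hb t ht]
      intro hc
      exact hxF (hc (hxt (Finset.mem_singleton_self x)))) with h | h
    · exfalso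
      obtain ⟨G, hG, hxG⟩ := Finset.mem_biUnion.1 hx
      exact h G hG (Finset.singleton_subset_iff.2 hxG)
    · exact h
  refine ⟨ha, ?_, ?_⟩
  · intro x hx hx'
    have key : ∀ z : SV W, opp z ∈ vs A → z ∈ vs A → z ∈ F := by
      intro z hz hz'
      by_contra hzF
      obtain ⟨G, hG, hzG⟩ := Finset.mem_biUnion.1 hz
      simp only [id] at hzG
      have h1 : G.image opp ∈ st T {z} := by
        refine Finset.mem_filter.2 ⟨hT.2.1 G (hA hG), ?_⟩
        rw [Finset.singleton_subset_iff, C6_mem_image]; exact hzG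
      exact hdis G hG (ha z hz' hzF h1)
    have h1 := key x hx' hx
    have h2 := key (opp x) (by rw [C6_opp_opp]; exact hx) hx'
    exact C6_opp_notMem hd hT.2 hF h1 h2
  · have hFne : F.Nonempty := by
      rw [← Finset.card_pos, hF.1]; omega
    obtain ⟨y, hy⟩ := hFne
    have hcard : (F.erase y).card + 1 = d := by
      rw [Finset.card_erase_add_one hy, hF.1]
    have h1 := (hb (F.erase y) hcard).2 (Finset.erase_subset _ _)
    have h2 : (A.filter (fun G => F.erase y ⊆ G)).Nonempty := by
      rw [← Finset.card_pos]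
      exact h1.pos
    obtain ⟨G, hG⟩ := h2
    rw [Finset.mem_filter] at hG
    have hGc := hT.1.card G (hA hG.1)
    have hne : ¬ G ⊆ F := by
      intro hs
      have : G = F := Finset.eq_of_subset_of_card_le hs (by rw [hF.1, hGc])
      exact hF.2.1 (this ▸ hA hG.1)
    obtain ⟨x, hxG, hxF⟩ := Finset.not_subset.1 hne
    exact ⟨x, Finset.mem_biUnion.2 ⟨G, hG.1, hxG⟩, hxF⟩

end

end Pool.Agent.N525.CS
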