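import Pool.Agent.N525.VR.Stm

set_option autoImplicit false

/-!
# MP_d539bc_co: the lower bound theorem for centrally symmetric simplicial spheres

Definitions. Cycles mod 2, contractions etc. are those of `Pool/Agent/N525/VR/{Defs,FogDefs}.lean`.
-/

namespace Pool.Agent.N525.CS

open Pool.Agent.N525.VR
open scoped RealInnerProductSpace

/-- signed vertices: `W` is the set of the antipodal pairs -/
abbrev SV (W : Type) : Type := W × Bool

/-- the antipode -/
def opp {W : Type} (x : SV W) : SV W := (x.1, !x.2)

/-! ### tied motions (Part A) -/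

section A
variable {W : Type} [Fintype W] [DecidableEq W] {d : ℕ}

/-- the position of a signed vertex: antipodal vertices have opposite positions -/
noncomputable def pos (q : W → E d) (x : SV W) : E d := if x.2 then q x.1 else - q x.1

/-- `m` is an infinitesimal motion with the same velocity at antipodal vertices that preserves the
lengths of the edges `R` -/
def TM (R : SV W → SV W → Prop) (q m : W → E d) : Prop :=
  ∀ x y, R x y → ⟪pos q x - pos q y, m x.1 - m y.1⟫ = 0

/-- `m` is on `S` the restriction of an infinitesimal isometry -/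
def TT (S : Finset (SV W)) (q m : W → E d) : Prop :=
  ∃ (A : E d →ₗ[ℝ] E d) (b : E d), Skew A ∧ ∀ x ∈ S, m x.1 = A (pos q x) + b

/-- tied infinitesimal rigidity at `q` -/
def TRig (R : SV W → SV W → Prop) (S : Finset (SV W)) (q : W → E d) : Prop :=
  ∀ m : W → E d, TM R q m → TT S q m

/-- all coordinates are algebraically independent -/
def Gen (q : W → E d) : Prop := AlgebraicIndependent ℚ (fun x : W × Fin d => q x.1 x.2)

/-- tied rigidity at all generic positions -/
def TGR (d : ℕ) (R : SV W → SV W → Prop) (S : Finset (SV W)) : Prop :=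
  ∀ q : W → E d, Gen q → TRig R S q

/-- `F` contains at most one antipodal pair -/
def Few (F : Finset (SV W)) : Prop := ∃ u, ∀ x ∈ F, opp x ∈ F → x = u ∨ x = opp u

/-- the contraction of `v` to `u` and of the antipode of `v` to the antipode of `u`, on vertices -/
def qv (u v x : SV W) : SV W := if x = v then u else if x = opp v then opp u else x

end A

/-! ### sets of facets (Parts B and C) -/

section V
variable {V : Type} [Fintype V] [DecidableEq V]

/-- the vertex set -/
def vs (C : Finset (Finset V)) : Finset V := C.biUnion id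

/-- the graph of the join of the complex with the facets `C` and the simplex `σ` -/
def ER (C : Finset (Finset V)) (σ : Finset V) (x y : V) : Prop :=
  ∃ F ∈ C, x ∈ F ∪ σ ∧ y ∈ F ∪ σ

/-- the simplices added to a set `L` of `e`-element sets that do not contain both `u` and `v` -/
def addL (e : ℕ) (L : Finset (Finset V)) (u v : V) : Finset (Finset V) :=
  ((Finset.univ : Finset (Finset V)).filter (fun K => K.card + 2 = e ∧ u ∉ K ∧ v ∉ K ∧
    Odd (L.filter (fun F => insert u K ⊆ F)).card)).image (fun K => insert u (insert v K))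

/-- `s` is a face -/
def face (T : Finset (Finset V)) (s : Finset V) : Prop := ∃ F ∈ T, s ⊆ F

/-- the facets containing `s` -/
def st (T : Finset (Finset V)) (s : Finset V) : Finset (Finset V) := T.filter (fun F => s ⊆ F)

/-- the link of `s` -/
def lk (T : Finset (Finset V)) (s : Finset V) : Finset (Finset V) := (st T s).image (fun F => F \ s)

/-- the edges -/
def eg (T : Finset (Finset V)) : Finset (Finset V) :=
  (Finset.univ : Finset (Finset V)).filter (fun e => e.card = 2 ∧ ∃ F ∈ T, e ⊆ F)

/-- the neighbours of `v` -/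
def nbr (T : Finset (Finset V)) (v : V) : Finset V :=
  (Finset.univ : Finset V).filter (fun x => x ≠ v ∧ ∃ F ∈ T, v ∈ F ∧ x ∈ F)

/-- the sets `w ∪ (F \ y)`, `y ∈ F` -/
def cap (w : V) (F : Finset V) : Finset (Finset V) := F.image (fun y => insert w (F.erase y))

/-- every `(d-1)`-element set containing `s` lies in an even number of members of `Z` -/
def RC (d : ℕ) (s : Finset V) (Z : Finset (Finset V)) : Prop :=
  ∀ t : Finset V, t.card + 1 = d → s ⊆ t → Even (Z.filter (fun F => t ⊆ F)).card

/-- `F` is a missing facet -/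
def MF (d : ℕ) (T : Finset (Finset V)) (F : Finset V) : Prop :=
  F.card = d ∧ F ∉ T ∧ ∀ y ∈ F, face T (F.erase y)

/-- Combinatorial properties of triangulated homology spheres mod 2: all links are minimal cycles,
and (`fill`) boundaries of missing facets are boundaries, also in the links of vertices. -/
structure Sph0 (d : ℕ) (T : Finset (Finset V)) : Prop where
  ne : T.Nonempty
  card : ∀ F ∈ T, F.card = d
  cyc : RC d ∅ T
  min : ∀ s Z : Finset _, s.card < d → Z ⊆ st T s → Z.Nonempty → RC d s Z → Z = st T s
  fill : ∀ s F : Finset V, s.card ≤ 1 → s ⊆ F → F.card = d →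
    (∀ r, r ⊆ F → s ⊆ r → r.card + 1 = d → face T r) →
    ∃ A, A ⊆ st T s ∧ ∀ r : Finset V, s ⊆ r → r.card + 1 = d →
      (Odd (A.filter (fun G => r ⊆ G)).card ↔ r ⊆ F)

end V

section S
variable {W : Type} [Fintype W] [DecidableEq W]

/-- symmetric sets of facets without antipodal vertices in a facet -/
def Sym (T : Finset (Finset (SV W))) : Prop :=
  (∀ F ∈ T, F.image opp ∈ T) ∧ ∀ F ∈ T, ∀ x ∈ F, opp x ∉ F

/-- centrally symmetric homology spheres -/
def Sph (d : ℕ) (T : Finset (Finset (SV W))) : Prop := Sph0 d T ∧ Sym T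

/-- the equality case -/
def Eq0 (d : ℕ) (T : Finset (Finset (SV W))) : Prop := (eg T).card + 2 * d = d * (vs T).card

end S

/-! ### polytopes (Part D) -/

section D
variable {d : ℕ}

/-- the hyperplane `⟪c, y⟫ = 1` supports `conv X` in a facet -/
def FF (X : Finset (E d)) (c : E d) : Prop :=
  (∀ y ∈ X, ⟪c, y⟫ ≤ 1) ∧ Submodule.span ℝ {y : E d | y ∈ X ∧ ⟪c, y⟫ = 1} = ⊤

/-- `S` is the set of the points of `X` in a hyperplane `⟪c, y⟫ = 1` with all other points of `X`
strictly below -/
def Supp (X S : Finset (E d)) : Prop :=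
  S ⊆ X ∧ ∃ c : E d, ∀ x ∈ X, (x ∈ S → ⟪c, x⟫ = 1) ∧ (x ∉ S → ⟪c, x⟫ < 1)

/-- the vertices of the cross-polytope -/
noncomputable def crossV (d : ℕ) : Finset (E d) :=
  (Finset.univ : Finset (Fin d × Bool)).image
    (fun x => if x.2 then EuclideanSpace.single x.1 (1 : ℝ) else - EuclideanSpace.single x.1 (1 : ℝ))

/-- one symmetric stacking step: `v` is beyond the facet with the functional `c0` and beneath all the
others -/
def StackStep (X : Finset (E d)) (c0 v : E d) : Prop :=
  FF X c0 ∧ 1 < ⟪c0, v⟫ ∧ ∀ c, FF X c → c ≠ c0 → ⟪c, v⟫ < 1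

/-- vertex sets of the polytopes obtained from the cross-polytope by symmetric stacking -/
inductive Stacked : (d : ℕ) → Finset (E d) → Prop
  | cross (d : ℕ) : Stacked d (crossV d)
  | stack (d : ℕ) (X : Finset (E d)) (c0 v : E d) : Stacked d X → StackStep X c0 v →
      Stacked d (X ∪ {v, -v})

/-- the points of `X` in the hyperplane `⟪c, y⟫ = 1` -/
noncomputable def ff (X : Finset (E d)) (c : E d) : Finset (E d) :=
  letI := Classical.decPred (fun y : E d => ⟪c, y⟫ = 1)
  X.filter (fun y => ⟪c, y⟫ = 1)

/-- symmetric simplicial polytopes in terms of supporting functionals -/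
structure Simp (d : ℕ) (X : Finset (E d)) : Prop where
  neg : ∀ x ∈ X, -x ∈ X
  vert : ∀ x ∈ X, Supp X {x}
  facet : ∀ S, Supp X S → ∃ c, FF X c ∧ S ⊆ ff X c
  card : ∀ c, FF X c → (ff X c).card = d
  adj : ∀ c, FF X c → ∀ x ∈ ff X c, ∃ c', FF X c' ∧ c' ≠ c ∧
    ∀ y ∈ ff X c, y ≠ x → y ∈ ff X c'

variable {W : Type} [Fintype W] [DecidableEq W]

/-- `T` is the boundary complex of the symmetric polytope with the vertex set `X` -/
def Rea (d : ℕ) (T : Finset (Finset (SV W))) (f : SV W → E d) (X : Finset (E d)) : Prop :=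
  (∀ x, f (opp x) = - f x) ∧ Set.InjOn f (vs T) ∧ X = (vs T).image f ∧
    ∀ S : Finset (SV W), S ⊆ vs T → (face T S ↔ Supp X (S.image f))

end D

end Pool.Agent.N525.CS
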