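import Pool.Agent.N525.CS.Defs

set_option autoImplicit false

/-! Statements of all the steps. -/

namespace Pool.Agent.N525.CS

open Pool.Agent.N525.VR
open scoped RealInnerProductSpace

/-! ### Part A: tied motions at generic positions -/

def S_EX : Prop := ∀ (W : Type) [Fintype W] [DecidableEq W] (d : ℕ), ∃ q : W → E d, Gen q

/-- generic vectors are linearly independent -/
def S_SPAN : Prop := ∀ (W : Type) [Fintype W] [DecidableEq W] (d : ℕ) (q : W → E d), Gen q →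
  ∀ M : Finset W, M.card = d → ∀ c : E d, (∀ x ∈ M, ⟪q x, c⟫ = 0) → c = 0

/-- at most `d + 1` vertices with at most one antipodal pair are affinely independent -/
def S_AIN : Prop := ∀ (W : Type) [Fintype W] [DecidableEq W] (d : ℕ) (q : W → E d), Gen q →
  ∀ F : Finset (SV W), F.card ≤ d + 1 → Few F → AI F (pos q)

/-- moving one vertex on a line through another one -/
def S_MV : Prop := ∀ (W : Type) [Fintype W] [DecidableEq W] (d : ℕ) (q : W → E d), Gen q →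
  ∀ (a b : W), a ≠ b → ∀ r s : ℚ, r ≠ 0 →
    Gen (Function.update q b ((r : ℝ) • q b + (s : ℝ) • q a))

/-- the rank of a polynomial matrix is the same at all generic points -/
def S_RK : Prop := ∀ (σ m n : Type) [Fintype σ] [Fintype m] [Fintype n] [DecidableEq n]
  (M : Matrix m n (MvPolynomial σ ℚ)) (x y : σ → ℝ), AlgebraicIndependent ℚ x →
  AlgebraicIndependent ℚ y →
    (M.map (fun P => MvPolynomial.aeval x P)).rank = (M.map (fun P => MvPolynomial.aeval y P)).rank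

/-- tied rigidity does not depend on the generic position -/
def S_TR : Prop := ∀ (W : Type) [Fintype W] [DecidableEq W] (d : ℕ) (R : SV W → SV W → Prop)
  (S : Finset (SV W)), (∀ x y, R x y → x ∈ S ∧ y ∈ S) → ∀ q q' : W → E d, Gen q → Gen q' →
    TRig R S q → TRig R S q'

/-- vertex splitting -/
def S_SPLIT : Prop := ∀ (W : Type) [Fintype W] [DecidableEq W] (d : ℕ)
  (R RZ : SV W → SV W → Prop) (S : Finset (SV W)) (u v : SV W) (N : Finset (SV W)),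
  (∀ x y, R x y → x ∈ S ∧ y ∈ S) → u ∈ S → v ∈ S → v.1 ≠ u.1 →
  TGR d RZ (S.image (qv u v)) →
  (∀ x y, RZ x y → ∃ x' ∈ S, ∃ y' ∈ S, qv u v x' = x ∧ qv u v y' = y ∧ R x' y') →
  R u v →
  N.card + 1 = d → (∀ y ∈ N, y ∈ S ∧ y.1 ≠ v.1 ∧ y ≠ u ∧ R v y ∧ (R u y ∨ y = opp u)) →
  Few (insert u N) →
  (opp v ∉ S ∨ (opp u ∈ S ∧ opp v ∈ S ∧ ∃ M : Finset W, M.card + 1 = d ∧ v.1 ∉ M ∧
    ∀ a ∈ M, ((a, true) ∈ S ∧ (a, false) ∈ S) ∨
      ∃ s : Bool, R (opp u) (a, s) ∧ R (opp v) (a, s))) →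
  TGR d R S

/-- complete graphs -/
def S_KD : Prop := ∀ (W : Type) [Fintype W] [DecidableEq W] (d : ℕ)
  (R : SV W → SV W → Prop) (S : Finset (SV W)), S.card = d + 1 → Few S →
  (∀ x ∈ S, ∀ y ∈ S, x.1 ≠ y.1 → R x y) → TGR d R S

/-- gluing along affinely independent `d`-sets -/
def S_GL : Prop := ∀ (W : Type) [Fintype W] [DecidableEq W] (d : ℕ) (q m : W → E d)
  (ι : Type) [Fintype ι] [DecidableEq ι] (S : ι → Finset (SV W)),
  (∀ X : Finset ι, X.Nonempty → X ≠ Finset.univ → ∃ i ∈ X, ∃ j ∉ X, ∃ F : Finset (SV W),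
    F ⊆ S i ∧ F ⊆ S j ∧ d ≤ F.card ∧ AI F (pos q)) →
  (∀ i, TT (S i) q m) → TT (Finset.univ.biUnion S) q m

/-- counting the edges of a rigid symmetric graph -/
def S_COUNT : Prop := ∀ (W : Type) [Fintype W] [DecidableEq W] (d : ℕ)
  (G : Finset (Finset (SV W))) (S : Finset (SV W)), 1 ≤ d → (∀ x ∈ S, opp x ∈ S) →
  (∀ e ∈ G, e.card = 2 ∧ e ⊆ S ∧ e.image opp ∈ G ∧ ∀ x ∈ e, opp x ∉ e) →
  2 * d ≤ S.card → TGR d (fun x y => x ≠ y ∧ {x, y} ∈ G) S → d * S.card ≤ G.card + 2 * d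

/-! ### Part B: cycles mod 2 -/

/-- lifting a minimal cycle from the contraction -/
def S_LIFT : Prop := ∀ (V : Type) [Fintype V] [DecidableEq V] (e : ℕ), 2 ≤ e →
  ∀ (L : Finset (Finset V)) (u v : V), u ≠ v → (∀ F ∈ L, F.card = e ∧ ¬ (u ∈ F ∧ v ∈ F)) →
  Set.InjOn (con u v) L → MinCycle e (L.image (con u v)) →
    MinCycle e (L ∪ addL e L u v) ∧
    ∀ K : Finset V, K.card + 2 = e → u ∉ K → v ∉ K →
      Odd (L.filter (fun F => insert u K ⊆ F)).card → Odd (L.filter (fun F => insert v K ⊆ F)).card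

/-- the decomposition of a minimal cycle for the contraction of `v` to `u` and of the antipode of `v`
to the antipode of `u` -/
def S_PIECES : Prop := ∀ (W : Type) [Fintype W] [DecidableEq W] (e : ℕ), 3 ≤ e →
  ∀ (C : Finset (Finset (SV W))), MinCycle e C → ∀ u v : SV W, v.1 ≠ u.1 →
  (∀ F ∈ C, ∀ x ∈ F, opp x ∈ F → x = u ∨ x = opp u) → (∃ F ∈ C, u ∈ F ∧ v ∈ F) →
  ∃ (ι : Type) (_ : Fintype ι) (_ : DecidableEq ι) (P : ι → Finset (Finset (SV W))),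
    (∀ i, MinCycle e (P i) ∧ vs (P i) ⊆ vs C) ∧
    (∀ i, ∀ F ∈ P i, ∀ x ∈ F, opp x ∈ F → x = u ∨ x = opp u) ∧
    (∀ i, ∀ F ∈ P i, ∀ x ∈ F, ∀ y ∈ F, x.1 ≠ y.1 → (∃ G ∈ C, x ∈ G ∧ y ∈ G) ∨
      (x = opp u ∧ y = opp v) ∨ (x = opp v ∧ y = opp u)) ∧
    (∀ F ∈ C, ∃ i, F ∈ P i) ∧
    (∀ X : Finset ι, X.Nonempty → X ≠ Finset.univ → ∃ i ∈ X, ∃ j ∉ X, ∃ F, F ∈ P i ∧ F ∈ P j) ∧
    (∀ i, (vs (P i)).card ≤ e + 1 ∨
      ((vs (P i)).card ≤ e + 2 ∧ u ∈ vs (P i) ∧ v ∈ vs (P i) ∧ opp u ∈ vs (P i) ∧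
        opp v ∈ vs (P i)) ∨
      ((∃ F ∈ P i, (u ∈ F ∧ v ∈ F) ∨ (opp u ∈ F ∧ opp v ∈ F)) ∧
        ∃ Z, MinCycle e Z ∧ vs Z = (vs (P i)).image (qv u v) ∧
          ∀ G ∈ Z, ∃ F ∈ C, F.image (qv u v) = G))

/-- the choice of the edge to be contracted -/
def S_CHOICE : Prop := ∀ (W : Type) [Fintype W] [DecidableEq W] (e : ℕ), 3 ≤ e →
  ∀ (C : Finset (Finset (SV W))), MinCycle e C →
  (∃ u, ∀ F ∈ C, ∀ x ∈ F, opp x ∈ F → x = u ∨ x = opp u) →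
  ∃ u v : SV W, v.1 ≠ u.1 ∧ (∀ F ∈ C, ∀ x ∈ F, opp x ∈ F → x = u ∨ x = opp u) ∧
    (∃ F ∈ C, u ∈ F ∧ v ∈ F) ∧
    (opp v ∉ vs C ∨ (opp u ∈ vs C ∧ opp v ∈ vs C ∧ ∃ M : Finset W, M.card + 1 = e ∧ v.1 ∉ M ∧
      ∀ a ∈ M, (a, true) ∈ vs C ∧ (a, false) ∈ vs C))

/-- common neighbours of the ends of an edge of a cycle -/
def S_NB : Prop := ∀ (W : Type) [Fintype W] [DecidableEq W] (e : ℕ), 3 ≤ e →
  ∀ (C : Finset (Finset (SV W))), IsCycle e C → ∀ u v : SV W, v.1 ≠ u.1 →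
  (∀ F ∈ C, ∀ x ∈ F, opp x ∈ F → x = u ∨ x = opp u) → (∃ F ∈ C, u ∈ F ∧ v ∈ F) →
  ∃ N : Finset (SV W), N.card + 1 = e ∧ Few (insert u N) ∧
    ∀ y ∈ N, y ≠ u ∧ y.1 ≠ v.1 ∧ ∃ F ∈ C, u ∈ F ∧ v ∈ F ∧ y ∈ F

/-- tied rigidity of joins of minimal cycles with simplices -/
def S_MAIN : Prop := ∀ (W : Type) [Fintype W] [DecidableEq W] (d e : ℕ), 3 ≤ e →
  ∀ (C : Finset (Finset (SV W))) (σ : Finset (SV W)), MinCycle e C → e + σ.card = d →
  (∀ x ∈ vs C, x ∉ σ ∧ opp x ∉ σ) → (∀ x ∈ σ, opp x ∉ σ) →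
  (∃ u, ∀ F ∈ C, ∀ x ∈ F, opp x ∈ F → x = u ∨ x = opp u) → TGR d (ER C σ) (vs C ∪ σ)

/-- the inequality for symmetric minimal cycles -/
def S_LB : Prop := ∀ (W : Type) [Fintype W] [DecidableEq W] (d : ℕ), 3 ≤ d →
  ∀ T : Finset (Finset (SV W)), MinCycle d T → Sym T → d * (vs T).card ≤ (eg T).card + 2 * d

/-! ### Part C: the equality case -/

/-- links are minimal cycles -/
def S_LK : Prop := ∀ (V : Type) [Fintype V] [DecidableEq V] (d : ℕ) (T : Finset (Finset V)),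
  Sph0 d T → ∀ s : Finset V, s.card < d → face T s → MinCycle (d - s.card) (lk T s)

/-- retriangulation of the stars of a vertex and its antipode -/
def S_2A : Prop := ∀ (W : Type) [Fintype W] [DecidableEq W] (d : ℕ), 4 ≤ d →
  ∀ T : Finset (Finset (SV W)), Sph d T → ∀ (v : SV W) (G : Finset (SV W)), v ∉ G →
  G.card + 1 = d → (∀ y ∈ G, face T (insert v (G.erase y))) → insert v G ∉ T → ¬ face T G →
    d * (vs T).card + 2 ≤ (eg T).card + 2 * d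

/-- contraction of an edge and of its antipode -/
def S_2C : Prop := ∀ (W : Type) [Fintype W] [DecidableEq W] (d : ℕ), 3 ≤ d →
  ∀ T : Finset (Finset (SV W)), Sph d T → ∀ v x : SV W, v ≠ x → (∃ F ∈ T, v ∈ F ∧ x ∈ F) →
  (¬ ∃ F ∈ T, v ∈ F ∧ opp x ∈ F) →
  (∀ τ : Finset (SV W), v ∈ τ → x ∈ τ → ¬ face T τ → ∃ y ∈ τ, ¬ face T (τ.erase y)) →
    d * (vs T).card + 2 * (nbr T v ∩ nbr T x).card + 2 ≤ (eg T).card + 4 * d

/-- edges in missing faces of dimension between `2` and `d - 2` -/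
def S_2D : Prop := ∀ (W : Type) [Fintype W] [DecidableEq W] (d : ℕ), 4 ≤ d →
  ∀ T : Finset (Finset (SV W)), Sph d T → Eq0 d T → ∀ (τ : Finset (SV W)), 3 ≤ τ.card →
  τ.card < d → ¬ face T τ → (∀ y ∈ τ, face T (τ.erase y)) → ∀ v ∈ τ, ∀ x ∈ τ, v ≠ x →
    ∃ F ∈ T, v ∈ F ∧ opp x ∈ F

/-- common neighbours in the equality case -/
def S_2B : Prop := ∀ (W : Type) [Fintype W] [DecidableEq W] (d : ℕ), 4 ≤ d →
  ∀ T : Finset (Finset (SV W)), Sph d T → Eq0 d T → ∀ v x : SV W, v ≠ x →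
  (∃ F ∈ T, v ∈ F ∧ x ∈ F) →
    d ≤ (nbr T v ∩ nbr T x).card ∨ (∃ F, MF d T F ∧ v ∈ F) ∨
      (∃ F, MF d T F ∧ v ∉ F ∧ st T {v} = cap v F)

/-- missing facets cut off parts that are disjoint from their antipodes -/
def S_CAP : Prop := ∀ (W : Type) [Fintype W] [DecidableEq W] (d : ℕ), 3 ≤ d →
  ∀ T : Finset (Finset (SV W)), Sph d T → ∀ F, MF d T F → ∃ A, A ⊆ T ∧
    (∀ r : Finset (SV W), r.card + 1 = d → (Odd (A.filter (fun G => r ⊆ G)).card ↔ r ⊆ F)) ∧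
    ∀ G ∈ A, G.image opp ∉ A

/-- properties of the parts cut off by missing facets -/
def S_CAP2 : Prop := ∀ (W : Type) [Fintype W] [DecidableEq W] (d : ℕ), 3 ≤ d →
  ∀ T : Finset (Finset (SV W)), Sph d T → ∀ F, MF d T F → ∀ A, A ⊆ T →
    (∀ r : Finset (SV W), r.card + 1 = d → (Odd (A.filter (fun G => r ⊆ G)).card ↔ r ⊆ F)) →
    (∀ G ∈ A, G.image opp ∉ A) →
    (∀ x ∈ vs A, x ∉ F → st T {x} ⊆ A) ∧ (∀ x ∈ vs A, opp x ∉ vs A) ∧ (∃ x ∈ vs A, x ∉ F)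

/-- a smaller part cut off by a second missing facet -/
def S_CAP3 : Prop := ∀ (W : Type) [Fintype W] [DecidableEq W] (d : ℕ), 3 ≤ d →
  ∀ T : Finset (Finset (SV W)), Sph d T → ∀ F, MF d T F → ∀ A, A ⊆ T →
    (∀ r : Finset (SV W), r.card + 1 = d → (Odd (A.filter (fun G => r ⊆ G)).card ↔ r ⊆ F)) →
    (∀ G ∈ A, G.image opp ∉ A) →
    ∀ w ∈ vs A, w ∉ F → ∀ F', MF d T F' → w ∈ F' → ∃ A', A' ⊆ A ∧ A'.card < A.card ∧
      (∀ r : Finset (SV W), r.card + 1 = d → (Odd (A'.filter (fun G => r ⊆ G)).card ↔ r ⊆ F')) ∧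
      ∀ G ∈ A', G.image opp ∉ A'

/-- a sphere with a missing facet is a symmetric stacking, in the equality case -/
def S_INNER : Prop := ∀ (W : Type) [Fintype W] [DecidableEq W] (d : ℕ), 4 ≤ d →
  ∀ T : Finset (Finset (SV W)), Sph d T → Eq0 d T → (∃ F, MF d T F) →
    ∃ (w : SV W) (F : Finset (SV W)), MF d T F ∧ w ∉ F ∧ st T {w} = cap w F

/-- a sphere without missing facets is the cross-polytope, in the equality case -/
def S_PRIME : Prop := ∀ (W : Type) [Fintype W] [DecidableEq W] (d : ℕ), 4 ≤ d →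
  ∀ T : Finset (Finset (SV W)), Sph d T → Eq0 d T → (¬ ∃ F, MF d T F) →
    ∃ O : Finset W, O.card = d ∧
      ∀ F : Finset (SV W), F ∈ T ↔ (F.card = d ∧ F.image Prod.fst = O)

/-- reversing a symmetric stacking -/
def S_UNST : Prop := ∀ (W : Type) [Fintype W] [DecidableEq W] (d : ℕ), 4 ≤ d →
  ∀ T : Finset (Finset (SV W)), Sph d T → ∀ (w : SV W) (F : Finset (SV W)), MF d T F → w ∉ F →
  st T {w} = cap w F →
  ∃ T0 : Finset (Finset (SV W)), Sph d T0 ∧ F ∈ T0 ∧ w ∉ vs T0 ∧ opp w ∉ vs T0 ∧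
    (vs T0).card + 2 = (vs T).card ∧ (eg T0).card + 2 * d = (eg T).card ∧
    T = (T0 \ {F, F.image opp}) ∪ cap w F ∪ cap (opp w) (F.image opp)

/-! ### Part D: polytopes -/

/-- the cross-polytope -/
def S_CROSS : Prop := ∀ (d : ℕ), 2 ≤ d → Simp d (crossV d) ∧ (crossV d).card = 2 * d ∧
  ∀ (W : Type) [Fintype W] [DecidableEq W] (O : Finset W), O.card = d →
    ∀ T : Finset (Finset (SV W)),
      (∀ F : Finset (SV W), F ∈ T ↔ (F.card = d ∧ F.image Prod.fst = O)) →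
      ∃ f : SV W → E d, Rea d T f (crossV d)

/-- faces and facets -/
def S_SUPP : Prop := ∀ (d : ℕ) (X : Finset (E d)), 1 ≤ d → Simp d X → ∀ S,
  (Supp X S ↔ ∃ c, FF X c ∧ S ⊆ ff X c)

/-- the faces after a stacking step -/
def S_STK : Prop := ∀ (d : ℕ) (X : Finset (E d)), 2 ≤ d → Simp d X → ∀ c0 v : E d,
  StackStep X c0 v → Simp d (X ∪ {v, -v}) ∧ v ∉ X ∧ -v ∉ X ∧ v ≠ -v ∧
    ∀ S : Finset (E d), Supp (X ∪ {v, -v}) S ↔
      (Supp X S ∧ S ≠ ff X c0 ∧ S ≠ (ff X c0).image (fun y => -y)) ∨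
      (∃ S', S' ⊂ ff X c0 ∧ S = insert v S') ∨
      (∃ S', S' ⊂ (ff X c0).image (fun y => -y) ∧ S = insert (-v) S')

/-- stacking is possible on every facet -/
def S_BEY : Prop := ∀ (d : ℕ) (X : Finset (E d)), 1 ≤ d → Simp d X → ∀ c0, FF X c0 →
  ∃ v, StackStep X c0 v

/-- realisation of a symmetric stacking -/
def S_REA : Prop := ∀ (W : Type) [Fintype W] [DecidableEq W] (d : ℕ), 4 ≤ d →
  ∀ (T0 T : Finset (Finset (SV W))) (w : SV W) (F : Finset (SV W)) (f : SV W → E d)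
    (X : Finset (E d)), Simp d X → Rea d T0 f X → F.card = d → F ∈ T0 → F.image opp ∈ T0 →
    (∀ G ∈ T0, G.card = d) → (∀ G ∈ T0, ∀ x ∈ G, opp x ∉ G) →
    w ∉ vs T0 → opp w ∉ vs T0 → w ∉ F →
    T = (T0 \ {F, F.image opp}) ∪ cap w F ∪ cap (opp w) (F.image opp) →
    ∃ (c0 v : E d) (f' : SV W → E d), StackStep X c0 v ∧ Rea d T f' (X ∪ {v, -v})

/-- counting vertices and edges of stacked polytopes -/
def S_CNT : Prop := ∀ (d : ℕ) (X : Finset (E d)), 3 ≤ d → Stacked d X → Simp d X ∧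
  2 * d ≤ X.card ∧ ∀ G : Finset (Finset (E d)), (∀ e, e ∈ G ↔ (e.card = 2 ∧ Supp X e)) →
    G.card + 2 * d = d * X.card

/-- the equality case is realised by stacked polytopes -/
def S_ONLY : Prop := ∀ (W : Type) [Fintype W] [DecidableEq W] (d : ℕ), 4 ≤ d →
  ∀ T : Finset (Finset (SV W)), Sph d T → Eq0 d T →
    ∃ (X : Finset (E d)) (f : SV W → E d), Stacked d X ∧ Simp d X ∧ Rea d T f X

/-! ### Part E: triangulated spheres -/

/-- charts of spheres -/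
def S_CHART : Prop := ∀ (n d : ℕ) (K : Cx n), 1 ≤ d →
  Nonempty (K.space ≃ₜ Metric.sphere (0 : E d) 1) → K.Charts (d - 1)

/-- triangulated spheres have the required combinatorial properties -/
def S_SPH : Prop := ∀ (n d : ℕ) (K : Cx n), 3 ≤ d → (∀ v, {v} ∈ K.faces) →
  Nonempty (K.space ≃ₜ Metric.sphere (0 : E d) 1) →
  Sph0 d (K.fc d) ∧ ∀ σ ∈ K.faces, ∃ F ∈ K.fc d, σ ⊆ F

/-- transport along an equivalence of the vertex sets -/
def S_TRANS : Prop := ∀ (V V' : Type) [Fintype V] [DecidableEq V] [Fintype V'] [DecidableEq V']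
  (g : V ≃ V') (d : ℕ) (T : Finset (Finset V)), Sph0 d T →
    Sph0 d (T.image (fun F => F.image g))

end Pool.Agent.N525.CS
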