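import Pool.Agent.N525.CS.Stm
import Pool.Agent.N525.VR.T2

set_option autoImplicit false

/-! Statements of the topological steps. -/

namespace Pool.Agent.N525.CS

open Pool.Agent.N525.VR Pool.Agent.Helper611

/-- triangulated spheres are acyclic below the top dimension -/
def S_GACY : Prop := ∀ (n d : ℕ) (K : Cx n), 2 ≤ d →
  Nonempty (K.space ≃ₜ Metric.sphere (0 : E d) 1) → ∀ k : ℕ, k + 1 ≤ d →
    ZBase.Acy (t2Z K) ℤ ∅ k

/-- acyclicity implies the combinatorial properties -/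
def S_ALG : Prop := ∀ (n d : ℕ) (K : Cx n), 3 ≤ d → (∀ σ ∈ K.faces, σ.card ≤ d) →
  (∀ (τ : Finset (Fin n)) (k : ℕ), k + 1 ≤ d → ZBase.Acy (t2Z K) ℤ τ k) →
  (∀ t ∈ K.faces, t.card + 1 = d → (K.faces.filter (fun F => t ⊆ F ∧ F.card = d)).card = 2) →
  Sph0 d (K.fc d) ∧ ∀ σ ∈ K.faces, ∃ F ∈ K.fc d, σ ⊆ F

end Pool.Agent.N525.CS
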